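import Pool.Agent.Lib.MP_751085_ag.ZF.U.Iface
import Pool.Agent.Lib.MP_751085_ag.ZF.E.N1b

/-! Points, cycles and the pairing. -/

namespace Pool.Agent.ZCy.F.Uw

open Pool.Agent.ZFN Module
open scoped Classical

variable {k : Type} [Field k] {X : Var k} {K : Type} [Field K] [Algebra k K] {C : Gen k X.N}
  {L L' : IntermediateField K (Cb K)} {x : Fin (X.N + 1) → Cb K} {a : BR X.F}

theorem deg_add (z z' : X.Cyc K) : Var.deg (z + z') = Var.deg z + Var.deg z' :=
  Finsupp.sum_add_index' (fun _ => zero_mul _) fun _ _ _ => add_mul _ _ _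

theorem deg_single (x : X.Pt (Cb K)) (m : ℤ) :
    Var.deg (Finsupp.single x m) = m * finrank K (Var.res x) :=
  Finsupp.sum_single_index (zero_mul _)

variable (X K) in
/-- the degree as a homomorphism -/
noncomputable def degH : X.Cyc K →+ ℤ := AddMonoidHom.mk' Var.deg deg_add

theorem degH_apply (z : X.Cyc K) : degH X K z = Var.deg z := rfl

theorem prG_add (z z' : C.var.Cyc K) (a : BR X.F) :
    X.prG (z + z') a = X.prG z a + X.prG z' a :=
  Finsupp.sum_add_index' (fun x => zero_zsmul (X.ptv a (Var.res x) x.1)) fun x m m' =>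
    add_zsmul (X.ptv a (Var.res x) x.1) m m'

theorem prG_single (x : C.var.Pt (Cb K)) (m : ℤ) (a : BR X.F) :
    X.prG (Finsupp.single x m) a = m • X.ptv a (Var.res x) x.1 :=
  Finsupp.sum_single_index (zero_zsmul (X.ptv a (Var.res x) x.1))

variable (C K) in
/-- the pairing as a homomorphism -/
noncomputable def prH (a : BR X.F) : C.var.Cyc K →+ BR K where
  toFun z := X.prG z a
  map_zero' := Finsupp.sum_zero_index
  map_add' z z' := prG_add z z' a

theorem prH_apply (z : C.var.Cyc K) : prH K C a z = X.prG z a := rfl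

variable (X) in
/-- `X` as a subvariety of itself -/
@[reducible] def slf : Gen k X.N := ⟨X.F, X.g, X.one, X.gen⟩

theorem sub_slf : X.Sub (slf X) := fun _ _ _ _ h => h

theorem prG_slf (z : X.Cyc K) : X.prG (C := slf X) z a = Var.pr z a := rfl

theorem on_map {M M' : Type} [Field M] [Field M'] [Algebra k M] [Algebra k M'] (φ : M →ₐ[k] M')
    {v : Fin (X.N + 1) → M} : X.On (φ ∘ v) ↔ X.On v := by
  refine and_congr (not_congr ⟨fun e => funext fun i => ?_, fun e => funext fun i => ?_⟩)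
    (forall₂_congr fun G _ => ?_)
  · exact (_root_.map_eq_zero φ).1 (congrFun e i)
  · rw [e]
    exact map_zero φ
  · rw [← _root_.map_eq_zero φ (a := MvPolynomial.aeval v G), MvPolynomial.comp_aeval_apply]
    rfl

theorem on_up {v : Fin (X.N + 1) → L} : X.On (fun i => (v i : Cb K)) ↔ X.On v :=
  on_map (⟨algebraMap L (Cb K), fun _ => rfl⟩ : L →ₐ[k] Cb K)

theorem pt_fin (x : X.Pt (Cb K)) : FiniteDimensional K (Var.res x) := by
  have := (Set.finite_range x.1).to_subtype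
  exact IntermediateField.finiteDimensional_adjoin fun y _ => Algebra.IsIntegral.isIntegral y

theorem pt_mem_res (x : X.Pt (Cb K)) (i : Fin (X.N + 1)) : x.1 i ∈ Var.res x :=
  IntermediateField.subset_adjoin _ _ ⟨i, rfl⟩

theorem pt_on (x : X.Pt (Cb K)) : X.On x.1 := by
  obtain ⟨i, hi⟩ := x.2.1
  exact ⟨Function.ne_iff.2 ⟨i, by rw [hi]; exact one_ne_zero⟩, x.2.2⟩

theorem ptv_up (v : Fin (X.N + 1) → L) :
    X.ptv a L (fun i => (v i : Cb K)) = corN K L (X.vl a L v) := dif_pos fun i => (v i).2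

omit [Algebra k K] in
theorem exists_up (hx : ∀ i, x i ∈ L) : ∃ v : Fin (X.N + 1) → L, x = fun i => (v i : Cb K) :=
  ⟨fun i => ⟨x i, hx i⟩, rfl⟩

theorem ptv_smul (E : EvApi X) (ha : a ∈ X.Bw) (hx : ∀ i, x i ∈ L) (h : X.On x) {c : Cb K}
    (hc : c ∈ L) (h0 : c ≠ 0) : X.ptv a L (c • x) = X.ptv a L x := by
  obtain ⟨v, rfl⟩ := exists_up hx
  rw [ptv_up, ← E.val_smul a ha L v ⟨c, hc⟩ (on_up.1 h) fun e => h0 (congrArg Subtype.val e)]
  exact ptv_up ((⟨c, hc⟩ : L) • v)

theorem ptv_tower (E : EvApi X) (ha : a ∈ X.Bw) (hx : ∀ i, x i ∈ L) (h : X.On x) (hL : L ≤ L')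
    [FiniteDimensional K L'] {r : ℕ} (hr : r * finrank K L = finrank K L') :
    X.ptv a L' x = r • X.ptv a L x := by
  obtain ⟨v, rfl⟩ := exists_up hx
  let φ := IntermediateField.inclusion hL
  have : FiniteDimensional K L := FiniteDimensional.of_injective φ.toLinearMap φ.injective
  rw [ptv_up, ← corN_rs φ hr.symm]
  exact (ptv_up (φ.restrictScalars k ∘ v)).trans
    (congrArg _ (E.val_map a ha L L' _ v (on_up.1 h)))

theorem ptv_gal (E : EvApi X) (ha : a ∈ X.Bw) (hx : ∀ i, x i ∈ L) (h : X.On x)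
    (σ : Cb K ≃ₐ[K] Cb K) : X.ptv a (L.map σ) (σ ∘ x) = X.ptv a L x := by
  obtain ⟨v, rfl⟩ := exists_up hx
  let φ := IntermediateField.intermediateFieldMap σ L
  rw [ptv_up, ← corN_equiv φ]
  exact (ptv_up ((φ.restrictScalars k).toAlgHom ∘ v)).trans
    (congrArg _ (E.val_map a ha L _ _ v (on_up.1 h)))

theorem ptv_nsmul (E : EvApi X) (ha : a ∈ X.Bw) (hx : ∀ i, x i ∈ L) (h : X.On x) (m : ℕ) :
    X.ptv (m • a) L x = m • X.ptv a L x := by
  obtain ⟨v, rfl⟩ := exists_up hx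
  rw [ptv_up, ptv_up, E.val_nsmul a ha m L v (on_up.1 h)]
  exact map_nsmul _ _ _

theorem ptc (E : EvApi X) (hC : X.Sub C) [FiniteDimensional K L] (hx : ∀ i, x i ∈ L)
    (h : C.var.On x) : ∃ y : C.var.Cyc K, Var.deg y = finrank K L ∧
      ∀ a ∈ X.Bw, X.prG y a = X.ptv a L x := by
  obtain ⟨i, hi⟩ := Function.ne_iff.1 h.1
  have hi' : x i ≠ 0 := hi
  let p : C.var.Pt (Cb K) := ⟨(x i)⁻¹ • x, ⟨i, inv_mul_cancel₀ hi'⟩, fun G hG => by
    obtain ⟨m, hm⟩ := hG.1
    rw [aeval_smul_hom hm, h.2 G hG, mul_zero]⟩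
  have h1 : Var.res p ≤ L := by
    refine IntermediateField.adjoin_le_iff.2 ?_
    rintro _ ⟨j, rfl⟩
    exact L.mul_mem (L.inv_mem (hx i)) (hx j)
  obtain ⟨r, hr⟩ := IntermediateField.finrank_dvd_of_le_right h1
  rw [mul_comm] at hr
  refine ⟨Finsupp.single p r, by rw [deg_single, hr, Nat.cast_mul], fun a ha => ?_⟩
  rw [prG_single, ← ptv_smul E ha hx (hC _ _ h) (L.inv_mem (hx i)) (inv_ne_zero hi')]
  exact (natCast_zsmul _ r).trans
    (ptv_tower E ha (pt_mem_res p) (hC _ _ (pt_on p)) h1 hr.symm).symm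

theorem push (hC : X.Sub C) (z : C.var.Cyc K) : ∃ z' : X.Cyc K, Var.deg z' = Var.deg z ∧
    ∀ a, Var.pr z' a = X.prG z a := by
  induction z using Finsupp.induction_linear with
  | zero => exact ⟨0, rfl, fun _ => rfl⟩
  | add y z hy hz =>
    obtain ⟨y', h1, h2⟩ := hy
    obtain ⟨z', h3, h4⟩ := hz
    exact ⟨y' + z', by rw [deg_add, deg_add, h1, h3], fun a => by
      rw [prG_add, ← h2, ← h4]
      exact prG_add (C := slf X) y' z' a⟩
  | single p m =>
    refine ⟨Finsupp.single ⟨p.1, p.2.1, (hC _ _ (pt_on p)).2⟩ m, ?_, fun a => ?_⟩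
    · rw [deg_single, deg_single]
      rfl
    · exact (prG_single (C := slf X) _ m a).trans (prG_single p m a).symm

theorem prG_mt {Y : Gen k X.N} {b : BR Y.F} (hC : Y.var.Sub C) (h : X.Mt Y b a)
    (z : C.var.Cyc K) : Y.var.prG (C := C) z b = X.prG z a := by
  refine Finsupp.sum_congr fun p _ => congrArg _ ?_
  obtain ⟨v, hv⟩ := exists_up (X := X) (pt_mem_res p)
  have h1 := hC _ _ (pt_on p)
  rw [hv] at h1
  exact (congrArg _ hv).trans ((ptv_up (X := Y.var) v).trans ((congrArg _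
    (h.2.2 _ v ((on_up (X := Y.var)).1 h1))).trans ((ptv_up v).symm.trans (congrArg _ hv.symm))))

theorem prG_nsmul (E : EvApi X) (hC : X.Sub C) (ha : a ∈ X.Bw) (z : C.var.Cyc K) (m : ℕ) :
    X.prG z (m • a) = m • X.prG z a := by
  induction z using Finsupp.induction_linear with
  | zero => exact (nsmul_zero m).symm
  | add y z hy hz =>
    rw [prG_add, prG_add, hy, hz]
    exact (nsmul_add (X.prG y a) _ m).symm
  | single p n =>
    rw [prG_single, prG_single, ptv_nsmul E ha (pt_mem_res p) (hC _ _ (pt_on p))]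
    exact map_nsmul (zsmulAddGroupHom (α := BR K) n) m _

theorem kills_iff (E : EvApi X) (hC : X.Sub C) (ha : a ∈ X.Bw) :
    Kills X K a (fun x => C.var.On x) ↔ ∀ z : C.var.Cyc K, Var.deg z = 0 → X.prG z a = 0 := by
  refine ⟨fun h z hz => ?_, fun h I _ m L x hx h0 => ?_⟩
  · have := h z.support (fun p => z p) (fun p => Var.res p.1) (fun p => p.1.1)
      (fun p => ⟨pt_fin p.1, pt_mem_res p.1, pt_on p.1⟩)
      ((Finset.sum_coe_sort _ fun p => z p * (finrank K (Var.res p) : ℤ)).trans hz)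
    exact (Finset.sum_coe_sort _ fun p => z p • X.ptv a (Var.res p) p.1).symm.trans this
  · choose y h1 h2 using fun j => (have := (hx j).1; ptc E hC (hx j).2.1 (hx j).2.2)
    have := h (∑ j, m j • y j) (by
      rw [← degH_apply, map_sum, ← h0]
      exact Finset.sum_congr rfl fun j _ => by rw [map_zsmul, degH_apply, h1, smul_eq_mul])
    rw [← prH_apply, map_sum] at this
    refine Eq.trans (Finset.sum_congr rfl fun j _ => ?_) this
    rw [← h2 j a ha]
    exact (map_zsmul (prH K C a) _ _).symm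

theorem kills_slf (E : EvApi X) (ha : a ∈ X.Bw) :
    Kills X K a (fun x => X.On x) ↔ ∀ z : X.Cyc K, Var.deg z = 0 → Var.pr z a = 0 :=
  kills_iff (C := slf X) E sub_slf ha

/-- base change of a closed point -/
theorem ptc_bc (E : EvApi X) (hC : X.Sub C) {M : Type} [Field M] [Algebra k M]
    [FiniteDimensional k M] {v : Fin (X.N + 1) → M} (h : C.var.On v) (K : Type) [Field K]
    [Algebra k K] : ∃ y : C.var.Cyc K, Var.deg y = finrank k M ∧
      ∀ a ∈ X.Bw, X.prG y a = rs (algebraMap k K) (corN k M (X.vl a M v)) := by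
  obtain ⟨I, _, τ, w, h1, h2, h3, h4⟩ := corN_orbits (M := M) (algebraMap k K)
  let φ : ∀ i, M →ₐ[k] emF K (τ i) := fun i => ⟨emH K (τ i), fun c => Subtype.ext (h1 i c)⟩
  choose y h5 h6 using fun i => (have := h2 i; ptc E hC (L := emF K (τ i))
    (fun j => ((φ i ∘ v) j).2) ((on_up (X := C.var)).2 ((on_map (X := C.var) (φ i)).2 h)))
  refine ⟨∑ i, w i • y i, ?_, fun a ha => ?_⟩
  · rw [← degH_apply, map_sum, ← h3, Nat.cast_sum]
    exact Finset.sum_congr rfl fun i _ => by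
      rw [map_nsmul, degH_apply, h5, nsmul_eq_mul, Nat.cast_mul]
  · rw [← prH_apply, map_sum, h4]
    refine Finset.sum_congr rfl fun i _ => (map_nsmul (prH K C a) _ _).trans (congrArg _ ?_)
    rw [prH_apply, h6 i a ha, ptv_up, E.val_map a ha M _ (φ i) v (hC _ _ h)]
    rfl

end Pool.Agent.ZCy.F.Uw
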