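import Pool.Agent.Lib.MP_751085_ag.ZF.U.Cv
import Pool.Agent.Lib.MP_751085_ag.ZC.UDiv1
import Pool.Agent.Lib.MP_796ce4_ag.ZY.FgB

/-! Divisors of degree zero are divisible modulo principal divisors. -/

namespace Pool.Agent.ZFy.U

open Polynomial Pool.Agent.ZeroCyc Pool.Agent.ZCy.U Filter Topology
open scoped Classical

variable {𝕜 : Type} [Field 𝕜] [IsAlgClosed 𝕜] {c : Cv 𝕜} {M : ℕ}

theorem div_gp {R S : Type} [Field R] [Field S] {c : Cv R} {Q : R × R} (hQ : c.Gp Q)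
    (ψ : R →+* S) : (c.map ψ).Gp (pm ψ Q) := by
  refine ⟨?_, ?_⟩
  · show ee (pm ψ Q) (mp ψ c.χ) = 0
    rw [← map_ee, hQ.1, map_zero]
  · show (c.ρ.map ψ).eval (ψ Q.1) ≠ 0
    rw [eval_map, eval₂_at_apply]
    exact (map_ne_zero ψ).2 hQ.2

theorem div_trans {R : Type} [Field R] (t : R) (r : ℕ) {u : R[X]}
    (h : u.eval₂ PowerSeries.C (PowerSeries.C t + PowerSeries.X ^ (r + 1)) = 0) : u = 0 := by
  have h1 : coeToPowerSeries.ringHom (u.comp (C t + X ^ (r + 1))) = 0 := by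
    rw [comp, hom_eval₂, ← h]
    congr 1
    · ext1 x
      simp
    · simp
  rcases comp_eq_zero_iff.1 (coe_eq_zero_iff.1 h1) with h2 | ⟨-, h2⟩
  · exact h2
  · simpa using congrArg (coeff · (r + 1)) h2

theorem exists_generic (hi : Irreducible c.χ) (hM : (M : 𝕜) ≠ 0) {Q : 𝕜 × 𝕜} (hQ : c.Gp Q) :
    ∃ (A : Type) (_ : Field A) (_ : IsAlgClosed A) (ι : 𝕜 →+* A) (τ η : A),
      (∀ u : 𝕜[X], u.eval₂ ι τ = 0 → u = 0) ∧ e2 ι τ η c.χ = 0 ∧ ∃ E ∈ (c.map ι).Dv,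
        Finsupp.single (τ, η) 1 - Finsupp.single (pm ι Q) 1 - M • E ∈ (c.map ι).PP := by
  obtain ⟨L, _, _, _, j, hj, -, hlt⟩ := exists_normed_laurent 𝕜
  have hx1 : ‖j PowerSeries.X‖ < 1 := (hlt _).1 PowerSeries.constantCoeff_X
  let : NontriviallyNormedField L := NontriviallyNormedField.ofNormNeOne
    ⟨_, (map_ne_zero_iff j hj).2 PowerSeries.X_ne_zero, hx1.ne⟩
  obtain ⟨κ, hκ⟩ : ∃ κ : 𝕜 →+* L, κ = j.comp PowerSeries.C := ⟨_, rfl⟩
  let φ := algebraMap L (AlgebraicClosure L)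
  have hM' : (M : AlgebraicClosure L) ≠ 0 := by
    rw [← map_natCast (φ.comp κ)]
    exact (_root_.map_ne_zero _).2 hM
  have e : ∀ p : Empty → L,
      (c.map (MvPolynomial.C.comp κ)).map (MvPolynomial.eval p) = c.map κ := fun p => by
    rw [Cv.map_map]
    congr 1
    ext x
    simp
  have hρ : c.ρ ≠ 0 := fun h => hQ.2 (by rw [h, eval_zero])
  have hQ' := div_gp hQ κ
  have h1 := uld_cv φ (c.map (MvPolynomial.C.comp κ)) Empty.elim (pm κ Q) (by rwa [e])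
    (by rw [e, Cv.map_map]; exact c.irreducible_map hρ hi _) hM'
  simp only [e, Cv.map_map] at h1
  have h2 := (Continuous.tendsto (f := fun z : L × L => ((Empty.elim : Empty → L), pm κ Q, z))
    (by fun_prop) (pm κ Q)).eventually h1
  have h3 : Tendsto (fun r : ℕ => κ Q.1 + j PowerSeries.X ^ (r + 1)) atTop (𝓝 (κ Q.1)) := by
    simpa using ((tendsto_pow_atTop_nhds_zero_of_norm_lt_one hx1).comp
      (tendsto_add_atTop_nat 1)).const_add (κ Q.1)
  obtain ⟨r, y, hW, hy⟩ := (h3.eventually (near_pts hQ'.et h2)).exists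
  obtain ⟨-, h4, u, a, E, hw, -, -, hE, -, h5⟩ := hW hQ'.1 hy
  refine ⟨AlgebraicClosure L, inferInstance, inferInstance, φ.comp κ, _, _, fun v hv => ?_,
    (ee_mp _ _ _).symm.trans h4.1, -E, neg_mem fun P hP => (hE P hP).1, ?_⟩
  · refine div_trans Q.1 r (hj (φ.injective ?_))
    rw [map_zero, map_zero, ← hv, hom_eval₂, hom_eval₂, hκ]
    simp [pm]
  · rw [smul_neg, sub_neg_eq_add]
    exact AddSubgroup.subset_closure ⟨u, a, hw, h5.symm⟩

/-- `exists_generic` twice, `ker_e2`, `exists_amalg`, `Cv.psh_PP`, `Cv.psh_Dv`, `descend_PP` -/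
theorem div_pair (hi : Irreducible c.χ) (hM : (M : 𝕜) ≠ 0) {Q Q' : 𝕜 × 𝕜} (hQ : c.Gp Q)
    (hQ' : c.Gp Q') : ∃ E ∈ c.Dv, Finsupp.single Q 1 - Finsupp.single Q' 1 - M • E ∈ c.PP := by
  obtain ⟨A, _, _, ι, τ, η, h1, h2, E, hE, h3⟩ := exists_generic hi hM hQ
  obtain ⟨A', _, _, ι', τ', η', h1', h2', E', hE', h3'⟩ := exists_generic hi hM hQ'
  obtain ⟨Ω, _, _, a, b, e⟩ := exists_amalg (e2 ι τ η) (e2 ι' τ' η')
    ((ker_e2 ι c.wt.monic hi h1 h2).trans (ker_e2 ι' c.wt.monic hi h1' h2').symm)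
  have e1 : a.comp ι = b.comp ι' := RingHom.ext fun x => by
    simpa [e2_C] using RingHom.congr_fun e (C (C x))
  have e2' : a τ = b τ' := by simpa [e2_C] using RingHom.congr_fun e (C X)
  have e3 : a η = b η' := by simpa [e2_X] using RingHom.congr_fun e X
  have e4 : pm a (τ, η) = pm b (τ', η') := Prod.ext e2' e3
  have k1 := Cv.psh_PP a h3
  have k2 := Cv.psh_PP b h3'
  have k3 := Cv.psh_Dv a hE
  have k4 := Cv.psh_Dv b hE'
  rw [Cv.map_map] at k1 k2 k3 k4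
  rw [← e1] at k2 k4
  have e5 : pm b (pm ι' Q') = pm (a.comp ι) Q' := by
    rw [e1]
    rfl
  have e6 : pm a (pm ι Q) = pm (a.comp ι) Q := rfl
  simp only [map_sub, map_nsmul, psh_single, e4, e5, e6] at k1 k2
  refine descend_PP c (a.comp ι) (sub_mem k4 k3) ?_
  have k5 := sub_mem k2 k1
  simp only [map_sub, psh_single, smul_sub]
  refine (congrArg (· ∈ _) ?_).mp k5
  abel

/-- a divisor of degree zero is a sum of differences of points -/
theorem div_Dv (hi : Irreducible c.χ) (hM : (M : 𝕜) ≠ 0) {D : 𝕜 × 𝕜 →₀ ℤ} (hD : D ∈ c.Dv)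
    (h0 : D.degree = 0) : ∃ E ∈ c.Dv, D - M • E ∈ c.PP := by
  rcases D.support.eq_empty_or_nonempty with h | ⟨Q₀, hQ₀⟩
  · exact ⟨0, zero_mem _, by simp [Finsupp.support_eq_empty.1 h]⟩
  have h1 : ∀ Q, ∃ E ∈ c.Dv, Q ∈ D.support →
      Finsupp.single Q 1 - Finsupp.single Q₀ 1 - M • E ∈ c.PP := fun Q => by
    by_cases h : Q ∈ D.support
    · exact (div_pair hi hM (hD Q (Finsupp.mem_support_iff.1 h))
        (hD Q₀ (Finsupp.mem_support_iff.1 hQ₀))).imp fun E hE => ⟨hE.1, fun _ => hE.2⟩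
    · exact ⟨0, zero_mem _, fun h' => absurd h' h⟩
  choose E hE hP using h1
  refine ⟨∑ Q ∈ D.support, D Q • E Q, sum_mem fun Q _ => zsmul_mem (hE Q) _, ?_⟩
  have h2 := sum_mem fun Q (h : Q ∈ D.support) => zsmul_mem (hP Q h) (D Q)
  have h3 : ∑ Q ∈ D.support, D Q • Finsupp.single Q (1 : ℤ) = D := by
    simpa [Finsupp.sum] using D.sum_single
  simp only [smul_sub, Finset.sum_sub_distrib, h3, smul_comm (D _) M] at h2
  rwa [← Finset.sum_smul, ← Finsupp.degree_apply, h0, zero_smul, sub_zero, ← Finset.smul_sum] at h2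

end Pool.Agent.ZFy.U
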