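import Pool.Agent.Lib.MP_796ce4_ag.ZY.Cl
import Pool.Agent.Lib.MP_796ce4_ag.ZY.CvB
import Pool.Agent.Lib.MP_796ce4_ag.ZY.PlaceA
import Pool.Agent.Lib.MP_751085_ag.ZC.CBase

/-! Local fields of any characteristic, point classes, rational divisors, curves, light charts. -/

namespace Pool.Agent.ZFy.U

open Polynomial Module Pool.Agent.ZeroCyc Filter Topology
open scoped Classical IntermediateField

set_option linter.unusedSectionVars false

/-- What is used of a local field `K` and a norm on its closure `Λ`. -/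
class LocF (K Λ : Type) [Field K] [NormedField Λ] [Algebra K Λ] : Prop where
  proper : ∀ L : IntermediateField K Λ, FiniteDimensional K L → ProperSpace L
  nontriv : ∃ c : K, 1 < ‖algebraMap K Λ c‖
  gal : ∀ (σ : Λ ≃ₐ[K] Λ) (x : Λ), ‖σ x‖ = ‖x‖

/-- the absolute value `ν` is ultrametric and has the properties `LocF` -/
def LocAbv (K : Type) {Λ : Type} [Field K] [Field Λ] [Algebra K Λ] (ν : AbsoluteValue Λ ℝ) : Prop :=
  letI := ν.toNormedField; IsUltrametricDist Λ ∧ LocF K Λ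

/-- `Q₂ - Q₁` is `M` times a divisor of degree zero of good points over `S`, modulo a principal
divisor with witnesses over `S` -/
def Dvs {Λ : Type} [Field Λ] (c : Cv Λ) (S : Set Λ) (M : ℕ) (Q₁ Q₂ : Λ × Λ) : Prop :=
  c.Gp Q₁ ∧ c.Gp Q₂ ∧ ∃ (u : Λ[X]) (a : Λ[X][X]) (E : Λ × Λ →₀ ℤ), c.Wit u a ∧
    (∀ i, u.coeff i ∈ S) ∧ (∀ i j, (a.coeff i).coeff j ∈ S) ∧
    (∀ Q, E Q ≠ 0 → c.Gp Q ∧ Q.1 ∈ S ∧ Q.2 ∈ S) ∧ E.degree = 0 ∧
    dv c.χ (c.G u a) - dv c.χ (C u) = Finsupp.single Q₂ 1 - Finsupp.single Q₁ 1 + M • E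

section cls

variable {K Λ : Type} [Field K] [Field Λ] [Algebra K Λ] {N : ℕ}

/-- the vector over `Λ` -/
abbrev up {L : IntermediateField K Λ} {σ : Type} (v : σ → L) : σ → Λ := fun i => v i

/-- the residue field of a place -/
noncomputable def plF {F : Type} [Field F] [Algebra K F] (P : Place K F Λ) :
    IntermediateField K Λ := IntermediateField.adjoin K (Set.range P.ev)

/-- the multiplicity of `t` in its minimal polynomial over `L` -/
noncomputable def qq (L : IntermediateField K Λ) (t : Λ) : ℕ :=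
  ((minpoly L t).map (algebraMap L Λ)).rootMultiplicity t

/-- the field generated by `L` and the point `Q` -/
noncomputable def fld (L : IntermediateField K Λ) (Q : Λ × Λ) : IntermediateField K Λ :=
  L ⊔ IntermediateField.adjoin K {Q.1, Q.2}

/-- the conjugates of `Q` over `L` -/
def orQ (L : IntermediateField K Λ) (Q : Λ × Λ) : Set (Λ × Λ) :=
  {Q' | ∃ σ : Λ ≃ₐ[K] Λ, Fix L σ ∧ Q' = pm σ Q}

/-- the closed point over `L` below `Q`, as a divisor over `Λ` -/
noncomputable def odv (L : IntermediateField K Λ) (Q : Λ × Λ) : Λ × Λ →₀ ℤ :=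
  ∑ᶠ Q' ∈ orQ L Q, Finsupp.single Q' (qq L Q.1 : ℤ)

/-- divisors that are rational over `L` -/
def RatD (L : IntermediateField K Λ) : AddSubgroup (Λ × Λ →₀ ℤ) where
  carrier := {D | (∀ σ : Λ ≃ₐ[K] Λ, Fix L σ → psh (pm σ) D = D) ∧
    ∀ Q : Λ × Λ, (qq L Q.1 : ℤ) ∣ D Q}
  zero_mem' := ⟨fun _ _ => map_zero _, fun _ => dvd_zero _⟩
  add_mem' := fun ha hb => ⟨fun σ h => by rw [map_add, ha.1 σ h, hb.1 σ h],
    fun Q => dvd_add (ha.2 Q) (hb.2 Q)⟩
  neg_mem' := fun ha => ⟨fun σ h => by rw [map_neg, ha.1 σ h], fun Q => (ha.2 Q).neg_right⟩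

/-- all coefficients lie in `L` -/
def Ovv (L : IntermediateField K Λ) (G : Λ[X][X]) : Prop := ∀ i, Over L (G.coeff i)

variable (J : Ideal (MvPolynomial (Fin (N + 1)) K))

/-- `v` is a point of the variety with coordinates in `L` -/
structure PtL (L : IntermediateField K Λ) (v : Fin (N + 1) → Λ) : Prop where
  ne : v ≠ 0
  on : OnX J v
  mem : ∀ i, v i ∈ L

/-- The zeros and poles of `f` on the curve `(F, g)`: one place for each valuation, with centre
`x P`. -/
structure PD {F : Type} [Field F] [Algebra K F] (g : Fin (N + 1) → F) (f : F)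
    (s : Finset (Place K F Λ)) (x : Place K F Λ → Fin (N + 1) → Λ) : Prop where
  crv : ∃ (L : IntermediateField K Λ) (_ : Algebra L F) (_ : IsScalarTower K L F) (t : F),
    FiniteDimensional K L ∧ Transcendental L t ∧ FiniteDimensional L⟮t⟯ F ∧
      Algebra.IsSeparable L⟮t⟯ F
  ne : g ≠ 0
  on : OnX J g
  fne : f ≠ 0
  inj : ∀ P ∈ s, ∀ P' ∈ s, P.v = P'.v → P = P'
  all : ∀ P' : Place K F Λ, P'.ord f ≠ 0 → ∃ P ∈ s, P'.v = P.v
  fin : ∀ P ∈ s, FiniteDimensional K (plF P)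
  pt : ∀ P ∈ s, PtL J (plF P) (x P)
  sp : ∀ P ∈ s, ∃ c, ∀ i, P.Val (c * g i) (x P i)

variable (Λ) in
/-- rational equivalence on orbits of points, each counted with the degree of its field -/
noncomputable def RR : AddSubgroup (Set (PY Λ N) →₀ ℤ) :=
  AddSubgroup.closure {D | ∃ (F : Type) (_ : Field F) (_ : Algebra K F) (g : Fin (N + 1) → F)
    (f : F) (s : Finset (Place K F Λ)) (x : Place K F Λ → Fin (N + 1) → Λ), PD J g f s x ∧
      D = ∑ P ∈ s, Finsupp.single (orb K (pj (x P))) (P.ord f * finrank K (plF P))}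

variable (Λ) in
/-- cycles modulo rational equivalence, and the degree -/
abbrev VV : Type := ((Set (PY Λ N) →₀ ℤ) ⧸ RR Λ J) × ℤ

/-- the class of the norm from `L` to `K` -/
noncomputable def clL (L : IntermediateField K Λ) : (PY Λ N →₀ ℤ) →+ VV Λ J :=
  (((QuotientAddGroup.mk' _).comp (nsmulAddMonoidHom (finrank K L))).comp (psh (orb K))).prod
    ((AddMonoidHom.mulLeft (finrank K L : ℤ)).comp Finsupp.degree)

/-- the class `[v]_L` -/
noncomputable def pc (L : IntermediateField K Λ) (v : Fin (N + 1) → Λ) : VV Λ J :=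
  clL J L (Finsupp.single (pj v) 1)

variable (Λ) in
/-- the classes of all points -/
def PC : Set (VV Λ J) := {w | ∃ (L : IntermediateField K Λ) (v : Fin (N + 1) → Λ),
  FiniteDimensional K L ∧ PtL J L v ∧ w = pc J L v}

variable (Λ) in
/-- the classes of all cycles -/
noncomputable def Atot : AddSubgroup (VV Λ J) := AddSubgroup.closure (PC Λ J)

variable (Λ) in
/-- effective classes -/
noncomputable def EffM : AddSubmonoid (VV Λ J) := AddSubmonoid.closure (PC Λ J)

variable (Λ) in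
/-- classes of degree zero -/
noncomputable def deg0 : AddSubgroup (VV Λ J) := (AddMonoidHom.snd _ _).ker

variable (Λ) in
/-- the classes of cycles of degree zero -/
noncomputable def Azero : AddSubgroup (VV Λ J) := Atot Λ J ⊓ deg0 Λ J

/-- the group generated by the differences of points over `L` -/
noncomputable def GD (L : IntermediateField K Λ) : AddSubgroup (VV Λ J) :=
  AddSubgroup.closure {w | ∃ v v', PtL J L v ∧ PtL J L v' ∧ w = pc J L v - pc J L v'}

variable {J}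

/-- a translate of `H` consists of effective classes -/
def Bdd (H : AddSubgroup (VV Λ J)) : Prop := ∃ c, ∀ h ∈ H, h + c ∈ EffM Λ J

/-- the part of degree zero is bounded -/
def BddZ (A : AddSubgroup (VV Λ J)) : Prop := A ≤ Atot Λ J ∧ Bdd (A ⊓ deg0 Λ J)

variable (J)

variable (Λ) in
/-- the variety is a cone -/
def IsCone : Prop := ∀ (v : Fin (N + 1) → Λ) (c : Λ), OnX J v → OnX J (c • v)

/-- the kernel of the Jacobian matrix of `J` and `f` at `v` has dimension at most two -/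
def IndJ {ι : Type} (v : Fin (N + 1) → Λ) (f : ι → MvPolynomial (Fin (N + 1)) K) : Prop :=
  ∃ w₀ : Fin (N + 1) → Λ, ∀ w, (∀ G ∈ J, ZCy.grad v G ⬝ᵥ w = 0) →
    (∀ i, ZCy.grad v (f i) ⬝ᵥ w = 0) → ∃ c c' : Λ, w = c • v + c' • w₀

variable (Λ) in
/-- a system of values at points that respects rational equivalence -/
structure PS (B : Type) [AddCommGroup B] where
  val : IntermediateField K Λ → (Fin (N + 1) → Λ) → B
  smul : ∀ (L : IntermediateField K Λ) v c, FiniteDimensional K L → PtL J L v → c ∈ L → c ≠ 0 →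
    val L (c • v) = val L v
  tower : ∀ (L L' : IntermediateField K Λ) v (r : ℕ), L ≤ L' → FiniteDimensional K L' →
    PtL J L v → r * finrank K L = finrank K L' → val L' v = r • val L v
  gal : ∀ (L : IntermediateField K Λ) v (σ : Λ ≃ₐ[K] Λ), FiniteDimensional K L → PtL J L v →
    val (L.map σ) (σ ∘ v) = val L v
  wr : ∀ (F : Type) [Field F] [Algebra K F] (g : Fin (N + 1) → F) (f : F)
    (s : Finset (Place K F Λ)) (x : Place K F Λ → Fin (N + 1) → Λ), PD J g f s x →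
      ∑ P ∈ s, P.ord f • val (plF P) (x P) = 0

variable (Λ) in
/-- a plane curve with a map to the variety -/
structure XC where
  c : Cv Λ
  q : Fin (N + 1) → Λ[X][X]
  on : ∀ F ∈ J, c.χ ∣ MvPolynomial.aeval q F
  ne : ∀ Q, c.Gp Q → (fun i => ee Q (q i)) ≠ 0

namespace XC

variable {J} (𝒳 : XC Λ J)

/-- homogeneous coordinates of the image of `Q` -/
noncomputable def pv (Q : Λ × Λ) : Fin (N + 1) → Λ := fun i => ee Q (𝒳.q i)

/-- the curve is defined over `L` -/
structure Ov (L : IntermediateField K Λ) : Prop where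
  χ : Ovv L 𝒳.c.χ
  ρ : Over L 𝒳.c.ρ
  q : ∀ i, Ovv L (𝒳.q i)

/-- the class of a divisor on the curve -/
noncomputable def cl (L : IntermediateField K Λ) : (Λ × Λ →₀ ℤ) →+ VV Λ J :=
  (clL J L).comp (psh fun Q => pj (𝒳.pv Q))

/-- classes of good points over finite extensions of `L₀` -/
noncomputable def A (L₀ : IntermediateField K Λ) : AddSubgroup (VV Λ J) :=
  AddSubgroup.closure {w | ∃ (L : IntermediateField K Λ) (Q : Λ × Λ), L₀ ≤ L ∧
    FiniteDimensional K L ∧ 𝒳.c.Gp Q ∧ Q.1 ∈ L ∧ Q.2 ∈ L ∧ w = pc J L (𝒳.pv Q)}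

end XC

end cls

/-- the values of `φ` on the classes of points over a finite extension are locally constant -/
def LC {K Λ B : Type} [Field K] [NormedField Λ] [Algebra K Λ] [AddCommGroup B] {N : ℕ}
    {J : Ideal (MvPolynomial (Fin (N + 1)) K)} (φ : VV Λ J →+ B) : Prop :=
  ∀ (L : IntermediateField K Λ) (v₀ : Fin (N + 1) → L), FiniteDimensional K L → PtL J L (up v₀) →
    ∀ᶠ v : Fin (N + 1) → L in 𝓝 v₀, OnX J (up v) → φ (pc J L (up v)) = φ (pc J L (up v₀))

section chart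

variable (k Λ : Type) {K : Type} [Field k] [Field K] [Field Λ] [Algebra k Λ] [Algebra K Λ] {N : ℕ}

/-- A light chart: the variety as the hypersurface `χ(ξ, θ) = 0`, `ξ_i = f_i / f₀`,
`θ = fθ / f₀`, with inverse `pp`. -/
structure LCh (J : Ideal (MvPolynomial (Fin (N + 1)) K)) (n : ℕ) where
  χ : MP n k
  α : MP n k
  β : MP n k
  D : MvPolynomial (Fin n) k
  pp : Fin (N + 1) → MP n k
  f₀ : MvPolynomial (Fin (N + 1)) k
  f : Fin n → MvPolynomial (Fin (N + 1)) k
  fθ : MvPolynomial (Fin (N + 1)) k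
  l : MvPolynomial (Fin (N + 1)) k
  δ : ℕ
  b : ℕ
  d : ℕ
  monic : χ.Monic
  deg : χ.natDegree = δ
  wt : ∀ i, (χ.coeff i).totalDegree ≤ b * (δ - i)
  bez : C D = α * χ + β * derivative χ
  irr : Irreducible (mq (algebraMap k Λ) χ)
  on : ∀ G ∈ J, mq (algebraMap k Λ) χ ∣
    MvPolynomial.aeval (fun i => mq (algebraMap k Λ) (pp i)) G
  hom₀ : f₀.IsHomogeneous d
  hom : ∀ i, (f i).IsHomogeneous d
  homl : l.IsHomogeneous 1
  sec : ∀ i, χ ∣ MvPolynomial.aeval pp (f i) - C (MvPolynomial.X i) * MvPolynomial.aeval pp f₀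
  ne : ∀ y h, ev2 (algebraMap k Λ) y h χ = 0 → MvPolynomial.aeval y D ≠ 0 →
    MvPolynomial.aeval (fun i => ev2 (algebraMap k Λ) y h (pp i)) f₀ ≠ 0 ∧
      MvPolynomial.aeval (fun i => ev2 (algebraMap k Λ) y h (pp i)) l ≠ 0
  inv : ∀ v : Fin (N + 1) → Λ, OnX J v → MvPolynomial.aeval v f₀ ≠ 0 →
    MvPolynomial.aeval (fun i => MvPolynomial.aeval v (f i) / MvPolynomial.aeval v f₀) D ≠ 0 →
    ev2 (algebraMap k Λ) (fun i => MvPolynomial.aeval v (f i) / MvPolynomial.aeval v f₀)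
      (MvPolynomial.aeval v fθ / MvPolynomial.aeval v f₀) χ = 0 ∧
    ∃ c : Λ, c ≠ 0 ∧ ∀ j, ev2 (algebraMap k Λ)
      (fun i => MvPolynomial.aeval v (f i) / MvPolynomial.aeval v f₀)
      (MvPolynomial.aeval v fθ / MvPolynomial.aeval v f₀) (pp j) = c * v j

namespace LCh

variable {k Λ} {J : Ideal (MvPolynomial (Fin (N + 1)) K)} {n : ℕ} (𝒞 : LCh k Λ J n)

/-- the affine coordinates, over any field above `k` -/
noncomputable def xi {E : Type} [Field E] [Algebra k E] (v : Fin (N + 1) → E) : Fin n → E :=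
  fun i => MvPolynomial.aeval v (𝒞.f i) / MvPolynomial.aeval v 𝒞.f₀

/-- the last coordinate -/
noncomputable def th {E : Type} [Field E] [Algebra k E] (v : Fin (N + 1) → E) : E :=
  MvPolynomial.aeval v 𝒞.fθ / MvPolynomial.aeval v 𝒞.f₀

/-- the open set of the chart -/
def In (v : Fin (N + 1) → Λ) : Prop :=
  MvPolynomial.aeval v 𝒞.f₀ ≠ 0 ∧ MvPolynomial.aeval (𝒞.xi v) 𝒞.D ≠ 0

/-- homogeneous coordinates of the point `(y, h)` -/
noncomputable def pv {S : Type} [CommRing S] (φ : k →+* S) (y : Fin n → S) (h : S) :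
    Fin (N + 1) → S := fun i => ev2 φ y h (𝒞.pp i)

/-- the weight bound -/
noncomputable def W : ℕ := (exists_wl_cv 𝒞.β 𝒞.b).choose + 𝒞.b * 𝒞.δ + 𝒞.D.totalDegree

end LCh

/-- the line `y + τ e` -/
noncomputable def lin {S : Type} [CommRing S] {n : ℕ} (y e : Fin n → S) : Fin n → S[X] :=
  fun i => C (y i) + C (e i) * X

theorem natDegree_lin {S : Type} [CommRing S] {n : ℕ} (y e : Fin n → S) (i : Fin n) :
    (lin y e i).natDegree ≤ 1 := by
  unfold lin
  rw [add_comm]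
  exact natDegree_linear_le

namespace LCh

variable {k Λ} {J : Ideal (MvPolynomial (Fin (N + 1)) K)} {n : ℕ} (𝒞 : LCh k Λ J n)

/-- the plane curve over the line `y + τ e` -/
noncomputable def crv {S : Type} [CommRing S] [Nontrivial S] (φ : k →+* S) (y e : Fin n → S) :
    Cv S where
  χ := cv φ (lin y e) 𝒞.χ
  α := cv φ (lin y e) 𝒞.α
  β := cv φ (lin y e) 𝒞.β
  ρ := MvPolynomial.eval₂ (C.comp φ) (lin y e) 𝒞.D
  δ := 𝒞.δ
  b := 𝒞.b * 1
  w := 𝒞.W * 1
  wt := 𝒞.deg ▸ wt_cv φ (natDegree_lin y e) 𝒞.monic (𝒞.deg.symm ▸ 𝒞.wt)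
  rho := by
    rw [← cv_derivative, ← map_mul, ← map_mul, ← map_add, ← 𝒞.bez]
    simp [cv]
  deg := (natDegree_eval₂_le φ (natDegree_lin y e) _).trans
    (Nat.mul_le_mul_right _ (Nat.le_add_left _ _))
  wβ := ((exists_wl_cv 𝒞.β 𝒞.b).choose_spec S φ (lin y e) 1 (natDegree_lin y e)).mono (by
    unfold W
    nlinarith [Nat.zero_le 𝒞.D.totalDegree])

end LCh

/-- the variety is a smooth cone and every finite set of points lies in one chart over `k` -/
structure Charts (J : Ideal (MvPolynomial (Fin (N + 1)) K)) (n : ℕ) : Prop where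
  cone : IsCone Λ J
  hom : ∃ S : Set (MvPolynomial (Fin (N + 1)) K), (∀ G ∈ S, ∃ m, G.IsHomogeneous m) ∧
    J = Ideal.span S
  ex : ∀ s : Finset (Fin (N + 1) → Λ), (∀ v ∈ s, v ≠ 0 ∧ OnX J v) →
    ∃ 𝒞 : LCh k Λ J n, ∀ v ∈ s, 𝒞.In v
  jac : ∀ v : Fin (N + 1) → Λ, v ≠ 0 → OnX J v →
    finrank Λ (Submodule.span Λ (ZCy.grad v '' (J : Set (MvPolynomial (Fin (N + 1)) K)))) + n = N

/-- a curve: charts separate finitely many points and miss only finitely many points -/
structure Crv (J : Ideal (MvPolynomial (Fin (N + 1)) K)) : Prop where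
  cone : IsCone Λ J
  ex : ∀ s : Finset (Fin (N + 1) → Λ), s.Nonempty → (∀ v ∈ s, v ≠ 0 ∧ OnX J v) →
    ∃ 𝒞 : LCh k Λ J 1, (∀ v ∈ s, 𝒞.In v) ∧
      (∀ v ∈ s, ∀ v' ∈ s, 𝒞.xi v = 𝒞.xi v' → 𝒞.th v = 𝒞.th v') ∧
      ∃ b : Finset (PY Λ N), ∀ v, v ≠ 0 → OnX J v → 𝒞.In v ∨ pj v ∈ b

end chart

end Pool.Agent.ZFy.U
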