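import Pool.Agent.Lib.MP_751085_ag.ZF.N.Iface

/-! The statements of block U in any characteristic. -/

namespace Pool.Agent.ZCy

variable {k : Type} [Field k] (X : Var k)

/-- `C` is contained in `X` -/
def Var.Sub (C : Gen k X.N) : Prop :=
  ∀ (M : Type) [Field M] [Algebra k M] (x : Fin (X.N + 1) → M), C.var.On x → X.On x

/-- the pairing of a cycle on a subvariety with a class on `X` -/
noncomputable def Var.prG {K : Type} [Field K] [Algebra k K] {C : Gen k X.N} (z : C.var.Cyc K)
    (a : F.BR X.F) : F.BR K := z.sum fun x n => n • X.ptv a (Var.res x) x.1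

end Pool.Agent.ZCy

namespace Pool.Agent.ZFy.U

open Pool.Agent.ZCy Pool.Agent.ZFN Filter

attribute [local instance] Place.field Place.alg

/-- absolute values on the closures of the completions -/
def NU : Prop := ∀ (k : Type) [Field k] (F₀ : Type) [Field F₀] [Finite F₀]
  [Algebra (RatFunc F₀) k] [FiniteDimensional (RatFunc F₀) k] (v : Place k), ∃ ν, NuOk v ν

/-- local constancy, moving of points and the implicit function theorem -/
def UAPI : Prop := ∀ (k : Type) [Field k] [Infinite k] (X : Var k) (n : ℕ), X.Nice n →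
  ∀ (σ : Type) [Fintype σ], Fintype.card σ + 1 = n → ∀ (K : Type) [Field K] [Algebra k K]
    (ν : AbsoluteValue (Cb K) ℝ), LocAbv K ν → UApi X σ ν

/-- limits of cycles of degree zero on a curve -/
def REAL : Prop := ∀ (k : Type) [Field k] [Infinite k] (X : Var k) (n : ℕ), X.Nice n → 1 ≤ n →
  ∀ C : Gen k X.N, C.var.Nice 1 → X.Sub C → ∀ (K : Type) [Field K] [Algebra k K]
    (ν : AbsoluteValue (Cb K) ℝ), LocAbv K ν → (∃ y : C.var.Cyc K, Var.deg y = 1) →
    ∀ (ι : Type) (U : Ultrafilter ι) (z : ι → C.var.Cyc K), (∀ i, Var.deg (z i) = 0) →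
      ∃ z₀ : C.var.Cyc K, Var.deg z₀ = 0 ∧
        ∀ a ∈ X.Bw, ∀ᶠ i in U, X.prG (z i) a = X.prG z₀ a

/-- a cycle moves to every subvariety that passes near finitely many points -/
def COVER : Prop := ∀ (k : Type) [Field k] [Infinite k] (X : Var k) (n : ℕ), X.Nice n → 1 ≤ n →
  ∀ (K : Type) [Field K] [Algebra k K] (ν : AbsoluteValue (Cb K) ℝ), LocAbv K ν →
    ∀ (z : X.Cyc K) (M : ℕ), (M : K) ≠ 0 → ∃ T : PFam X K, ∀ C : Gen k X.N, X.Sub C →
      (T.Hit ν fun x => C.var.On x) → ∀ r : ℕ, ∃ y : C.var.Cyc K, Var.deg y = Var.deg z ∧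
        ∀ a ∈ X.Bw, M ^ r • a = 0 → X.prG y a = Var.pr z a

end Pool.Agent.ZFy.U
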