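import Pool.Agent.Lib.MP_751085_ag.ZF.U.Defs

/-! The spectral norm on the closure of a local field. -/

namespace Pool.Agent.ZFy.U

open Polynomial Module Pool.Agent.ZeroCyc
open scoped Classical IntermediateField

set_option linter.unusedSectionVars false

variable (K Λ : Type) [NontriviallyNormedField K] [ProperSpace K] [IsUltrametricDist K]

theorem abv_locF [NormedField Λ] [IsUltrametricDist Λ] [NormedAlgebra K Λ] [Normal K Λ] :
    LocF K Λ := by
  refine ⟨fun L hL => ?_, ?_, fun σ x => ?_⟩
  · have : FiniteDimensional K L.toSubalgebra.toSubmodule := hL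
    exact FiniteDimensional.proper K L.toSubalgebra.toSubmodule
  · obtain ⟨c, hc⟩ := NontriviallyNormedField.non_trivial (α := K)
    exact ⟨c, by rwa [norm_algebraMap']⟩
  · rw [NormedAlgebra.norm_eq_spectralNorm K, NormedAlgebra.norm_eq_spectralNorm K x]
    exact (spectralNorm_eq_of_equiv σ x).symm

/-- the spectral norm as an absolute value -/
theorem exists_abv [Field Λ] [Algebra K Λ] [Normal K Λ] :
    ∃ ν : AbsoluteValue Λ ℝ, (∀ x : K, ν (algebraMap K Λ x) = ‖x‖) ∧ LocAbv K ν := by
  let ν : AbsoluteValue Λ ℝ :=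
    { toFun := spectralNorm K Λ
      map_mul' := map_mul (spectralMulAlgNorm K Λ)
      nonneg' := spectralNorm_nonneg
      eq_zero' := fun _ => map_eq_zero_iff_eq_zero (spectralMulAlgNorm K Λ)
      add_le' := map_add_le_add (spectralMulAlgNorm K Λ) }
  have h : ∀ x : K, ν (algebraMap K Λ x) = ‖x‖ := spectralNorm_extends
  refine ⟨ν, h, ?_⟩
  let := ν.toNormedField
  have hu : IsUltrametricDist Λ :=
    IsUltrametricDist.isUltrametricDist_of_forall_norm_add_le_max_norm
      (isNonarchimedean_spectralNorm (K := K) (L := Λ))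
  let : NormedAlgebra K Λ :=
    { (inferInstance : Algebra K Λ) with
      norm_smul_le := fun a x => by
        rw [Algebra.smul_def, norm_mul]
        exact (congrArg (· * ‖x‖) (h a)).le }
  exact ⟨hu, abv_locF K Λ⟩

end Pool.Agent.ZFy.U
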