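import Pool.Agent.Lib.MP_751085_ag.ZF.U.Iface
import Pool.Agent.Lib.MP_751085_ag.ZF.U.Abv
import Pool.Agent.Lib.MP_751085_ag.ZF.N.C4

/-! The absolute value on the closure of a completion. -/

namespace Pool.Agent.ZFy.U

open Pool.Agent.ZCy Pool.Agent.ZFN
open scoped Classical

attribute [local instance] Place.field Place.alg

variable {k : Type} [Field k]

theorem nu_res (v : Place k) [Finite (IsLocalRing.ResidueField v.1)] :
    Finite (IsLocalRing.ResidueField
      ((IsDiscreteValuationRing.maximalIdeal v.1).adicCompletionIntegers k)) := by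
  set w := IsDiscreteValuationRing.maximalIdeal v.1
  have hm : ∀ z : w.adicCompletionIntegers k, Valued.v (z : w.adicCompletion k) < 1 →
      IsLocalRing.residue (w.adicCompletionIntegers k) z = 0 := fun z hz => by
    rw [IsLocalRing.residue_eq_zero_iff, IsLocalRing.mem_maximalIdeal, mem_nonunits_iff,
      IsDedekindDomain.HeightOneSpectrum.adicCompletionIntegers.isUnit_iff_valued_eq_one]
    exact hz.ne
  let f : v.1 →+* IsLocalRing.ResidueField (w.adicCompletionIntegers k) :=
    (IsLocalRing.residue _).comp (algebraMap v.1 (w.adicCompletionIntegers k))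
  have hk : ∀ a ∈ IsLocalRing.maximalIdeal v.1, f a = 0 := fun a ha => hm _ (by
    change plw v (algebraMap k v.K a) < 1
    rw [plw_map, plv_lt]
    exact (v.1.valuation_lt_one_iff a).1 ha)
  refine Finite.of_surjective (α := IsLocalRing.ResidueField v.1)
    (Ideal.Quotient.lift _ f hk) fun z => ?_
  obtain ⟨x, rfl⟩ := IsLocalRing.residue_surjective z
  obtain ⟨a, ha⟩ := plw_dns v x 1
  have h1 : plw v (x - algebraMap k v.K a) < 1 := ha.trans_lt (by
    rw [← WithZero.exp_zero, WithZero.exp_lt_exp]
    norm_num)
  have h2 : a ∈ v.1 := by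
    rw [← plv_le, ← plw_map, ← sub_sub_cancel (x : v.K) (algebraMap k v.K a)]
    exact (Valuation.map_sub _ _ _).trans (max_le x.2 h1.le)
  refine ⟨Ideal.Quotient.mk _ ⟨a, h2⟩, ?_⟩
  have h := hm (x - algebraMap v.1 (w.adicCompletionIntegers k) ⟨a, h2⟩) h1
  rw [map_sub, sub_eq_zero] at h
  exact h.symm

theorem nu_of (v : Place k) [Finite (IsLocalRing.ResidueField v.1)] : ∃ ν, NuOk v ν := by
  let _ : (Valued.v : Valuation v.K _).RankOne :=
    Valuation.IsRankOneDiscrete.rankOne (Valued.v : Valuation v.K _) (e := 2) one_lt_two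
  let _ : NontriviallyNormedField v.K := Valued.toNontriviallyNormedField v.K _
  have : ProperSpace v.K := by
    rw [Valued.integer.properSpace_iff_completeSpace_and_isDiscreteValuationRing_integer_and_finite_residueField]
    exact ⟨inferInstance, inferInstanceAs (IsDiscreteValuationRing
      ((IsDiscreteValuationRing.maximalIdeal v.1).adicCompletionIntegers k)), nu_res v⟩
  have : IsUltrametricDist v.K := by
    refine IsUltrametricDist.isUltrametricDist_of_forall_norm_add_le_max_norm fun x y => ?_
    rcases le_max_iff.1 (Valuation.map_add (Valued.v (R := v.K)) x y) with h | h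
    · exact le_max_of_le_left (Valued.toNormedField.norm_le_iff.2 h)
    · exact le_max_of_le_right (Valued.toNormedField.norm_le_iff.2 h)
  obtain ⟨ν, h1, h2⟩ := exists_abv v.K (Cb v.K)
  exact ⟨ν, h2, fun x y => by rw [h1, h1]; exact Valued.toNormedField.norm_le_iff⟩

theorem nu_thm : NU := fun _ _ F₀ _ _ _ _ v => have := place_finite_res F₀ v; nu_of v

end Pool.Agent.ZFy.U
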