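import Pool.Agent.Lib.MP_751085_ag.ZF.U.Cpt

/-! Every class is a combination of nearby points modulo high powers of `M`. -/

namespace Pool.Agent.ZFy.U

open Polynomial Module Pool.Agent.ZeroCyc Filter Topology
open scoped Classical IntermediateField

set_option linter.unusedSectionVars false

variable {k K Λ : Type} [Field k] [Field K] [NormedField Λ] [IsAlgClosed Λ] [Algebra k K]
  [Algebra k Λ] [Algebra K Λ] [IsScalarTower k K Λ] [Normal K Λ] [LocF K Λ] {N n : ℕ}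
  {J : Ideal (MvPolynomial (Fin (N + 1)) K)}

/-- `exists_sum`, `Charts.cover` for each field, `GD_le_of_near`. -/
theorem Charts.cover_cls (hJ : Charts k Λ J n) {z : VV Λ J} (hz : z ∈ Atot Λ J) {M : ℕ}
    (hM : (M : Λ) ≠ 0) : ∃ (T : Type) (_ : Fintype T) (L : T → IntermediateField K Λ)
      (x : ∀ j, Fin (N + 1) → L j) (W : ∀ j, Set (Fin (N + 1) → L j)),
      (∀ j, FiniteDimensional K (L j) ∧ PtL J (L j) (up (x j)) ∧ W j ∈ 𝓝 (x j)) ∧
      ∀ x' : ∀ j, Fin (N + 1) → L j, (∀ j, x' j ∈ W j ∧ PtL J (L j) (up (x' j))) → ∀ r : ℕ,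
        ∃ c : T → ℤ, z - ∑ j, c j • pc J (L j) (up (x' j)) ∈ mulS (M ^ r) (Azero Λ J) := by
  obtain ⟨T, _, L, v, c, hv, rfl⟩ := exists_sum hz
  choose Tt W hW hcov using fun j => (have := (hv j).1; hJ.cover (L j) hM)
  refine ⟨Σ j, Tt j, inferInstance, fun a => L a.1, fun a => a.2.1, fun a => W a.1 a.2.1,
    fun a => ⟨(hv a.1).1, hW a.1 a.2.1 a.2.2⟩, fun x' hx r => ?_⟩
  let H := (Submodule.span ℤ
    (Set.range fun a : Σ j, Tt j => pc J (L a.1) (up (x' a)))).toAddSubgroup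
  have hH : ∀ j t, pc J (L j) (up (x' ⟨j, t⟩)) ∈ H := fun j t =>
    Submodule.subset_span ⟨⟨j, t⟩, rfl⟩
  obtain ⟨y, hy, g, hg, e⟩ := AddSubgroup.mem_sup.1 (show ∑ j, c j • pc J (L j) (v j) ∈
      H ⊔ mulS (M ^ r) (Azero Λ J) from sum_mem fun j _ => AddSubgroup.zsmul_mem _ (by
    have := (hv j).1
    have h1 := GD_le_of_near (J := J) (L := L j) (S := Set.range fun t : Tt j => up (x' ⟨j, t⟩))
      (by rintro _ ⟨t, rfl⟩; exact (hx ⟨j, t⟩).2) (fun u hu => by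
        obtain ⟨x, a, b⟩ := hcov j u hu
        exact ⟨_, ⟨⟨x, a⟩, rfl⟩, b _ (hx ⟨j, x, a⟩).1 (hx ⟨j, x, a⟩).2.on⟩) r
    obtain ⟨x, a, -⟩ := hcov j _ (hv j).2
    rw [← sub_add_cancel (pc J (L j) (v j)) (pc J (L j) (up (x' ⟨j, x, a⟩)))]
    refine add_mem (sup_le_sup ((AddSubgroup.closure_le _).2 ?_) (AddSubgroup.map_mono GD_le)
      (h1 (AddSubgroup.subset_closure ⟨_, _, (hv j).2, (hx ⟨j, x, a⟩).2, rfl⟩)))
      (AddSubgroup.mem_sup_left (hH j _))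
    rintro _ ⟨_, ⟨t, rfl⟩, _, ⟨t', rfl⟩, rfl⟩
    exact sub_mem (hH j t) (hH j t')) _)
  obtain ⟨c', rfl⟩ := (Submodule.mem_span_range_iff_exists_fun ℤ).1 hy
  exact ⟨c', by rwa [← e, add_sub_cancel_left]⟩

end Pool.Agent.ZFy.U
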