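import Pool.Agent.Lib.MP_751085_ag.ZF.U.LTan

/-! Forms that cut out a curve which is smooth at given points. -/

namespace Pool.Agent.ZFy.U

open Polynomial Module Pool.Agent.ZeroCyc
open scoped Classical IntermediateField DualNumber

set_option linter.unusedSectionVars false

theorem fm_scale {K S : Type} [CommRing K] [CommRing S] (ψ : K →+* S) {p : K[X]} {m : ℕ}
    (hm : p.natDegree ≤ m) (a b : S) :
    MvPolynomial.eval₂ ψ ![a * b, b] (p.homogenize m) = b ^ m * p.eval₂ ψ a := by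
  apply Polynomial.induction_with_natDegree_le
    (fun p => MvPolynomial.eval₂ ψ ![a * b, b] (p.homogenize m) = b ^ m * p.eval₂ ψ a) (N := m)
  · simp
  · intro j r _ hj
    obtain ⟨i, rfl⟩ := Nat.exists_eq_add_of_le hj
    rw [homogenize_C_mul, homogenize_X_pow hj]
    simp
    ring
  · intro f g _ _ hf hg
    rw [homogenize_add, MvPolynomial.eval₂_add, hf, hg, eval₂_add, mul_add]
  · exact hm

theorem fm_ev {σ K S : Type} [CommRing K] [CommRing S] (ψ : K →+* S) (v : σ → S)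
    (A B : MvPolynomial σ K) (g : MvPolynomial (Fin 2) K) :
    MvPolynomial.eval₂ ψ v (MvPolynomial.aeval ![A, B] g) =
      MvPolynomial.eval₂ ψ ![MvPolynomial.eval₂ ψ v A, MvPolynomial.eval₂ ψ v B] g := by
  induction g using MvPolynomial.induction_on with
  | C r => simp
  | add p q hp hq => simp only [map_add, MvPolynomial.eval₂_add, hp, hq]
  | mul_X p i hp =>
    simp only [map_mul, MvPolynomial.eval₂_mul, hp, MvPolynomial.aeval_X, MvPolynomial.eval₂_X]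
    fin_cases i <;> rfl

variable {k K Λ : Type} [Field k] [Field K] [Field Λ] [IsAlgClosed Λ] [Algebra k K]
  [Algebra k Λ] [Algebra K Λ] [IsScalarTower k K Λ] [Normal K Λ] {N n : ℕ}
  {J : Ideal (MvPolynomial (Fin (N + 1)) K)}

namespace LCh

variable (𝒞 : LCh k Λ J n) (i₀ i : Fin n) (p : K[X]) (s e : ℕ)

/-- the form `f₀ ^ (s + 1) (ξ_i - p(ξ_i₀)) l ^ e` -/
noncomputable def fm : MvPolynomial (Fin (N + 1)) K :=
  (MvPolynomial.map (algebraMap k K) (𝒞.f i * 𝒞.f₀ ^ s) -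
    MvPolynomial.aeval ![MvPolynomial.map (algebraMap k K) (𝒞.f i₀),
      MvPolynomial.map (algebraMap k K) 𝒞.f₀] (p.homogenize (s + 1))) *
    MvPolynomial.map (algebraMap k K) 𝒞.l ^ e

theorem fm_hom : (𝒞.fm i₀ i p s e).IsHomogeneous (𝒞.d * (s + 1) + e) := by
  refine MvPolynomial.IsHomogeneous.mul (MvPolynomial.IsHomogeneous.sub ?_
    ((isHomogeneous_homogenize p).aeval _ fun i => ?_)) ?_
  · rw [mul_add, mul_one, add_comm (𝒞.d * s)]
    exact ((𝒞.hom i).mul (𝒞.hom₀.pow s)).map _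
  · fin_cases i
    exacts [(𝒞.hom i₀).map _, 𝒞.hom₀.map _]
  · simpa using (𝒞.homl.map (algebraMap k K)).pow e

theorem fm_eval {S : Type} [CommRing S] (ψ : K →+* S) (hp : p.natDegree ≤ s + 1)
    (v : Fin (N + 1) → S) (y : Fin n → S)
    (hy : ∀ j, MvPolynomial.eval₂ (ψ.comp (algebraMap k K)) v (𝒞.f j) =
      y j * MvPolynomial.eval₂ (ψ.comp (algebraMap k K)) v 𝒞.f₀) :
    MvPolynomial.eval₂ ψ v (𝒞.fm i₀ i p s e) =
      MvPolynomial.eval₂ (ψ.comp (algebraMap k K)) v 𝒞.f₀ ^ (s + 1) * (y i - p.eval₂ ψ (y i₀)) *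
        MvPolynomial.eval₂ (ψ.comp (algebraMap k K)) v 𝒞.l ^ e := by
  rw [fm, MvPolynomial.eval₂_mul, MvPolynomial.eval₂_pow, MvPolynomial.eval₂_sub, fm_ev]
  simp only [MvPolynomial.eval₂_map, MvPolynomial.eval₂_mul, MvPolynomial.eval₂_pow, hy]
  rw [fm_scale ψ hp]
  ring

variable {𝒞 i₀ i p s} {v : Fin (N + 1) → Λ}

theorem In.fm_zero (h : 𝒞.In v) (hp : p.natDegree ≤ s + 1) (h0 : aeval (𝒞.xi v i₀) p = 𝒞.xi v i) :
    MvPolynomial.aeval v (𝒞.fm i₀ i p s e) = 0 := by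
  rw [MvPolynomial.aeval_def, 𝒞.fm_eval i₀ i p s e _ hp v (𝒞.xi v) fun j => by
    rw [← IsScalarTower.algebraMap_eq]
    exact (div_mul_cancel₀ _ h.1).symm, ← aeval_def, h0, sub_self, mul_zero, zero_mul]

theorem In.fm_grad (h : 𝒞.In v) (hl : MvPolynomial.aeval v 𝒞.l ≠ 0) (hp : p.natDegree ≤ s + 1)
    (h0 : aeval (𝒞.xi v i₀) p = 𝒞.xi v i) {w : Fin (N + 1) → Λ}
    (hw : ZCy.grad v (𝒞.fm i₀ i p s e) ⬝ᵥ w = 0) :
    𝒞.dxi v w i = aeval (𝒞.xi v i₀) (derivative p) * 𝒞.dxi v w i₀ := by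
  have hu : ∀ {a : Λ} (b : Λ), a ≠ 0 → IsUnit (du a b) := fun b ha =>
    TrivSqZeroExt.isUnit_iff_isUnit_fst.2 (by rw [fst_du]; exact ha.isUnit)
  have h1 := 𝒞.fm_eval i₀ i p s e (dc K Λ) hp (fun j => du (v j) (w j))
    (fun j => du (𝒞.xi v j) (𝒞.dxi v w j / MvPolynomial.aeval v 𝒞.f₀)) fun j => by
      rw [dc_comp, eval₂_du, eval₂_du, du_mul, div_mul_cancel₀ _ h.1, dxi_apply, add_sub_cancel,
        xi, div_mul_cancel₀ _ h.1]
  rw [dc_comp, eval₂_du, eval₂_du, eval₂_du, eval₂_du1, h.fm_zero e hp h0, hw, du_zero, eq_comm,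
    ((hu _ hl).pow e).mul_left_eq_zero, ((hu _ h.1).pow _).mul_right_eq_zero, sub_eq_zero, du_inj,
    ← mul_div_assoc, div_left_inj' h.1] at h1
  exact h1.2

/-- `In.indJ` with the tangent vector of the curve `ξ_i = p_i(ξ_i₀)` -/
theorem In.fm_ind (hJ : Charts k Λ J n) (h : 𝒞.In v) (hv : OnX J v) (hv0 : v ≠ 0) {ι : Type}
    (q : Option ι ≃ Fin n) {p : ι → K[X]} (hp : ∀ i, (p i).natDegree ≤ s + 1)
    (h0 : ∀ i, aeval (𝒞.xi v (q none)) (p i) = 𝒞.xi v (q (some i))) :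
    IndJ J v fun i => 𝒞.fm (q none) (q (some i)) (p i) s e := by
  refine h.indJ hJ hv hv0
    (fun j => (q.symm j).elim 1 fun i => aeval (𝒞.xi v (q none)) (derivative (p i)))
    fun w hw => ⟨𝒞.dxi v w (q none), funext fun j => ?_⟩
  obtain ⟨j, rfl⟩ := q.surjective j
  rw [Pi.smul_apply, q.symm_apply_apply, smul_eq_mul]
  rcases j with _ | i
  · exact (mul_one _).symm
  · exact (h.fm_grad e (h.l_ne hv) (hp i) (h0 i) (hw i)).trans (mul_comm _ _)

end LCh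

end Pool.Agent.ZFy.U
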