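import Pool.Agent.Lib.MP_751085_ag.ZF.U.LMove
import Pool.Agent.Lib.MP_751085_ag.ZF.U.LForm

/-! Local forms through points in general position. -/

namespace Pool.Agent.ZFy.U

open Polynomial Module Pool.Agent.ZeroCyc Filter Topology
open scoped Classical IntermediateField

set_option linter.unusedSectionVars false

variable {k K Λ : Type} [Field k] [Field K] [NormedField Λ] [IsUltrametricDist Λ]
  [IsAlgClosed Λ] [Algebra k K] [Algebra k Λ] [Algebra K Λ] [IsScalarTower k K Λ] [Normal K Λ]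
  [LocF K Λ] {N n : ℕ} {J : Ideal (MvPolynomial (Fin (N + 1)) K)}

theorem Charts.locf (hJ : Charts k Λ J n) {ι : Type} [Fintype ι] (hι : Fintype.card ι + 1 = n)
    {T : Type} [Finite T] (L : T → IntermediateField K Λ) (hL : ∀ j, FiniteDimensional K (L j))
    (x : ∀ j, Fin (N + 1) → L j) (hx : ∀ j, PtL J (L j) (up (x j)))
    (W : ∀ j, Set (Fin (N + 1) → L j)) (hW : ∀ j, W j ∈ 𝓝 (x j))
    {g : MvPolynomial (Fin (N + 1)) k} {m : ℕ} (hg : g.IsHomogeneous m) {v : Fin (N + 1) → Λ}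
    (hv0 : v ≠ 0) (hv : OnX J v) (h0 : MvPolynomial.aeval v g ≠ 0) :
    ∃ (x' : ∀ j, Fin (N + 1) → L j) (d₁ : ℕ), (∀ j, x' j ∈ W j ∧ PtL J (L j) (up (x' j)) ∧
      MvPolynomial.aeval (up (x' j)) g ≠ 0) ∧ ∀ d, d₁ ≤ d →
        ∃ H : ι → MvPolynomial (Fin (N + 1)) K, (∀ i, (H i).IsHomogeneous d) ∧ ∀ j,
          (∀ i, MvPolynomial.aeval (up (x' j)) (H i) = 0) ∧ IndJ J (up (x' j)) H := by
  obtain ⟨q⟩ : Nonempty (Option ι ≃ Fin n) :=
    ⟨Fintype.equivFinOfCardEq (by rw [Fintype.card_option, hι])⟩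
  obtain ⟨𝒞, h𝒞⟩ := hJ.ex (insert v (Set.finite_range fun j => up (x j)).toFinset) fun w hw => by
    rcases Finset.mem_insert.1 hw with rfl | hw
    · exact ⟨hv0, hv⟩
    obtain ⟨j, rfl⟩ := (Set.Finite.mem_toFinset _).1 hw
    exact ⟨(hx j).ne, (hx j).on⟩
  obtain ⟨x', h1, h2⟩ := exists_inj_choice (α := fun j => Fin (N + 1) → L j)
    (fun j z => z ∈ W j ∧ PtL J (L j) (up z) ∧ 𝒞.In (up z) ∧ MvPolynomial.aeval (up z) g ≠ 0 ∧
      K⟮𝒞.xi (up z) (q none)⟯ = L j) (fun _ z => minpoly K (𝒞.xi (up z) (q none))) fun j B => by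
    have := hL j
    obtain ⟨z, a1, a2, a3, a4, a5, a6⟩ := LCh.In.move hJ.cone (hx j)
      (h𝒞 _ (Finset.mem_insert_of_mem ((Set.Finite.mem_toFinset _).2 ⟨j, rfl⟩)))
      (h𝒞 _ (Finset.mem_insert_self _ _)) hv hg h0 (q none) B (hW j)
    exact ⟨z, ⟨a1, a2, a3, a4, a5⟩, a6⟩
  choose p hp using fun i : ι => exists_crt h2 (y := fun j => 𝒞.xi (up (x' j)) (q (some i)))
    fun j => by
      rw [(h1 j).2.2.2.2]
      exact (𝒞.xi_mem (h1 j).2.1.mem).1 _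
  obtain ⟨s, hs⟩ : ∃ s, ∀ i, (p i).natDegree ≤ s + 1 := ⟨_, fun i =>
    (Finset.le_sup (f := fun i => (p i).natDegree) (Finset.mem_univ i)).trans (Nat.le_succ _)⟩
  refine ⟨x', 𝒞.d * (s + 1), fun j => ⟨(h1 j).1, (h1 j).2.1, (h1 j).2.2.2.1⟩, fun d hd => ?_⟩
  obtain ⟨e, rfl⟩ := Nat.exists_eq_add_of_le hd
  exact ⟨_, fun i => 𝒞.fm_hom (q none) (q (some i)) (p i) _ e, fun j =>
    ⟨fun i => (h1 j).2.2.1.fm_zero e (hs i) (hp i j),
      (h1 j).2.2.1.fm_ind e hJ (h1 j).2.1.on (h1 j).2.1.ne q hs fun i => hp i j⟩⟩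

end Pool.Agent.ZFy.U
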