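import Pool.Agent.Lib.MP_751085_ag.ZF.U.LBr2
import Pool.Agent.Lib.MP_751085_ag.ZF.U.LLoc
import Pool.Agent.Lib.MP_751085_ag.ZF.N.Iface

/-! Local forms and moving points on a nice variety. -/

namespace Pool.Agent.ZFy.U

open Pool.Agent.ZeroCyc Filter Topology
open Pool.Agent.ZCy (Var Fm)
open Pool.Agent.ZFN (Cb PFam Near Ind)
open scoped Classical

set_option linter.unusedSectionVars false

variable {k : Type} [Field k] [Infinite k] {X : Var k} {K : Type} [Field K] [Algebra k K] {n : ℕ}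
  {σ : Type} [Fintype σ] {ν : AbsoluteValue (Cb K) ℝ}

theorem ind_iff {x : Fin (X.N + 1) → Cb K} (hx : X.On x) (f : σ → Fm X.N K) :
    IndJ (X.JK K) x f ↔ Ind X x f :=
  exists_congr fun _ => forall_congr' fun w =>
    imp_congr_left (tan_JK X K ((on_iff X K x).1 hx).2 w)

theorem near_mem {N : ℕ} {L : IntermediateField K (Cb K)} (x : Fin (N + 1) → L) {ε : ℝ}
    (hε : 0 < ε) : letI := ν.toNormedField; {x' | Near ν ε L (up x) (up x')} ∈ 𝓝 x := by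
  let := ν.toNormedField
  filter_upwards [Metric.ball_mem_nhds x hε] with x' h i
  exact ⟨(x' i).2, (mem_ball_iff_norm (a := x i)).1 ((dist_pi_lt_iff hε).1 h i)⟩

/-- a form that is not in the ideal does not vanish at some point -/
theorem exists_pt_ne {g : Fm X.N k} {m : ℕ} (hg : g.IsHomogeneous m) (h : g ∉ X.I) :
    ∃ v : Fin (X.N + 1) → Cb K, X.On v ∧ MvPolynomial.aeval v g ≠ 0 := by
  have h0 : MvPolynomial.aeval X.g g ≠ 0 := fun e => h ⟨⟨m, hg⟩, e⟩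
  obtain ⟨z, hz⟩ := ZCy.exists_spec (K := k) (Cb K) fun i : Option (Fin (X.N + 1)) =>
    i.elim (MvPolynomial.aeval X.g g)⁻¹ X.g
  obtain ⟨i, hi⟩ := X.one
  refine ⟨z ∘ some, ⟨fun e => ?_, fun G hG => ?_⟩, fun e => ?_⟩
  · have := hz (MvPolynomial.X (some i) - 1) (by simp [hi])
    rw [map_sub, MvPolynomial.aeval_X, map_one, show z (some i) = 0 from congrFun e i] at this
    simp at this
  · rw [← MvPolynomial.aeval_rename]
    exact hz _ (by rw [MvPolynomial.aeval_rename]; exact hG.2)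
  · have := hz (MvPolynomial.rename some g * MvPolynomial.X none - 1) (by
      rw [map_sub, map_mul, MvPolynomial.aeval_rename, MvPolynomial.aeval_X, map_one]
      exact sub_eq_zero.2 (mul_inv_cancel₀ h0))
    rw [map_sub, map_mul, MvPolynomial.aeval_rename, e, map_one] at this
    simp at this

theorem uapi_locf (hX : X.Nice n) (hσ : Fintype.card σ + 1 = n) (hν : LocAbv K ν) (T : PFam X K)
    (g : Fm X.N k) (hg : ∃ m, g.IsHomogeneous m) (h : g ∉ X.I) :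
    ∃ (x' : T.I → Fin (X.N + 1) → Cb K) (d₁ : ℕ), (∀ j, Near ν T.ε (T.L j) (T.x j) (x' j) ∧
      X.On (x' j) ∧ MvPolynomial.aeval (x' j) g ≠ 0) ∧ ∀ d, d₁ ≤ d → ∃ H : σ → Fm X.N K,
        (∀ i, (H i).IsHomogeneous d) ∧
          ∀ j, (∀ i, MvPolynomial.aeval (x' j) (H i) = 0) ∧ Ind X (x' j) H := by
  let := ν.toNormedField
  obtain ⟨_, _⟩ := hν
  obtain ⟨m, hg⟩ := hg
  obtain ⟨v, h1, h2⟩ := exists_pt_ne (K := K) hg h
  obtain ⟨x', d₁, h3, h4⟩ := (charts_of hX (by omega) K).locf hσ T.L T.fd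
    (fun j i => ⟨T.x j i, T.mem j i⟩) (fun j => (ptL_iff X K _ _).2 ⟨T.on j, T.mem j⟩) _
    (fun j => near_mem (ν := ν) _ T.pos) hg h1.1 ((on_iff X K v).1 h1).2 h2
  have h5 := fun j => ((ptL_iff X K _ _).1 (h3 j).2.1).1
  refine ⟨fun j => up (x' j), d₁, fun j => ⟨(h3 j).1, h5 j, (h3 j).2.2⟩, fun d hd => ?_⟩
  obtain ⟨H, h6, h7⟩ := h4 d hd
  exact ⟨H, h6, fun j => ⟨(h7 j).1, (ind_iff (h5 j) H).1 (h7 j).2⟩⟩

theorem uapi_ift (hX : X.Nice n) (hσ : Fintype.card σ + 1 = n) (hν : LocAbv K ν)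
    (L : IntermediateField K (Cb K)) (x : Fin (X.N + 1) → Cb K) (d : ℕ) (f : σ → Fm X.N K)
    (hL : FiniteDimensional K L) (hm : ∀ i, x i ∈ L) (hx : X.On x)
    (hf : ∀ i, (f i).IsHomogeneous d) (h0 : ∀ i, MvPolynomial.aeval x (f i) = 0) (hi : Ind X x f)
    (ε : ℝ) (hε : ε > 0) : ∃ ε' > 0, ∀ f' : σ → Fm X.N K, (∀ i, (f' i).IsHomogeneous d) →
      (∀ i m, ν (algebraMap K (Cb K) ((f' i).coeff m - (f i).coeff m)) < ε') →
        ∃ x', Near ν ε L x x' ∧ X.On x' ∧ ∀ i, MvPolynomial.aeval x' (f' i) = 0 := by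
  let := ν.toNormedField
  obtain ⟨_, _⟩ := hν
  obtain ⟨r, hr, H⟩ := (charts_of hX (by omega) K).iftp hσ (x := fun i => (⟨x i, hm i⟩ : L))
    ((ptL_iff X K _ _).2 ⟨hx, hm⟩) hf h0 ((ind_iff hx f).2 hi) (near_mem (ν := ν) _ hε)
  refine ⟨r, hr, fun f' h1 h2 => ?_⟩
  obtain ⟨x', h3, h4, h5⟩ := H f' h1 h2
  exact ⟨up x', h3, ((ptL_iff X K _ _).1 h4).1, h5⟩

end Pool.Agent.ZFy.U
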