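import Pool.Agent.Lib.MP_751085_ag.ZF.U.Cpt

/-! Effective classes as sums of a bounded number of normalised points. -/

namespace Pool.Agent.ZFy.U

open Polynomial Module Pool.Agent.ZeroCyc Filter Topology
open scoped Classical IntermediateField

set_option linter.unusedSectionVars false

variable {k K Λ : Type} [Field k] [Field K] [NormedField Λ] [IsAlgClosed Λ] [Algebra k K]
  [Algebra k Λ] [Algebra K Λ] [IsScalarTower k K Λ] [Normal K Λ] [LocF K Λ] {N n : ℕ}
  {J : Ideal (MvPolynomial (Fin (N + 1)) K)}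

/-- Induction on the number of points; all degrees are positive. -/
theorem eff_list (hc : IsCone Λ J) {w : VV Λ J} (hw : w ∈ EffM Λ J) {e γ : ℕ} (he : w.2 = e)
    (hγ : e ≤ γ) {L₀ : IntermediateField K Λ} [FiniteDimensional K L₀] {x : Fin (N + 1) → Λ}
    (hx : PtL J L₀ x) (h₀ : finrank K L₀ ≤ γ) :
    ∃ (c : Fin e → ℕ) (L : Fin e → IntermediateField K Λ) (v : Fin e → Fin (N + 1) → Λ),
      (∀ t, FiniteDimensional K (L t) ∧ finrank K (L t) ≤ γ ∧ PtL J (L t) (v t) ∧ ‖v t‖ = 1) ∧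
        w = ∑ t, c t • pc J (L t) (v t) := by
  suffices 0 ≤ w.2 ∧ ∀ e : ℕ, w.2 ≤ e → w.2 ≤ γ → ∃ (c : Fin e → ℕ) (L : Fin e → _)
      (v : Fin e → Fin (N + 1) → Λ), (∀ t, FiniteDimensional K (L t : IntermediateField K Λ) ∧
        finrank K (L t) ≤ γ ∧ PtL J (L t) (v t) ∧ ‖v t‖ = 1) ∧ w = ∑ t, c t • pc J (L t) (v t) from
    this.2 e he.le (he.trans_le (Int.ofNat_le.2 hγ))
  clear he
  induction hw using AddSubmonoid.closure_induction_left with
  | zero =>
    obtain ⟨u, hu, -⟩ := exists_sph hc hx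
    exact ⟨le_rfl, fun e _ _ => ⟨0, fun _ => L₀, fun _ => up u,
      fun _ => ⟨inferInstance, h₀, ptL_of_sph hu, hu.1⟩, by simp⟩⟩
  | add_left a ha y _ ih =>
    obtain ⟨L, v, h1, h2, rfl⟩ := ha
    obtain ⟨u, hu, e1⟩ := exists_sph hc h2
    have := finrank_pos (R := K) (M := L)
    simp only [Prod.snd_add, pc_snd]
    refine ⟨by omega, fun e h3 h4 => ?_⟩
    obtain ⟨e, rfl⟩ : ∃ e', e = e' + 1 := ⟨e - 1, by omega⟩
    obtain ⟨c, L', v', h5, rfl⟩ := ih.2 e (by omega) (by omega)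
    refine ⟨Fin.cons 1 c, Fin.cons L L', Fin.cons (up u) v', fun t => ?_, ?_⟩
    · exact Fin.cases ⟨h1, show finrank K L ≤ γ by omega, ptL_of_sph hu, hu.1⟩ h5 t
    · rw [Fin.sum_univ_succ, ← e1]
      exact congrArg (· + _) (one_nsmul _).symm

end Pool.Agent.ZFy.U
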