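import Pool.Agent.Lib.MP_751085_ag.ZF.U.Xa

/-! Bounded groups of classes: formal properties. -/

namespace Pool.Agent.ZFy.U

open Polynomial Module Pool.Agent.ZeroCyc
open scoped Classical IntermediateField

set_option linter.unusedSectionVars false

variable {K Λ : Type} [Field K] [Field Λ] [IsAlgClosed Λ] [Algebra K Λ] [Normal K Λ]
  {N : ℕ} {J : Ideal (MvPolynomial (Fin (N + 1)) K)} {H H' A A' : AddSubgroup (VV Λ J)}

theorem exists_add_eff {w : VV Λ J} (h : w ∈ Atot Λ J) :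
    ∃ c ∈ EffM Λ J, w + c ∈ EffM Λ J := by
  rw [atot_eq] at h
  induction h using AddSubgroup.closure_induction with
  | mem w hw =>
    exact ⟨0, zero_mem _, by rw [add_zero]; exact AddSubmonoid.subset_closure hw⟩
  | zero => exact ⟨0, zero_mem _, by rw [add_zero]; exact zero_mem _⟩
  | add a b _ _ ha hb =>
    obtain ⟨c, hc, h1⟩ := ha
    obtain ⟨d, hd, h2⟩ := hb
    exact ⟨c + d, add_mem hc hd, by rw [add_add_add_comm]; exact add_mem h1 h2⟩
  | neg a _ ha =>
    obtain ⟨c, hc, h1⟩ := ha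
    exact ⟨a + c, h1, by rwa [neg_add_cancel_left]⟩

theorem bdd_bot : Bdd (⊥ : AddSubgroup (VV Λ J)) := by
  refine ⟨0, fun h hh => ?_⟩
  rw [AddSubgroup.mem_bot.1 hh, add_zero]
  exact zero_mem _

theorem Bdd.mono (h : Bdd H) (h' : H' ≤ H) : Bdd H' := by
  obtain ⟨c, hc⟩ := h
  exact ⟨c, fun x hx => hc x (h' hx)⟩

theorem Bdd.sup (h : Bdd H) (h' : Bdd H') : Bdd (H ⊔ H') := by
  obtain ⟨c, hc⟩ := h
  obtain ⟨d, hd⟩ := h'
  refine ⟨c + d, fun x hx => ?_⟩
  obtain ⟨a, ha, b, hb, rfl⟩ := AddSubgroup.mem_sup.1 hx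
  rw [add_add_add_comm]
  exact add_mem (hc a ha) (hd b hb)

theorem Bdd.le_atot (h : Bdd H) : H ≤ Atot Λ J := by
  obtain ⟨c, hc⟩ := h
  intro x hx
  have h1 := sub_mem (eff_le_atot (hc x hx)) (eff_le_atot (hc 0 (zero_mem _)))
  rwa [zero_add, add_sub_cancel_right] at h1

/-- `n g = q (m g) + r g`, `0 ≤ r < m`; add the constants of `exists_add_eff` for all `r g` -/
theorem Bdd.of_nsmul (h : Bdd H) {g : VV Λ J} (hg : g ∈ Atot Λ J) {m : ℕ} (hm : 0 < m)
    (hmg : m • g ∈ H) : Bdd (AddSubgroup.zmultiples g) := by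
  obtain ⟨c, hc⟩ := h
  choose d hd hd' using fun r : ℕ => exists_add_eff (nsmul_mem hg r)
  refine ⟨c + ∑ r ∈ Finset.range m, d r, fun x hx => ?_⟩
  obtain ⟨n, rfl⟩ := AddSubgroup.mem_zmultiples_iff.1 hx
  have hm' : (0 : ℤ) < m := by exact_mod_cast hm
  have h0 : 0 ≤ n % m := Int.emod_nonneg _ hm'.ne'
  have h1 : (n % m).toNat ∈ Finset.range m := by
    have := Int.emod_lt_of_pos n hm'
    rw [Finset.mem_range]
    omega
  have e : n • g = (n / m) • (m • g) + (n % m).toNat • g := by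
    rw [← natCast_zsmul, ← natCast_zsmul, Int.toNat_of_nonneg h0, ← mul_zsmul, ← add_zsmul,
      mul_comm, Int.mul_ediv_add_emod]
  rw [e, ← Finset.add_sum_erase _ _ h1, add_add_add_comm, ← add_assoc ((n % m).toNat • g)]
  exact add_mem (hc _ (zsmul_mem hmg _)) (add_mem (hd' _) (sum_mem fun r _ => hd r))

theorem bdd_closure (s : Finset (VV Λ J)) (h : ∀ g ∈ s, Bdd (AddSubgroup.zmultiples g)) :
    Bdd (AddSubgroup.closure (s : Set (VV Λ J))) := by
  induction s using Finset.induction_on with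
  | empty =>
    rw [Finset.coe_empty, AddSubgroup.closure_empty]
    exact bdd_bot
  | insert a s _ ih =>
    rw [Finset.coe_insert, Set.insert_eq, AddSubgroup.closure_union,
      ← AddSubgroup.zmultiples_eq_closure]
    exact (h a (Finset.mem_insert_self _ _)).sup (ih fun g hg => h g (Finset.mem_insert_of_mem hg))

end Pool.Agent.ZFy.U
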