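import Pool.Agent.Lib.MP_751085_ag.ZF.U.Ins
import Pool.Agent.Lib.MP_796ce4_ag.ZY.CvH

/-! Closed points of a plane curve, decomposition of rational divisors. -/

namespace Pool.Agent.ZFy.U

open Polynomial Module Pool.Agent.ZeroCyc
open scoped Classical IntermediateField

set_option linter.unusedSectionVars false

variable {K Λ : Type} [Field K] [Field Λ] [IsAlgClosed Λ] [Algebra K Λ] [Normal K Λ]
  {L L' : IntermediateField K Λ} {σ : Λ ≃ₐ[K] Λ} {Q Q' : Λ × Λ} {D : Λ × Λ →₀ ℤ}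

theorem le_fld (L : IntermediateField K Λ) (Q : Λ × Λ) : L ≤ fld L Q := le_sup_left

theorem fst_mem_fld (L : IntermediateField K Λ) (Q : Λ × Λ) : Q.1 ∈ fld L Q :=
  (le_sup_right : _ ≤ fld L Q) (IntermediateField.subset_adjoin K _ (Set.mem_insert _ _))

theorem snd_mem_fld (L : IntermediateField K Λ) (Q : Λ × Λ) : Q.2 ∈ fld L Q :=
  (le_sup_right : _ ≤ fld L Q)
    (IntermediateField.subset_adjoin K _ (Set.mem_insert_of_mem _ (Set.mem_singleton _)))

theorem fld_le (h : L ≤ L') (h₁ : Q.1 ∈ L') (h₂ : Q.2 ∈ L') : fld L Q ≤ L' := by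
  refine sup_le h (IntermediateField.adjoin_le_iff.2 ?_)
  rintro x (rfl | rfl)
  · exact h₁
  · exact h₂

theorem fld_fin (L : IntermediateField K Λ) [FiniteDimensional K L] (Q : Λ × Λ) :
    FiniteDimensional K (fld L Q) := by
  have : FiniteDimensional K (IntermediateField.adjoin K ({Q.1, Q.2} : Set Λ)) :=
    IntermediateField.finiteDimensional_adjoin fun x _ =>
      (Algebra.IsAlgebraic.isAlgebraic (R := K) x).isIntegral
  exact IntermediateField.finiteDimensional_sup _ _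

theorem pm_inj (σ : Λ ≃ₐ[K] Λ) : Function.Injective (pm (σ : Λ → Λ)) :=
  σ.injective.prodMap σ.injective

theorem self_mem_orQ (L : IntermediateField K Λ) (Q : Λ × Λ) : Q ∈ orQ L Q := ⟨1, Fix.one, rfl⟩

theorem orQ_eq (h : Q' ∈ orQ L Q) : orQ L Q' = orQ L Q := by
  obtain ⟨σ, hσ, rfl⟩ := h
  ext R
  constructor
  · rintro ⟨τ, hτ, rfl⟩
    exact ⟨τ * σ, hτ.mul hσ, rfl⟩
  · rintro ⟨τ, hτ, rfl⟩
    refine ⟨τ * σ⁻¹, hτ.mul hσ.inv, Prod.ext ?_ ?_⟩
    · exact congrArg τ (σ.symm_apply_apply Q.1).symm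
    · exact congrArg τ (σ.symm_apply_apply Q.2).symm

theorem orQ_finite (L : IntermediateField K Λ) (Q : Λ × Λ) : (orQ L Q).Finite := by
  refine ((conj_finite (K := K) Q.1).prod (conj_finite (K := K) Q.2)).subset ?_
  rintro R ⟨σ, -, rfl⟩
  exact ⟨⟨σ, rfl⟩, ⟨σ, rfl⟩⟩

theorem odv_eq (L : IntermediateField K Λ) (Q : Λ × Λ) :
    odv L Q = ∑ Q' ∈ (orQ_finite L Q).toFinset, Finsupp.single Q' (qq L Q.1 : ℤ) :=
  finsum_mem_eq_finite_toFinset_sum _ (orQ_finite L Q)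

theorem odv_pm_mem (hσ : Fix L σ) : pm σ Q' ∈ orQ L Q ↔ Q' ∈ orQ L Q := by
  have e : orQ L (pm σ Q') = orQ L Q' := orQ_eq ⟨σ, hσ, rfl⟩
  constructor
  · intro h
    rw [← orQ_eq h, e]
    exact self_mem_orQ L Q'
  · intro h
    rw [← orQ_eq h, ← e]
    exact self_mem_orQ L _

theorem odv_qq (h : Q' ∈ orQ L Q) : qq L Q'.1 = qq L Q.1 := by
  obtain ⟨σ, hσ, rfl⟩ := h
  exact qq_gal hσ Q.1

theorem odv_ratD (h : ∀ σ : Λ ≃ₐ[K] Λ, Fix L σ → ∀ Q, D (pm σ Q) = D Q)
    (h' : ∀ Q : Λ × Λ, (qq L Q.1 : ℤ) ∣ D Q) : D ∈ RatD L := by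
  refine ⟨fun σ hσ => Finsupp.ext fun R => ?_, h'⟩
  have e : R = pm σ (pm (σ⁻¹ : Λ ≃ₐ[K] Λ) R) :=
    Prod.ext (σ.apply_symm_apply R.1).symm (σ.apply_symm_apply R.2).symm
  rw [e, psh_apply_inj (pm_inj σ), h σ hσ]

theorem odv_apply (L : IntermediateField K Λ) (Q Q' : Λ × Λ) :
    odv L Q Q' = if Q' ∈ orQ L Q then (qq L Q.1 : ℤ) else 0 := by
  rw [odv_eq, Finsupp.finsetSum_apply]
  simp only [Finsupp.single_apply, Finset.sum_ite_eq', Set.Finite.mem_toFinset]

theorem odv_nonneg (L : IntermediateField K Λ) (Q : Λ × Λ) : 0 ≤ odv L Q := by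
  intro R
  rw [odv_apply]
  split_ifs
  · exact Int.natCast_nonneg _
  · exact le_rfl

theorem odv_ne_zero : odv L Q Q' ≠ 0 ↔ Q' ∈ orQ L Q := by
  rw [odv_apply]
  split_ifs with h
  · exact iff_of_true (Int.natCast_ne_zero.2 (qq_pos L Q.1).ne') h
  · exact iff_of_false (fun e => e rfl) h

theorem odv_mem (L : IntermediateField K Λ) (Q : Λ × Λ) : odv L Q ∈ RatD L := by
  refine odv_ratD (fun σ hσ R => ?_) fun R => ?_
  · rw [odv_apply, odv_apply]
    exact if_congr (odv_pm_mem hσ) rfl rfl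
  · rw [odv_apply]
    split_ifs with h
    · rw [odv_qq h]
    · exact dvd_zero _

/-- a map that is constant on the orbit -/
theorem psh_odv {B : Type} {f : Λ × Λ → B} (h : ∀ Q' ∈ orQ L Q, f Q' = f Q) :
    psh f (odv L Q) = Finsupp.single (f Q) (((orQ L Q).ncard * qq L Q.1 : ℕ) : ℤ) := by
  rw [odv_eq, map_sum, Finset.sum_congr rfl fun R hR =>
    (psh_single f R _).trans (congrArg (fun b => Finsupp.single b (qq L Q.1 : ℤ))
      (h R ((Set.Finite.mem_toFinset _).1 hR))), Finset.sum_const, Finsupp.smul_single,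
    Set.ncard_eq_toFinset_card _ (orQ_finite L Q), nsmul_eq_mul, Nat.cast_mul]

theorem RatD.apply (h : D ∈ RatD L) (hQ : Q' ∈ orQ L Q) : D Q' = D Q := by
  obtain ⟨σ, hσ, rfl⟩ := hQ
  conv_lhs => rw [← h.1 σ hσ]
  exact psh_apply_inj (pm_inj σ) D Q

theorem mem_ratD (h : ∀ σ : Λ ≃ₐ[K] Λ, Fix L σ → ∀ Q, D (pm σ Q) = D Q)
    (h' : ∀ Q : Λ × Λ, (qq L Q.1 : ℤ) ∣ D Q) : D ∈ RatD L :=
  odv_ratD h h'

theorem RatD.mono (h : L ≤ L') : RatD L ≤ RatD L' := fun _ hD =>
  ⟨fun σ hσ => hD.1 σ (hσ.mono h),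
    fun Q => (Int.natCast_dvd_natCast.2 (qq_mono h Q.1)).trans (hD.2 Q)⟩

theorem single_mem_ratD (h₁ : Q.1 ∈ L) (h₂ : Q.2 ∈ L) (n : ℤ) :
    Finsupp.single Q n ∈ RatD L := by
  refine ⟨fun σ hσ => ?_, fun R => ?_⟩
  · rw [psh_single]
    exact congrArg (fun b => Finsupp.single b n) (Prod.ext (hσ _ h₁) (hσ _ h₂))
  · rw [Finsupp.single_apply]
    split_ifs with e
    · rw [← e, qq_of_mem h₁, Nat.cast_one]
      exact one_dvd _
    · exact dvd_zero _

/-- Induction on the cardinality of the support: `D - n • odv L Q` vanishes on the orbit of `Q`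
and agrees with `D` elsewhere. -/
theorem rat_dec (h : D ∈ RatD L) : ∃ (T : Finset (Λ × Λ)) (n : Λ × Λ → ℤ),
    (∀ Q ∈ T, D Q ≠ 0 ∧ D Q = n Q * qq L Q.1) ∧ (∀ Q ∈ T, ∀ Q' ∈ T, Q' ∈ orQ L Q → Q' = Q) ∧
      D = ∑ Q ∈ T, n Q • odv L Q := by
  induction hN : D.support.card using Nat.strong_induction_on generalizing D with
  | _ N ih =>
    by_cases h0 : D = 0
    · exact ⟨∅, fun _ => 0, fun _ hQ => absurd hQ (Finset.notMem_empty _),
        fun _ hQ => absurd hQ (Finset.notMem_empty _), by rw [h0, Finset.sum_empty]⟩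
    obtain ⟨Q, hQ⟩ : ∃ Q, D Q ≠ 0 := by
      by_contra hc
      exact h0 (Finsupp.ext fun Q => by_contra fun e => hc ⟨Q, e⟩)
    obtain ⟨m, hm⟩ := h.2 Q
    have hE : D - m • odv L Q ∈ RatD L := sub_mem h (zsmul_mem (odv_mem L Q) m)
    have hv : ∀ R, (D - m • odv L Q) R = if R ∈ orQ L Q then 0 else D R := fun R => by
      rw [Finsupp.sub_apply, Finsupp.smul_apply, odv_apply]
      split_ifs with hR
      · rw [RatD.apply h hR, hm, smul_eq_mul, mul_comm, sub_self]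
      · rw [smul_zero, sub_zero]
    have hlt : (D - m • odv L Q).support.card < N := by
      rw [← hN]
      refine Finset.card_lt_card ⟨fun R hR => ?_, fun hs => ?_⟩
      · rw [Finsupp.mem_support_iff, hv] at hR
        refine Finsupp.mem_support_iff.2 fun e => hR ?_
        rw [e, ite_self]
      · have h1 := hs (Finsupp.mem_support_iff.2 hQ)
        rw [Finsupp.mem_support_iff, hv, if_pos (self_mem_orQ L Q)] at h1
        exact h1 rfl
    obtain ⟨T, n, h1, h2, h3⟩ := ih _ hlt hE rfl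
    have hT : ∀ R ∈ T, R ∉ orQ L Q := fun R hR e => (h1 R hR).1 (by rw [hv, if_pos e])
    have hQT : Q ∉ T := fun e => hT Q e (self_mem_orQ L Q)
    refine ⟨insert Q T, Function.update n Q m, fun R hR => ?_, fun R hR R' hR' e => ?_, ?_⟩
    · rcases Finset.mem_insert.1 hR with rfl | hR
      · rw [Function.update_self]
        exact ⟨hQ, hm.trans (mul_comm _ _)⟩
      · have h4 := h1 R hR
        rw [hv, if_neg (hT R hR)] at h4
        rw [Function.update_of_ne (ne_of_mem_of_not_mem hR hQT)]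
        exact h4
    · rcases Finset.mem_insert.1 hR with rfl | h5
      · rcases Finset.mem_insert.1 hR' with rfl | h6
        · rfl
        · exact absurd e (hT R' h6)
      · rcases Finset.mem_insert.1 hR' with rfl | h6
        · exact absurd ((orQ_eq e).symm ▸ self_mem_orQ L R) (hT R h5)
        · exact h2 R h5 R' h6 e
    · rw [Finset.sum_insert hQT, Function.update_self, Finset.sum_congr rfl fun R hR => by
        rw [Function.update_of_ne (ne_of_mem_of_not_mem hR hQT)], ← h3, add_sub_cancel]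

end Pool.Agent.ZFy.U
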