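import Pool.Agent.Lib.MP_751085_ag.ZF.U.Xa
import Pool.Agent.Lib.MP_751085_ag.ZF.U.Odv
import Pool.Agent.Lib.MP_796ce4_ag.ZY.CvJ

/-! Functions defined over a subfield: Riemann-Roch descends. -/

namespace Pool.Agent.ZFy.U

open Polynomial Module Pool.Agent.ZeroCyc
open scoped Classical IntermediateField

set_option linter.unusedSectionVars false

variable {K Λ : Type} [Field K] [Field Λ] [IsAlgClosed Λ] [Algebra K Λ] [Normal K Λ]
  {L : IntermediateField K Λ}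

/-- the product of the minimal polynomials of the roots -/
theorem exists_u_over {c : Cv Λ} (hρ : Over L c.ρ) {D : Λ × Λ →₀ ℤ} (hD : D ∈ c.Dv) :
    ∃ u : Λ[X], u.Monic ∧ IsCoprime u c.ρ ∧ Over L u ∧ D ≤ dv c.χ (C u) := by
  obtain ⟨u₀, hm, hc, hle⟩ := Cv.exists_u hD
  have hm' : ((u₀.roots.map (minpoly L)).prod.map (algebraMap L Λ)).Monic :=
    (monic_multiset_prod_of_monic _ _ fun t _ => minpoly.monic (ins_int L t)).map _
  refine ⟨_, hm', Cv.cop_iff.2 fun s hs => ?_, over_map _, hle.trans ?_⟩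
  · rw [eval_map_algebraMap, map_multiset_prod, Multiset.prod_eq_zero_iff, Multiset.map_map,
      Multiset.mem_map] at hs
    obtain ⟨t, ht, h1⟩ := hs
    obtain ⟨σ, hσ, rfl⟩ := exists_fix_root h1
    rw [← hρ.apply_eval hσ]
    exact (map_ne_zero σ).2 (Cv.cop_iff.1 hc t (isRoot_of_mem_roots ht))
  · have h2 : u₀ ∣ (u₀.roots.map (minpoly L)).prod.map (algebraMap L Λ) := by
      rw [Polynomial.map_multiset_prod, Multiset.map_map]
      nth_rw 1 [(IsAlgClosed.splits u₀).eq_prod_roots_of_monic hm]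
      refine Multiset.prod_dvd_prod_of_dvd _ _ fun t _ => dvd_iff_isRoot.2 ?_
      rw [Function.comp_apply, IsRoot.def, eval_map_algebraMap, minpoly.aeval]
    obtain ⟨v, hv⟩ := h2
    rw [hv] at hm' ⊢
    rw [map_mul, Lead.dv_mul c.wt (lead_C hm) (lead_C (hm.of_mul_monic_left hm'))]
    exact le_add_of_nonneg_right (dv_nonneg _ _)

/-- an additive map applied to the coefficients -/
theorem over_lift {A : Type} [CommRing A] (p : A →+ A) : ∃ P : A[X] →+ A[X],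
    (∀ a i, (P a).coeff i = p (a.coeff i)) ∧
      ∀ g a, (∀ i x, p (g.coeff i * x) = g.coeff i * p x) → P (g * a) = g * P a := by
  have h : ∀ (a : A[X]) i, (∑ j ∈ a.support, monomial j (p (a.coeff j))).coeff i =
      p (a.coeff i) := fun a i => by
    simp only [finsetSum_coeff, coeff_monomial, Finset.sum_ite_eq']
    split_ifs with hi
    · rfl
    · rw [notMem_support_iff.1 hi, map_zero]
  refine ⟨AddMonoidHom.mk' (fun a => ∑ j ∈ a.support, monomial j (p (a.coeff j))) fun a b => ?_,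
    h, fun g a hg => ?_⟩
  · ext i
    rw [coeff_add, h, h, h, coeff_add, map_add]
  · ext i
    rw [AddMonoidHom.mk'_apply, h]
    simp only [coeff_mul, h, map_sum, hg]

/-- an `L`-linear retraction, applied to all coefficients -/
theorem exists_retr (L : IntermediateField K Λ) : ∃ P : Λ[X][X] →+ Λ[X][X],
    (∀ a, Ovv L (P a)) ∧ (∀ g a, Ovv L g → P (g * a) = g * P a) ∧ P 1 = 1 ∧
      ∀ a i j, (a.coeff i).coeff j = 0 → ((P a).coeff i).coeff j = 0 := by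
  obtain ⟨π, hπ⟩ := (Algebra.linearMap L Λ).exists_leftInverse_of_injective
    (LinearMap.ker_eq_bot.2 (algebraMap L Λ).injective)
  obtain ⟨P₁, h1, h2⟩ := over_lift ((Algebra.linearMap L Λ).comp π).toAddMonoidHom
  obtain ⟨P, h3, h4⟩ := over_lift P₁
  have h5 : ∀ a i j, ((P a).coeff i).coeff j = π ((a.coeff i).coeff j) := fun a i j => by
    rw [h3, h1]
    rfl
  refine ⟨P, fun a i j => h5 a i j ▸ (π _).2, fun g a hg => h4 g a fun i x => h2 _ x fun j y =>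
    ((Algebra.linearMap L Λ).comp π).map_smul ⟨_, hg i j⟩ y, ?_, fun a i j h => ?_⟩
  · ext i j
    have h6 : π 1 = 1 := LinearMap.congr_fun hπ 1
    rw [h5, coeff_one]
    split_ifs
    · rw [coeff_one]
      split_ifs
      · rw [h6, OneMemClass.coe_one]
      · rw [map_zero, ZeroMemClass.coe_zero]
    · rw [coeff_zero, map_zero, ZeroMemClass.coe_zero]
  · rw [h5, h, map_zero, ZeroMemClass.coe_zero]

theorem exists_sepf {Q Q' : Λ × Λ} (h : Q' ∉ orQ L Q) :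
    ∃ κ : Λ[X][X], Ovv L κ ∧ ee Q' κ = 0 ∧ ee Q κ ≠ 0 := by
  by_contra h1
  obtain ⟨σ, hσ, hs⟩ := exists_fix_of_ker (L := L) ((ee Q').comp (mp (algebraMap L Λ)))
    ((ee Q).comp (mp (algebraMap L Λ)))
    (fun x hx => ⟨C (C ⟨x, hx⟩), by simp [ee_C], by simp [ee_C]⟩) fun a ha =>
      by_contra fun h2 => h1 ⟨_, ovv_mp (fun x => x.2) a, ha, h2⟩
  have h2 : Q ∈ orQ L Q' := by
    refine ⟨σ, hσ, Prod.ext ?_ ?_⟩
    · simpa [ee_C, pm] using hs (C X)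
    · simpa [ee_X, pm] using hs X
  exact h (orQ_eq h2 ▸ self_mem_orQ L Q')

theorem over_ovv_prod {T : Type} {s : Finset T} {f : T → Λ[X][X]} (h : ∀ t ∈ s, Ovv L (f t))
    (n : ℕ) : Ovv L (∏ t ∈ s, f t ^ n) := by
  choose! g hg using fun t ht => (h t ht).exists_mp
  rw [Finset.prod_congr rfl fun t ht => by rw [← hg t ht, ← map_pow], ← map_prod]
  exact ovv_mp (fun x => x.2) _

/-- vanishing along a rational divisor is preserved by the retraction -/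
theorem vanZ_retr {c : Cv Λ} (hχ : Ovv L c.χ) (hρ : Over L c.ρ) {P : Λ[X][X] →+ Λ[X][X]}
    (hP : ∀ g a, Ovv L g → P (g * a) = g * P a) {Z : Λ × Λ →₀ ℤ} (hZ : Z ∈ c.Dv) (h0 : 0 ≤ Z)
    (hr : Z ∈ RatD L) {G : Λ[X][X]} (h : VanZ c.χ Z G) : VanZ c.χ Z (P G) := by
  intro Q hQ
  have hG := hZ Q hQ
  refine ⟨hG.et, ?_⟩
  obtain ⟨k, hk⟩ := hr.2 Q
  have hk0 : 0 ≤ k := nonneg_of_mul_nonneg_right (hk ▸ h0 Q) (Int.natCast_pos.2 (qq_pos L Q.1))
  lift k to ℕ using hk0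
  have hn : (Z Q).toNat = k * qq L Q.1 := by rw [hk, ← Nat.cast_mul, Int.toNat_natCast, mul_comm]
  obtain ⟨μ, hμ⟩ : ∃ μ, μ = (minpoly L Q.1 ^ k).map (algebraMap L Λ) := ⟨_, rfl⟩
  have hm : μ.Monic := hμ ▸ ((minpoly.monic (ins_int L _)).pow k).map _
  have hroot : ∀ t, μ.eval t = 0 → ∃ σ : Λ ≃ₐ[K] Λ, Fix L σ ∧ t = σ Q.1 := fun t ht =>
    exists_fix_root (by
      rw [hμ, eval_map_algebraMap, map_pow] at ht
      exact eq_zero_of_pow_eq_zero ht)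
  have hcop : IsCoprime μ c.ρ := Cv.cop_iff.2 fun t ht => by
    obtain ⟨σ, hσ, rfl⟩ := hroot t ht
    rw [← hρ.apply_eval hσ]
    exact (map_ne_zero σ).2 hG.2
  have hmul : ∀ t, μ.eval t = 0 → μ.rootMultiplicity t = (Z Q).toNat := fun t ht => by
    obtain ⟨σ, hσ, rfl⟩ := hroot t ht
    rw [hμ, ← minpoly_fix hσ, qq_pow, qq_gal hσ, hn]
  choose! κ hκ using fun Q' (h : Q' ∉ orQ L Q) => exists_sepf h
  obtain ⟨κ₀, h₀⟩ : ∃ κ₀, κ₀ = ∏ Q' ∈ (dv c.χ (C μ)).support.filter (· ∉ orQ L Q),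
    κ Q' ^ (Z Q).toNat := ⟨_, rfl⟩
  have hv : VanZ c.χ (dv c.χ (C μ)) (κ₀ * G) := fun Q' hQ' => by
    have e := dv_C c.wt hm Q'
    have h1 : Et c.χ Q' := by_contra fun h => hQ' (by rw [e, if_neg h])
    rw [if_pos h1] at e
    have h2 : μ.eval Q'.1 = 0 := by_contra fun h =>
      hQ' (by rw [e, rootMultiplicity_eq_zero h, Nat.cast_zero])
    refine ⟨h1, ?_⟩
    rw [e, Int.toNat_natCast, hmul _ h2]
    by_cases ho : Q' ∈ orQ L Q
    · rw [← RatD.apply hr ho]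
      exact (cvj_vanZ_van h Q').mul_left _
    · exact cvj_van_dvd (cvj_van_pow ((van_one c.wt.monic h1).2 (hκ Q' ho).2.1) _)
        (Dvd.dvd.mul_right (h₀ ▸ Finset.dvd_prod_of_mem _
          (Finset.mem_filter.2 ⟨Finsupp.mem_support_iff.2 hQ', ho⟩)) _)
  obtain ⟨H, hH⟩ := dvd_of_vanZ c.wt hm (Cv.adm_C hcop) (cvp_deg_mod c.wt (κ₀ * G))
    (cvp_vanZ_congr c.wt.monic (cvp_dvd_mod _) hv)
  obtain ⟨R, hR⟩ := cvp_dvd_mod (χ := c.χ) (κ₀ * G)
  have h1 : Ovv L κ₀ := h₀ ▸ over_ovv_prod (fun _ h => (hκ _ (Finset.mem_filter.1 h).2).1) _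
  have h2 : Ovv L (C μ) := by
    rw [hμ, ← coe_mapRingHom, ← map_C, ← coe_mapRingHom]
    exact ovv_mp (fun x => x.2) _
  have e : κ₀ * P G = C μ * P H + c.χ * P R := by
    rw [← hP _ _ h1, ← hP _ _ h2, ← hP _ _ hχ, ← map_add, ← hH, ← hR, add_sub_cancel]
  obtain ⟨h3, h4⟩ := oq_eq_zero (G := κ₀) c.wt.monic hG.et (by
    rw [h₀, map_prod]
    exact Finset.prod_ne_zero_iff.2 fun _ h => by
      rw [map_pow]
      exact pow_ne_zero _ (hκ _ (Finset.mem_filter.1 h).2).2.2)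
  refine Van.cancel h3 ?_
  rw [h4, zero_add, e]
  refine Van.congr c.wt.monic hG.et (G := C μ * P H) ⟨-P R, by ring⟩
    (cvj_van_dvd ?_ (dvd_mul_right _ _))
  rw [hn, ← qq_pow, ← hμ, ← (oq_C c.χ Q hm.ne_zero).2]
  exact van_oq _ _ _

theorem exists_G_over {c : Cv Λ} (hi : Irreducible c.χ) (hχ : Ovv L c.χ) (hρ : Over L c.ρ)
    {Z : Λ × Λ →₀ ℤ} (hZ : Z ∈ c.Dv) (h0 : 0 ≤ Z) (hr : Z ∈ RatD L)
    {m : ℕ} (hd : Z.degree + c.c0 ≤ c.δ * m) {u : Λ[X]} (hu : Over L u) :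
    ∃ a ∈ Wsp c.b c.δ c.w m, Ovv L a ∧ VanZ c.χ Z (c.G u a) := by
  obtain ⟨a, ha, hv⟩ := Cv.exists_G hi hZ h0 hd u
  obtain ⟨P, h1, h2, h3, h4⟩ := exists_retr L
  have hC : ∀ {g : Λ[X]}, Over L g → Ovv L (C g) := fun hg i => by
    rw [coeff_C]
    split_ifs
    · exact hg
    · exact fun j => L.zero_mem
  refine ⟨P a, ⟨(degree_lt_iff_coeff_zero _ _).2 fun i hi => ?_,
    fun i j e => ha.2 i j fun e' => e (h4 a i j e')⟩, h1 a, ?_⟩
  · ext j
    refine h4 a i j ?_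
    rw [(degree_lt_iff_coeff_zero _ _).1 ha.1 i hi, coeff_zero]
  · have h5 := vanZ_retr hχ hρ h2 hZ h0 hr hv
    rwa [Cv.G, map_add, h2 _ _ (hC hρ), ← mul_one (C u), h2 _ _ (hC hu), h3, mul_one] at h5

end Pool.Agent.ZFy.U
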