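import Pool.Agent.Lib.MP_751085_ag.ZF.U.Rat
import Pool.Agent.Lib.MP_751085_ag.ZF.U.Over
import Pool.Agent.Lib.MP_751085_ag.ZF.U.BddA

/-! The classes of degree zero on a geometrically irreducible curve are bounded. -/

namespace Pool.Agent.ZFy.U

open Polynomial Module Pool.Agent.ZeroCyc
open scoped Classical IntermediateField

set_option linter.unusedSectionVars false

variable {K Λ : Type} [Field K] [Field Λ] [IsAlgClosed Λ] [Algebra K Λ] [Normal K Λ]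
  {N : ℕ} {J : Ideal (MvPolynomial (Fin (N + 1)) K)} {L : IntermediateField K Λ}
  [FiniteDimensional K L]

namespace XC

variable {𝒳 : XC Λ J}

/-- the part of degree zero is bounded -/
theorem Ov.bddZ (h : 𝒳.Ov L) (hi : Irreducible 𝒳.c.χ) : BddZ (𝒳.A L) := by
  refine ⟨A_le h, ?_⟩
  by_cases hg : ∃ Q, 𝒳.c.Gp Q
  swap
  · refine ⟨0, fun w hw => ?_⟩
    obtain ⟨D, hD, -, rfl⟩ := h.exists_rat hw.1
    have : D = 0 := Finsupp.ext fun Q => by_contra fun e => hg ⟨Q, hD Q e⟩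
    rw [this, map_zero, add_zero]
    exact zero_mem _
  obtain ⟨Q, hQ⟩ := hg
  obtain ⟨u₀, m₀, c₀, o₀, l₀⟩ := exists_u_over (D := Finsupp.single Q (𝒳.c.c0 : ℤ)) h.ρ
    fun Q' e => (Finsupp.single_apply_ne_zero.1 e).1 ▸ hQ
  have d₀ := cvj_degree_nonneg (sub_nonneg.2 l₀)
  rw [map_sub, Cv.degree_dv_C m₀ c₀, Finsupp.degree_single] at d₀
  refine ⟨𝒳.cl L (dv 𝒳.c.χ (C u₀)), fun w hw => ?_⟩
  obtain ⟨D, hD, hinv, rfl⟩ := h.exists_rat hw.1
  have hdeg : D.degree = 0 := by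
    have e : (𝒳.cl L D).2 = 0 := hw.2
    rw [cl_snd, mul_eq_zero] at e
    rcases e with e | e
    · exact absurd (Nat.cast_eq_zero.1 e) finrank_pos.ne'
    · exact e
  obtain ⟨u, m, c, o, l⟩ := exists_u_over h.ρ hD
  have hz : Ovv L (0 : Λ[X][X]) := fun i n => by
    rw [coeff_zero, coeff_zero]
    exact zero_mem _
  have hu : dv 𝒳.c.χ (C u) ∈ RatD L := by
    have e := h.dv_rat hi ⟨m, c, WL_zero⟩ o hz
    rwa [Cv.cvp_G_zero] at e
  have hZ : dv 𝒳.c.χ (C u) - D ∈ 𝒳.c.Dv := sub_mem (Cv.dv_C_mem m c) hD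
  have hZi : dv 𝒳.c.χ (C u) - D ∈ RatD L := sub_mem hu hinv
  obtain ⟨a, ha, oa, va⟩ := exists_G_over hi h.χ h.ρ hZ (sub_nonneg.2 l) hZi
    (m := (u * u₀).natDegree) (by
      rw [map_sub, Cv.degree_dv_C m c, hdeg, m.natDegree_mul m₀]
      push_cast
      linarith) (o.mul o₀)
  have hw' : 𝒳.c.Wit (u * u₀) a := ⟨m.mul m₀, c.mul_left c₀, ha.2⟩
  have key := h.cl_mem_eff (sub_mem hw'.dv_mem hZ) (sub_nonneg.2 (hw'.lead.le_dv 𝒳.c.wt va))
    (sub_mem (h.dv_rat hi hw' (o.mul o₀) oa) hZi)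
  rw [map_sub, map_sub, h.rel hw' (o.mul o₀) oa, C_mul,
    (lead_C m).dv_mul 𝒳.c.wt (lead_C m₀), map_add] at key
  rwa [← sub_add, add_sub_cancel_left, add_comm] at key

end XC

end Pool.Agent.ZFy.U
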