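import Pool.Agent.Lib.MP_751085_ag.ZF.U.Xc

/-! Lines in a light chart. -/

namespace Pool.Agent.ZFy.U

open Polynomial Module Pool.Agent.ZeroCyc
open scoped Classical IntermediateField

set_option linter.unusedSectionVars false

variable {k K Λ : Type} [Field k] [Field K] [Field Λ] [IsAlgClosed Λ] [Algebra k K]
  [Algebra k Λ] [Algebra K Λ] [IsScalarTower k K Λ] [Normal K Λ] {N n : ℕ}
  {J : Ideal (MvPolynomial (Fin (N + 1)) K)} {L : IntermediateField K Λ}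

/-- a non-zero polynomial over `Λ` has a non-root with coordinates in `K`;
`MvPolynomial.funext_set` -/
theorem exists_eval_ne [Infinite K] {σ : Type} [Finite σ] {Θ : MvPolynomial σ Λ} (h : Θ ≠ 0) :
    ∃ e : σ → K, MvPolynomial.eval (fun i => algebraMap K Λ (e i)) Θ ≠ 0 := by
  by_contra hn
  refine h (MvPolynomial.funext_set (fun _ => Set.range (algebraMap K Λ))
    (fun _ => Set.infinite_range_of_injective (algebraMap K Λ).injective) fun x hx => ?_)
  choose e he using fun i => hx i (Set.mem_univ i)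
  rw [map_zero, ← funext he]
  exact not_not.1 fun h0 => hn ⟨e, h0⟩

theorem eval_lin {S : Type} [CommRing S] (y e : Fin n → S) (t : S) (i : Fin n) :
    (lin y e i).eval t = y i + t * e i := by
  rw [lin, eval_add, eval_C, eval_mul, eval_C, eval_X, mul_comm]

theorem ch_map_lin {S T : Type} [CommRing S] [CommRing T] (ψ : S →+* T) (y e : Fin n → S) :
    (fun i => (lin y e i).map ψ) = lin (fun i => ψ (y i)) fun i => ψ (e i) := by
  funext i
  simp [lin]

theorem ch_map_rho {R S T : Type} [CommRing R] [CommRing S] [CommRing T] (φ : R →+* S) (ψ : S →+* T)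
    (lam : Fin n → S[X]) (D : MvPolynomial (Fin n) R) :
    (MvPolynomial.eval₂ (C.comp φ) lam D).map ψ =
      MvPolynomial.eval₂ (C.comp (ψ.comp φ)) (fun i => (lam i).map ψ) D := by
  rw [← coe_mapRingHom, MvPolynomial.eval₂_comp_left]
  congr 1
  ext1 x
  simp

theorem ch_eval_rho {R S : Type} [CommRing R] [CommRing S] (φ : R →+* S) (lam : Fin n → S[X])
    (t : S) (D : MvPolynomial (Fin n) R) : (MvPolynomial.eval₂ (C.comp φ) lam D).eval t =
      MvPolynomial.eval₂ φ (fun i => (lam i).eval t) D := by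
  rw [← coe_evalRingHom, MvPolynomial.eval₂_comp_left]
  congr 1
  ext1 x
  simp

theorem ch_mem (a : k) : algebraMap k Λ a ∈ L := by
  rw [IsScalarTower.algebraMap_apply k K Λ]
  exact L.algebraMap_mem _

theorem ch_aeval_mem {σ : Type} {v : σ → Λ} (h : ∀ i, v i ∈ L) (g : MvPolynomial σ k) :
    MvPolynomial.aeval v g ∈ L := by
  induction g using MvPolynomial.induction_on with
  | C a => rw [MvPolynomial.aeval_C]; exact ch_mem (K := K) a
  | add p q hp hq => rw [map_add]; exact add_mem hp hq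
  | mul_X p i hp => rw [map_mul, MvPolynomial.aeval_X]; exact mul_mem hp (h i)

theorem ch_over {lam : Fin n → Λ[X]} (hl : ∀ i, Over L (lam i)) (g : MvPolynomial (Fin n) k) :
    Over L (MvPolynomial.eval₂ (C.comp (algebraMap k Λ)) lam g) := by
  induction g using MvPolynomial.induction_on with
  | C a => rw [MvPolynomial.eval₂_C]; exact over_C (ch_mem a)
  | add p q hp hq => rw [MvPolynomial.eval₂_add]; exact hp.add hq
  | mul_X p i hp => rw [MvPolynomial.eval₂_mul, MvPolynomial.eval₂_X]; exact hp.mul (hl i)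

theorem ch_ovv {lam : Fin n → Λ[X]} (hl : ∀ i, Over L (lam i)) (f : MP n k) :
    Ovv L (cv (algebraMap k Λ) lam f) := fun i => by
  rw [cv, coe_mapRingHom, coeff_map]
  exact ch_over hl _

theorem ch_cv_aeval (lam : Fin n → Λ[X]) (f : Fin (N + 1) → MP n Λ)
    (F : MvPolynomial (Fin (N + 1)) K) : cv (RingHom.id Λ) lam (MvPolynomial.aeval f F) =
      MvPolynomial.aeval (fun i => cv (RingHom.id Λ) lam (f i)) F := by
  rw [MvPolynomial.map_aeval, MvPolynomial.aeval_eq_eval₂Hom]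
  congr 2
  ext1 x
  simp [cv, Polynomial.algebraMap_apply, MvPolynomial.algebraMap_apply]

theorem ch_ev2_aeval (y : Fin n → Λ) (h : Λ) (f : Fin (N + 1) → MP n Λ)
    (F : MvPolynomial (Fin (N + 1)) K) : ev2 (RingHom.id Λ) y h (MvPolynomial.aeval f F) =
      MvPolynomial.aeval (fun i => ev2 (RingHom.id Λ) y h (f i)) F := by
  rw [MvPolynomial.map_aeval, MvPolynomial.aeval_eq_eval₂Hom]
  congr 2
  ext1 x
  simp [ev2, Polynomial.algebraMap_apply, MvPolynomial.algebraMap_apply]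

namespace LCh

variable (𝒞 : LCh k Λ J n)

theorem crv_map {S T : Type} [CommRing S] [Nontrivial S] [CommRing T] [Nontrivial T] (φ : k →+* S)
    (ψ : S →+* T) (y e : Fin n → S) :
    (𝒞.crv φ y e).map ψ = 𝒞.crv (ψ.comp φ) (fun i => ψ (y i)) fun i => ψ (e i) := by
  simp only [Cv.map, crv, mp_cv, ch_map_rho, ch_map_lin]

theorem on_crv {S : Type} [CommRing S] [Nontrivial S] (φ : k →+* S) (y e : Fin n → S) (Q : S × S) :
    On (𝒞.crv φ y e).χ Q ↔ ev2 φ (fun i => y i + Q.1 * e i) Q.2 𝒞.χ = 0 := by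
  simp only [On, crv, ee_cv, eval_lin]

theorem gp_crv {S : Type} [CommRing S] [Nontrivial S] (φ : k →+* S) (y e : Fin n → S) (Q : S × S) :
    (𝒞.crv φ y e).Gp Q ↔ ev2 φ (fun i => y i + Q.1 * e i) Q.2 𝒞.χ = 0 ∧
      MvPolynomial.eval₂ φ (fun i => y i + Q.1 * e i) 𝒞.D ≠ 0 := by
  rw [Cv.Gp, on_crv]
  simp only [crv, ch_eval_rho, eval_lin]

theorem map_pv {S T : Type} [CommRing S] [CommRing T] (φ : k →+* S) (ψ : S →+* T) (y : Fin n → S)
    (h : S) (i : Fin (N + 1)) :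
    ψ (𝒞.pv φ y h i) = 𝒞.pv (ψ.comp φ) (fun i => ψ (y i)) (ψ h) i :=
  map_ev2 φ ψ y h _

theorem map_xi {E E' : Type} [Field E] [Field E'] [Algebra k E] [Algebra k E'] (ψ : E →ₐ[k] E')
    (v : Fin (N + 1) → E) :
    (∀ i, ψ (𝒞.xi v i) = 𝒞.xi (fun j => ψ (v j)) i) ∧ ψ (𝒞.th v) = 𝒞.th fun j => ψ (v j) := by
  simp only [xi, th, map_div₀, MvPolynomial.comp_aeval_apply, implies_true, and_self]

theorem xi_mem {v : Fin (N + 1) → Λ} (h : ∀ i, v i ∈ L) :
    (∀ i, 𝒞.xi v i ∈ L) ∧ 𝒞.th v ∈ L :=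
  ⟨fun _ => div_mem (ch_aeval_mem h _) (ch_aeval_mem h _),
    div_mem (ch_aeval_mem h _) (ch_aeval_mem h _)⟩

theorem onX_pv {y : Fin n → Λ} {h : Λ} (h0 : ev2 (algebraMap k Λ) y h 𝒞.χ = 0) :
    OnX J (𝒞.pv (algebraMap k Λ) y h) := by
  intro G hG
  have h1 := map_dvd (ev2 (RingHom.id Λ) y h) (𝒞.on G hG)
  rw [ch_ev2_aeval] at h1
  simp only [ev2_mq, RingHom.id_comp, h0, zero_dvd_iff] at h1
  exact h1

/-- if `pv = 0` then the linear form `l` vanishes there -/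
theorem pv_ne {y : Fin n → Λ} {h : Λ} (h0 : ev2 (algebraMap k Λ) y h 𝒞.χ = 0)
    (hD : MvPolynomial.eval₂ (algebraMap k Λ) y 𝒞.D ≠ 0) :
    𝒞.pv (algebraMap k Λ) y h ≠ 0 := by
  intro e
  refine (𝒞.ne y h h0 hD).2 ?_
  change MvPolynomial.aeval (𝒞.pv (algebraMap k Λ) y h) 𝒞.l = 0
  rw [e, MvPolynomial.aeval_zero, MvPolynomial.constantCoeff_eq,
    𝒞.homl.coeff_eq_zero (by simp), map_zero]

theorem line_on (y e : Fin n → Λ) : ∀ F ∈ J, (𝒞.crv (algebraMap k Λ) y e).χ ∣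
    MvPolynomial.aeval (fun i => cv (algebraMap k Λ) (lin y e) (𝒞.pp i)) F := by
  intro F hF
  have h1 := map_dvd (cv (RingHom.id Λ) (lin y e)) (𝒞.on F hF)
  rw [ch_cv_aeval] at h1
  simp only [cv_mq, RingHom.id_comp] at h1
  exact h1

theorem line_ne (y e : Fin n → Λ) : ∀ Q, (𝒞.crv (algebraMap k Λ) y e).Gp Q →
    (fun i => ee Q (cv (algebraMap k Λ) (lin y e) (𝒞.pp i))) ≠ 0 := by
  intro Q hQ
  rw [gp_crv] at hQ
  simp only [ee_cv, eval_lin]
  exact 𝒞.pv_ne hQ.1 hQ.2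

/-- the curve over a line, mapped to the variety -/
noncomputable def line (y e : Fin n → Λ) : XC Λ J where
  c := 𝒞.crv (algebraMap k Λ) y e
  q := fun i => cv (algebraMap k Λ) (lin y e) (𝒞.pp i)
  on := 𝒞.line_on y e
  ne := 𝒞.line_ne y e

theorem line_pv (y e : Fin n → Λ) (Q : Λ × Λ) :
    (𝒞.line y e).pv Q = 𝒞.pv (algebraMap k Λ) (fun i => y i + Q.1 * e i) Q.2 := by
  funext i
  simp only [XC.pv, line, ee_cv, eval_lin, pv]

theorem line_ov {y e : Fin n → Λ} (hy : ∀ i, y i ∈ L) (he : ∀ i, e i ∈ L) :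
    (𝒞.line y e).Ov L := by
  have hl : ∀ i, Over L (lin y e i) := fun i => (over_C (hy i)).add ((over_C (he i)).mul over_X)
  exact ⟨ch_ovv hl _, ch_over hl _, fun _ => ch_ovv hl _⟩

variable {𝒞}

theorem In.on {v : Fin (N + 1) → Λ} (h : 𝒞.In v) (hv : OnX J v) :
    ev2 (algebraMap k Λ) (𝒞.xi v) (𝒞.th v) 𝒞.χ = 0 :=
  (𝒞.inv v hv h.1 h.2).1

theorem In.pv {v : Fin (N + 1) → Λ} (h : 𝒞.In v) (hv : OnX J v) :
    ∃ c : Λ, c ≠ 0 ∧ 𝒞.pv (algebraMap k Λ) (𝒞.xi v) (𝒞.th v) = c • v := by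
  obtain ⟨c, hc, e⟩ := (𝒞.inv v hv h.1 h.2).2
  exact ⟨c, hc, funext e⟩

/-- `bertini` for `mq (algebraMap k Λ) χ` -/
theorem exists_dir {y : Fin n → Λ} (hD : MvPolynomial.eval₂ (algebraMap k Λ) y 𝒞.D ≠ 0) :
    ∃ Θ : MvPolynomial (Fin n) Λ, Θ ≠ 0 ∧ ∀ e, MvPolynomial.eval e Θ ≠ 0 →
      Irreducible (𝒞.crv (algebraMap k Λ) y e).χ := by
  obtain ⟨Θ, h0, H⟩ := bertini (χ := mq (algebraMap k Λ) 𝒞.χ) (b := 𝒞.b) (𝒞.monic.map _)
    (fun i => by
      rw [coe_mapRingHom, 𝒞.monic.natDegree_map, coeff_map, 𝒞.deg]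
      exact (Finset.sup_mono (MvPolynomial.support_map_subset _ _)).trans (𝒞.wt i))
    𝒞.irr y fun h h1 h2 => hD (by
      rw [coe_mapRingHom, derivative_map, ← coe_mapRingHom] at h2
      rw [ev2_mq, RingHom.id_comp] at h1 h2
      rw [← ev2_C _ y h, 𝒞.bez, map_add, map_mul, map_mul, h1, h2, mul_zero, mul_zero, add_zero])
  refine ⟨Θ, h0, fun e he => ?_⟩
  have h1 := H e he
  rw [cv_mq, RingHom.id_comp] at h1
  exact h1

end LCh

end Pool.Agent.ZFy.U
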