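import Pool.Agent.Lib.MP_751085_ag.ZF.U.BddB
import Pool.Agent.Lib.MP_751085_ag.ZF.U.BddC
import Pool.Agent.Lib.MP_751085_ag.ZF.U.Ch

/-! The plane model of a curve; all classes of degree zero are bounded. -/

namespace Pool.Agent.ZFy.U

open Polynomial Module Pool.Agent.ZeroCyc
open scoped Classical IntermediateField

set_option linter.unusedSectionVars false

variable {k K Λ : Type} [Field k] [Field K] [Field Λ] [IsAlgClosed Λ] [Algebra k K]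
  [Algebra k Λ] [Algebra K Λ] [IsScalarTower k K Λ] [Normal K Λ] {N : ℕ}
  {J : Ideal (MvPolynomial (Fin (N + 1)) K)} {L : IntermediateField K Λ}

namespace LCh

variable (𝒞 : LCh k Λ J 1)

/-- the plane model -/
noncomputable def cur : XC Λ J := 𝒞.line (fun _ => 0) fun _ => 1

/-- the point of the plane model -/
noncomputable def pt (v : Fin (N + 1) → Λ) : Λ × Λ := (𝒞.xi v 0, 𝒞.th v)

theorem cur_ov (L : IntermediateField K Λ) : 𝒞.cur.Ov L :=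
  𝒞.line_ov (fun _ => zero_mem _) fun _ => one_mem _

theorem cur_map (L : IntermediateField K Λ) : 𝒞.cur.c =
    (𝒞.crv (algebraMap k L) (fun _ => 0) fun _ => 1).map (algebraMap L Λ) := by
  rw [crv_map]
  simp only [map_zero, map_one]
  rfl

theorem cur_irr : Irreducible 𝒞.cur.c.χ := by
  have e : 𝒞.cur.c.χ = Polynomial.mapEquiv (MvPolynomial.uniqueAlgEquiv Λ (Fin 1)).toRingEquiv
      (mq (algebraMap k Λ) 𝒞.χ) := by
    have h := cv_mq (algebraMap k Λ) (RingHom.id Λ) (lin (fun _ => (0 : Λ)) fun _ => 1) 𝒞.χ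
    rw [RingHom.id_comp] at h
    refine h.symm.trans (congrArg (fun φ => Polynomial.map φ (mq (algebraMap k Λ) 𝒞.χ)) ?_)
    refine MvPolynomial.ringHom_ext (fun r => ?_) fun i => ?_
    · simp
    · simp [lin, MvPolynomial.X]
  rw [e]
  exact (MulEquiv.irreducible_iff _).2 𝒞.irr

theorem pt_mem {v : Fin (N + 1) → Λ} (h : ∀ i, v i ∈ L) : (𝒞.pt v).1 ∈ L ∧ (𝒞.pt v).2 ∈ L :=
  ⟨(𝒞.xi_mem h).1 0, (𝒞.xi_mem h).2⟩

theorem pt_gal (σ : Λ ≃ₐ[K] Λ) (v : Fin (N + 1) → Λ) : 𝒞.pt (σ ∘ v) = pm σ (𝒞.pt v) := by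
  have h := 𝒞.map_xi ((σ : Λ →ₐ[K] Λ).restrictScalars k) v
  exact Prod.ext (h.1 0).symm h.2.symm

variable {𝒞}

theorem pair_xi (v : Fin (N + 1) → Λ) : (fun _ : Fin 1 => 0 + (𝒞.pt v).1 * 1) = 𝒞.xi v :=
  funext fun i => by rw [zero_add, mul_one, Subsingleton.elim i 0]; rfl

theorem In.gp {v : Fin (N + 1) → Λ} (h : 𝒞.In v) (hv : OnX J v) : 𝒞.cur.c.Gp (𝒞.pt v) := by
  refine (𝒞.gp_crv _ _ _ _).2 ?_
  rw [pair_xi]
  exact ⟨h.on hv, h.2⟩

theorem In.pc_pt {v : Fin (N + 1) → Λ} (h : 𝒞.In v) (hv : OnX J v) (L : IntermediateField K Λ) :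
    pc J L (𝒞.cur.pv (𝒞.pt v)) = pc J L v := by
  obtain ⟨c, hc, e⟩ := h.pv hv
  rw [cur, line_pv, pair_xi, ← pc_smul hc v, ← e]
  rfl

theorem In.mem_A [FiniteDimensional K L] {v : Fin (N + 1) → Λ} (h : 𝒞.In v) (hv : PtL J L v) :
    pc J L v ∈ 𝒞.cur.A ⊥ := by
  exact AddSubgroup.subset_closure ⟨L, 𝒞.pt v, bot_le, inferInstance, h.gp hv.on,
    (𝒞.pt_mem hv.mem).1, (𝒞.pt_mem hv.mem).2, (h.pc_pt hv.on L).symm⟩

end LCh

theorem Crv.bdd_one (hJ : Crv k Λ J) {g : VV Λ J} (hg : g ∈ Azero Λ J) :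
    Bdd (AddSubgroup.zmultiples g) := by
  refine bdd_one_of_pair (fun L v v' _ h h' => ?_) hg
  obtain ⟨𝒞, h𝒞, -⟩ := hJ.ex {v, v'} (by simp) fun w hw => by
    rcases Finset.mem_insert.1 hw with rfl | hw
    · exact ⟨h.ne, h.on⟩
    · rw [Finset.mem_singleton.1 hw]
      exact ⟨h'.ne, h'.on⟩
  refine ((𝒞.cur_ov ⊥).bddZ 𝒞.cur_irr).2.mono (AddSubgroup.zmultiples_le_of_mem
    (AddSubgroup.mem_inf.2 ⟨sub_mem ((h𝒞 v (by simp)).mem_A h) ((h𝒞 v' (by simp)).mem_A h'), ?_⟩))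
  show (pc J L v).2 - (pc J L v').2 = 0
  rw [pc_snd, pc_snd, sub_self]

/-- the classes of one point are multiples of a class of degree one -/
theorem pair_pt (y : PY Λ N) : BddZ (AddSubgroup.closure {w | ∃ (L : IntermediateField K Λ)
    (v : Fin (N + 1) → Λ), FiniteDimensional K L ∧ PtL J L v ∧ pj v = y ∧ w = pc J L v}) := by
  refine ⟨AddSubgroup.closure_mono fun _ ⟨L, v, a, b, _, c⟩ => ⟨L, v, a, b, c⟩,
    bdd_bot.mono (le_trans (inf_le_inf_right _ ((AddSubgroup.closure_le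
      (AddSubgroup.zmultiples (clL J ⊥ (Finsupp.single y 1)))).2 ?_)) ?_)⟩
  · rintro _ ⟨L, v, -, -, rfl, rfl⟩
    rw [pc, clL_eq_nsmul (L := ⊥) (L' := L) (n := finrank K L)
      (by rw [IntermediateField.finrank_bot, mul_one])]
    exact AddSubgroup.nsmul_mem_zmultiples _ _
  · rintro _ ⟨⟨n, rfl⟩, h⟩
    have h1 : n • (clL J ⊥ (Finsupp.single y 1)).2 = 0 := h
    rw [clL_snd, IntermediateField.finrank_bot, Finsupp.degree_single] at h1
    obtain rfl : n = 0 := by simpa using h1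
    exact AddSubgroup.mem_bot.2 (zero_zsmul _)

theorem Crv.bdd (hJ : Crv k Λ J) : Bdd (Azero Λ J) := by
  by_cases hx : ∃ v : Fin (N + 1) → Λ, v ≠ 0 ∧ OnX J v
  swap
  · refine bdd_bot.mono (inf_le_left.trans ((AddSubgroup.closure_le _).2 ?_))
    rintro _ ⟨L, v, -, h, -⟩
    exact (hx ⟨v, h.ne, h.on⟩).elim
  obtain ⟨v₀, h₀⟩ := hx
  obtain ⟨𝒞, -, -, b, hb⟩ := hJ.ex {v₀} (by simp) fun w hw => Finset.mem_singleton.1 hw ▸ h₀
  refine ((((𝒞.cur_ov ⊥).bddZ 𝒞.cur_irr).sup (fun _ => hJ.bdd_one)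
    (BddZ.biSup (fun _ => hJ.bdd_one) b fun y _ => pair_pt y)).mono
    ((AddSubgroup.closure_le _).2 ?_)).2
  rintro _ ⟨L, v, hL, h, rfl⟩
  rcases hb v h.ne h.on with h1 | h1
  · exact AddSubgroup.mem_sup_left (h1.mem_A h)
  · exact AddSubgroup.mem_sup_right (AddSubgroup.mem_iSup_of_mem (pj v)
      (AddSubgroup.mem_iSup_of_mem h1 (AddSubgroup.subset_closure ⟨L, v, hL, h, rfl, rfl⟩)))

end Pool.Agent.ZFy.U
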