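import Pool.Agent.Lib.MP_751085_ag.ZF.U.Cls1
import Pool.Agent.Lib.MP_751085_ag.ZF.U.Pair
import Pool.Agent.Lib.MP_751085_ag.ZF.U.Eff

/-! Limits of classes on a curve. -/

namespace Pool.Agent.ZFy.U

open Polynomial Module Pool.Agent.ZeroCyc Pool.Agent.ZCy.U Filter Topology
open scoped Classical IntermediateField

set_option linter.unusedSectionVars false

variable {k K Λ : Type} [Field k] [Field K] [NormedField Λ] [IsAlgClosed Λ] [Algebra k K]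
  [Algebra k Λ] [Algebra K Λ] [IsScalarTower k K Λ] [Normal K Λ] [LocF K Λ] {N n : ℕ}
  {J : Ideal (MvPolynomial (Fin (N + 1)) K)}
  {ι : Type} {L : IntermediateField K Λ} [FiniteDimensional K L]

theorem real_cont (G : Λ[X][X]) : Continuous fun Q : Λ × Λ => ee Q G := by
  simp only [ee, e2, coe_eval₂RingHom, eval₂_eq_sum_range, RingHom.id_apply]
  fun_prop

theorem real_deg {w : VV Λ J} (hw : w ∈ EffM Λ J) : 0 ≤ w.2 := by
  refine AddSubmonoid.closure_induction (motive := fun w _ => 0 ≤ w.2) ?_ le_rfl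
    (fun _ _ _ _ => add_nonneg) hw
  rintro _ ⟨L, v, -, -, rfl⟩
  rw [pc_snd]
  exact Int.natCast_nonneg _

/-- locally constant maps agree on a converging family of divisors and on its limit -/
theorem near_div (𝒳 : XC Λ J) (h𝒳 : 𝒳.Ov L) (hi : Irreducible 𝒳.c.χ) (c : Cv L)
    (hc : 𝒳.c = c.map (algebraMap L Λ)) {Q₀ : L × L} (hQ₀ : c.Gp Q₀) {F : Set (Λ × Λ)}
    (hF : F.Finite) (hg : ∀ Q ∈ F, 𝒳.c.Gp Q) (hinv : ∀ Q ∈ F, orQ L Q ⊆ F)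
    (hinj : Set.InjOn Prod.fst F) {U : Ultrafilter ι} {D : ι → Λ × Λ →₀ ℤ} {e : ℕ}
    (h : Cnv L 𝒳.c.χ F U D e) : ∃ D₀ ∈ 𝒳.c.Dv, D₀ ∈ RatD L ∧ D₀.degree = e ∧
      ∀ (B : Type) [AddCommGroup B] (φ : VV Λ J →+ B), LC φ →
        ∀ᶠ i in U, φ (𝒳.cl L (D i)) = φ (𝒳.cl L D₀) := by
  obtain ⟨D₀, h1, h2, h3, P, hP, hW⟩ := near_prin c (hc ▸ hi) hQ₀ hF (hc ▸ hg) hinv hinj (hc ▸ h)
  rw [← hc] at h1 hW
  refine ⟨D₀, h1, h2, h3, fun B _ φ hφ => ?_⟩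
  let g : L × L → Fin (N + 1) → L := fun Q i =>
    ⟨𝒳.pv (pm (algebraMap L Λ) Q) i, (h𝒳.q i).ee_mem Q.1.2 Q.2.2⟩
  have hg : Continuous g := continuous_pi fun i => Continuous.subtype_mk
    ((real_cont (𝒳.q i)).comp (continuous_subtype_val.prodMap continuous_subtype_val)) _
  have hp : ∀ Q, c.Gp Q → PtL J L (up (g Q)) := fun Q hQ =>
    h𝒳.ptL (hc ▸ (gp_map _).2 hQ) Q.1.2 Q.2.2
  filter_upwards [hW _ fun j => hg.continuousAt.preimage_mem_nhds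
    (hφ L _ inferInstance (hp _ (hP j)))] with i ⟨y, y', u, a, hy, hw, hu, ha, he⟩
  have e := congrArg (fun D => φ (𝒳.cl L D)) he
  simp only [map_sub, map_add, map_sum, XC.cl_single, h𝒳.rel hw hu ha, sub_self, map_zero] at e
  rw [Finset.sum_eq_zero fun j _ => sub_eq_zero.2 (((hy j).2.1 (hp _ (hy j).2.2.2).on).trans
    ((hy j).1 (hp _ (hy j).2.2.1).on).symm), add_zero] at e
  exact (sub_eq_zero.1 e.symm).symm

theorem real_gal {v : Fin (N + 1) → Λ} (h : v ≠ 0 ∧ OnX J v) (σ : Λ ≃ₐ[K] Λ) :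
    σ ∘ v ≠ 0 ∧ OnX J (σ ∘ v) := by
  refine ⟨fun e => h.1 (funext fun i => σ.injective ((congrFun e i).trans (map_zero σ).symm)),
    fun G hG => ?_⟩
  have e := MvPolynomial.comp_aeval_apply (f := v) (σ : Λ →ₐ[K] Λ) G
  rw [h.2 G hG, map_zero] at e
  exact e.symm

theorem real_lim (U : Ultrafilter ι) {γ : ℕ} {v : ι → Fin (N + 1) → Λ}
    (h : ∀ i, ∃ L : IntermediateField K Λ, FiniteDimensional K L ∧ finrank K L ≤ γ ∧
      PtL J L (v i) ∧ ‖v i‖ = 1) : ∃ v₀, (v₀ ≠ 0 ∧ OnX J v₀) ∧ Tendsto v U (𝓝 v₀) := by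
  choose L h1 h2 h3 h4 using h
  choose v₀ hv using fun j => lim_alg (K := K) U (γ := γ) (x := fun i => v i j)
    (fun i => (norm_le_pi_norm (v i) j).trans (h4 i).le) fun i => ⟨L i, h1 i, h2 i, (h3 i).mem j⟩
  have ht : Tendsto v U (𝓝 v₀) := tendsto_pi_nhds.2 hv
  refine ⟨v₀, ⟨fun e => ?_, fun G hG => ?_⟩, ht⟩
  · have h5 := ht.norm
    simp only [h4, e, norm_zero] at h5
    exact one_ne_zero (tendsto_nhds_unique tendsto_const_nhds h5)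
  · have h5 := ((uld_cont (k := K) G).tendsto v₀).comp ht
    have h6 : (fun v => MvPolynomial.aeval v G) ∘ v = fun _ => (0 : Λ) :=
      funext fun i => (h3 i).on G hG
    rw [h6] at h5
    exact tendsto_nhds_unique h5 tendsto_const_nhds

theorem real_in (𝒞 : LCh k Λ J n) {v₀ : Fin (N + 1) → Λ} (h : 𝒞.In v₀) :
    ∀ᶠ v in 𝓝 v₀, 𝒞.In v :=
  ((uld_cont 𝒞.f₀).continuousAt.eventually_ne h.1).and
    (((uld_cont 𝒞.D).continuousAt.comp (uld_ca 𝒞 h.1).1).eventually_ne h.2)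

theorem real_pt (𝒞 : LCh k Λ J 1) {v₀ : Fin (N + 1) → Λ} (h : 𝒞.In v₀) :
    ContinuousAt 𝒞.pt v₀ :=
  ((continuous_apply 0).continuousAt.comp (uld_ca 𝒞 h.1).1).prodMk (uld_ca 𝒞 h.1).2

/-- limits of effective classes of fixed degree -/
theorem Crv.lim_eff (hJ : Crv k Λ J) {x : Fin (N + 1) → Λ} (hx : PtL J L x) (U : Ultrafilter ι)
    {w : ι → VV Λ J} {e : ℕ} (hw : ∀ i, w i ∈ EffM Λ J ∧ (w i).2 = e) :
    ∃ w₀ ∈ Atot Λ J, w₀.2 = finrank K L * e ∧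
      ∀ (B : Type) [AddCommGroup B] (φ : VV Λ J →+ B), LC φ →
        ∀ᶠ i in U, φ (finrank K L • w i) = φ w₀ := by
  choose c E v hv hs using fun i => eff_list hJ.cone (hw i).1 (hw i).2
    (le_max_left e (finrank K L)) hx (le_max_right _ _)
  choose v₀ hv₀ hlim using fun t => real_lim (J := J) U (v := fun i => v i t)
    fun i => ⟨E i t, hv i t⟩
  have hS : (insert x (⋃ t, Set.range fun σ : Λ ≃ₐ[K] Λ => σ ∘ v₀ t)).Finite :=
    (Set.finite_iUnion fun t => conj_finite' (v₀ t)).insert x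
  have m0 : x ∈ hS.toFinset := hS.mem_toFinset.2 (Set.mem_insert _ _)
  have m1 : ∀ t (σ : Λ ≃ₐ[K] Λ), σ ∘ v₀ t ∈ hS.toFinset := fun t σ =>
    hS.mem_toFinset.2 (Set.mem_insert_of_mem _ (Set.mem_iUnion.2 ⟨t, σ, rfl⟩))
  obtain ⟨𝒞, hin, hsep, -⟩ := hJ.ex hS.toFinset ⟨x, m0⟩ fun y hy => by
    rcases hS.mem_toFinset.1 hy with rfl | hy
    · exact ⟨hx.ne, hx.on⟩
    · obtain ⟨t, σ, rfl⟩ := Set.mem_iUnion.1 hy
      exact real_gal (hv₀ t) σ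
  have hin0 : ∀ t, 𝒞.In (v₀ t) := fun t => hin _ (m1 t 1)
  set F : Set (Λ × Λ) := ⋃ t, orQ (⊥ : IntermediateField K Λ) (𝒞.pt (v₀ t)) with hF
  have hFm : ∀ Q ∈ F, ∃ (t : Fin e) (σ : Λ ≃ₐ[K] Λ), Q = 𝒞.pt (σ ∘ v₀ t) := fun Q hQ => by
    obtain ⟨t, σ, -, rfl⟩ := Set.mem_iUnion.1 hQ
    exact ⟨t, σ, (𝒞.pt_gal σ _).symm⟩
  have hr : ∀ i t, ∃ r : ℕ, 𝒞.In (v i t) → pc J (E i t) (v i t) =
      𝒞.cur.cl ⊥ (r • odv (⊥ : IntermediateField K Λ) (𝒞.pt (v i t))) := fun i t => by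
    by_cases h : 𝒞.In (v i t)
    · have := (hv i t).1
      have h1 := 𝒞.pt_mem (hv i t).2.2.1.mem
      obtain ⟨r, hr⟩ := (𝒞.cur_ov ⊥).exists_nat (L' := E i t) bot_le (h.gp (hv i t).2.2.1.on)
        h1.1 h1.2
      exact ⟨r, fun _ => (h.pc_pt (hv i t).2.2.1.on _).symm.trans hr⟩
    · exact ⟨0, fun h' => absurd h' h⟩
  choose r hr using hr
  set D : ι → Λ × Λ →₀ ℤ := fun i =>
    ∑ t, c i t • r i t • odv (⊥ : IntermediateField K Λ) (𝒞.pt (v i t)) with hD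
  have hev : ∀ᶠ i in U, ∀ t, 𝒞.In (v i t) :=
    eventually_all.2 fun t => (hlim t).eventually (real_in 𝒞 (hin0 t))
  have hcl : ∀ i, (∀ t, 𝒞.In (v i t)) → w i = 𝒞.cur.cl ⊥ (D i) := fun i hi => by
    rw [hs i, hD, map_sum]
    exact Finset.sum_congr rfl fun t _ => by rw [hr i t (hi t), ← map_nsmul]
  have hcv : Cnv L 𝒞.cur.c.χ F U D e := by
    refine ⟨hev.mono fun i hi => ⟨RatD.mono bot_le (sum_mem fun t _ =>
      nsmul_mem (nsmul_mem (odv_mem _ _) _) _), Finset.sum_nonneg fun t _ =>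
        nsmul_nonneg (nsmul_nonneg (odv_nonneg _ _) _) _, ?_, fun Q hQ => ?_⟩, fun V hV => ?_⟩
    · have h1 := (hw i).2
      rwa [hcl i hi, XC.cl_snd, IntermediateField.finrank_bot, Nat.cast_one, one_mul] at h1
    · have h1 : D i ∈ 𝒞.cur.c.Dv := sum_mem fun t _ => nsmul_mem (nsmul_mem
        ((𝒞.cur_ov ⊥).odv_mem_Dv ((hi t).gp (hv i t).2.2.1.on)) _) _
      exact (h1 Q hQ).1
    · have h1 : ∀ᶠ i in U, ∀ t, orQ (⊥ : IntermediateField K Λ) (𝒞.pt (v i t)) ⊆ V :=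
        eventually_all.2 fun t => conj_near ((real_pt 𝒞 (hin0 t)).tendsto.comp (hlim t))
          (nhdsSet_mono (Set.subset_iUnion (fun t => orQ (⊥ : IntermediateField K Λ)
            (𝒞.pt (v₀ t))) t) hV)
      refine h1.mono fun i hi Q hQ => ?_
      rw [hD, Finsupp.finsetSum_apply] at hQ
      obtain ⟨t, -, h2⟩ := Finset.exists_ne_zero_of_sum_ne_zero hQ
      refine hi t (odv_ne_zero.1 fun h3 => h2 ?_)
      rw [Finsupp.smul_apply, Finsupp.smul_apply, h3, smul_zero, smul_zero]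
  have hm := 𝒞.pt_mem hx.mem
  obtain ⟨D₀, h1, h2, h3, h4⟩ := near_div 𝒞.cur (𝒞.cur_ov L) 𝒞.cur_irr _ (𝒞.cur_map L)
    (Q₀ := (⟨_, hm.1⟩, ⟨_, hm.2⟩))
    ((gp_map (algebraMap L Λ)).1 (𝒞.cur_map L ▸ (hin x m0).gp hx.on))
    (Set.finite_iUnion fun t => orQ_finite _ _)
    (fun Q hQ => by
      obtain ⟨t, σ, rfl⟩ := hFm Q hQ
      exact (hin _ (m1 t σ)).gp (real_gal (hv₀ t) σ).2)
    (fun Q hQ Q' hQ' => by
      obtain ⟨t, ht⟩ := Set.mem_iUnion.1 hQ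
      obtain ⟨σ, -, rfl⟩ := hQ'
      exact Set.mem_iUnion.2 ⟨t, orQ_eq ht ▸ ⟨σ, Fix.bot σ, rfl⟩⟩)
    (fun Q hQ Q' hQ' h => by
      obtain ⟨t, σ, rfl⟩ := hFm Q hQ
      obtain ⟨t', σ', rfl⟩ := hFm Q' hQ'
      exact Prod.ext h (hsep _ (m1 t σ) _ (m1 t' σ')
        (funext fun j => by rw [Subsingleton.elim j 0]; exact h))) hcv
  refine ⟨𝒞.cur.cl L D₀, (𝒞.cur_ov L).cl_mem h1 h2, by rw [XC.cl_snd, h3], fun B _ φ hφ => ?_⟩
  filter_upwards [hev, h4 B φ hφ] with i hi h5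
  rw [hcl i hi, ← XC.cl_bot, h5]

/-- limits of classes of degree zero exist on a curve with a class of degree one -/
theorem Crv.real (hJ : Crv k Λ J) {y : VV Λ J} (hy : y ∈ Atot Λ J) (h1 : y.2 = 1)
    (U : Ultrafilter ι) {z : ι → VV Λ J} (hz : ∀ i, z i ∈ Azero Λ J) :
    ∃ z₀ ∈ Azero Λ J, ∀ (B : Type) [AddCommGroup B] (φ : VV Λ J →+ B), LC φ →
      ∀ᶠ i in U, φ (z i) = φ z₀ := by
  obtain ⟨c, hc⟩ := hJ.bdd
  have h0 : c ∈ EffM Λ J := zero_add c ▸ hc 0 (zero_mem _)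
  obtain ⟨e, he⟩ := Int.eq_ofNat_of_zero_le (real_deg h0)
  obtain ⟨T, _, L, v, m, hL, rfl⟩ := exists_sum hy
  have h2 : ∑ j, m j * (finrank K (L j) : ℤ) = 1 := by
    simpa only [Prod.snd_sum, Prod.smul_snd, pc_snd, smul_eq_mul] using h1
  choose w hw hd hl using fun j => haveI := (hL j).1
    hJ.lim_eff (hL j).2 U (w := fun i => z i + c) (e := e) fun i =>
      ⟨hc _ (hz i), by rw [Prod.snd_add, (mem_azero.1 (hz i)).2, zero_add, he]⟩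
  refine ⟨∑ j, m j • w j - c, mem_azero.2
    ⟨sub_mem (sum_mem fun j _ => zsmul_mem (hw j) _) (eff_le_atot h0), ?_⟩, fun B _ φ hφ => ?_⟩
  · simp only [Prod.snd_sub, Prod.snd_sum, Prod.smul_snd, hd, smul_eq_mul, ← mul_assoc]
    rw [← Finset.sum_mul, h2, one_mul, he, sub_self]
  · filter_upwards [eventually_all.2 fun j => hl j B φ hφ] with i hi
    simp only [map_sub, map_sum, map_zsmul, ← hi, ← natCast_zsmul, ← mul_zsmul]
    rw [← Finset.sum_smul, h2, one_zsmul, map_add, add_sub_cancel_right]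

end Pool.Agent.ZFy.U
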