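import Pool.Agent.Lib.MP_751085_ag.ZF.U.Ps
import Pool.Agent.Lib.MP_751085_ag.ZF.U.Real
import Pool.Agent.Lib.MP_751085_ag.ZF.U.Cover
import Pool.Agent.Lib.MP_751085_ag.ZF.U.LApi

/-! Block U in any characteristic: the exported statements. -/

namespace Pool.Agent.ZCy.F.Uw

open Pool.Agent.ZFN Pool.Agent.ZFy.U Module Filter Topology
open scoped Classical IntermediateField

variable {k : Type} [Field k] {X : Var k} {K : Type} [Field K] [Algebra k K] {a : BR X.F}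
  {ν : AbsoluteValue (Cb K) ℝ}

theorem lc_up (h : X.LC) (ha : a ∈ X.Bw) (hν : LocAbv K ν) {L : IntermediateField K (Cb K)}
    (hL : FiniteDimensional K L) {v₀ : Fin (X.N + 1) → L} (h₀ : X.On (ZFy.U.up v₀)) :
    letI := ν.toNormedField
    ∀ᶠ v in 𝓝 v₀, X.On (ZFy.U.up v) → X.ptv a L (ZFy.U.up v) = X.ptv a L (ZFy.U.up v₀) := by
  let := ν.toNormedField
  obtain ⟨_, _⟩ := hν
  let := nnf L
  have := ZFy.U.LocF.proper L hL
  have : IsUltrametricDist L := ⟨fun x y z => IsUltrametricDist.dist_triangle_max (x : Cb K) y z⟩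
  refine (h a ha L v₀ (on_up.1 h₀)).mono fun v hv h1 => ?_
  rw [ptv_up, ptv_up, hv (on_up.1 h1)]

theorem near_ball {N : ℕ} {L : IntermediateField K (Cb K)} {x : Fin (N + 1) → L} {ε : ℝ}
    (hε : 0 < ε) {x' : Fin (N + 1) → Cb K} (h : Near ν ε L (ZFy.U.up x) x') :
    letI := ν.toNormedField
    (fun i => (⟨x' i, (h i).1⟩ : L)) ∈ Metric.ball x ε := by
  let := ν.toNormedField
  exact (dist_pi_lt_iff hε).2 fun i => (mem_ball_iff_norm (a := x i)).2 (h i).2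

theorem uapi_of (h1 : EV) (h3 : LCA) : UAPI := by
  intro k _ _ X n hX σ _ hσ K _ _ ν hν
  refine ⟨fun a ha L x hL hx h => ?_, uapi_locf hX hσ hν, uapi_ift hX hσ hν⟩
  let := ν.toNormedField
  obtain ⟨ε, hε, H⟩ := Metric.eventually_nhds_iff_ball.1
    (lc_up (h3 k X (h1 k X n hX (by omega))) ha hν hL (v₀ := fun i => ⟨x i, hx i⟩) h)
  exact ⟨ε, hε, fun x' h' h'' => H _ (near_ball hε h') h''⟩

theorem real_of (h1 : EV) (h2 : WR) (h3 : LCA) : REAL := by
  intro k _ _ X n hX hn C hC hs K _ _ ν hν ⟨y, hy⟩ ι U z hz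
  have A := h1 k X n hX hn
  let := ν.toNormedField
  have := hν.2
  obtain ⟨w, hw, h⟩ := (crv_of hC K).real (cyc_mem y) ((cyc_snd y).trans hy) U
    (z := fun i => cyc _ K (z i)) fun i => mem_azero.2 ⟨cyc_mem _, (cyc_snd _).trans (hz i)⟩
  obtain ⟨z₀, rfl⟩ := cyc_surj hw.1
  refine ⟨z₀, (cyc_snd z₀).symm.trans hw.2, fun a ha => ?_⟩
  obtain ⟨B, _, χ, φ, hχ, hp, hc⟩ := exists_rep K h2 A hs ha
  refine (h B φ fun L v₀ hL hv => ?_).mono fun i e => hχ ((hc _).symm.trans (e.trans (hc _)))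
  have h0 : v₀ ≠ 0 := fun e => hv.ne (by rw [e]; rfl)
  filter_upwards [lc_up (h3 k X A) ha hν hL (sub_on hs hv), eventually_ne_nhds h0] with v h4 h5 h6
  have h7 : PtL (C.var.JK K) L (ZFy.U.up v) :=
    ⟨fun e => h5 (funext fun i => Subtype.ext (congrFun e i)), h6, fun i => (v i).2⟩
  rw [hp L _ hL h7, hp L _ hL hv, h4 (sub_on hs h7)]

theorem cover_of (h1 : EV) (h2 : WR) : COVER := by
  intro k _ _ X n hX hn K _ _ ν hν z M hM
  have A := h1 k X n hX hn
  let := ν.toNormedField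
  have := hν.2
  obtain ⟨T, _, L, x, W, h, hc⟩ := (charts_of hX hn K).cover_cls (cyc_mem z) (M := M)
    (by rwa [← map_natCast (algebraMap K (Cb K)), _root_.map_ne_zero])
  obtain ⟨ε, hε, hW⟩ : ∃ ε > 0, ∀ j, Metric.ball (x j) ε ⊆ W j := by
    have h3 : ∀ᶠ ε in 𝓝[>] (0 : ℝ), ∀ j, Metric.ball (x j) ε ⊆ W j :=
      eventually_all.2 fun j => (eventually_ball_subset (h j).2.2).filter_mono
        nhdsWithin_le_nhds
    obtain ⟨ε, h4, h5⟩ := (h3.and self_mem_nhdsWithin).exists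
    exact ⟨ε, h5, h4⟩
  refine ⟨⟨T, L, fun j => ZFy.U.up (x j), ε, fun j => (h j).1, fun j i => (x j i).2,
    fun j => ((ptL_iff X K _ _).1 (h j).2.1).1, hε⟩, fun C hC hT r => ?_⟩
  choose x' hn hon using hT
  have hp := fun j => (ptL_iff X K (L j) (x' j)).2 ⟨hC _ _ (hon j), fun i => (hn j i).1⟩
  obtain ⟨c, w, hw, e⟩ := hc (fun j i => ⟨x' j i, (hn j i).1⟩)
    (fun j => ⟨hW j (near_ball hε (hn j)), hp j⟩) r
  choose y hy1 hy2 using fun j =>
    (have := (h j).1; ptc A hC (L := L j) (fun i => (hn j i).1) (hon j))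
  obtain ⟨u, rfl⟩ := cyc_surj hw.1
  replace e : M ^ r • cyc X K u = cyc X K z - ∑ j, c j • pc (X.JK K) (L j) (x' j) := e
  refine ⟨∑ j, c j • y j, ?_, fun a ha h0 => ?_⟩
  · have e1 := congrArg Prod.snd e
    rw [Prod.smul_snd, show (cyc X K u).2 = 0 from hw.2, smul_zero, Prod.snd_sub, cyc_snd,
      Prod.snd_sum, eq_comm, sub_eq_zero] at e1
    rw [e1, ← degH_apply, map_sum]
    exact Finset.sum_congr rfl fun j _ => by
      rw [map_zsmul, degH_apply, hy1, Prod.smul_snd, pc_snd]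
  · obtain ⟨B, _, χ, φ, hχ, hq, hcy⟩ := exists_rep K h2 A sub_slf ha
    have e1 := congrArg φ e
    have e2 : M ^ r • X.prG (C := slf X) u a = 0 := by
      rw [← prG_nsmul A sub_slf ha, h0, ← zero_nsmul a, prG_nsmul A sub_slf ha, zero_nsmul]
    rw [map_nsmul, map_sub, map_sum, hcy, hcy, ← map_nsmul, e2, map_zero, eq_comm,
      sub_eq_zero] at e1
    refine hχ (Eq.trans ?_ e1.symm)
    change (χ.comp (prH K C a)) _ = _
    rw [map_sum]
    refine Finset.sum_congr rfl fun j _ => ?_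
    rw [map_zsmul, map_zsmul, hq _ _ (h j).1 (hp j), ← hy2 j a ha]
    rfl

end Pool.Agent.ZCy.F.Uw
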