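import Pool.Agent.Lib.MP_751085_ag.ZF.U.Odv

/-! The degree of a closed point at which the first coordinate is an etale parameter. -/

namespace Pool.Agent.ZFy.U

open Polynomial Module Pool.Agent.ZeroCyc
open scoped Classical IntermediateField

set_option linter.unusedSectionVars false

variable {K Λ : Type} [Field K] [Field Λ] [IsAlgClosed Λ] [Algebra K Λ] [Normal K Λ]
  {L : IntermediateField K Λ}

/-- The number of roots times the common multiplicity is the degree. -/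
theorem card_roots (L : IntermediateField K Λ) (t : Λ) :
    (minpoly L t).natSepDegree * qq L t = (minpoly L t).natDegree := by
  have h0 : (minpoly L t).map (algebraMap L Λ) ≠ 0 :=
    Polynomial.map_ne_zero (minpoly.ne_zero (ins_int L t))
  have h1 : ((minpoly L t).aroots Λ).card = (minpoly L t).natDegree := by
    rw [aroots_def, ← (IsAlgClosed.splits ((minpoly L t).map (algebraMap L Λ))).natDegree_eq_card_roots,
      natDegree_map]
  rw [natSepDegree_eq_of_isAlgClosed Λ, ← h1, ← Multiset.toFinset_sum_count_eq, ← smul_eq_mul,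
    ← Finset.sum_const]
  refine Finset.sum_congr rfl fun s hs => ?_
  rw [Multiset.mem_toFinset, mem_aroots] at hs
  rw [aroots_def, count_roots, qq_root hs.2]

theorem card_conj (L : IntermediateField K Λ) (t : Λ) :
    {s | ∃ σ : Λ ≃ₐ[K] Λ, Fix L σ ∧ s = σ t}.ncard = (minpoly L t).natSepDegree := by
  rw [natSepDegree_eq_of_isAlgClosed Λ, ← Set.ncard_coe_finset]
  refine congrArg Set.ncard (Set.ext fun s => ?_)
  rw [Finset.mem_coe, Multiset.mem_toFinset, mem_aroots]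
  constructor
  · rintro ⟨σ, hσ, rfl⟩
    refine ⟨minpoly.ne_zero (ins_int L t), ?_⟩
    rw [← minpoly_fix hσ t]
    exact minpoly.aeval L _
  · exact fun h => exists_fix_root h.2

theorem card_finrank (L : IntermediateField K Λ) (t : Λ) :
    finrank K (L ⊔ K⟮t⟯ : IntermediateField K Λ) = finrank K L * (minpoly L t).natDegree := by
  rw [← IntermediateField.restrictScalars_adjoin_eq_sup,
    ← IntermediateField.adjoin.finrank (ins_int L t)]
  exact (Module.finrank_mul_finrank K L L⟮t⟯).symm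

theorem card_fix {σ : Λ ≃ₐ[K] Λ} {t : Λ} (h : Fix L σ) (ht : σ t = t) : Fix (L ⊔ K⟮t⟯) σ := by
  have h1 : L ⊔ K⟮t⟯ ≤ IntermediateField.fixedField (Subgroup.zpowers σ) := by
    have e : ∀ x, σ x = x → x ∈ IntermediateField.fixedField (Subgroup.zpowers σ) := by
      intro x hx
      rw [IntermediateField.mem_fixedField_iff]
      intro f hf
      have : Subgroup.zpowers σ ≤ MulAction.stabilizer (Λ ≃ₐ[K] Λ) x := by
        rw [Subgroup.zpowers_le]
        exact hx
      exact this hf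
    refine sup_le (fun x hx => e x (h x hx)) ?_
    rw [IntermediateField.adjoin_simple_le_iff]
    exact e t ht
  intro x hx
  exact (IntermediateField.mem_fixedField_iff _ x).1 (h1 hx) σ (Subgroup.mem_zpowers σ)

theorem card_orQ (L : IntermediateField K Λ) (Q : Λ × Λ) :
    (orQ L Q).ncard = (minpoly L Q.1).natSepDegree *
      (minpoly (L ⊔ K⟮Q.1⟯ : IntermediateField K Λ) Q.2).natSepDegree := by
  have hs : ∀ a : Λ, ∃ s : Λ ≃ₐ[K] Λ,
      (∃ σ : Λ ≃ₐ[K] Λ, Fix L σ ∧ a = σ Q.1) → Fix L s ∧ a = s Q.1 := by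
    intro a
    by_cases h : ∃ σ : Λ ≃ₐ[K] Λ, Fix L σ ∧ a = σ Q.1
    · obtain ⟨σ, hσ⟩ := h
      exact ⟨σ, fun _ => hσ⟩
    · exact ⟨1, fun h' => (h h').elim⟩
  choose s hs using hs
  have hinj : Function.Injective fun z : Λ × Λ => (z.1, s z.1 z.2) := by
    rintro ⟨a, b⟩ ⟨c, d⟩ h
    obtain ⟨h1, h2⟩ := Prod.mk.inj h
    dsimp only at h1 h2
    subst h1
    rw [(s a).injective h2]
  rw [← card_conj, ← card_conj, ← Set.ncard_prod]
  refine Eq.trans ?_ (Set.ncard_image_of_injective _ hinj)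
  refine congrArg Set.ncard (Set.ext fun Q' => ?_)
  constructor
  · rintro ⟨σ, hσ, rfl⟩
    obtain ⟨h1, h2⟩ := hs (σ Q.1) ⟨σ, hσ, rfl⟩
    refine ⟨(σ Q.1, ((s (σ Q.1))⁻¹ * σ) Q.2), ⟨⟨σ, hσ, rfl⟩, _, card_fix (h1.inv.mul hσ) ?_, rfl⟩, ?_⟩
    · exact (s (σ Q.1)).symm_apply_eq.2 h2
    · exact Prod.ext rfl ((s (σ Q.1)).apply_symm_apply _)
  · rintro ⟨⟨a, b⟩, ⟨ha, τ, hτ, hb⟩, rfl⟩
    obtain ⟨h1, h2⟩ := hs a ha
    dsimp only at hb
    refine ⟨s a * τ, h1.mul (hτ.mono le_sup_left), Prod.ext ?_ ?_⟩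
    · have h3 : τ Q.1 = Q.1 := hτ _
        ((le_sup_right : K⟮Q.1⟯ ≤ L ⊔ K⟮Q.1⟯) (IntermediateField.mem_adjoin_simple_self K Q.1))
      change a = s a (τ Q.1)
      rw [h3]
      exact h2
    · change s a b = s a (τ Q.2)
      rw [hb]

theorem card_qq {χ : Λ[X][X]} (hχ : Ovv L χ) {Q : Λ × Λ} (hQ : Et χ Q) :
    qq (L ⊔ K⟮Q.1⟯) Q.2 = 1 := by
  have h1 : Over (L ⊔ K⟮Q.1⟯) (χ.map (evalRingHom Q.1)) := by
    intro n
    rw [coeff_map]
    exact ((hχ n).mono le_sup_left).eval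
      ((le_sup_right : K⟮Q.1⟯ ≤ L ⊔ K⟮Q.1⟯) (IntermediateField.mem_adjoin_simple_self K Q.1))
  have h2 : (χ.map (evalRingHom Q.1)).eval Q.2 = 0 := by
    have := hQ.1
    rwa [ee, e2, coe_eval₂RingHom, eval₂_eq_eval_map] at this
  have h3 : (derivative (χ.map (evalRingHom Q.1))).eval Q.2 ≠ 0 := by
    have := hQ.2
    rw [ee, e2, coe_eval₂RingHom, eval₂_eq_eval_map] at this
    rwa [derivative_map]
  have h0 : χ.map (evalRingHom Q.1) ≠ 0 := by
    intro h
    rw [h, derivative_zero, eval_zero] at h3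
    exact h3 rfl
  have h4 : (χ.map (evalRingHom Q.1)).rootMultiplicity Q.2 = 1 := by
    refine le_antisymm (not_lt.1 fun h => h3 ?_) ((rootMultiplicity_pos h0).2 h2)
    exact ((one_lt_rootMultiplicity_iff_isRoot h0).1 h).2
  have := qq_dvd h1 Q.2
  rwa [h4, Nat.dvd_one] at this

/-- The orbit is counted along the fibres of the first projection. -/
theorem orb_card [FiniteDimensional K L] {χ : Λ[X][X]} (hχ : Ovv L χ) {Q : Λ × Λ} (hQ : Et χ Q) :
    (orQ L Q).ncard * qq L Q.1 * finrank K L = finrank K (fld L Q) := by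
  have e : fld L Q = (L ⊔ K⟮Q.1⟯) ⊔ K⟮Q.2⟯ := by
    rw [fld, sup_assoc, ← IntermediateField.adjoin_union]
    rfl
  have h2 := card_roots (L ⊔ K⟮Q.1⟯) Q.2
  rw [card_qq hχ hQ, mul_one] at h2
  rw [e, card_finrank, card_finrank, card_orQ, h2, ← card_roots L Q.1]
  ring

end Pool.Agent.ZFy.U
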