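import Pool.Agent.Lib.MP_751085_ag.ZF.U.Defs

/-! Conjugates and multiplicities over fields that need not be perfect. -/

namespace Pool.Agent.ZFy.U

open Polynomial Module Pool.Agent.ZeroCyc
open scoped Classical IntermediateField

set_option linter.unusedSectionVars false

variable {K Λ : Type} [Field K] [Field Λ] [IsAlgClosed Λ] [Algebra K Λ] [Normal K Λ]
  {L L' : IntermediateField K Λ} {σ : Λ ≃ₐ[K] Λ} {t s : Λ}

theorem ins_int (L : IntermediateField K Λ) (x : Λ) : IsIntegral L x :=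
  (Algebra.IsAlgebraic.isAlgebraic (R := L) x).isIntegral

theorem exists_ext (ψ : L →ₐ[K] Λ) : ∃ σ : Λ ≃ₐ[K] Λ, ∀ x : L, σ x = ψ x :=
  ⟨AlgEquiv.ofBijective (ψ.liftNormal Λ) (AlgHom.normal_bijective K Λ Λ _),
    fun x => ψ.liftNormal_commutes Λ x⟩

/-- The range of `f` is an intermediate field and `g` factors through it. -/
theorem exists_fix_of_ker {A : Type} [CommRing A] (f g : A →+* Λ)
    (hL : ∀ x ∈ L, ∃ a, f a = x ∧ g a = x) (h : ∀ a, f a = 0 → g a = 0) :
    ∃ σ : Λ ≃ₐ[K] Λ, Fix L σ ∧ ∀ a, g a = σ (f a) := by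
  let S : Subalgebra K Λ := { f.range.toSubsemiring with
    algebraMap_mem' := fun c => (hL _ (L.algebraMap_mem c)).imp fun _ ha => ha.1 }
  let M : IntermediateField K Λ := S.toIntermediateField fun x hx =>
    S.inv_mem_of_algebraic (x := ⟨x, hx⟩) (Algebra.IsAlgebraic.isAlgebraic x)
  let f' : A →+* M := f.codRestrict M fun a => ⟨a, rfl⟩
  have hs : Function.Surjective f' := fun y => by
    obtain ⟨a, ha⟩ : ∃ a, f a = y := y.2
    exact ⟨a, Subtype.ext ha⟩
  let k : M →+* Λ := f'.liftOfSurjective hs ⟨g, fun a ha => h a (congrArg Subtype.val ha)⟩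
  have hk : ∀ a, k (f' a) = g a := fun a => RingHom.liftOfRightInverse_comp_apply _ _ _ _ a
  obtain ⟨σ, hσ⟩ := exists_ext (L := M) { k with
    commutes' := fun c => by
      obtain ⟨a, h1, h2⟩ := hL _ (L.algebraMap_mem c)
      rw [← h2, ← hk]
      exact congrArg k (Subtype.ext h1.symm) }
  have key : ∀ a, g a = σ (f a) := fun a => ((hσ (f' a)).trans (hk a)).symm
  refine ⟨σ, fun x hx => ?_, key⟩
  obtain ⟨a, h1, h2⟩ := hL x hx
  rw [← h1, ← key, h1, h2]

theorem exists_fix_root (h : aeval s (minpoly L t) = 0) : ∃ σ : Λ ≃ₐ[K] Λ, Fix L σ ∧ s = σ t := by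
  obtain ⟨σ, h1, h2⟩ := exists_fix_of_ker (L := L) (aeval (R := L) t).toRingHom
    (aeval (R := L) s).toRingHom (fun x hx => ⟨C ⟨x, hx⟩, aeval_C _ _, aeval_C _ _⟩) fun a ha => by
      obtain ⟨b, rfl⟩ := minpoly.dvd L t ha
      exact (map_mul _ _ _).trans (mul_eq_zero_of_left h _)
  exact ⟨σ, h1, by simpa using h2 X⟩

theorem minpoly_fix (hσ : Fix L σ) (t : Λ) : minpoly L (σ t) = minpoly L t :=
  minpoly.algEquiv_eq ({ σ.toRingEquiv with commutes' := fun x => hσ x x.2 } : Λ ≃ₐ[L] Λ) t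

theorem over_map (g : L[X]) : Over L (g.map (algebraMap L Λ)) := fun n => by
  rw [coeff_map]
  exact (g.coeff n).2

theorem ins_ne (L : IntermediateField K Λ) (t : Λ) : (minpoly L t).map (algebraMap L Λ) ≠ 0 :=
  map_monic_ne_zero (minpoly.monic (ins_int L t))

theorem qq_pos (L : IntermediateField K Λ) (t : Λ) : 0 < qq L t :=
  (rootMultiplicity_pos (ins_ne L t)).2 (by rw [IsRoot, eval_map_algebraMap, minpoly.aeval])

theorem qq_gal (hσ : Fix L σ) (t : Λ) : qq L (σ t) = qq L t := by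
  rw [qq, qq, minpoly_fix hσ, eq_rootMultiplicity_map (f := (σ : Λ →+* Λ)) σ.injective t,
    (over_map _).map_eq hσ]
  rfl

theorem qq_of_mem (h : t ∈ L) : qq L t = 1 := by
  have e : minpoly L t = X - C ⟨t, h⟩ := minpoly.eq_X_sub_C Λ (⟨t, h⟩ : L)
  rw [qq, e, Polynomial.map_sub, map_X, map_C]
  exact rootMultiplicity_X_sub_C_self

theorem qq_pow (L : IntermediateField K Λ) (t : Λ) (j : ℕ) :
    ((minpoly L t ^ j).map (algebraMap L Λ)).rootMultiplicity t = j * qq L t := by
  rw [Polynomial.map_pow]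
  induction j with
  | zero => rw [pow_zero, zero_mul, ← C_1, rootMultiplicity_C]
  | succ j ih =>
    rw [pow_succ, rootMultiplicity_mul (mul_ne_zero (pow_ne_zero _ (ins_ne L t)) (ins_ne L t)), ih,
      add_mul, one_mul, qq]

/-- every root of the minimal polynomial has the same multiplicity -/
theorem qq_root (h : aeval s (minpoly L t) = 0) :
    ((minpoly L t).map (algebraMap L Λ)).rootMultiplicity s = qq L t := by
  obtain ⟨σ, h1, rfl⟩ := exists_fix_root h
  rw [← qq_gal h1, qq, minpoly_fix h1]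

theorem qq_dvd {μ : Λ[X]} (hμ : Over L μ) (t : Λ) : qq L t ∣ μ.rootMultiplicity t := by
  obtain ⟨g, rfl⟩ := hμ.exists_map
  rcases eq_or_ne g 0 with rfl | h0
  · simp
  obtain ⟨j, a, h1, rfl⟩ := WfDvdMonoid.max_power_factor h0 (minpoly.irreducible (ins_int L t))
  have h2 : (a.map (algebraMap L Λ)).rootMultiplicity t = 0 := rootMultiplicity_eq_zero fun h =>
    h1 (minpoly.dvd L t (by rwa [IsRoot.def, eval_map_algebraMap] at h))
  have h3 := (Polynomial.map_ne_zero_iff (algebraMap L Λ).injective).2 h0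
  rw [Polynomial.map_mul] at h3 ⊢
  rw [rootMultiplicity_mul h3, qq_pow, h2, add_zero]
  exact dvd_mul_left _ _

theorem qq_mono (h : L ≤ L') (t : Λ) : qq L' t ∣ qq L t := qq_dvd ((over_map _).mono h) t

/-- strong induction on the degree: the minimal polynomial of a root divides `μ` -/
theorem over_of_qq {μ : Λ[X]} (hm : μ.Monic)
    (hinv : ∀ σ : Λ ≃ₐ[K] Λ, Fix L σ → μ.map (σ : Λ →+* Λ) = μ)
    (h : ∀ t, qq L t ∣ μ.rootMultiplicity t) : Over L μ := by
  induction hn : μ.natDegree using Nat.strong_induction_on generalizing μ with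
  | _ n ih =>
  rcases Nat.eq_zero_or_pos μ.natDegree with h0 | h0
  · rw [hm.natDegree_eq_zero.1 h0, ← C_1]
    exact over_C L.one_mem
  obtain ⟨t, ht⟩ := IsAlgClosed.exists_root μ (natDegree_pos_iff_degree_pos.1 h0).ne'
  have m1 := (minpoly.monic (ins_int L t)).map (algebraMap L Λ)
  obtain ⟨ν, e⟩ : (minpoly L t).map (algebraMap L Λ) ∣ μ := by
    refine (IsAlgClosed.splits _).dvd_of_roots_le_roots m1.ne_zero
      (Multiset.le_iff_count.2 fun s => ?_)
    rw [count_roots, count_roots]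
    by_cases hs : aeval s (minpoly L t) = 0
    · obtain ⟨σ, h1, rfl⟩ := exists_fix_root hs
      rw [qq_root hs, ← qq_gal h1]
      refine Nat.le_of_dvd ((rootMultiplicity_pos hm.ne_zero).2 ?_) (h _)
      rw [← hinv σ h1]
      exact ht.map (f := (σ : Λ →+* Λ))
    · rw [rootMultiplicity_eq_zero fun h => hs (by rwa [IsRoot.def, eval_map_algebraMap] at h)]
      exact Nat.zero_le _
  have m2 : ν.Monic := m1.of_mul_monic_left (e ▸ hm)
  rw [e]
  refine (over_map _).mul (ih _ ?_ m2 (fun σ h1 => mul_left_cancel₀ m1.ne_zero ?_) (fun s => ?_) rfl)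
  · rw [← hn, e, m1.natDegree_mul m2, natDegree_map]
    exact Nat.lt_add_of_pos_left (minpoly.natDegree_pos (ins_int L t))
  · conv_rhs => rw [← e, ← hinv σ h1, e, Polynomial.map_mul, (over_map _).map_eq h1]
  · have := h s
    rw [e, rootMultiplicity_mul (e ▸ hm.ne_zero)] at this
    exact (Nat.dvd_add_right (qq_dvd (over_map _) s)).1 this

/-- the minimal polynomial has the single simple root `x` -/
theorem mem_of_sep {g : Λ[X]} (hg : Over L g) {x : Λ} (h0 : g.eval x = 0)
    (h1 : (derivative g).eval x ≠ 0) (hx : ∀ σ : Λ ≃ₐ[K] Λ, Fix L σ → σ x = x) : x ∈ L := by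
  have g0 : g ≠ 0 := fun h => h1 (by simp [h])
  have q1 : qq L x ≤ 1 := (Nat.le_of_dvd ((rootMultiplicity_pos g0).2 h0) (qq_dvd hg x)).trans
    (not_lt.1 fun h => h1 ((one_lt_rootMultiplicity_iff_isRoot g0).1 h).2)
  have d1 : (minpoly L x).natDegree ≤ 1 := by
    rw [← natDegree_map (algebraMap L Λ), (IsAlgClosed.splits _).natDegree_eq_card_roots,
      ← (Multiset.count_eq_card (a := x)).2 fun s hs => ?_, count_roots]
    · exact q1
    · obtain ⟨σ, h2, rfl⟩ := exists_fix_root (L := L) (t := x) (s := s)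
        (by rw [← eval_map_algebraMap]; exact isRoot_of_mem_roots hs)
      exact (hx σ h2).symm
  obtain ⟨y, rfl⟩ := minpoly.natDegree_eq_one_iff.1
    (le_antisymm d1 (minpoly.natDegree_pos (ins_int L x)))
  exact y.2

/-- finitely many elements lie in a finite extension of `L` -/
theorem exists_fld [FiniteDimensional K L] (s : Finset Λ) : ∃ L' : IntermediateField K Λ,
    L ≤ L' ∧ FiniteDimensional K L' ∧ ∀ x ∈ s, x ∈ L' := by
  have := IntermediateField.finiteDimensional_adjoin (K := K) (S := (s : Set Λ))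
    fun x _ => (Algebra.IsAlgebraic.isAlgebraic (R := K) x).isIntegral
  exact ⟨L ⊔ IntermediateField.adjoin K s, le_sup_left, inferInstance, fun x hx =>
    (le_sup_right : _ ≤ L ⊔ _) (IntermediateField.subset_adjoin K _ hx)⟩

theorem conj_finite (x : Λ) : (Set.range fun σ : Λ ≃ₐ[K] Λ => σ x).Finite := by
  refine (rootSet_finite (minpoly K x) Λ).subset ?_
  rintro _ ⟨σ, rfl⟩
  exact mem_rootSet.2 ⟨minpoly.ne_zero (Algebra.IsAlgebraic.isAlgebraic (R := K) x).isIntegral,
    by rw [aeval_algHom_apply, minpoly.aeval, map_zero]⟩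

theorem conj_finite' {ι : Type} [Finite ι] (v : ι → Λ) :
    (Set.range fun σ : Λ ≃ₐ[K] Λ => σ ∘ v).Finite := by
  refine (Set.Finite.pi' fun i => conj_finite (K := K) (v i)).subset ?_
  rintro _ ⟨σ, rfl⟩ i
  exact ⟨σ, rfl⟩

end Pool.Agent.ZFy.U
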