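import Pool.Agent.Lib.MP_751085_ag.ZC.USys

/-! The polynomial system in Mumford form. -/

namespace Pool.Agent.ZFy.U

open Polynomial Pool.Agent.ZeroCyc Pool.Agent.ZCy.U
open scoped Classical

set_option linter.unusedSectionVars false

section

variable {S T I : Type} [CommRing S] [CommRing T] {m : ℕ}

/-- the polynomial with given coefficients -/
noncomputable def pol (a : Fin m → S) : S[X] := ∑ j : Fin m, monomial (j : ℕ) (a j)

/-- the monic polynomial with given coefficients -/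
noncomputable def mon (a : Fin m → S) : S[X] := X ^ m + pol a

theorem pol_map (ψ : S →+* T) (a : Fin m → S) : (pol a).map ψ = pol fun j => ψ (a j) := by
  simp [pol, Polynomial.map_sum]

theorem pol_coeff (a : Fin m → S) (j : Fin m) : (pol a).coeff j = a j := by
  simp [pol, coeff_monomial, Fin.val_inj]

theorem pol_coeff_of_le (a : Fin m → S) {j : ℕ} (h : m ≤ j) : (pol a).coeff j = 0 := by
  rw [pol, finsetSum_coeff]
  refine Finset.sum_eq_zero fun i _ => ?_
  rw [coeff_monomial, if_neg (by omega)]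

theorem pol_degree (a : Fin m → S) : (pol a).degree < m :=
  (degree_lt_iff_coeff_zero _ _).2 fun _ hj => pol_coeff_of_le a hj

theorem pol_self {η : S[X]} (h : η.degree < m) : (pol fun j : Fin m => η.coeff j) = η := by
  ext j
  by_cases hj : j < m
  · exact pol_coeff _ ⟨j, hj⟩
  · rw [pol_coeff_of_le _ (not_lt.1 hj), eq_comm]
    exact coeff_eq_zero_of_degree_lt (h.trans_le (by exact_mod_cast not_lt.1 hj))

theorem pol_zero : (pol fun _ : Fin m => (0 : S)) = 0 := by simp [pol]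

theorem mon_map (ψ : S →+* T) (a : Fin m → S) : (mon a).map ψ = mon fun j => ψ (a j) := by
  simp [mon, pol_map]

theorem mon_monic (a : Fin m → S) : (mon a).Monic := monic_X_pow_add (pol_degree a)

theorem mon_deg [Nontrivial S] (a : Fin m → S) : (mon a).IsMonicOfDegree m :=
  ⟨by rw [mon, natDegree_add_eq_left_of_degree_lt (by rw [degree_X_pow]; exact pol_degree a),
    natDegree_X_pow], mon_monic a⟩

theorem mon_self [Nontrivial S] {μ : S[X]} (h : μ.IsMonicOfDegree m) :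
    (mon fun j : Fin m => μ.coeff j) = μ := by
  ext j
  rcases lt_or_ge j m with hj | hj
  · rw [mon, coeff_add, coeff_X_pow, if_neg hj.ne, zero_add]
    exact pol_coeff _ ⟨j, hj⟩
  · exact (mon_deg _).coeff_eq h hj

theorem mon_one (a : Fin 1 → S) : mon a = X - C (-a 0) := by simp [mon, pol]

end

/-- The data of the system: `t`, `μ₁`, `μ₂` are parameters, `t'`, `η₁`, `η₂`, `β` unknowns. -/
structure Sd (I S : Type) [CommRing S] where
  t : I → S
  t' : I → S
  μ₁ : S[X]
  μ₂ : S[X]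
  η₁ : S[X]
  η₂ : S[X]
  β : S[X]

/-- `μ ∏ (X - t i) ^ M` -/
noncomputable def uu {I S : Type} [Fintype I] [CommRing S] (M : ℕ) (μ : S[X]) (t : I → S) : S[X] :=
  μ * ∏ i, (X - C (t i)) ^ M

namespace Sd

variable {I S T : Type} [Fintype I] [CommRing S] [CommRing T] (d : Sd I S) (c : Cv S) (M e : ℕ)

/-- change of the ring -/
noncomputable def map (ψ : S →+* T) : Sd I T where
  t := fun i => ψ (d.t i)
  t' := fun i => ψ (d.t' i)
  μ₁ := d.μ₁.map ψ
  μ₂ := d.μ₂.map ψ
  η₁ := d.η₁.map ψ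
  η₂ := d.η₂.map ψ
  β := d.β.map ψ

/-- both polynomials are monic of degree `e` -/
def Mon : Prop := d.μ₁.IsMonicOfDegree e ∧ d.μ₂.IsMonicOfDegree e

/-- the first polynomial -/
noncomputable def u₁ : S[X] := uu M d.μ₁ d.t

/-- the second polynomial -/
noncomputable def u₂ : S[X] := uu M d.μ₂ d.t'

/-- the function that vanishes on the other branches -/
noncomputable def a : S[X][X] := cmod (d.u₁ M) (kap c.χ d.η₁ * C d.β)

/-- the equations -/
structure Eqs : Prop where
  e₁ : d.u₁ M ∣ c.χ.eval d.η₁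
  e₂ : d.u₂ M ∣ c.χ.eval d.η₂
  e₃ : d.u₂ M ∣ (c.G (d.u₁ M) (d.a c M)).eval d.η₂
  wl : WL c.b c.w (M * Fintype.card I + e) (d.a c M)

/-- the equations as a family of elements -/
noncomputable def eqs : EqI (M * Fintype.card I + e) c.δ c.b c.w → S
  | .inl j => (c.χ.eval d.η₁ %ₘ d.u₁ M).coeff j
  | .inr (.inl j) => (c.χ.eval d.η₂ %ₘ d.u₂ M).coeff j
  | .inr (.inr (.inl j)) => ((c.G (d.u₁ M) (d.a c M)).eval d.η₂ %ₘ d.u₂ M).coeff j
  | .inr (.inr (.inr j)) => ((d.a c M).coeff j.1).coeff (M * Fintype.card I + e - 1 - j.2)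

/-- the open condition is that this element is not zero -/
noncomputable def opn : S :=
  resultant (d.u₁ M) c.ρ (M * Fintype.card I + e) c.w *
    resultant (d.u₂ M) c.ρ (M * Fintype.card I + e) c.w *
    resultant (d.u₂ M) ((kap c.χ d.η₁).eval d.η₂ %ₘ d.u₂ M) (M * Fintype.card I + e)
      (M * Fintype.card I + e)

end Sd

section

variable {I S T : Type} [Fintype I] [CommRing S] [CommRing T] {M e : ℕ} {μ : S[X]}

theorem uu_monic (h : μ.Monic) (M : ℕ) (t : I → S) : (uu M μ t).Monic :=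
  h.mul (monic_prod_of_monic _ _ fun i _ => (monic_X_sub_C (t i)).pow M)

theorem uu_natDegree [Nontrivial S] (h : μ.IsMonicOfDegree e) (M : ℕ) (t : I → S) :
    (uu M μ t).natDegree = M * Fintype.card I + e := by
  rw [uu, h.monic.natDegree_mul
    (monic_prod_of_monic _ _ fun i _ => (monic_X_sub_C (t i)).pow M),
    natDegree_prod_of_monic _ _ fun i _ => (monic_X_sub_C (t i)).pow M, h.natDegree_eq]
  simp only [(monic_X_sub_C _).natDegree_pow, natDegree_X_sub_C, mul_one, Finset.sum_const,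
    Finset.card_univ, smul_eq_mul]
  ring

theorem uu_map (ψ : S →+* T) (M : ℕ) (μ : S[X]) (t : I → S) :
    (uu M μ t).map ψ = uu M (μ.map ψ) fun i => ψ (t i) := by
  simp [uu, Polynomial.map_prod]

theorem Sd.u₁_map (d : Sd I S) (M : ℕ) (ψ : S →+* T) : (d.map ψ).u₁ M = (d.u₁ M).map ψ :=
  (uu_map ψ M _ _).symm

theorem Sd.u₂_map (d : Sd I S) (M : ℕ) (ψ : S →+* T) : (d.map ψ).u₂ M = (d.u₂ M).map ψ :=
  (uu_map ψ M _ _).symm

variable {d : Sd I S}

theorem Sd.Mon.u₁ (h : d.Mon e) (M : ℕ) : (d.u₁ M).Monic := uu_monic h.1.monic M _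

theorem Sd.Mon.u₂ (h : d.Mon e) (M : ℕ) : (d.u₂ M).Monic := uu_monic h.2.monic M _

theorem Sd.Mon.map [Nontrivial T] (h : d.Mon e) (ψ : S →+* T) : (d.map ψ).Mon e :=
  ⟨⟨(h.1.monic.natDegree_map ψ).trans h.1.natDegree_eq, h.1.monic.map ψ⟩,
    ⟨(h.2.monic.natDegree_map ψ).trans h.2.natDegree_eq, h.2.monic.map ψ⟩⟩

theorem Sd.Mon.a_map [Nontrivial T] (h : d.Mon e) (c : Cv S) (M : ℕ) (ψ : S →+* T) :
    (d.map ψ).a (c.map ψ) M = mp ψ (d.a c M) := by
  rw [Sd.a, Sd.a, cmod_map ψ (h.u₁ M), map_mul, kap_map, mp_C, Sd.u₁_map]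
  rfl

theorem cmod_kap_degree [Nontrivial S] (c : Cv S) (u η β : S[X]) :
    (cmod u (kap c.χ η * C β)).degree < c.δ := by
  refine (cmod_degree _ _).trans_lt ?_
  rcases Nat.eq_zero_or_pos c.δ with h | h
  · have : c.χ = 1 := c.wt.monic.natDegree_eq_zero.1 (c.wt.deg.trans h)
    have e : kap c.χ η = 0 := by
      rw [kap, this, divByMonic_eq_zero_iff (monic_X_sub_C _), degree_X_sub_C, degree_one]
      exact zero_lt_one
    rw [e, zero_mul, degree_zero]
    exact WithBot.bot_lt_coe _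
  · have h1 := (kap_monic c.wt.monic (c.wt.deg ▸ h) η).2
    refine (degree_le_natDegree.trans (Nat.cast_le.2 (natDegree_mul_C_le _ _))).trans_lt ?_
    exact Nat.cast_lt.2 (by rw [← c.wt.deg]; omega)

theorem Sd.Mon.eqs_map [Nontrivial T] (h : d.Mon e) (c : Cv S) (M : ℕ) (ψ : S →+* T)
    (j : EqI (M * Fintype.card I + e) c.δ c.b c.w) :
    (d.map ψ).eqs (c.map ψ) M e j = ψ (d.eqs c M e j) := by
  rcases j with j | j | j | j
  · simp only [Sd.eqs]
    rw [← coeff_map, map_modByMonic _ (h.u₁ M), ← eval_mp, Sd.u₁_map]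
    rfl
  · simp only [Sd.eqs]
    rw [← coeff_map, map_modByMonic _ (h.u₂ M), ← eval_mp, Sd.u₂_map]
    rfl
  · simp only [Sd.eqs]
    rw [← coeff_map, map_modByMonic _ (h.u₂ M), ← eval_mp, Sd.u₂_map, Cv.map_G, h.a_map,
      Sd.u₁_map]
    rfl
  · simp only [Sd.eqs]
    rw [h.a_map]
    simp

theorem Sd.Mon.opn_map [Nontrivial T] (h : d.Mon e) (c : Cv S) (M : ℕ) (ψ : S →+* T) :
    (d.map ψ).opn (c.map ψ) M e = ψ (d.opn c M e) := by
  rw [Sd.opn, Sd.opn, map_mul, map_mul, ← resultant_map_map, ← resultant_map_map,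
    ← resultant_map_map, map_modByMonic _ (h.u₂ M), ← eval_mp, kap_map, Sd.u₁_map, Sd.u₂_map]
  rfl

theorem Sd.Mon.eqs_iff [Nontrivial S] (h0 : d.Mon e) (c : Cv S) (M : ℕ) :
    (∀ j, d.eqs c M e j = 0) ↔ d.Eqs c M e := by
  have h1 := uu_natDegree h0.1 M d.t
  have h2 := uu_natDegree h0.2 M d.t'
  constructor
  · intro h
    refine ⟨(sys_mod (h0.u₁ M) h1).1 fun j => h (.inl j),
      (sys_mod (h0.u₂ M) h2).1 fun j => h (.inr (.inl j)),
      (sys_mod (h0.u₂ M) h2).1 fun j => h (.inr (.inr (.inl j))), fun i j hij => ?_⟩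
    by_contra hc
    have hi : i < c.δ := by
      by_contra hi
      rw [Sd.a, coeff_eq_zero_of_degree_lt ((cmod_kap_degree c _ _ _).trans_le
        (by exact_mod_cast not_lt.1 hi))] at hij
      exact hij (coeff_zero _)
    have hj : j < M * Fintype.card I + e := by
      by_contra hj
      refine hij ?_
      rw [Sd.a, cmod_coeff]
      refine coeff_eq_zero_of_degree_lt ((degree_modByMonic_lt _ (h0.u₁ M)).trans_le ?_)
      rw [degree_eq_natDegree (h0.u₁ M).ne_zero, Sd.u₁, h1]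
      exact_mod_cast not_lt.1 hj
    have := h (.inr (.inr (.inr
      ⟨⟨i, hi⟩, ⟨M * Fintype.card I + e - 1 - j, by simp only; omega⟩⟩)))
    simp only [Sd.eqs] at this
    rw [show M * Fintype.card I + e - 1 - (M * Fintype.card I + e - 1 - j) = j by omega] at this
    exact hij this
  · rintro ⟨e1, e2, e3, e4⟩ (j | j | j | j)
    · exact (sys_mod (h0.u₁ M) h1).2 e1 j
    · exact (sys_mod (h0.u₂ M) h2).2 e2 j
    · exact (sys_mod (h0.u₂ M) h2).2 e3 j
    · by_contra hc
      have := e4 _ _ hc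
      have := j.2.2
      omega

theorem Sd.Mon.eqs_iff_map [Nontrivial T] (h : d.Mon e) (c : Cv S) (M : ℕ) (ψ : S →+* T) :
    (∀ j, ψ (d.eqs c M e j) = 0) ↔ (d.map ψ).Eqs (c.map ψ) M e := by
  rw [← (h.map ψ).eqs_iff]
  exact forall_congr' fun j => by rw [← h.eqs_map c M ψ j]

end

end Pool.Agent.ZFy.U
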