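import Pool.Agent.Lib.MP_751085_ag.ZF.U.Odv
import Pool.Agent.Lib.MP_751085_ag.ZF.U.Ins
import Pool.Agent.Lib.MP_751085_ag.ZF.U.Sy

/-! Limits of algebraic elements of bounded degree. -/

namespace Pool.Agent.ZFy.U

open Polynomial Module Pool.Agent.ZeroCyc Filter Topology
open scoped Classical IntermediateField

set_option linter.unusedSectionVars false

variable {K Λ : Type} [Field K] [NormedField Λ] [IsAlgClosed Λ] [Algebra K Λ] [Normal K Λ]
  [LocF K Λ] {ι : Type} {L : IntermediateField K Λ}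

/-- Bounded roots give bounded coefficients, and closed balls are compact. -/
theorem lim_coeff [FiniteDimensional K L] (U : Ultrafilter ι) {e : ℕ} (a : ι → Fin e → L) {R : ℝ}
    (h : ∀ᶠ i in U, ∀ z, ((mon (a i)).map (algebraMap L Λ)).eval z = 0 → ‖z‖ ≤ R) :
    ∃ a₀, Tendsto a U (𝓝 a₀) := by
  have := LocF.proper L ‹_›
  refine ((isCompact_closedBall (0 : Fin e → L) (max R 1 ^ e * e.choose (e / 2))).ultrafilter_le_nhds
    (U.map a) (le_principal_iff.2 (h.mono fun i hi => ?_))).imp fun _ h0 => h0.2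
  refine mem_closedBall_zero_iff.2 ((pi_norm_le_iff_of_nonneg (by positivity)).2 fun j => ?_)
  have h1 := coeff_bdd_of_roots_le (algebraMap L Λ) (mon_monic (a i)) (IsAlgClosed.splits _)
    (mon_deg _).1.le (fun z hz => hi z (isRoot_of_mem_roots hz)) j
  rwa [coeff_map, mon, coeff_add, coeff_X_pow, if_neg j.2.ne, zero_add, pol_coeff] at h1

theorem lim_mul (U : Ultrafilter ι) {f g : ι → Λ} (h : Tendsto (fun i => f i * g i) U (𝓝 0)) :
    Tendsto f U (𝓝 0) ∨ Tendsto g U (𝓝 0) := by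
  simp only [NormedAddGroup.tendsto_nhds_zero, norm_mul] at h ⊢
  by_contra h0
  simp only [not_or, not_forall, ← U.eventually_not, not_lt] at h0
  obtain ⟨⟨ε, hε, h1⟩, δ, hδ, h2⟩ := h0
  obtain ⟨i, k1, k2, k3⟩ := (h1.and (h2.and (h _ (mul_pos hε hδ)))).exists
  exact k3.not_ge (mul_le_mul k1 k2 hδ.le (norm_nonneg _))

theorem lim_prod (U : Ultrafilter ι) {x : ι → Λ} (s : Multiset Λ)
    (h : Tendsto (fun i => (s.map (x i - ·)).prod) U (𝓝 0)) : ∃ r ∈ s, Tendsto x U (𝓝 r) := by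
  induction s using Multiset.induction_on with
  | empty => simp at h
  | cons r s ih =>
    simp only [Multiset.map_cons, Multiset.prod_cons] at h
    rcases lim_mul U h with h1 | h1
    · exact ⟨r, Multiset.mem_cons_self _ _, tendsto_sub_nhds_zero_iff.1 h1⟩
    · exact (ih h1).imp fun _ h2 => ⟨Multiset.mem_cons_of_mem h2.1, h2.2⟩

/-- `p = ∏ (X - r)`, and one factor tends to zero. -/
theorem lim_root (U : Ultrafilter ι) {p : Λ[X]} (hp : p.Monic) {x : ι → Λ}
    (h : Tendsto (fun i => p.eval (x i)) U (𝓝 0)) : ∃ x₀, p.eval x₀ = 0 ∧ Tendsto x U (𝓝 x₀) := by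
  simp only [(IsAlgClosed.splits p).eval_eq_prod_roots_of_monic hp] at h
  exact (lim_prod U _ h).imp fun _ h1 => ⟨isRoot_of_mem_roots h1.1, h1.2⟩

theorem lim_eval {e : ℕ} (a : Fin e → L) (z : Λ) :
    ((mon a).map (algebraMap L Λ)).eval z = z ^ e + ∑ j, (a j : Λ) * z ^ (j : ℕ) := by
  simp [mon, pol]

/-- The coefficients of `minpoly K (x i) * X ^ (γ - deg)` converge. -/
theorem lim_alg (U : Ultrafilter ι) {γ : ℕ} {x : ι → Λ} (h1 : ∀ i, ‖x i‖ ≤ 1)
    (h : ∀ i, ∃ L : IntermediateField K Λ, FiniteDimensional K L ∧ finrank K L ≤ γ ∧ x i ∈ L) :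
    ∃ x₀, Tendsto x U (𝓝 x₀) := by
  have h2 : ∀ i, ∃ a : Fin γ → (⊥ : IntermediateField K Λ),
      ((mon a).map (algebraMap _ Λ)).eval (x i) = 0 ∧
        ∀ z, ((mon a).map (algebraMap _ Λ)).eval z = 0 → ‖z‖ ≤ 1 := fun i => by
    obtain ⟨L, _, h3, h4⟩ := h i
    have h5 := Algebra.IsAlgebraic.isAlgebraic (R := K) (x i)
    have h6 : (minpoly K (x i)).natDegree ≤ γ :=
      (congrArg natDegree (L.minpoly_eq ⟨x i, h4⟩)).ge.trans ((minpoly.natDegree_le _).trans h3)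
    have h7 : ((minpoly K (x i) * X ^ (γ - (minpoly K (x i)).natDegree)).map
        (algebraMap K (⊥ : IntermediateField K Λ))).IsMonicOfDegree γ := by
      have h8 := (minpoly.monic h5.isIntegral).mul (monic_X_pow (γ - (minpoly K (x i)).natDegree))
      refine ⟨?_, h8.map _⟩
      rw [natDegree_map, (minpoly.monic h5.isIntegral).natDegree_mul (monic_X_pow _),
        natDegree_X_pow, Nat.add_sub_cancel' h6]
    obtain ⟨a, ha⟩ : ∃ a, mon a = _ := ⟨_, mon_self h7⟩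
    refine ⟨a, ?_⟩
    rw [ha, Polynomial.map_map, ← IsScalarTower.algebraMap_eq]
    simp only [eval_map_algebraMap, map_mul, minpoly.aeval, zero_mul, mul_eq_zero, map_pow, aeval_X,
      true_and]
    rintro z (hz | hz)
    · obtain ⟨σ, rfl⟩ := minpoly.exists_algEquiv_of_root' h5 hz
      rw [LocF.gal]
      exact h1 i
    · rw [eq_zero_of_pow_eq_zero hz, norm_zero]
      exact zero_le_one
  choose a h3 h4 using h2
  obtain ⟨a₀, h5⟩ := lim_coeff U a (Eventually.of_forall h4)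
  refine (lim_root U ((mon_monic a₀).map (algebraMap _ Λ)) ?_).imp fun _ h6 => h6.2
  have h6 : ∀ j : Fin γ, Tendsto (fun i => ((a₀ j : Λ) - a i j) * x i ^ (j : ℕ)) U (𝓝 0) := fun j => by
    refine Tendsto.zero_mul_isBoundedUnder_le ?_ (isBoundedUnder_of ⟨1, fun i => ?_⟩)
    · simpa using ((continuous_subtype_val.tendsto _).comp (tendsto_pi_nhds.1 h5 j)).const_sub
        (a₀ j : Λ)
    · exact (norm_pow _ _).trans_le (pow_le_one₀ (norm_nonneg _) (h1 i))
  have h7 := tendsto_finsetSum Finset.univ fun j _ => h6 j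
  rw [Finset.sum_const_zero] at h7
  refine h7.congr fun i => ?_
  rw [← sub_zero (eval _ _), ← h3 i, lim_eval, lim_eval, add_sub_add_left_eq_sub,
    ← Finset.sum_sub_distrib]
  simp only [sub_mul]

theorem lim_low {r : ℝ} (hr : 0 ≤ r) (z : Λ) (s : Multiset Λ) (h : ∀ y ∈ s, r ≤ ‖z - y‖) :
    r ^ s.card ≤ ‖(s.map fun y => z - y).prod‖ := by
  induction s using Multiset.induction_on with
  | empty => simp
  | cons y s ih =>
    rw [Multiset.card_cons, Multiset.map_cons, Multiset.prod_cons, norm_mul, pow_succ']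
    exact mul_le_mul (h y (Multiset.mem_cons_self _ _))
      (ih fun x hx => h x (Multiset.mem_cons_of_mem hx)) (pow_nonneg hr _) (norm_nonneg _)

theorem root_closed {𝓕 : Filter ι} [𝓕.NeBot] {e : ℕ} {a : ι → Fin e → Λ} {a₀ : Fin e → Λ}
    (ha : Tendsto a 𝓕 (𝓝 a₀)) {S : Set Λ} (hS : S.Finite)
    (h : ∀ V ∈ 𝓝ˢ S, ∀ᶠ i in 𝓕, ∀ z, (mon (a i)).eval z = 0 → z ∈ V) {z : Λ}
    (hz : (mon a₀).eval z = 0) : z ∈ S := by
  by_contra hn
  obtain ⟨r, hr, h1⟩ := Metric.nhds_basis_closedBall.mem_iff.1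
    (hS.isClosed.isOpen_compl.mem_nhds hn)
  have h2 : Continuous fun b : Fin e → Λ => ‖(mon b).eval z‖ := by
    simp only [mon, pol, eval_add, eval_finsetSum, eval_monomial]
    fun_prop
  refine (pow_pos hr e).not_ge ((ge_of_tendsto ((h2.tendsto a₀).comp ha) ?_).trans_eq
    (by rw [hz, norm_zero]))
  filter_upwards [h _ (Metric.isClosed_closedBall.isOpen_compl.mem_nhdsSet.2
    (Set.subset_compl_comm.1 h1))] with i hi
  have h3 := lim_low hr.le z (mon (a i)).roots fun y hy => by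
    have := hi y (isRoot_of_mem_roots hy)
    rw [Set.mem_compl_iff, mem_closedBall_iff_norm', not_le] at this
    exact this.le
  rwa [IsAlgClosed.card_roots_eq_natDegree, (mon_deg _).natDegree_eq,
    ← (IsAlgClosed.splits _).eval_eq_prod_roots_of_monic (mon_monic _)] at h3

/-- the conjugates of `Q i` stay close to the conjugates of the limit -/
theorem conj_near {𝓕 : Filter ι} {Q : ι → Λ × Λ} {Q₀ : Λ × Λ} (h : Tendsto Q 𝓕 (𝓝 Q₀))
    {V : Set (Λ × Λ)} (hV : V ∈ 𝓝ˢ (orQ L Q₀)) : ∀ᶠ i in 𝓕, orQ L (Q i) ⊆ V := by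
  obtain ⟨δ, hδ, h1⟩ :=
    (Metric.hasBasis_nhdsSet_thickening (orQ_finite L Q₀).isCompact).mem_iff.1 hV
  filter_upwards [Metric.tendsto_nhds.1 h δ hδ] with i hi
  rintro _ ⟨σ, hσ, rfl⟩
  refine h1 (Metric.mem_thickening_iff.2 ⟨pm σ Q₀, ⟨σ, hσ, rfl⟩, ?_⟩)
  rw [Prod.dist_eq] at hi ⊢
  simpa only [pm, dist_eq_norm, Prod.map_fst, Prod.map_snd, ← map_sub, LocF.gal] using hi

end Pool.Agent.ZFy.U
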