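import Pool.Agent.Lib.MP_751085_ag.ZF.U.Sec
import Pool.Agent.Lib.MP_751085_ag.ZF.U.Lim
import Pool.Agent.Lib.MP_751085_ag.ZF.U.Uld

/-! Converging rational divisors differ by nearby rational points. -/

namespace Pool.Agent.ZFy.U

open Polynomial Module Pool.Agent.ZeroCyc Pool.Agent.ZCy.U Filter Topology
open scoped Classical IntermediateField

set_option linter.unusedSectionVars false

variable {K Λ : Type} [Field K] [NormedField Λ] [IsAlgClosed Λ] [Algebra K Λ] [Normal K Λ]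
  [LocF K Λ] {ι : Type} {L : IntermediateField K Λ} [FiniteDimensional K L]

/-- the divisors `D i` are effective, rational, of degree `e`, and their supports tend to `F` -/
structure Cnv (L : IntermediateField K Λ) (χ : Λ[X][X]) (F : Set (Λ × Λ)) (U : Filter ι)
    (D : ι → Λ × Λ →₀ ℤ) (e : ℕ) : Prop where
  rat : ∀ᶠ i in U, D i ∈ RatD L ∧ 0 ≤ D i ∧ (D i).degree = e ∧ ∀ Q, D i Q ≠ 0 → On χ Q
  lim : ∀ V ∈ 𝓝ˢ F, ∀ᶠ i in U, ∀ Q, D i Q ≠ 0 → Q ∈ V

/-- the coefficients of `dpol (D i)` lie in `L` and converge -/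
theorem Cnv.lim_pol {χ : Λ[X][X]} {F : Set (Λ × Λ)} (hF : F.Finite) {U : Ultrafilter ι}
    {D : ι → Λ × Λ →₀ ℤ} {e : ℕ} (h : Cnv L χ F U D e) :
    ∃ (a : ι → Fin e → L) (a₀ : Fin e → L), Tendsto a U (𝓝 a₀) ∧
      (∀ᶠ i in U, (mon (a i)).map (algebraMap L Λ) = dpol (D i)) ∧
      ∀ z : Λ, aeval z (mon a₀) = 0 → z ∈ Prod.fst '' F := by
  let a : ι → Fin e → L := fun i j => if h : (dpol (D i)).coeff j ∈ L then ⟨_, h⟩ else 0
  have ha : ∀ᶠ i in U, (mon (a i)).map (algebraMap L Λ) = dpol (D i) := by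
    filter_upwards [h.rat] with i hi
    rw [mon_map]
    refine (congrArg mon (funext fun j => ?_)).trans (mon_self (dpol_deg hi.2.1 hi.2.2.1))
    exact congrArg Subtype.val (dif_pos (dpol_over hi.2.1 hi.1 j))
  have hV : ∀ V ∈ 𝓝ˢ (Prod.fst '' F), ∀ᶠ i in U, ∀ z,
      ((mon (a i)).map (algebraMap L Λ)).eval z = 0 → z ∈ V := fun V hV => by
    filter_upwards [h.lim _ (continuous_fst.tendsto_nhdsSet (Set.mapsTo_image _ _) hV), h.rat, ha]
      with i h1 h2 h3 z hz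
    rw [h3] at hz
    obtain ⟨Q, hQ, rfl⟩ := (dpol_root h2.2.1).1 hz
    exact h1 Q hQ
  obtain ⟨R, hR⟩ := (hF.image Prod.fst).isBounded.subset_ball 0
  obtain ⟨a₀, h0⟩ := lim_coeff U a (R := R) ((hV _ (Metric.isOpen_ball.mem_nhdsSet.2 hR)).mono
    fun i hi z hz => (mem_ball_zero_iff.1 (hi z hz)).le)
  refine ⟨a, a₀, h0, ha, fun z hz => ?_⟩
  refine root_closed (𝓕 := U) (a := fun i j => algebraMap L Λ (a i j))
    (a₀ := fun j => algebraMap L Λ (a₀ j)) (tendsto_pi_nhds.2 fun j =>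
      (continuous_subtype_val.tendsto _).comp (tendsto_pi_nhds.1 h0 j)) (hF.image _)
    (fun V hV' => (hV V hV').mono fun i hi z hz => hi z ?_) ?_
  · rwa [mon_map]
  · rwa [← mon_map, eval_map_algebraMap]

/-- the cofactor stays nonzero near `F` -/
theorem opn_near {χ : Λ[X][X]} {F : Set (Λ × Λ)} (hF : F.Finite) (hE : ∀ Q ∈ F, Et χ Q)
    {e m : ℕ} {a₀ : Fin e → Λ} {v₀ : Fin m → Λ}
    (h : ∀ Q ∈ F, (mon a₀).eval Q.1 = 0 → (pol v₀).eval Q.1 = Q.2) :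
    ∃ V ∈ 𝓝ˢ F, ∀ᶠ z : (Fin e → Λ) × (Fin m → Λ) in 𝓝 (a₀, v₀), ∀ Q ∈ V,
      (mon z.1).eval Q.1 = 0 → ee Q (kap χ (pol z.2)) ≠ 0 := by
  have c1 : Continuous fun p : (Λ × Λ) × (Fin e → Λ) × (Fin m → Λ) => (mon p.2.1).eval p.1.1 :=
    (cont_pol (continuous_fst.comp continuous_fst) (continuous_fst.comp continuous_snd)).2
  have c2 : Continuous fun p : (Λ × Λ) × (Fin e → Λ) × (Fin m → Λ) =>
      ee p.1 (kap χ (pol p.2.2)) := by
    have := cont_kap (fun _ : (Λ × Λ) × (Fin e → Λ) × (Fin m → Λ) => RingHom.id Λ)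
      (fun _ => continuous_const) χ continuous_fst (continuous_snd.comp continuous_snd)
    rwa [show mp (RingHom.id Λ) χ = χ by simp] at this
  have hW : {p : (Λ × Λ) × (Fin e → Λ) × (Fin m → Λ) | (mon p.2.1).eval p.1.1 = 0 →
      ee p.1 (kap χ (pol p.2.2)) ≠ 0} ∈ 𝓝ˢ (F ×ˢ {(a₀, v₀)}) := by
    refine mem_nhdsSet_iff_forall.2 ?_
    rintro ⟨Q, _⟩ ⟨hQ, rfl⟩
    by_cases h0 : (mon a₀).eval Q.1 = 0
    · refine (c2.continuousAt.eventually_ne (x := (Q, a₀, v₀)) (y := 0) ?_).mono fun p hp _ => hp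
      have e1 : Q = (Q.1, (pol v₀).eval Q.1) := Prod.ext rfl (h Q hQ h0).symm
      have e2 := (hE Q hQ).2
      rw [e1, ee_eval, ← kap_eval, ← ee_eval, ← e1] at e2
      exact e2
    · exact (c1.continuousAt.eventually_ne (x := (Q, a₀, v₀)) h0).mono fun p hp h1 => absurd h1 hp
  rw [hF.isCompact.nhdsSet_prod_eq isCompact_singleton, nhdsSet_singleton] at hW
  obtain ⟨V, hV, T, hT, hs⟩ := mem_prod_iff.1 hW
  exact ⟨V, hV, mem_of_superset hT fun z hz Q hQ => hs (Set.mk_mem_prod hQ hz)⟩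

section

variable {E H I : Type} [Field E] [Field H] [IsAlgClosed H] [Fintype I] (φ : E →+* H) {c : Cv E}

/-- the rational points of the section and its divisor -/
theorem cls1_side {μ η : E[X]} (hμ : μ.Monic) {t : I → E}
    (hc : IsCoprime ((uu 1 μ t).map φ) (c.map φ).ρ)
    (hd : (uu 1 μ t).map φ ∣ (c.map φ).χ.eval (η.map φ)) :
    (∀ j, c.Gp (t j, η.eval (t j))) ∧ μ.map φ ∣ (c.map φ).χ.eval (η.map φ) ∧
      sec ((uu 1 μ t).map φ) (η.map φ) = sec (μ.map φ) (η.map φ) +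
        ∑ j, Finsupp.single (pm φ (t j, η.eval (t j))) 1 := by
  rw [uu_map] at hc hd ⊢
  have e : ∀ j, (φ (t j), (η.map φ).eval (φ (t j))) = pm φ (t j, η.eval (t j)) := fun j => by
    rw [eval_map, eval₂_at_apply]
    rfl
  refine ⟨fun j => (gp_map φ).1 (e j ▸ sc_gp hc hd ?_), (dvd_mul_right _ _).trans hd, ?_⟩
  · rw [uu, eval_mul, eval_prod, Finset.prod_eq_zero (Finset.mem_univ j) (by simp), mul_zero]
  · rw [sec_uu (hμ.map φ).ne_zero, one_smul]
    simp only [e]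

theorem cls1_root {μ : H[X]} {t : I → H} {z : H} :
    (uu 1 μ t).eval z = 0 ↔ μ.eval z = 0 ∨ ∃ j, z = t j := by
  simp [uu, eval_prod, Finset.prod_eq_zero_iff, sub_eq_zero]

end

/-- a section through the points of `F` and through rational points off `F` -/
theorem cls1_sec (c : Cv L) {F : Set (Λ × Λ)} (hg : ∀ Q ∈ F, (c.map (algebraMap L Λ)).Gp Q)
    (hinv : ∀ Q ∈ F, orQ L Q ⊆ F) (hinj : Set.InjOn Prod.fst F) {I : Type} [Fintype I]
    {P : I → L × L} (hP : ∀ j, c.Gp (P j) ∧ algebraMap L Λ (P j).1 ∉ Prod.fst '' F)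
    (hPi : Function.Injective fun j => (P j).1) {e : ℕ} {μ : L[X]} (hμ : μ.IsMonicOfDegree e)
    (hr : ∀ z : Λ, aeval z μ = 0 → z ∈ Prod.fst '' F) :
    ∃ η : L[X], η.degree < (1 * Fintype.card I + e : ℕ) ∧
      IsCoprime ((uu 1 μ fun j => (P j).1).map (algebraMap L Λ)) (c.map (algebraMap L Λ)).ρ ∧
      (uu 1 μ fun j => (P j).1).map (algebraMap L Λ) ∣
        (c.map (algebraMap L Λ)).χ.eval (η.map (algebraMap L Λ)) ∧
      (∀ Q ∈ F, (μ.map (algebraMap L Λ)).eval Q.1 = 0 →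
        (η.map (algebraMap L Λ)).eval Q.1 = Q.2) ∧ ∀ j, ((P j).1, η.eval (P j).1) = P j := by
  have hu : ∀ z : Λ, aeval z (uu 1 μ fun j => (P j).1) = 0 ↔
      aeval z μ = 0 ∨ ∃ j, z = algebraMap L Λ (P j).1 := fun z => by
    rw [← eval_map_algebraMap, uu_map, cls1_root, eval_map_algebraMap]
  have hG : ∀ Q ∈ F ∪ Set.range fun j => pm (algebraMap L Λ) (P j),
      (c.map (algebraMap L Λ)).Gp Q := by
    rintro Q (hQ | ⟨j, rfl⟩)
    · exact hg Q hQ
    · exact (gp_map _).2 (hP j).1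
  have hR : ∀ z : Λ, aeval z (uu 1 μ fun j => (P j).1) = 0 →
      z ∈ Prod.fst '' (F ∪ Set.range fun j => pm (algebraMap L Λ) (P j)) := fun z hz => by
    rcases (hu z).1 hz with h | ⟨j, rfl⟩
    · exact Set.image_mono Set.subset_union_left (hr z h)
    · exact ⟨_, .inr ⟨j, rfl⟩, rfl⟩
  obtain ⟨η, h1, h2, h3⟩ := exists_sec (χ := c.χ) (fun Q hQ => (hG Q hQ).et) (by
    rintro Q (hQ | ⟨j, rfl⟩)
    · exact (hinv Q hQ).trans Set.subset_union_left
    · rintro _ ⟨σ, hσ, rfl⟩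
      exact .inr ⟨j, Prod.ext (hσ _ (P j).1.2).symm (hσ _ (P j).2.2).symm⟩) (by
    rintro Q (hQ | ⟨j, rfl⟩) Q' (hQ' | ⟨j', rfl⟩) h
    · exact hinj hQ hQ' h
    · exact absurd ⟨Q, hQ, h⟩ (hP j').2
    · exact absurd ⟨Q', hQ', h.symm⟩ (hP j).2
    · rw [hPi ((algebraMap L Λ).injective h)]) (uu_monic hμ.monic _ _) hR
  rw [uu_natDegree hμ] at h1
  refine ⟨η, h1, Cv.cop_iff.2 fun z hz => ?_, ?_, fun Q hQ h0 => ?_, fun j => Prod.ext rfl ?_⟩
  · rw [eval_map_algebraMap] at hz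
    obtain ⟨Q, hQ, rfl⟩ := hR z hz
    exact (hG Q hQ).2
  · change _ ∣ (mp (algebraMap L Λ) _).eval _
    rw [eval_mp]
    exact Polynomial.map_dvd _ h2
  · rw [eval_map_algebraMap] at h0 ⊢
    exact h3 Q (.inl hQ) ((hu _).2 (.inl h0))
  · have h4 := h3 _ (.inr ⟨j, rfl⟩) ((hu _).2 (.inr ⟨j, rfl⟩))
    refine (algebraMap L Λ).injective ?_
    rw [← aeval_algebraMap_apply_eq_algebraMap_eval]
    exact h4

/-- converging divisors differ by nearby rational points -/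
theorem near_prin (c : Cv L) (hi : Irreducible (c.map (algebraMap L Λ)).χ) {Q₀ : L × L}
    (hQ₀ : c.Gp Q₀) {F : Set (Λ × Λ)} (hF : F.Finite)
    (hg : ∀ Q ∈ F, (c.map (algebraMap L Λ)).Gp Q) (hinv : ∀ Q ∈ F, orQ L Q ⊆ F)
    (hinj : Set.InjOn Prod.fst F) {U : Ultrafilter ι} {D : ι → Λ × Λ →₀ ℤ} {e : ℕ}
    (h : Cnv L (c.map (algebraMap L Λ)).χ F U D e) :
    ∃ D₀ ∈ (c.map (algebraMap L Λ)).Dv, D₀ ∈ RatD L ∧ D₀.degree = e ∧
      ∃ P : Fin c.g0 → L × L, (∀ j, c.Gp (P j)) ∧ ∀ W : Fin c.g0 → Set (L × L),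
        (∀ j, W j ∈ 𝓝 (P j)) → ∀ᶠ i in U, ∃ (y y' : Fin c.g0 → L × L) (u : Λ[X]) (a : Λ[X][X]),
          (∀ j, y j ∈ W j ∧ y' j ∈ W j ∧ c.Gp (y j) ∧ c.Gp (y' j)) ∧
          (c.map (algebraMap L Λ)).Wit u a ∧ Over L u ∧ Ovv L a ∧
          dv (c.map (algebraMap L Λ)).χ ((c.map (algebraMap L Λ)).G u a) -
              dv (c.map (algebraMap L Λ)).χ (C u) =
            D₀ - D i + ∑ j, (Finsupp.single (pm (algebraMap L Λ) (y' j)) 1 -
              Finsupp.single (pm (algebraMap L Λ) (y j)) 1) := by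
  let := nnf L
  have : ProperSpace L := LocF.proper L inferInstance
  obtain ⟨a, a₀, ha, hpol, hroot⟩ := h.lim_pol hF
  obtain ⟨P, hP, hPi, hns⟩ := exists_gen (algebraMap L Λ) hQ₀ hi (hF.image Prod.fst)
  obtain ⟨η, h1, h2, h3, h4, h5⟩ := cls1_sec c hg hinv hinj hP hPi (mon_deg a₀) hroot
  have hm : ((mon a₀).map (algebraMap L Λ)).IsMonicOfDegree e :=
    mon_map (algebraMap L Λ) a₀ ▸ mon_deg _
  have hb : Base (c.map (algebraMap L Λ)) 1 e ((mon a₀).map (algebraMap L Λ))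
      (fun j => algebraMap L Λ (P j).1) (η.map (algebraMap L Λ)) := by
    rw [uu_map] at h2 h3
    refine ⟨hm, gp_pos ((gp_map _).2 hQ₀), h2, h3, (algebraMap L Λ).injective.comp hPi, ?_⟩
    have e : ∀ j, (algebraMap L Λ (P j).1, (η.map (algebraMap L Λ)).eval (algebraMap L Λ (P j).1)) =
        pm (algebraMap L Λ) (P j) := fun j => by
      rw [eval_map, eval₂_at_apply]
      exact congrArg (pm (algebraMap L Λ)) (h5 j)
    simp only [e]
    exact hns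
  refine ⟨sec ((mon a₀).map (algebraMap L Λ)) (η.map (algebraMap L Λ)),
    sec_mem_Dv hm.monic.ne_zero hb.cop.of_mul_left_left ((dvd_mul_right _ _).trans hb.dvd),
    sec_rat (over_map _) (over_map _), by rw [sec_degree, hm.natDegree_eq], P, fun j => (hP j).1,
    fun W hW => ?_⟩
  obtain ⟨V, hV, hz⟩ := opn_near hF (fun Q hQ => (hg Q hQ).et)
    (a₀ := fun i => algebraMap L Λ (a₀ i))
    (v₀ := fun j : Fin (1 * Fintype.card (Fin c.g0) + e) => algebraMap L Λ (η.coeff j))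
    (by rw [← mon_map, ← pol_map, pol_self h1]; exact h4)
  have hφ : Continuous (algebraMap L Λ) := continuous_subtype_val
  have c1 := (Continuous.tendsto (f := fun z : (Fin e → L) ×
      (Unk (1 * Fintype.card (Fin c.g0) + e) (Fin c.g0) → L) =>
        ((fun i => algebraMap L Λ (z.1 i), fun j => algebraMap L Λ (z.2 (.inl j))) :
          (Fin e → Λ) × (Fin _ → Λ))) (by fun_prop)
      (a₀, bas _ (fun j => (P j).1) η)).eventually hz
  have c2 := (Continuous.tendsto (f := fun z : (Fin e → L) ×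
      (Unk (1 * Fintype.card (Fin c.g0) + e) (Fin c.g0) → L) =>
        ((fun i => algebraMap L Λ (a₀ i), fun j => algebraMap L Λ (z.2 (.inr (.inl j)))) :
          (Fin e → Λ) × (Fin _ → Λ))) (by fun_prop)
      (a₀, bas _ (fun j => (P j).1) η)).eventually hz
  have c3 : ∀ᶠ z : (Fin e → L) × (Unk (1 * Fintype.card (Fin c.g0) + e) (Fin c.g0) → L) in
      𝓝 (a₀, bas _ (fun j => (P j).1) η), ∀ j, ((P j).1, (e1 z.2).eval (P j).1) ∈ W j := by
    refine eventually_all.2 fun j => ContinuousAt.preimage_mem_nhds (Continuous.continuousAt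
      (continuous_const.prodMk (cont_pol continuous_const (by fun_prop)).1)) ?_
    rw [e1_bas _ h1, h5]
    exact hW j
  have c4 : ∀ᶠ z : (Fin e → L) × (Unk (1 * Fintype.card (Fin c.g0) + e) (Fin c.g0) → L) in
      𝓝 (a₀, bas _ (fun j => (P j).1) η), ∀ j, (tq z.2 j, (e2' z.2).eval (tq z.2 j)) ∈ W j := by
    refine eventually_all.2 fun j => ?_
    have ht : Continuous fun z : (Fin e → L) ×
        (Unk (1 * Fintype.card (Fin c.g0) + e) (Fin c.g0) → L) => tq z.2 j := by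
      unfold tq
      fun_prop
    refine ContinuousAt.preimage_mem_nhds (Continuous.continuousAt
      (ht.prodMk (cont_pol ht (by fun_prop)).1)) ?_
    rw [e2_bas _ h1, tq_bas, h5]
    exact hW j
  have key := mum₀ (algebraMap L Λ) c (M := 1) (by simp) a₀ _ (Fintype.card_fin _) h1 hb
    ((c1.and c2).and (c3.and c4))
  filter_upwards [ha.eventually key, hpol, h.rat, h.lim V hV] with i
    ⟨v, ⟨⟨k1, k2⟩, k3, k4⟩, hs⟩ hp ⟨_, h0, _, hon⟩ hl
  obtain ⟨g1, g2, g3⟩ := cls1_side _ (mon_monic _) hs.cop₁ hs.dvd₁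
  obtain ⟨g4, g5, g6⟩ := cls1_side _ (mon_monic _) hs.cop₂ hs.dvd₂
  obtain ⟨b, hw, hb', hd⟩ := hs.ex
  simp only [← mon_map, ← pol_map] at k1 k2
  have e1' : D i = sec ((mon (a i)).map (algebraMap L Λ)) ((e1 v).map (algebraMap L Λ)) := by
    rw [hp] at g2 k1 ⊢
    refine eq_sec h0 fun Q hQ => ?_
    have hr := (dpol_root h0).2 ⟨Q, hQ, rfl⟩
    exact sc_pt (hon Q hQ) g2 hr (k1 Q (hl Q hQ) hr)
  have e2 : sec ((mon a₀).map (algebraMap L Λ)) (η.map (algebraMap L Λ)) =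
      sec ((mon a₀).map (algebraMap L Λ)) ((e2' v).map (algebraMap L Λ)) := by
    refine sec_congr fun z hz => ?_
    obtain ⟨Q, hQ, rfl⟩ := hroot z (by rwa [eval_map_algebraMap] at hz)
    rw [h4 Q hQ hz]
    exact sc_pt (hg Q hQ).1 g5 hz (k2 Q (subset_of_mem_nhdsSet hV hQ) hz)
  refine ⟨_, _, _, b, fun j => ⟨k3 j, k4 j, g1 j, g4 j⟩, hw, over_map _, fun i j => ?_, ?_⟩
  · obtain ⟨x, hx⟩ := hb' i j
    exact hx ▸ x.2
  · rw [hd, g3, g6, ← e1', ← e2, Finset.sum_sub_distrib]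
    abel

end Pool.Agent.ZFy.U
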