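import Pool.Agent.Lib.MP_751085_ag.ZF.U.SyL
import Pool.Agent.Lib.MP_751085_ag.ZC.UIft

/-! The solution of the system persists. -/

namespace Pool.Agent.ZFy.U

open Polynomial Pool.Agent.ZeroCyc Pool.Agent.ZCy.U Filter Topology
open scoped Classical

set_option linter.unusedSectionVars false

section

variable {S T I : Type} [CommRing S] [CommRing T] {m e : ℕ}

/-- the unknowns -/
abbrev Unk (m : ℕ) (I : Type) : Type := Fin m ⊕ Fin m ⊕ Fin m ⊕ I

/-- the first section -/
noncomputable def e1 (v : Unk m I → S) : S[X] := pol fun j => v (.inl j)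

/-- the second section -/
noncomputable def e2' (v : Unk m I → S) : S[X] := pol fun j => v (.inr (.inl j))

/-- the moving points -/
def tq (v : Unk m I → S) (i : I) : S := v (.inr (.inr (.inr i)))

/-- the data given by parameters and unknowns -/
noncomputable def mkd (t : I → S) (a₁ a₂ : Fin e → S) (v : Unk m I → S) : Sd I S where
  t := t
  t' := tq v
  μ₁ := mon a₁
  μ₂ := mon a₂
  η₁ := e1 v
  η₂ := e2' v
  β := pol fun j => v (.inr (.inr (.inl j)))

/-- the base point -/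
noncomputable def bas (m : ℕ) (t : I → S) (η : S[X]) : Unk m I → S :=
  Sum.elim (fun j => η.coeff j) (Sum.elim (fun j => η.coeff j) (Sum.elim (fun _ => 0) t))

theorem e1_bas (t : I → S) {η : S[X]} (h : η.degree < m) : e1 (bas m t η) = η := pol_self h

theorem e2_bas (t : I → S) {η : S[X]} (h : η.degree < m) : e2' (bas m t η) = η := pol_self h

theorem tq_bas (t : I → S) (η : S[X]) : tq (bas m t η) = t := rfl

theorem mum_map (ψ : S →+* T) (t : I → S) (a₁ a₂ : Fin e → S) (v : Unk m I → S) :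
    (mkd t a₁ a₂ v).map ψ =
      mkd (fun i => ψ (t i)) (fun i => ψ (a₁ i)) (fun i => ψ (a₂ i)) fun i => ψ (v i) := by
  simp only [mkd, Sd.map, e1, e2', pol_map, mon_map]
  rfl

theorem mum_mon [Nontrivial S] (t : I → S) (a₁ a₂ : Fin e → S) (v : Unk m I → S) :
    (mkd t a₁ a₂ v).Mon e := ⟨mon_deg a₁, mon_deg a₂⟩

theorem mum_bas (t : I → S) {η : S[X]} (h : η.degree < m) (a : Fin e → S) :
    mkd t a a (bas m t η) = ⟨t, t, mon a, mon a, η, η, 0⟩ := by
  simp only [mkd, e1_bas t h, e2_bas t h, tq_bas]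
  simp only [bas, Sum.elim_inl, Sum.elim_inr, pol_zero]

theorem mum_eqs [Fintype I] {c : Cv S} {M : ℕ} {t : I → S} {η μ : S[X]}
    (h : uu M μ t ∣ c.χ.eval η) : (⟨t, t, μ, μ, η, η, 0⟩ : Sd I S).Eqs c M e := by
  have ha : (⟨t, t, μ, μ, η, η, 0⟩ : Sd I S).a c M = 0 := by simp [Sd.a, cmod]
  refine ⟨h, h, ?_, ha ▸ WL_zero⟩
  rw [ha]
  simp [Cv.G, Sd.u₁, Sd.u₂]

variable {ι L : Type} [CommRing L]

/-- the universal curve -/
noncomputable def mum_c [Nontrivial L] (c : Cv (MvPolynomial ι L)) (B A : Type) :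
    Cv (MvPolynomial ((ι ⊕ B) ⊕ A) L) :=
  c.map (MvPolynomial.rename (Sum.inl ∘ Sum.inl)).toRingHom

/-- the universal data -/
noncomputable def mum_d (ι : Type) (m e : ℕ) (t : I → L) :
    Sd I (MvPolynomial ((ι ⊕ Fin e ⊕ Fin e) ⊕ Unk m I) L) :=
  mkd (fun i => MvPolynomial.C (t i)) (fun i => MvPolynomial.X (.inl (.inr (.inl i))))
    (fun i => MvPolynomial.X (.inl (.inr (.inr i)))) fun i => MvPolynomial.X (.inr i)

theorem mum_c_map [Nontrivial L] [Nontrivial T] (c : Cv (MvPolynomial ι L)) {B A : Type}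
    (φ : L →+* T) (x : (ι ⊕ B) ⊕ A → T) : (mum_c c B A).map (MvPolynomial.eval₂Hom φ x) =
      c.map (MvPolynomial.eval₂Hom φ fun i => x (.inl (.inl i))) := by
  rw [mum_c, Cv.map_map]
  congr 1
  ext i <;> simp

theorem mum_d_map (t : I → L) (φ : L →+* T) (x : (ι ⊕ Fin e ⊕ Fin e) ⊕ Unk m I → T) :
    (mum_d ι m e t).map (MvPolynomial.eval₂Hom φ x) = mkd (fun i => φ (t i))
      (fun i => x (.inl (.inr (.inl i)))) (fun i => x (.inl (.inr (.inr i)))) fun i => x (.inr i) := by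
  rw [mum_d, mum_map]
  simp

end

theorem cont_kap {Z R Λ : Type} [TopologicalSpace Z] [CommRing R] [NormedField Λ] {m : ℕ}
    (ψ : Z → R →+* Λ) (hψ : ∀ r, Continuous fun z => ψ z r) (χ : R[X][X]) {Q : Z → Λ × Λ}
    (hQ : Continuous Q) {v : Z → Fin m → Λ} (hv : Continuous v) :
    Continuous fun z => ee (Q z) (kap (mp (ψ z) χ) (pol (v z))) := by
  let Ψ : R →+* C(Z, Λ) :=
    { toFun := fun r => ⟨_, hψ r⟩
      map_one' := ContinuousMap.ext fun z => map_one (ψ z)
      map_mul' := fun a b => ContinuousMap.ext fun z => map_mul (ψ z) a b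
      map_zero' := ContinuousMap.ext fun z => map_zero (ψ z)
      map_add' := fun a b => ContinuousMap.ext fun z => map_add (ψ z) a b }
  refine (ee (⟨_, hQ.fst⟩, ⟨_, hQ.snd⟩) (kap (mp Ψ χ)
    (pol fun j => (⟨_, (continuous_apply j).comp hv⟩ : C(Z, Λ))))).continuous.congr fun z => ?_
  refine (map_ee ((Pi.evalRingHom (fun _ : Z => Λ) z).comp ContinuousMap.coeFnRingHom) _ _).trans ?_
  rw [kap_map, pol_map, mp_mp]
  rfl

theorem cont_pol {Z Λ : Type} [TopologicalSpace Z] [NormedField Λ] {m : ℕ} {t : Z → Λ}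
    (ht : Continuous t) {v : Z → Fin m → Λ} (hv : Continuous v) :
    (Continuous fun z => (pol (v z)).eval (t z)) ∧ Continuous fun z => (mon (v z)).eval (t z) := by
  have h : Continuous fun z => (pol (v z)).eval (t z) := by
    simp only [pol, eval_finsetSum, eval_monomial]
    fun_prop
  refine ⟨h, ?_⟩
  simp only [mon, eval_add, eval_pow, eval_X]
  exact (ht.pow m).add h

variable {L : Type} [NontriviallyNormedField L] [CompleteSpace L]

theorem mum_sol {Λ I : Type} [Field Λ] [IsAlgClosed Λ] [Fintype I] (φ : L →+* Λ) {c : Cv L}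
    {M m e : ℕ} {t : I → L} {a₁ a₂ : Fin e → L} {v : Unk m I → L}
    (he : (mkd t a₁ a₂ v).Eqs c M e) (ho : (mkd t a₁ a₂ v).opn c M e ≠ 0) :
    Sol (c.map φ) (Set.range φ) ((uu M (mon a₁) t).map φ) ((uu M (mon a₂) (tq v)).map φ)
      ((e1 v).map φ) ((e2' v).map φ) := by
  have h := sys_sol φ (mum_mon t a₁ a₂ v) he
    (((mum_mon t a₁ a₂ v).opn_map c M φ).trans_ne ((map_ne_zero φ).2 ho))
  exact h

/-- the implicit function theorem for the universal system -/
theorem mum {Λ ι I : Type} [Field Λ] [IsAlgClosed Λ] [Fintype ι] [Fintype I] (φ : L →+* Λ)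
    (c : Cv (MvPolynomial ι L)) (p₀ : ι → L) {M e : ℕ} (hM : (M : Λ) ≠ 0) (a₀ : Fin e → L)
    (t : I → L) {η : L[X]} (hI : Fintype.card I = c.g0)
    (hη : η.degree < (M * Fintype.card I + e : ℕ))
    (hb : Base ((c.map (MvPolynomial.eval p₀)).map φ) M e ((mon a₀).map φ) (fun i => φ (t i))
      (η.map φ))
    {W : Set (((ι → L) × (Fin e → L) × (Fin e → L)) × (Unk (M * Fintype.card I + e) I → L))}
    (hW : W ∈ 𝓝 ((p₀, a₀, a₀), bas _ t η)) :
    ∀ᶠ z : (ι → L) × (Fin e → L) × (Fin e → L) in 𝓝 (p₀, a₀, a₀), ∃ v, (z, v) ∈ W ∧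
      Sol ((c.map (MvPolynomial.eval z.1)).map φ) (Set.range φ) ((uu M (mon z.2.1) t).map φ)
        ((uu M (mon z.2.2) (tq v)).map φ) ((e1 v).map φ) ((e2' v).map φ) := by
  generalize hm : M * Fintype.card I + e = m at hη W hW ⊢
  have ec : ∀ (p : ι → L) (a : Fin e ⊕ Fin e → L) (v : Unk m I → L),
      (mum_c c _ (Unk m I)).map (MvPolynomial.eval (Sum.elim (Sum.elim p a) v)) =
        c.map (MvPolynomial.eval p) := fun p a v => mum_c_map c (RingHom.id L) _
  have ed : ∀ (p : ι → L) (a₁ a₂ : Fin e → L) (v : Unk m I → L),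
      (mum_d ι m e t).map (MvPolynomial.eval (Sum.elim (Sum.elim p (Sum.elim a₁ a₂)) v)) =
        mkd t a₁ a₂ v := fun p a₁ a₂ v => mum_d_map t (RingHom.id L) _
  have hd : (mum_d ι m e t).Mon e := mum_mon _ _ _ _
  have key := ift (W := {x | MvPolynomial.eval x ((mum_d ι m e t).opn (mum_c c _ _) M e) ≠ 0} ∩
      (fun x => ((fun i => x (.inl (.inl i)), fun i => x (.inl (.inr (.inl i))),
        fun i => x (.inl (.inr (.inr i)))), fun i => x (.inr i))) ⁻¹' W) φ
    ((mum_d ι m e t).eqs (mum_c c _ _) M e) (Sum.elim p₀ (Sum.elim a₀ a₀)) (bas m t η)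
    (by rw [card_EqI, hm]; simp only [Fintype.card_sum, Fintype.card_fin, hI]; rfl) ?_ ?_ ?_
  · have hc : Continuous fun z : (ι → L) × (Fin e → L) × (Fin e → L) =>
        (Sum.elim z.1 (Sum.elim z.2.1 z.2.2) : ι ⊕ Fin e ⊕ Fin e → L) := by
      refine continuous_pi fun i => ?_
      rcases i with i | i | i
      · exact (continuous_apply i).comp continuous_fst
      · exact (continuous_apply i).comp continuous_snd.fst
      · exact (continuous_apply i).comp continuous_snd.snd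
    filter_upwards [(hc.tendsto (p₀, a₀, a₀)).eventually key] with z ⟨v, ⟨ho, hv⟩, he⟩
    have ho' := (hd.opn_map _ _ _).trans_ne ho
    have he' := (hd.eqs_iff_map _ M _).1 he
    rw [ec, ed] at ho' he'
    exact ⟨v, hv, mum_sol φ he' ho'⟩
  · refine (hd.eqs_iff_map _ M _).2 ?_
    rw [ec, ed]
    refine (mum_bas t hη a₀).symm ▸ mum_eqs ((map_dvd_map' φ).1 ?_)
    rw [uu_map, ← eval_mp]
    exact hb.dvd
  · intro w hw
    have he := (hd.eqs_iff_map (mum_c c _ _) M (MvPolynomial.eval₂Hom _ _)).1 hw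
    rw [mum_c_map, mum_d_map] at he
    have e : c.map (MvPolynomial.eval₂Hom ((TrivSqZeroExt.inlHom Λ Λ).comp φ)
        fun i => TrivSqZeroExt.inl (φ (p₀ i))) =
        ((c.map (MvPolynomial.eval p₀)).map φ).map (il Λ) := by
      rw [Cv.map_map, Cv.map_map]
      congr 1
      ext i <;> simp
    have h1 : (pol fun j : Fin m => φ (η.coeff j)) = η.map φ := by
      rw [← pol_map, pol_self hη]
    obtain ⟨k1, k2⟩ := sysl hM hb (e ▸ he) (fun i => rfl) (fun i => by simp [mkd, bas, tq])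
      (by rw [mon_map, mon_map]; rfl) (by rw [mon_map, mon_map]; rfl)
      (by simp [mkd, bas, e1, pol_map, h1]) (by simp [mkd, bas, e2', pol_map, h1])
      (by simp [mkd, bas, pol_map, pol_zero])
      fun j hj => ⟨pol_coeff_of_le _ (hm ▸ hj), pol_coeff_of_le _ (hm ▸ hj),
        pol_coeff_of_le _ (hm ▸ hj)⟩
    funext a
    rcases a with j | j | j | i
    · simpa [mkd, e1, pol_coeff] using (k2 j).1
    · simpa [mkd, e2', pol_coeff] using (k2 j).2.1
    · simpa [mkd, pol_coeff] using (k2 j).2.2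
    · simpa [mkd, tq] using k1 i
  · refine inter_mem ((MvPolynomial.continuous_eval _).continuousAt.eventually_ne ?_)
      (ContinuousAt.preimage_mem_nhds (by fun_prop) hW)
    rw [← hd.opn_map, ec, ed, ← map_ne_zero φ, ← (mum_mon _ _ _ _).opn_map,
      ((mum_mon _ _ _ _).map φ).opn_iff]
    refine (mum_bas t hη a₀).symm ▸ ⟨hb.cop, hb.cop, fun y hy => ?_⟩
    exact (ee_eval _ _ _).trans_ne (by
      rw [show (Sd.map _ φ).η₁ = η.map φ from rfl, show (Sd.map _ φ).η₂ = η.map φ from rfl,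
        kap_eval, ← ee_eval]
      exact (sc_gp hb.cop hb.dvd hy).et.2)

/-- a single curve: `mum` with `ι = Empty` and `c.map C` -/
theorem mum₀ {Λ I : Type} [Field Λ] [IsAlgClosed Λ] [Fintype I] (φ : L →+* Λ) (c : Cv L)
    {M e : ℕ} (hM : (M : Λ) ≠ 0) (a₀ : Fin e → L) (t : I → L) {η : L[X]}
    (hI : Fintype.card I = c.g0) (hη : η.degree < (M * Fintype.card I + e : ℕ))
    (hb : Base (c.map φ) M e ((mon a₀).map φ) (fun i => φ (t i)) (η.map φ))
    {W : Set ((Fin e → L) × (Unk (M * Fintype.card I + e) I → L))} (hW : W ∈ 𝓝 (a₀, bas _ t η)) :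
    ∀ᶠ a in 𝓝 a₀, ∃ v, (a, v) ∈ W ∧
      Sol (c.map φ) (Set.range φ) ((uu M (mon a) t).map φ) ((uu M (mon a₀) (tq v)).map φ)
        ((e1 v).map φ) ((e2' v).map φ) := by
  have e0 : ∀ p : Empty → L, (c.map MvPolynomial.C).map (MvPolynomial.eval p) = c := fun p => by
    rw [Cv.map_map]
    exact (congrArg c.map (RingHom.ext fun _ => MvPolynomial.eval_C _)).trans c.map_id
  have h := mum φ (c.map MvPolynomial.C) Empty.elim hM a₀ t hI hη ((e0 _).symm ▸ hb)
    (W := (fun x => (x.1.2.1, x.2)) ⁻¹' W) (ContinuousAt.preimage_mem_nhds (by fun_prop) hW)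
  have hc : Continuous fun a : Fin e → L => ((Empty.elim : Empty → L), a, a₀) := by fun_prop
  filter_upwards [(hc.tendsto a₀).eventually h] with a ⟨v, h1, h2⟩
  exact ⟨v, h1, e0 Empty.elim ▸ h2⟩

end Pool.Agent.ZFy.U
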