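import Pool.Agent.Lib.MP_751085_ag.ZF.U.Defs
import Pool.Agent.Lib.MP_751085_ag.ZF.U.Mum
import Pool.Agent.Lib.MP_751085_ag.ZC.UPts
import Pool.Agent.Lib.MP_751085_ag.ZC.UEta

/-! Uniform local divisibility on a family of plane curves. -/

namespace Pool.Agent.ZFy.U

open Polynomial Pool.Agent.ZeroCyc Pool.Agent.ZCy.U Filter Topology
open scoped Classical

set_option linter.unusedSectionVars false

theorem gp_map {L Λ : Type} [Field L] [Field Λ] (φ : L →+* Λ) {c : Cv L} {Q : L × L} :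
    (c.map φ).Gp (pm φ Q) ↔ c.Gp Q := by
  refine and_congr ?_ ?_
  · change ee (pm φ Q) (mp φ c.χ) = 0 ↔ ee Q c.χ = 0
    rw [← map_ee, _root_.map_eq_zero]
  · change (c.ρ.map φ).eval (φ Q.1) ≠ 0 ↔ _
    rw [eval_map, eval₂_at_apply, _root_.map_ne_zero]

theorem gp_pos {L : Type} [Field L] {c : Cv L} {Q : L × L} (h : c.Gp Q) : 0 < c.δ := by
  refine Nat.pos_of_ne_zero fun h0 => ?_
  have h1 : ee Q c.χ = 0 := h.1
  rw [c.wt.monic.natDegree_eq_zero.1 (c.wt.deg.trans h0), map_one] at h1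
  exact one_ne_zero h1

section

variable {L Λ I : Type} [Field L] [Field Λ] [IsAlgClosed Λ] [Fintype I] (φ : L →+* Λ) {c : Cv L}
  {M : ℕ}

theorem cv_side (hM : 0 < M) {Q : L × L} {t : I → L} {η : L[X]}
    (hc : IsCoprime ((uu M (X - C Q.1) t).map φ) (c.map φ).ρ)
    (hd : (uu M (X - C Q.1) t).map φ ∣ (c.map φ).χ.eval (η.map φ)) (o : On c.χ Q)
    (k : ee Q (kap c.χ η) ≠ 0) : (c.map φ).Gp (pm φ Q) ∧
      (∀ i, (c.map φ).Gp (φ (t i), (η.map φ).eval (φ (t i)))) ∧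
      sec ((uu M (X - C Q.1) t).map φ) (η.map φ) = Finsupp.single (pm φ Q) 1 +
        M • ∑ i, Finsupp.single (φ (t i), (η.map φ).eval (φ (t i))) 1 := by
  rw [uu_map, Polynomial.map_sub, map_X, map_C] at hc hd ⊢
  have h0 : (uu M (X - C (φ Q.1)) fun i => φ (t i)).eval (φ Q.1) = 0 := by simp [uu]
  have e : (φ Q.1, (η.map φ).eval (φ Q.1)) = pm φ Q := Prod.ext rfl (sc_pt (Q := pm φ Q)
    ((map_ee φ Q c.χ).symm.trans (by rw [show ee Q c.χ = 0 from o, map_zero])) hd h0 (by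
      change ee _ (kap (mp φ c.χ) _) ≠ 0
      rwa [← kap_map, ← map_ee, _root_.map_ne_zero])).symm
  refine ⟨e ▸ sc_gp hc hd h0, fun i => sc_gp hc hd ?_,
    by rw [sec_uu (X_sub_C_ne_zero _), sec_X_sub_C, e]⟩
  rw [uu, eval_mul, eval_prod, Finset.prod_eq_zero (Finset.mem_univ i) (by simp [hM.ne']), mul_zero]

theorem cv_dvs (hM : 0 < M) {Q₁ Q₂ : L × L} {t t' : I → L} {η₁ η₂ : L[X]}
    (h : Sol (c.map φ) (Set.range φ) ((uu M (X - C Q₁.1) t).map φ) ((uu M (X - C Q₂.1) t').map φ)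
      (η₁.map φ) (η₂.map φ)) (o₁ : On c.χ Q₁) (o₂ : On c.χ Q₂) (k₁ : ee Q₁ (kap c.χ η₁) ≠ 0)
    (k₂ : ee Q₂ (kap c.χ η₂) ≠ 0) : Dvs (c.map φ) (Set.range φ) M (pm φ Q₁) (pm φ Q₂) := by
  obtain ⟨g1, g2, g3⟩ := cv_side φ hM h.cop₁ h.dvd₁ o₁ k₁
  obtain ⟨g4, g5, g6⟩ := cv_side φ hM h.cop₂ h.dvd₂ o₂ k₂
  obtain ⟨a, hw, ha, e⟩ := h.ex
  have r : ∀ (η : L[X]) (s : L), (η.map φ).eval (φ s) ∈ Set.range φ := fun η s =>
    ⟨η.eval s, by rw [eval_map, eval₂_hom]⟩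
  refine ⟨g1, g4, _, a, ∑ i, (Finsupp.single (φ (t' i), (η₂.map φ).eval (φ (t' i))) 1 -
    Finsupp.single (φ (t i), (η₁.map φ).eval (φ (t i))) 1), hw, fun i => ⟨_, (coeff_map φ i).symm⟩,
    ha, fun Q hQ => ?_, ?_, ?_⟩
  · rw [Finsupp.finsetSum_apply] at hQ
    obtain ⟨i, -, hi⟩ := Finset.exists_ne_zero_of_sum_ne_zero hQ
    rw [Finsupp.sub_apply, Finsupp.single_apply, Finsupp.single_apply] at hi
    split_ifs at hi with h1 h2 h2
    · exact absurd rfl hi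
    · exact h1 ▸ ⟨g5 i, ⟨_, rfl⟩, r _ _⟩
    · exact h2 ▸ ⟨g2 i, ⟨_, rfl⟩, r _ _⟩
    · exact absurd rfl hi
  · simp only [map_sum, map_sub, Finsupp.degree_single, sub_self, Finset.sum_const_zero]
  · rw [e, g3, g6, Finset.sum_sub_distrib, smul_sub]
    abel

end

variable {L : Type} [NontriviallyNormedField L] [CompleteSpace L]

/-- rational points in general position that avoid a finite set of first coordinates -/
theorem exists_gen {Λ : Type} [Field Λ] [IsAlgClosed Λ] (φ : L →+* Λ) {c : Cv L} {Q₀ : L × L}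
    (hQ : c.Gp Q₀) (hi : Irreducible (c.map φ).χ) {F : Set Λ} (hF : F.Finite) :
    ∃ P : Fin c.g0 → L × L, (∀ i, c.Gp (P i) ∧ φ (P i).1 ∉ F) ∧
      Function.Injective (fun i => (P i).1) ∧
      NS (c.map φ) (∑ i, Finsupp.single (pm φ (P i)) 1) := by
  obtain ⟨S, hS, hg, hinj⟩ := exists_pts hQ
  have hpm : Function.Injective (pm φ) := φ.injective.prodMap φ.injective
  have hS' : (S \ {Q ∈ S | φ Q.1 ∈ F}).Infinite := hS.sdiff
    (Set.Finite.of_finite_image (f := fun Q : L × L => φ Q.1) (hF.subset (by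
      rintro _ ⟨Q, h, rfl⟩; exact h.2)) fun Q h Q' h' e => hinj h.1 h'.1 (φ.injective e))
  obtain ⟨P', hP', hP'i, hns⟩ := exists_ns hi (hS'.image hpm.injOn)
    (by rintro _ ⟨Q, h, rfl⟩; exact (gp_map φ).2 (hg Q h.1).1)
    (by rintro _ ⟨Q, h, rfl⟩ _ ⟨Q', h', rfl⟩ e; rw [hinj h.1 h'.1 (φ.injective e)])
  choose P hP hPP using hP'
  refine ⟨P, fun i => ⟨(hg _ (hP i).1).1, fun h => (hP i).2 ⟨(hP i).1, h⟩⟩,
    fun i j e => hP'i ?_, by simp only [hPP]; exact hns⟩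
  have e' : (P i).1 = (P j).1 := e
  simp only [← hPP, pm, Prod.map_fst, e']

theorem uld_cv {Λ ι : Type} [Field Λ] [IsAlgClosed Λ] [Fintype ι] (φ : L →+* Λ)
    (c : Cv (MvPolynomial ι L)) (p₀ : ι → L) (Q₀ : L × L)
    (hQ : (c.map (MvPolynomial.eval p₀)).Gp Q₀)
    (hi : Irreducible ((c.map (MvPolynomial.eval p₀)).map φ).χ) {M : ℕ} (hM : (M : Λ) ≠ 0) :
    ∀ᶠ z : (ι → L) × (L × L) × (L × L) in 𝓝 (p₀, Q₀, Q₀),
      On (c.map (MvPolynomial.eval z.1)).χ z.2.1 → On (c.map (MvPolynomial.eval z.1)).χ z.2.2 →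
        Dvs ((c.map (MvPolynomial.eval z.1)).map φ) (Set.range φ) M (pm φ z.2.1) (pm φ z.2.2) := by
  have hM' : 0 < M := Nat.pos_of_ne_zero fun h => hM (by rw [h, Nat.cast_zero])
  obtain ⟨P, hP, hPi, hns⟩ := exists_gen φ hQ hi (Set.finite_singleton (φ Q₀.1))
  obtain ⟨η, h1, h2, h3, h4⟩ := exists_eta hM' hQ.et (fun i => (hP i).1.et) hPi
    fun i e => (hP i).2 (congrArg φ e)
  have em : ∀ Q : L × L, mon (fun _ : Fin 1 => -Q.1) = X - C Q.1 := fun Q => by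
    rw [mon_one, neg_neg]
  have hb : Base ((c.map (MvPolynomial.eval p₀)).map φ) M 1 ((mon fun _ : Fin 1 => -Q₀.1).map φ)
      (fun i => φ (P i).1) (η.map φ) := by
    refine ⟨mon_map φ _ ▸ mon_deg _, gp_pos ((gp_map φ).2 hQ), ?_, ?_, φ.injective.comp hPi, ?_⟩
    · rw [Cv.cop_iff]
      intro t ht
      rw [em, uu, eval_mul, eval_prod, mul_eq_zero, Finset.prod_eq_zero_iff] at ht
      rcases ht with ht | ⟨i, -, ht⟩
      · obtain rfl : t = φ Q₀.1 := by simpa [sub_eq_zero] using ht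
        exact ((gp_map φ).2 hQ).2
      · obtain rfl : t = φ (P i).1 := by simpa [sub_eq_zero, hM'.ne'] using ht
        exact ((gp_map φ).2 (hP i).1).2
    · rw [← uu_map, em]
      change _ ∣ (mp φ _).eval _
      rw [eval_mp]
      exact Polynomial.map_dvd φ h4
    · have e : ∀ i, (φ (P i).1, (η.map φ).eval (φ (P i).1)) = pm φ (P i) := fun i => by
        rw [eval_map, eval₂_at_apply, h3]
        rfl
      simp only [e]
      exact hns
  have k0 : ee Q₀ (kap (mp (MvPolynomial.eval p₀) c.χ) η) ≠ 0 := by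
    have e : (Q₀.1, η.eval Q₀.1) = Q₀ := Prod.ext rfl h2
    rw [← e, ee_eval, kap_eval, ← ee_eval, e]
    exact hQ.et.2
  have hψ : ∀ r : MvPolynomial ι L, Continuous fun z : ((ι → L) × (L × L) × (L × L)) ×
      (Unk (M * Fintype.card (Fin (c.map (MvPolynomial.eval p₀)).g0) + 1)
        (Fin (c.map (MvPolynomial.eval p₀)).g0) → L) => MvPolynomial.eval z.1.1 r :=
    fun r => (MvPolynomial.continuous_eval r).comp continuous_fst.fst
  have c1 := (cont_kap _ hψ c.χ (Q := fun z => z.1.2.1) (v := fun z j => z.2 (.inl j))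
    (by fun_prop) (by fun_prop)).continuousAt.eventually_ne
      (x := ((p₀, Q₀, Q₀), bas _ (fun i => (P i).1) η)) ((e1_bas _ h1).symm ▸ k0 :
        ee Q₀ (kap _ (e1 (bas _ (fun i => (P i).1) η))) ≠ 0)
  have c2 := (cont_kap _ hψ c.χ (Q := fun z => z.1.2.2) (v := fun z j => z.2 (.inr (.inl j)))
    (by fun_prop) (by fun_prop)).continuousAt.eventually_ne
      (x := ((p₀, Q₀, Q₀), bas _ (fun i => (P i).1) η)) ((e2_bas _ h1).symm ▸ k0 :
        ee Q₀ (kap _ (e2' (bas _ (fun i => (P i).1) η))) ≠ 0)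
  obtain ⟨U, hU, V, hV, hUV⟩ := mem_nhds_prod_iff.1 (c1.and c2)
  have key := mum φ c p₀ hM _ _ (Fintype.card_fin _) h1 hb
    (continuous_snd.continuousAt.preimage_mem_nhds hV)
  have hc : Continuous fun z : (ι → L) × (L × L) × (L × L) =>
      ((z.1, fun _ => -z.2.1.1, fun _ => -z.2.2.1) : (ι → L) × (Fin 1 → L) × (Fin 1 → L)) := by
    fun_prop
  filter_upwards [(hc.tendsto (p₀, Q₀, Q₀)).eventually key, hU] with z ⟨v, hv, hs⟩ hz o1 o2
  have h5 := hUV (Set.mk_mem_prod hz hv)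
  rw [em, em] at hs
  exact cv_dvs φ hM' hs o1 o2 h5.1 h5.2

end Pool.Agent.ZFy.U
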