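import Pool.Agent.Lib.MP_751085_ag.ZF.U.Xa

/-! A system of values at points factors through the classes. -/

namespace Pool.Agent.ZFy.U

open Polynomial Module Pool.Agent.ZeroCyc
open scoped Classical IntermediateField

set_option linter.unusedSectionVars false

variable {K Λ : Type} [Field K] [Field Λ] [IsAlgClosed Λ] [Algebra K Λ] [Normal K Λ] {N : ℕ}
  {J : Ideal (MvPolynomial (Fin (N + 1)) K)} {B : Type} [AddCommGroup B]

theorem PS.val_orb (P : PS Λ J B) (hc : IsCone Λ J) (O : Set (PY Λ N)) :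
    ∃ (d : ℕ) (b : B), d ≠ 0 ∧ ∀ (L : IntermediateField K Λ) (v : Fin (N + 1) → Λ),
      FiniteDimensional K L → PtL J L v → orb K (pj v) = O →
        ∃ r : ℕ, finrank K L = r * d ∧ P.val L v = r • b := by
  by_cases h : ∃ v : Fin (N + 1) → Λ, v ≠ 0 ∧ OnX J v ∧ orb K (pj v) = O
  swap
  · exact ⟨1, 0, one_ne_zero, fun L v _ hv e => absurd ⟨v, hv.ne, hv.on, e⟩ h⟩
  obtain ⟨v₀, h0, hon, rfl⟩ := h
  obtain ⟨i, hi⟩ := Function.ne_iff.1 h0
  have hi' : v₀ i ≠ 0 := hi
  obtain ⟨w, hw⟩ : ∃ w, w = (v₀ i)⁻¹ • v₀ := ⟨_, rfl⟩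
  have hw1 : w i = 1 := by rw [hw]; exact inv_mul_cancel₀ hi'
  have hw0 : w ≠ 0 := Function.ne_iff.2 ⟨i, by rw [hw1]; exact one_ne_zero⟩
  have := (Set.finite_range w).to_subtype
  have hM : FiniteDimensional K (IntermediateField.adjoin K (Set.range w)) :=
    IntermediateField.finiteDimensional_adjoin fun y _ => Algebra.IsIntegral.isIntegral y
  have hp : PtL J (IntermediateField.adjoin K (Set.range w)) w :=
    ⟨hw0, hw ▸ hc v₀ _ hon, fun j => IntermediateField.subset_adjoin _ _ ⟨j, rfl⟩⟩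
  refine ⟨_, P.val (IntermediateField.adjoin K (Set.range w)) w, (finrank_pos (R := K)
    (M := IntermediateField.adjoin K (Set.range w))).ne', fun L v hL hv e => ?_⟩
  obtain ⟨σ, hσ⟩ : pj v ∈ orb K (pj v₀) := e ▸ ⟨1, galY_one _⟩
  have h1 : σ ∘ w ≠ 0 := Function.ne_iff.2 ⟨i, by simp [hw1]⟩
  have h2 : pj v = pj (σ ∘ w) := by
    rw [← hσ, ← galY_pj, hw, pj_smul (inv_ne_zero hi')]
  rw [pj_eq hv.ne, pj_eq h1, Projectivization.mk_eq_mk_iff'] at h2
  obtain ⟨c, hcv⟩ := h2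
  have h3 : c = v i := by rw [← hcv]; simp [hw1]
  have h4 : c ≠ 0 := fun e => hv.ne (by rw [← hcv, e, zero_smul])
  have h5 : σ ∘ w = c⁻¹ • v := by rw [← hcv, inv_smul_smul₀ h4]
  have hcL : c⁻¹ ∈ L := L.inv_mem (h3 ▸ hv.mem i)
  have h6 : (IntermediateField.adjoin K (Set.range w)).map σ ≤ L := by
    rw [IntermediateField.map_le_iff_le_comap, IntermediateField.adjoin_le_iff]
    rintro _ ⟨j, rfl⟩
    have : σ (w j) = c⁻¹ * v j := congrFun h5 j
    change σ (w j) ∈ L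
    rw [this]
    exact L.mul_mem hcL (hv.mem j)
  obtain ⟨r, hr⟩ := IntermediateField.finrank_dvd_of_le_right h6
  have h7 := (IntermediateField.intermediateFieldMap σ
    (IntermediateField.adjoin K (Set.range w))).toLinearEquiv.finrank_eq
  refine ⟨r, by rw [hr, mul_comm]; exact congrArg _ h7.symm, ?_⟩
  rw [← P.smul L v c⁻¹ hL hv hcL (inv_ne_zero h4), ← h5, ← P.gal _ w σ hM hp]
  exact P.tower _ L _ r h6 hL ⟨h1, h5 ▸ hc v _ hv.on, fun j => ⟨w j, hp.mem j, rfl⟩⟩
    (by rw [hr, mul_comm])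

theorem PS.exists_hom (P : PS Λ J B) (hc : IsCone Λ J) {A : Type} [AddCommGroup A]
    [DivisibleBy A ℤ] (χ : B →+ A) : ∃ φ : VV Λ J →+ A, ∀ (L : IntermediateField K Λ)
      (v : Fin (N + 1) → Λ), FiniteDimensional K L → PtL J L v →
        φ (pc J L v) = χ (P.val L v) := by
  choose d b hd h using P.val_orb hc
  let ψ : (Set (PY Λ N) →₀ ℤ) →+ A := Finsupp.liftAddHom fun O =>
    zmultiplesHom A (DivisibleBy.div (χ (b O)) (d O : ℤ))
  have h1 : ∀ (L : IntermediateField K Λ) (v : Fin (N + 1) → Λ) (m : ℤ), FiniteDimensional K L →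
      PtL J L v → ψ (Finsupp.single (orb K (pj v)) (m * finrank K L)) = m • χ (P.val L v) := by
    intro L v m hL hv
    obtain ⟨r, h2, h3⟩ := h _ L v hL hv rfl
    rw [Finsupp.liftAddHom_apply_single, zmultiplesHom_apply, h2, h3, Nat.cast_mul, mul_smul,
      mul_smul, DivisibleBy.div_cancel _ (Int.natCast_ne_zero.2 (hd _)), map_nsmul, natCast_zsmul]
  have h2 : ∀ D ∈ RR Λ J, ψ D = 0 := by
    refine (AddSubgroup.closure_le ψ.ker).2 ?_
    rintro _ ⟨F, _, _, g, f, s, x, hD, rfl⟩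
    change ψ _ = 0
    rw [map_sum, Finset.sum_congr rfl fun Q hQ => h1 _ _ _ (hD.fin Q hQ) (hD.pt Q hQ),
      ← map_zero χ, ← P.wr F g f s x hD, map_sum]
    exact Finset.sum_congr rfl fun Q _ => (map_zsmul χ _ _).symm
  refine ⟨(QuotientAddGroup.lift _ ψ h2).comp (AddMonoidHom.fst _ _), fun L v hL hv => ?_⟩
  have := h1 L v 1 hL hv
  rw [one_mul, one_smul] at this
  rw [← this, pc, clL_apply, psh_single, Finsupp.smul_single, nsmul_eq_mul, mul_one]
  rfl

/-- the values, read in a larger group, come from a homomorphism on the classes -/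
theorem PS.hom (P : PS Λ J B) (hc : IsCone Λ J) : ∃ (A : Type) (_ : AddCommGroup A)
    (χ : B →+ A) (φ : VV Λ J →+ A), Function.Injective χ ∧ ∀ (L : IntermediateField K Λ)
      (v : Fin (N + 1) → Λ), FiniteDimensional K L → PtL J L v →
        φ (pc J L v) = χ (P.val L v) := by
  let χ : B →+ (CharacterModule B → AddCircle (1 : ℚ)) := AddMonoidHom.pi fun c =>
    { toFun := fun b => c b, map_zero' := map_zero c, map_add' := map_add c }
  obtain ⟨φ, h⟩ := P.exists_hom hc χ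
  refine ⟨_, _, χ, φ, (injective_iff_map_eq_zero χ).2 fun b hb => by_contra fun h0 => ?_, h⟩
  obtain ⟨c, hc⟩ := CharacterModule.exists_character_apply_ne_zero_of_ne_zero h0
  exact hc (congrFun hb c)

end Pool.Agent.ZFy.U
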