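import Pool.Agent.Lib.MP_751085_ag.ZF.U.LBr
import Pool.Agent.Lib.MP_751085_ag.ZF.C.N1
import Pool.Agent.Lib.MP_751085_ag.ZF.C.Chf
import Pool.Agent.Lib.MP_751085_ag.ZC.CJac

/-! Nice varieties have light charts. -/

namespace Pool.Agent.ZFy.U

open Pool.Agent.ZeroCyc
open Pool.Agent.ZCy (Var Chart PChart Fm Zer sb ev grad ev_eq_eval aeval_smul_hom eval₂_smul_hom)
open scoped Classical

variable {k : Type} [Field k] (X : Var k) (K : Type) [Field K] [Algebra k K]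

section

variable {Λ : Type} [Field Λ] [Algebra k Λ] [Algebra K Λ] [IsScalarTower k K Λ]

theorem grad_map {σ : Type} (v : σ → Λ) (G : MvPolynomial σ k) :
    grad v (MvPolynomial.map (algebraMap k K) G) = grad v G := by
  funext i
  rw [grad, MvPolynomial.pderiv_map, MvPolynomial.aeval_map_algebraMap, grad]

theorem jac_JK {v : Fin (X.N + 1) → Λ} (hv : OnX (X.JK K) v) :
    Submodule.span Λ (grad v '' (X.JK K : Set (MvPolynomial (Fin (X.N + 1)) K))) = X.jac v := by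
  refine le_antisymm (Submodule.span_le.2 ?_) (Submodule.span_mono ?_)
  · rintro _ ⟨G, hG, rfl⟩
    refine Submodule.span_mono ?_
      (ZCy.grad_mem_span (fun G h => hv G (Ideal.subset_span h)) hG).2
    rintro _ ⟨_, ⟨G₀, h0, rfl⟩, rfl⟩
    exact ⟨G₀, h0, (grad_map K v G₀).symm⟩
  · rintro _ ⟨G, hG, rfl⟩
    exact ⟨_, Ideal.subset_span ⟨G, hG, rfl⟩, grad_map K v G⟩

theorem tan_JK {v : Fin (X.N + 1) → Λ} (hv : OnX (X.JK K) v) (w : Fin (X.N + 1) → Λ) :
    (∀ G ∈ X.JK K, grad v G ⬝ᵥ w = 0) ↔ ∀ G ∈ X.I, grad v G ⬝ᵥ w = 0 := by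
  refine ⟨fun h G hG => grad_map K v G ▸ h _ (Ideal.subset_span ⟨G, hG, rfl⟩), fun h G hG => ?_⟩
  have h1 : grad v G ∈ X.jac v := jac_JK X K hv ▸ Submodule.subset_span ⟨G, hG, rfl⟩
  generalize grad v G = u at h1
  induction h1 using Submodule.span_induction with
  | mem u hu =>
    obtain ⟨G₀, h0, rfl⟩ := hu
    exact h G₀ h0
  | zero => exact zero_dotProduct w
  | add a b _ _ h1 h2 => rw [add_dotProduct, h1, h2, add_zero]
  | smul c a _ h1 => rw [smul_dotProduct, h1, smul_zero]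

theorem on_iff (v : Fin (X.N + 1) → Λ) : X.On v ↔ v ≠ 0 ∧ OnX (X.JK K) v :=
  and_congr Iff.rfl (onX_JK X K v).symm

theorem ptL_iff (L : IntermediateField K Λ) (v : Fin (X.N + 1) → Λ) :
    PtL (X.JK K) L v ↔ X.On v ∧ ∀ i, v i ∈ L :=
  ⟨fun h => ⟨(on_iff X K v).2 ⟨h.ne, h.on⟩, h.mem⟩,
    fun h => ⟨h.1.1, ((on_iff X K v).1 h.1).2, h.2⟩⟩

end

section

variable {σ Λ : Type} [Field Λ] {N : ℕ} {GG : Set (Fm N k)} (c : Chart k σ N GG) (φ : k →+* Λ)

theorem lbr_fib (y : Option (Option σ) → Λ) :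
    {x | Zer GG φ x ∧ ∀ i, MvPolynomial.eval₂ φ x (c.f i) = y i}.Finite := by
  choose m H hm _ _ hH using c.int
  refine (Set.Finite.pi' (t := fun j => {z : Λ |
    (((H j).map (MvPolynomial.eval₂Hom φ y)).comp (Polynomial.X ^ c.d)).IsRoot z})
    fun j => Polynomial.finite_setOfPred_isRoot ?_).subset fun x hx j => ?_
  · exact (((hm j).map _).comp (Polynomial.monic_X_pow c.d)
      (by rw [Polynomial.natDegree_X_pow]; exact c.dpos.ne')).ne_zero
  · have e := hH j Λ φ x hx.1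
    rw [funext hx.2, ev_eq_eval] at e
    simpa [Polynomial.eval_comp] using e

theorem lbr_off {Θ : MvPolynomial (Option σ) k} {x : Fin (N + 1) → Λ} (h : c.Off (c.Ψ * Θ) φ x) :
    c.Off c.D φ x := by
  obtain ⟨r, hr⟩ := c.dvd
  refine ⟨h.1, fun h0 => h.2 ?_⟩
  have h1 := map_dvd (MvPolynomial.eval₂Hom φ (c.xi φ x)) hr
  rw [MvPolynomial.coe_eval₂Hom, h0, zero_dvd_iff, MvPolynomial.eval₂_pow] at h1
  rw [MvPolynomial.eval₂_mul]
  exact mul_eq_zero_of_left (eq_zero_of_pow_eq_zero h1) _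

theorem lbr_roots {τ : Type} [Unique τ] {D : MvPolynomial τ k} {y₀ : τ → Λ}
    (h : MvPolynomial.eval₂ φ y₀ D ≠ 0) : {y | MvPolynomial.eval₂ φ y D = 0}.Finite := by
  have e : ∀ y : τ → Λ, (MvPolynomial.eval₂ (Polynomial.C.comp φ) (fun _ => Polynomial.X) D).eval
      (y default) = MvPolynomial.eval₂ φ y D := fun y => by
    rw [← Polynomial.coe_evalRingHom, MvPolynomial.eval₂_comp_left]
    congr 1
    · ext1 x
      simp
    · funext i
      simp [Subsingleton.elim i default]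
  refine ((Polynomial.finite_setOfPred_isRoot (p := MvPolynomial.eval₂ (Polynomial.C.comp φ)
    (fun _ => Polynomial.X) D) fun h0 => h (by rw [← e, h0, Polynomial.eval_zero])).image
      fun t _ => t).subset fun y hy => ⟨y default, (e y).trans hy, funext fun i => ?_⟩
  rw [Subsingleton.elim i default]

/-- a chart of a curve misses finitely many points -/
theorem lbr_bad [IsAlgClosed Λ] [IsEmpty σ] (hG : ∀ G ∈ GG, ∃ m, G.IsHomogeneous m)
    {x₀ : Fin (N + 1) → Λ} (h₀ : c.Off c.D φ x₀) :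
    ∃ b : Finset (PY Λ N), ∀ v, v ≠ 0 → Zer GG φ v → c.Off c.D φ v ∨ pj v ∈ b := by
  let _ : Unique (Option σ) := ⟨⟨none⟩, fun i => i.rec rfl isEmptyElim⟩
  have hz : ∀ (a : Λ) {v}, Zer GG φ v → Zer GG φ (a • v) := fun a v hv G h => by
    obtain ⟨m, hm⟩ := hG G h
    rw [eval₂_smul_hom hm, hv G h, mul_zero]
  have hY := ((lbr_roots φ h₀.2).image fun (y : Option σ → Λ) (i : Option (Option σ)) =>
    i.elim 1 y).insert fun i => i.elim 0 fun _ => 1
  have hB := (hY.biUnion fun y _ => lbr_fib c φ y).image pj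
  refine ⟨hB.toFinset, fun v h0 hv => or_iff_not_imp_left.2 fun hn => ?_⟩
  have key : ∀ (i) (y : Option (Option σ) → Λ), MvPolynomial.eval₂ φ v (c.f i) ≠ 0 → (∀ j,
      MvPolynomial.eval₂ φ v (c.f j) / MvPolynomial.eval₂ φ v (c.f i) = y j) → ∃ a : Λ, a ≠ 0 ∧
        ∀ j, MvPolynomial.eval₂ φ (a • v) (c.f j) = y j := fun i y h1 h2 => by
    obtain ⟨a, ha⟩ := IsAlgClosed.exists_pow_nat_eq (MvPolynomial.eval₂ φ v (c.f i))⁻¹ c.dpos
    refine ⟨a, fun e => inv_ne_zero h1 (by rw [← ha, e, zero_pow c.dpos.ne']), fun j => ?_⟩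
    rw [eval₂_smul_hom (c.hf j), ha, ← h2, div_eq_inv_mul]
  rw [Set.Finite.mem_toFinset]
  by_cases h1 : MvPolynomial.eval₂ φ v (c.f none) = 0
  · have h2 : MvPolynomial.eval₂ φ v (c.f (some none)) ≠ 0 := fun h2 =>
      Set.infinite_range_of_injective (smul_left_injective Λ h0)
        ((lbr_fib c φ 0).subset (by
          rintro _ ⟨a, rfl⟩
          refine ⟨hz a hv, fun i => ?_⟩
          rw [eval₂_smul_hom (c.hf i)]
          rcases i with _ | _ | i
          exacts [mul_eq_zero_of_right _ h1, mul_eq_zero_of_right _ h2, isEmptyElim i]))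
    obtain ⟨a, ha, h3⟩ := key (some none) (fun i => i.elim 0 fun _ => 1) h2 fun j => by
      rcases j with _ | _ | j
      exacts [by rw [h1, zero_div]; rfl, div_self h2, isEmptyElim j]
    exact ⟨a • v, Set.mem_biUnion (Set.mem_insert _ _) ⟨hz a hv, h3⟩, pj_smul ha v⟩
  · obtain ⟨a, ha, h3⟩ := key none (fun i => i.elim 1 (c.xi φ v)) h1 fun j => by
      rcases j with _ | j
      exacts [div_self h1, rfl]
    exact ⟨a • v, Set.mem_biUnion (Set.mem_insert_of_mem _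
      ⟨_, not_not.1 fun h => hn ⟨h1, h⟩, rfl⟩) ⟨hz a hv, h3⟩, pj_smul ha v⟩

end

theorem lbr_gi {n : ℕ} (hX : X.Nice n) {σ : Type} [Fintype σ] (hσ : Fintype.card σ + 1 = n)
    (c : Chart k σ X.N (X.IK k)) :
    Irreducible (ZCy.mq (algebraMap k (AlgebraicClosure K)) c.χ) := by
  obtain ⟨c', hc⟩ := c.exists_map (algebraMap k K) (GG' := X.IK K)
    (fun G hG => by
      obtain ⟨G₀, h0, rfl⟩ := hG
      exact Ideal.subset_span ⟨G₀, lk1_mem X h0, rfl⟩)
    (fun Ω _ ψ x h G hG => by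
      obtain ⟨G₀, h0, rfl⟩ := hG
      have := h _ ⟨G₀, h0, rfl⟩
      rw [MvPolynomial.eval₂_map] at this
      simpa using this)
  have hi := (ZCy.chfp_thm k X n hX K σ c' hσ).1
  rw [PChart.GI, hc.p.χ, Polynomial.coe_mapRingHom, Polynomial.coe_mapRingHom,
    Polynomial.map_map] at hi
  have e : (MvPolynomial.map (σ := Option σ) (algebraMap K (AlgebraicClosure K))).comp
      (MvPolynomial.map (algebraMap k K)) = MvPolynomial.map (algebraMap k _) :=
    RingHom.ext fun p => by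
      rw [RingHom.comp_apply, MvPolynomial.map_map, ← IsScalarTower.algebraMap_eq]
  rwa [e] at hi

/-- a chart through finitely many points that separates them -/
theorem lbr_chart [Infinite k] {n : ℕ} (hX : X.Nice n) (σ : Type) [Fintype σ]
    (hσ : Fintype.card σ + 1 = n) {M : Type} [Field M] [Algebra k M]
    (S : Finset (Fin (X.N + 1) → M)) (hS : ∀ x ∈ S, X.On x) :
    ∃ c : Chart k σ X.N (X.IK k), (∀ x ∈ S, c.Off c.D (algebraMap k M) x) ∧ ∀ x ∈ S, ∀ x' ∈ S,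
      c.xi (algebraMap k M) x none = c.xi (algebraMap k M) x' none → ∃ u : M, x' = u • x := by
  obtain ⟨d, h1, h2⟩ : ∃ d : ℕ, 2 ≤ d ∧ (d : k) ≠ 0 := by
    by_cases h : ((2 : ℕ) : k) = 0
    · exact ⟨2 + 1, by omega, by rw [Nat.cast_add, h, zero_add, Nat.cast_one]; exact one_ne_zero⟩
    · exact ⟨2, le_rfl, h⟩
  obtain ⟨c, Φ, -, -, -, h3, -, h4⟩ := ZCy.n1s_thm k X n hX σ hσ M S hS 1
    ⟨0, MvPolynomial.isHomogeneous_one _ _⟩ (fun h => by simpa using h.2) d h1 h2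
  exact ⟨c, fun x hx => lbr_off c _ (h3 x hx), h4⟩

variable {X}

theorem charts_of [Infinite k] {n : ℕ} (hX : X.Nice n) (hn : 1 ≤ n) (K : Type) [Field K]
    [Algebra k K] : Charts k (AlgebraicClosure K) (X.JK K) n := by
  refine ⟨fun v c h => onX_smul X K h c, ⟨X.IK K, ?_, rfl⟩, fun s hs => ?_, fun v h0 hv => ?_⟩
  · rintro _ ⟨G, ⟨⟨m, hm⟩, -⟩, rfl⟩
    exact ⟨m, hm.map _⟩
  · have hσ : Fintype.card (Fin (n - 1)) + 1 = n := by rw [Fintype.card_fin]; omega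
    obtain ⟨c, h1, -⟩ := lbr_chart X hX _ hσ s fun v hv => (on_iff X K v).2 (hs v hv)
    obtain ⟨𝒞, -, -, -, h⟩ := exists_lch X K (Λ := AlgebraicClosure K) c
      (Fintype.equivFinOfCardEq (by rw [Fintype.card_option, hσ])) (lbr_gi X K hX hσ c)
    exact ⟨𝒞, fun v hv => (h v).2 (h1 v hv)⟩
  · rw [jac_JK X K hv]
    exact hX.finrank_jac ((on_iff X K v).2 ⟨h0, hv⟩)

theorem crv_of [Infinite k] (hX : X.Nice 1) (K : Type) [Field K] [Algebra k K] :
    Crv k (AlgebraicClosure K) (X.JK K) := by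
  refine ⟨fun v c h => onX_smul X K h c, fun s ⟨v₀, h₀⟩ hs => ?_⟩
  have hσ : Fintype.card Empty + 1 = 1 := rfl
  obtain ⟨c, h1, h2⟩ := lbr_chart X hX _ hσ s fun v hv => (on_iff X K v).2 (hs v hv)
  obtain ⟨e⟩ : Nonempty (Option Empty ≃ Fin 1) := ⟨Fintype.equivFinOfCardEq rfl⟩
  obtain ⟨𝒞, a1, a2, a3, a4⟩ := exists_lch X K (Λ := AlgebraicClosure K) c e (lbr_gi X K hX hσ c)
  obtain ⟨b, hb⟩ := lbr_bad c _ (fun G hG => (X.IK_self ▸ hG : G ∈ X.I).1) (h1 v₀ h₀)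
  refine ⟨𝒞, fun v hv => (a4 v).2 (h1 v hv), fun v hv v' hv' h => ?_, b, fun v h0 hv =>
    (hb v h0 (lk1_zer X ((onX_JK X K v).1 hv))).imp_left (a4 v).2⟩
  obtain ⟨u, rfl⟩ := h2 v hv v' hv' (by rw [← a3, ← a3, h])
  have hu : u ≠ 0 := fun e => (hs _ hv').1 (by rw [e, zero_smul])
  rw [LCh.th, LCh.th, a1, a2, aeval_smul_hom c.hth, aeval_smul_hom (c.hf none),
    mul_div_mul_left _ _ (pow_ne_zero _ hu)]

end Pool.Agent.ZFy.U
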