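import Pool.Agent.Lib.MP_751085_ag.ZF.U.Ch

/-! Tangent vectors in a light chart. -/

namespace Pool.Agent.ZFy.U

open Polynomial Module Pool.Agent.ZeroCyc
open scoped Classical IntermediateField DualNumber

set_option linter.unusedSectionVars false

variable {k K Λ : Type} [Field k] [Field K] [Field Λ] [IsAlgClosed Λ] [Algebra k K]
  [Algebra k Λ] [Algebra K Λ] [IsScalarTower k K Λ] [Normal K Λ] {N n : ℕ}
  {J : Ideal (MvPolynomial (Fin (N + 1)) K)}

/-- the dual number `a + b ε` -/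
noncomputable def du (a b : Λ) : Λ[ε] := TrivSqZeroExt.inl a + TrivSqZeroExt.inr b

/-- constants as dual numbers -/
noncomputable def dc (R Λ : Type) [CommRing R] [Field Λ] [Algebra R Λ] : R →+* Λ[ε] :=
  (TrivSqZeroExt.inlHom Λ Λ).comp (algebraMap R Λ)

theorem fst_du (a b : Λ) : (du a b).fst = a := by simp [du]

theorem snd_du (a b : Λ) : (du a b).snd = b := by simp [du]

theorem du_eta (x : Λ[ε]) : du x.fst x.snd = x := TrivSqZeroExt.inl_fst_add_inr_snd_eq x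

theorem du_mul (a b c d : Λ) : du a b * du c d = du (a * c) (a * d + b * c) := by
  ext <;> simp [du]

theorem du_add (a b c d : Λ) : du a b + du c d = du (a + c) (b + d) := by
  ext <;> simp [du]

theorem du_sub (a b c d : Λ) : du a b - du c d = du (a - c) (b - d) := by
  ext <;> simp [du]

theorem du_inj {a b c d : Λ} : du a b = du c d ↔ a = c ∧ b = d :=
  ⟨fun h => ⟨by simpa only [fst_du] using congrArg TrivSqZeroExt.fst h,
    by simpa only [snd_du] using congrArg TrivSqZeroExt.snd h⟩, fun h => by rw [h.1, h.2]⟩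

theorem du_zero : du (0 : Λ) 0 = 0 := by simp [du]

theorem dc_comp : (dc K Λ).comp (algebraMap k K) = dc k Λ := by
  rw [dc, RingHom.comp_assoc, ← IsScalarTower.algebraMap_eq, dc]

theorem ltan1_dc {R : Type} [CommRing R] [Algebra R Λ] (r : R) :
    dc R Λ r = du (algebraMap R Λ r) 0 := by
  simp [dc, du]

theorem eval₂_du {R σ : Type} [CommRing R] [Algebra R Λ] [Fintype σ] (x w : σ → Λ)
    (G : MvPolynomial σ R) : MvPolynomial.eval₂ (dc R Λ) (fun i => du (x i) (w i)) G =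
      du (MvPolynomial.aeval x G) (ZCy.grad x G ⬝ᵥ w) := by
  induction G using MvPolynomial.induction_on with
  | C a =>
    have e : ZCy.grad x (MvPolynomial.C a : MvPolynomial σ R) = 0 :=
      funext fun i => by simp [ZCy.grad]
    rw [MvPolynomial.eval₂_C, ltan1_dc, MvPolynomial.aeval_C, e, zero_dotProduct]
  | add p q hp hq =>
    have e : ZCy.grad x (p + q) = ZCy.grad x p + ZCy.grad x q :=
      funext fun i => by simp [ZCy.grad]
    rw [MvPolynomial.eval₂_add, hp, hq, du_add, map_add, e, add_dotProduct]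
  | mul_X p i hp =>
    have e : ZCy.grad x (p * MvPolynomial.X i) =
        x i • ZCy.grad x p + MvPolynomial.aeval x p • (Pi.single i 1 : σ → Λ) := by
      funext j
      by_cases hj : j = i
      · subst hj
        simp [ZCy.grad, mul_comm, add_comm]
      · simp [ZCy.grad, MvPolynomial.pderiv_X_of_ne (Ne.symm hj), hj, mul_comm]
    rw [MvPolynomial.eval₂_mul, MvPolynomial.eval₂_X, hp, du_mul, map_mul, MvPolynomial.aeval_X, e,
      add_dotProduct, smul_dotProduct, smul_dotProduct, single_dotProduct, du_inj]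
    exact ⟨rfl, by simp only [smul_eq_mul]; ring⟩

theorem eval₂_du1 {R : Type} [CommRing R] [Algebra R Λ] (x w : Λ) (p : R[X]) :
    p.eval₂ (dc R Λ) (du x w) = du (aeval x p) (aeval x (derivative p) * w) := by
  induction p using Polynomial.induction_on with
  | C a => rw [eval₂_C, ltan1_dc, aeval_C, derivative_C, map_zero, zero_mul]
  | add p q hp hq => rw [eval₂_add, hp, hq, du_add, map_add, map_add, map_add, add_mul]
  | monomial m a hp =>
    rw [pow_succ, ← mul_assoc, eval₂_mul_X, hp, du_mul, derivative_mul (g := X), derivative_X,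
      map_mul _ _ X, map_add, map_mul _ _ X, mul_one, aeval_X, du_inj]
    exact ⟨rfl, by ring⟩

variable (J) in
/-- `w` is tangent to the cone at `v` -/
def Tan (v w : Fin (N + 1) → Λ) : Prop := ∀ G ∈ J, ZCy.grad v G ⬝ᵥ w = 0

theorem Tan.add {v w w' : Fin (N + 1) → Λ} (h : Tan J v w) (h' : Tan J v w') : Tan J v (w + w') :=
  fun G hG => by rw [dotProduct_add, h G hG, h' G hG, add_zero]

theorem Tan.smul {v w : Fin (N + 1) → Λ} (h : Tan J v w) (c : Λ) : Tan J v (c • w) :=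
  fun G hG => by rw [dotProduct_smul, h G hG, smul_zero]

/-- it is enough to test generators -/
theorem tan_of_gen {S : Set (MvPolynomial (Fin (N + 1)) K)} (hS : J = Ideal.span S)
    {v w : Fin (N + 1) → Λ} (hv : OnX J v) (h : ∀ G ∈ S, ZCy.grad v G ⬝ᵥ w = 0) : Tan J v w := by
  have h1 : J ≤ RingHom.ker (MvPolynomial.eval₂Hom (dc K Λ) fun i => du (v i) (w i)) := by
    refine hS.le.trans (Ideal.span_le.2 fun G hG => ?_)
    rw [SetLike.mem_coe, RingHom.mem_ker, MvPolynomial.coe_eval₂Hom, eval₂_du, h G hG,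
      hv G (hS.ge (Ideal.subset_span hG)), du_zero]
  intro G hG
  have h2 := h1 hG
  rw [RingHom.mem_ker, MvPolynomial.coe_eval₂Hom, eval₂_du, ← du_zero, du_inj] at h2
  exact h2.2

theorem Charts.tan_smul (hJ : Charts k Λ J n) {v w : Fin (N + 1) → Λ} (hv : OnX J v) {c : Λ}
    (h : Tan J v w) : Tan J (c • v) w := by
  obtain ⟨S, hS, e⟩ := hJ.hom
  refine tan_of_gen e (hJ.cone v c hv) fun G hG => ?_
  obtain ⟨m, hm⟩ := hS G hG
  rw [ZCy.grad_smul_hom hm, smul_dotProduct, h G (e.ge (Ideal.subset_span hG)), smul_zero]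

theorem Charts.tan_self (hJ : Charts k Λ J n) {v : Fin (N + 1) → Λ} (hv : OnX J v) :
    Tan J v v := by
  obtain ⟨S, hS, e⟩ := hJ.hom
  refine tan_of_gen e hv fun G hG => ?_
  obtain ⟨m, hm⟩ := hS G hG
  rw [ZCy.grad_dot_self hm, hv G (e.ge (Ideal.subset_span hG)), mul_zero]

namespace LCh

variable (𝒞 : LCh k Λ J n)

/-- the differential of the affine coordinates, times `f₀` -/
noncomputable def dxi (v : Fin (N + 1) → Λ) : (Fin (N + 1) → Λ) →ₗ[Λ] Fin n → Λ where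
  toFun w i := ZCy.grad v (𝒞.f i) ⬝ᵥ w - 𝒞.xi v i * (ZCy.grad v 𝒞.f₀ ⬝ᵥ w)
  map_add' w w' := funext fun i => by simp only [dotProduct_add, Pi.add_apply]; ring
  map_smul' c w := funext fun i => by
    simp only [dotProduct_smul, Pi.smul_apply, smul_eq_mul, RingHom.id_apply]; ring

theorem dxi_apply (v w : Fin (N + 1) → Λ) (i : Fin n) :
    𝒞.dxi v w i = ZCy.grad v (𝒞.f i) ⬝ᵥ w - 𝒞.xi v i * (ZCy.grad v 𝒞.f₀ ⬝ᵥ w) := rfl

theorem ltan1_pp {S : Type} [CommRing S] (φ : k →+* S) (y : Fin n → S) (h : S)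
    (g : MvPolynomial (Fin (N + 1)) k) :
    ev2 φ y h (MvPolynomial.aeval 𝒞.pp g) = MvPolynomial.eval₂ φ (𝒞.pv φ y h) g := by
  induction g using MvPolynomial.induction_on with
  | C a => simp [ev2]
  | add p q hp hq => simp only [map_add, MvPolynomial.eval₂_add, hp, hq]
  | mul_X p i hp =>
    simp only [map_mul, MvPolynomial.eval₂_mul, hp, MvPolynomial.aeval_X, MvPolynomial.eval₂_X, pv]

/-- `sec` evaluated at the point -/
theorem f_pv {S : Type} [CommRing S] (φ : k →+* S) {y : Fin n → S} {h : S}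
    (h0 : ev2 φ y h 𝒞.χ = 0) (i : Fin n) : MvPolynomial.eval₂ φ (𝒞.pv φ y h) (𝒞.f i) =
      y i * MvPolynomial.eval₂ φ (𝒞.pv φ y h) 𝒞.f₀ := by
  have h1 := map_dvd (ev2 φ y h) (𝒞.sec i)
  rw [h0, zero_dvd_iff, map_sub, map_mul, 𝒞.ltan1_pp, 𝒞.ltan1_pp, ev2_C, MvPolynomial.eval₂_X,
    sub_eq_zero] at h1
  exact h1

theorem ltan1_aeval (Y : Fin n → Λ[ε]) (H : Λ[ε]) (f : Fin (N + 1) → MP n Λ)
    (F : MvPolynomial (Fin (N + 1)) K) : ev2 (dc Λ Λ) Y H (MvPolynomial.aeval f F) =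
      MvPolynomial.eval₂ (dc K Λ) (fun i => ev2 (dc Λ Λ) Y H (f i)) F := by
  induction F using MvPolynomial.induction_on with
  | C a =>
    simp [ev2, dc, Polynomial.algebraMap_apply, MvPolynomial.algebraMap_apply]
  | add p q hp hq => simp only [map_add, MvPolynomial.eval₂_add, hp, hq]
  | mul_X p i hp =>
    simp only [map_mul, MvPolynomial.eval₂_mul, hp, MvPolynomial.aeval_X, MvPolynomial.eval₂_X]

theorem on_pv_du {Y : Fin n → Λ[ε]} {H : Λ[ε]} (h0 : ev2 (dc k Λ) Y H 𝒞.χ = 0) :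
    ∀ G ∈ J, MvPolynomial.eval₂ (dc K Λ) (𝒞.pv (dc k Λ) Y H) G = 0 := by
  intro G hG
  have e : (dc Λ Λ).comp (algebraMap k Λ) = dc k Λ := dc_comp
  have h1 := map_dvd (ev2 (dc Λ Λ) Y H) (𝒞.on G hG)
  rw [ltan1_aeval] at h1
  simp only [ev2_mq, e, h0, zero_dvd_iff] at h1
  exact h1

theorem der_ne {y : Fin n → Λ} {h : Λ} (h0 : ev2 (algebraMap k Λ) y h 𝒞.χ = 0)
    (hD : MvPolynomial.aeval y 𝒞.D ≠ 0) : ev2 (algebraMap k Λ) y h (derivative 𝒞.χ) ≠ 0 := by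
  intro h1
  apply hD
  rw [MvPolynomial.aeval_def, ← ev2_C _ y h, 𝒞.bez, map_add, map_mul, map_mul, h0, h1, mul_zero,
    mul_zero, add_zero]

/-- first order expansion in the last variable -/
theorem ev2_du (y dy : Fin n → Λ) (h s : Λ) (p : MP n k) :
    ∃ r : Λ, ev2 (dc k Λ) (fun i => du (y i) (dy i)) (du h 0) p =
        du (ev2 (algebraMap k Λ) y h p) r ∧ (dy = 0 → r = 0) ∧
      ev2 (dc k Λ) (fun i => du (y i) (dy i)) (du h s) p = du (ev2 (algebraMap k Λ) y h p)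
        (r + ev2 (algebraMap k Λ) y h (derivative p) * s) := by
  have hX : ∀ {S : Type} [CommRing S] (φ : k →+* S) (Y : Fin n → S) (H : S), ev2 φ Y H X = H :=
    fun φ Y H => by simp [ev2]
  induction p using Polynomial.induction_on with
  | C g =>
    refine ⟨ZCy.grad y g ⬝ᵥ dy, ?_, fun e => by rw [e, dotProduct_zero], ?_⟩
    · rw [ev2_C, ev2_C, eval₂_du, MvPolynomial.aeval_def]
    · rw [ev2_C, ev2_C, eval₂_du, MvPolynomial.aeval_def, derivative_C, map_zero, zero_mul,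
        add_zero]
  | add p q hp hq =>
    obtain ⟨r, h1, h2, h3⟩ := hp
    obtain ⟨r', h4, h5, h6⟩ := hq
    refine ⟨r + r', ?_, fun e => by rw [h2 e, h5 e, add_zero], ?_⟩
    · rw [map_add, map_add, h1, h4, du_add]
    · rw [map_add, map_add, map_add, map_add, h3, h6, du_add, du_inj]
      exact ⟨rfl, by ring⟩
  | monomial m a hp =>
    obtain ⟨r, h1, h2, h3⟩ := hp
    rw [pow_succ, ← mul_assoc]
    generalize C a * X ^ m = q at h1 h3
    refine ⟨r * h, ?_, fun e => by rw [h2 e, zero_mul], ?_⟩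
    · rw [map_mul, map_mul, h1, hX, hX, du_mul, mul_zero, zero_add]
    · rw [map_mul, map_mul, h3, hX, hX, du_mul, derivative_mul, derivative_X, mul_one, map_add,
        map_mul, hX, du_inj]
      exact ⟨rfl, by ring⟩

variable {𝒞} {v : Fin (N + 1) → Λ}

/-- Euler's identity -/
theorem In.dxi_self (h : 𝒞.In v) : 𝒞.dxi v v = 0 := by
  funext i
  rw [dxi_apply, ZCy.grad_dot_self (𝒞.hom i), ZCy.grad_dot_self 𝒞.hom₀, xi, mul_left_comm,
    div_mul_cancel₀ _ h.1, sub_self, Pi.zero_apply]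

theorem In.l_ne (h : 𝒞.In v) (hv : OnX J v) : MvPolynomial.aeval v 𝒞.l ≠ 0 := by
  obtain ⟨c, -, e⟩ := h.pv hv
  have : MvPolynomial.aeval (𝒞.pv (algebraMap k Λ) (𝒞.xi v) (𝒞.th v)) 𝒞.l ≠ 0 :=
    (𝒞.ne _ _ (h.on hv) h.2).2
  rw [e, ZCy.aeval_smul_hom 𝒞.homl] at this
  exact right_ne_zero_of_mul this

theorem In.exists_dh (h : 𝒞.In v) (hv : OnX J v) (dy : Fin n → Λ) :
    ∃ s, ev2 (dc k Λ) (fun i => du (𝒞.xi v i) (dy i)) (du (𝒞.th v) s) 𝒞.χ = 0 := by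
  obtain ⟨r, h1, -, -⟩ := ev2_du (𝒞.xi v) dy (𝒞.th v) 0 𝒞.χ
  obtain ⟨r', h2, -, h3⟩ := ev2_du (𝒞.xi v) dy (𝒞.th v)
    (-r / ev2 (algebraMap k Λ) (𝒞.xi v) (𝒞.th v) (derivative 𝒞.χ)) 𝒞.χ
  refine ⟨_, h3.trans ?_⟩
  rw [h.on hv, (du_inj.1 (h2.symm.trans h1)).2, mul_div_cancel₀ _ (𝒞.der_ne (h.on hv) h.2),
    add_neg_cancel, du_zero]

theorem In.dh_zero (h : 𝒞.In v) (hv : OnX J v) {s : Λ}
    (h0 : ev2 (dc k Λ) (fun i => du (𝒞.xi v i) 0) (du (𝒞.th v) s) 𝒞.χ = 0) : s = 0 := by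
  obtain ⟨r, -, h1, h2⟩ := ev2_du (𝒞.xi v) 0 (𝒞.th v) s 𝒞.χ
  have := (du_inj.1 (h2.symm.trans (h0.trans du_zero.symm))).2
  rw [h1 rfl, zero_add] at this
  exact (mul_eq_zero.1 this).resolve_left (𝒞.der_ne (h.on hv) h.2)

theorem ltan2_pow (c : Λ) (m : ℕ) : du c 0 ^ m = du (c ^ m) 0 := by
  ext <;> simp [du]

theorem ltan2_hom {R : Type} [CommRing R] [Algebra R Λ] (c : Λ) (w : Fin (N + 1) → Λ)
    {G : MvPolynomial (Fin (N + 1)) R} {m : ℕ} (hG : G.IsHomogeneous m) :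
    MvPolynomial.eval₂ (dc R Λ) (du c 0 • fun i => du (v i) (w i)) G =
      du (c ^ m * MvPolynomial.aeval v G) (c ^ m * (ZCy.grad v G ⬝ᵥ w)) := by
  rw [ZCy.eval₂_smul_hom hG, eval₂_du, ltan2_pow, du_mul, zero_mul, add_zero]

/-- a tangent vector of the chart lifts to the cone -/
theorem In.lift (hJ : Charts k Λ J n) (h : 𝒞.In v) (hv : OnX J v) {dy : Fin n → Λ} {s : Λ}
    (h0 : ev2 (dc k Λ) (fun i => du (𝒞.xi v i) (dy i)) (du (𝒞.th v) s) 𝒞.χ = 0) :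
    ∃ w, Tan J v w ∧ 𝒞.dxi v w = MvPolynomial.aeval v 𝒞.f₀ • dy ∧
      ∀ (G : MvPolynomial (Fin (N + 1)) K) (m : ℕ), G.IsHomogeneous m → MvPolynomial.eval₂ (dc K Λ)
        (𝒞.pv (dc k Λ) (fun i => du (𝒞.xi v i) (dy i)) (du (𝒞.th v) s)) G = 0 →
          ZCy.grad v G ⬝ᵥ w = 0 := by
  obtain ⟨c, hc, e⟩ := h.pv hv
  obtain ⟨S, hS, eJ⟩ := hJ.hom
  have h1 := 𝒞.on_pv_du h0
  have h2 := 𝒞.f_pv _ h0
  have h3 : ∀ i, (𝒞.pv (dc k Λ) (fun i => du (𝒞.xi v i) (dy i)) (du (𝒞.th v) s) i).fst =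
      c * v i := fun i => by
    refine (𝒞.map_pv _ (TrivSqZeroExt.fstHom Λ Λ Λ).toRingHom _ _ i).trans
      (.trans ?_ (congrFun e i))
    congr 1
    exacts [funext fun _ => fst_du _ _, fst_du _ _]
  generalize 𝒞.pv (dc k Λ) (fun i => du (𝒞.xi v i) (dy i)) (du (𝒞.th v) s) = P at h1 h2 h3
  obtain ⟨w, rfl⟩ : ∃ w : Fin (N + 1) → Λ, P = du c 0 • fun i => du (v i) (w i) :=
    ⟨fun i => (P i).snd / c, funext fun i => by
      rw [Pi.smul_apply, smul_eq_mul, du_mul, zero_mul, add_zero, mul_div_cancel₀ _ hc]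
      exact (du_eta _).symm.trans (du_inj.2 ⟨h3 i, rfl⟩)⟩
  have key : ∀ (G : MvPolynomial (Fin (N + 1)) K) (m : ℕ), G.IsHomogeneous m →
      MvPolynomial.eval₂ (dc K Λ) (du c 0 • fun i => du (v i) (w i)) G = 0 →
        ZCy.grad v G ⬝ᵥ w = 0 := fun G m hG e => by
    rw [ltan2_hom c w hG, ← du_zero, du_inj] at e
    exact (mul_eq_zero.1 e.2).resolve_left (pow_ne_zero m hc)
  refine ⟨w, tan_of_gen eJ hv fun G hG => ?_, funext fun i => ?_, key⟩
  · obtain ⟨m, hm⟩ := hS G hG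
    exact key G m hm (h1 G (eJ ▸ Ideal.subset_span hG))
  · have := h2 i
    rw [ltan2_hom c w (𝒞.hom i), ltan2_hom c w 𝒞.hom₀, du_mul, du_inj] at this
    rw [dxi_apply, Pi.smul_apply, smul_eq_mul]
    refine mul_left_cancel₀ (pow_ne_zero 𝒞.d hc) ?_
    linear_combination this.2

theorem In.dxi_surj (hJ : Charts k Λ J n) (h : 𝒞.In v) (hv : OnX J v) (u : Fin n → Λ) :
    ∃ w, Tan J v w ∧ 𝒞.dxi v w = u := by
  obtain ⟨s, hs⟩ := h.exists_dh hv ((MvPolynomial.aeval v 𝒞.f₀)⁻¹ • u)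
  obtain ⟨w, h1, h2, -⟩ := h.lift hJ hv hs
  exact ⟨w, h1, by rw [h2, smul_inv_smul₀ h.1]⟩

/-- the kernel of `dxi` on the tangent space, by a dimension count -/
theorem In.dxi_ker (hJ : Charts k Λ J n) (h : 𝒞.In v) (hv : OnX J v) (h0 : v ≠ 0)
    {w : Fin (N + 1) → Λ} (hw : Tan J v w) (h1 : 𝒞.dxi v w = 0) : ∃ c : Λ, w = c • v := by
  let T := LinearMap.BilinForm.orthogonal (Matrix.toBilin' (1 : Matrix (Fin (N + 1)) _ Λ))
    (Submodule.span Λ (ZCy.grad v '' (J : Set (MvPolynomial (Fin (N + 1)) K))))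
  have hT : ∀ x, x ∈ T ↔ Tan J v x := fun x => by
    simp only [T, LinearMap.BilinForm.mem_orthogonal_iff, Matrix.toBilin'_apply', Matrix.one_mulVec]
    refine ⟨fun H G hG => H _ (Submodule.subset_span ⟨G, hG, rfl⟩), fun H y hy => ?_⟩
    induction hy using Submodule.span_induction with
    | mem y hy => obtain ⟨G, hG, rfl⟩ := hy; exact H G hG
    | zero => exact zero_dotProduct x
    | add y z _ _ h2 h3 => rw [add_dotProduct, h2, h3, add_zero]
    | smul a y _ h2 => rw [smul_dotProduct, h2, smul_zero]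
  have h2 : finrank Λ T = n + 1 := by
    have := hJ.jac v h0 hv
    rw [LinearMap.BilinForm.finrank_orthogonal
      (LinearMap.BilinForm.nondegenerate_toBilin'_of_det_ne_zero' _ (by simp)), finrank_fin_fun]
    omega
  have h3 := ((𝒞.dxi v).domRestrict T).finrank_range_add_finrank_ker
  rw [LinearMap.range_eq_top.2 fun u => (h.dxi_surj hJ hv u).elim fun x hx =>
    ⟨⟨x, (hT x).2 hx.1⟩, hx.2⟩, finrank_top, finrank_fin_fun, h2, add_right_inj] at h3
  obtain ⟨c, hc⟩ := (finrank_eq_one_iff_of_nonzero' (V := ((𝒞.dxi v).domRestrict T).ker)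
    ⟨⟨v, (hT v).2 (hJ.tan_self hv)⟩, h.dxi_self⟩ fun e => h0
      (congrArg Subtype.val (congrArg Subtype.val e))).1 h3 ⟨⟨w, (hT w).2 hw⟩, h1⟩
  exact ⟨c, (congrArg Subtype.val (congrArg Subtype.val hc)).symm⟩

/-- the criterion for `IndJ` -/
theorem In.indJ (hJ : Charts k Λ J n) (h : 𝒞.In v) (hv : OnX J v) (h0 : v ≠ 0) {ι : Type}
    {f : ι → MvPolynomial (Fin (N + 1)) K} (u : Fin n → Λ)
    (hu : ∀ w, (∀ i, ZCy.grad v (f i) ⬝ᵥ w = 0) → ∃ c : Λ, 𝒞.dxi v w = c • u) : IndJ J v f := by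
  obtain ⟨w₀, h1, h2⟩ := h.dxi_surj hJ hv u
  refine ⟨w₀, fun w h3 h4 => ?_⟩
  obtain ⟨c, hc⟩ := hu w h4
  obtain ⟨c', e⟩ := h.dxi_ker hJ hv h0 (Tan.add h3 (h1.smul (-c)))
    (by rw [map_add, map_smul, hc, h2, neg_smul, add_neg_cancel])
  exact ⟨c', c, by rw [← e, neg_smul, neg_add_cancel_right]⟩

/-- one coordinate can be frozen -/
theorem In.exists_frz (hJ : Charts k Λ J n) (hn : 0 < n) (h : 𝒞.In v) (hv : OnX J v) {ι : Type}
    {f : ι → MvPolynomial (Fin (N + 1)) K} {d : ℕ} (hf : ∀ i, (f i).IsHomogeneous d)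
    (hi : IndJ J v f) : ∃ i₀ : Fin n, ∀ (dy : Fin n → Λ) (s : Λ), dy i₀ = 0 →
      ev2 (dc k Λ) (fun i => du (𝒞.xi v i) (dy i)) (du (𝒞.th v) s) 𝒞.χ = 0 →
      (∀ i, MvPolynomial.eval₂ (dc K Λ)
        (𝒞.pv (dc k Λ) (fun i => du (𝒞.xi v i) (dy i)) (du (𝒞.th v) s)) (f i) = 0) →
      dy = 0 ∧ s = 0 := by
  obtain ⟨w₀, H⟩ := hi
  obtain ⟨i₀, hu⟩ : ∃ i₀, ∀ c : Λ, (c • 𝒞.dxi v w₀) i₀ = 0 → c • 𝒞.dxi v w₀ = 0 := by
    by_cases hu : 𝒞.dxi v w₀ = 0
    · exact ⟨⟨0, hn⟩, fun c _ => by rw [hu, smul_zero]⟩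
    · obtain ⟨i, hi⟩ := Function.ne_iff.1 hu
      exact ⟨i, fun c hc => by rw [(mul_eq_zero.1 hc).resolve_right hi, zero_smul]⟩
  refine ⟨i₀, fun dy s h1 h0 h2 => ?_⟩
  obtain ⟨w, h3, h4, h5⟩ := h.lift hJ hv h0
  obtain ⟨c, c', rfl⟩ := H w h3 fun i => h5 _ d (hf i) (h2 i)
  rw [map_add, map_smul, map_smul, h.dxi_self, smul_zero, zero_add] at h4
  rw [hu c' (by rw [h4, Pi.smul_apply, h1, smul_zero]), eq_comm, smul_eq_zero] at h4
  obtain rfl := h4.resolve_left h.1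
  exact ⟨rfl, h.dh_zero hv h0⟩

end LCh

end Pool.Agent.ZFy.U
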