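import Pool.Agent.Lib.MP_751085_ag.ZF.U.Uld
import Pool.Agent.Lib.MP_751085_ag.ZF.U.LTan
import Pool.Agent.Lib.MP_751085_ag.ZC.UIft

/-! Points persist when the equations move. -/

namespace Pool.Agent.ZFy.U

open Polynomial Module Pool.Agent.ZeroCyc Filter Topology
open scoped Classical IntermediateField DualNumber

set_option linter.unusedSectionVars false

variable {k K Λ : Type} [Field k] [Field K] [NormedField Λ]
  [IsAlgClosed Λ] [Algebra k K] [Algebra k Λ] [Algebra K Λ] [IsScalarTower k K Λ] [Normal K Λ]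
  [LocF K Λ] {N n : ℕ} {J : Ideal (MvPolynomial (Fin (N + 1)) K)}
  {L : IntermediateField K Λ} [FiniteDimensional K L]

/-- monomials of degree `d` -/
abbrev MvI (N d : ℕ) : Type := ↥((Finset.univ : Finset (Fin (N + 1))).finsuppAntidiag d)

theorem mv_sum {R S : Type} [CommRing R] [CommRing S] {d : ℕ} {f : MvPolynomial (Fin (N + 1)) R}
    (hf : f.IsHomogeneous d) (ψ : R →+* S) (v : Fin (N + 1) → S) :
    MvPolynomial.eval₂ ψ v f = ∑ m : MvI N d, ψ (f.coeff m.1) * ∏ i, v i ^ m.1 i := by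
  rw [MvPolynomial.eval₂_eq', Finset.sum_coe_sort _ fun m => ψ (f.coeff m) * ∏ i, v i ^ m i]
  refine Finset.sum_subset (fun m hm => ?_) fun m _ hm => ?_
  · rw [Finset.mem_finsuppAntidiag]
    refine ⟨?_, Finset.subset_univ _⟩
    by_contra h
    exact MvPolynomial.mem_support_iff.1 hm (hf.coeff_eq_zero (by rwa [Finsupp.degree_eq_sum]))
  · rw [MvPolynomial.notMem_support_iff.1 hm, map_zero, zero_mul]

namespace LCh

variable {𝒞 : LCh k Λ J n} {x : Fin (N + 1) → L}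

/-- `map_xi` for the inclusion of `L` -/
theorem up_xi (𝒞 : LCh k Λ J n) (x : Fin (N + 1) → L) :
    up (𝒞.xi x) = 𝒞.xi (up x) ∧ ((𝒞.th x : L) : Λ) = 𝒞.th (up x) :=
  ⟨funext (𝒞.map_xi (⟨algebraMap L Λ, fun _ => rfl⟩ : L →ₐ[k] Λ) x).1,
    (𝒞.map_xi (⟨algebraMap L Λ, fun _ => rfl⟩ : L →ₐ[k] Λ) x).2⟩

theorem up_pv (𝒞 : LCh k Λ J n) (y : Fin n → L) (h : L) :
    up (𝒞.pv (algebraMap k L) y h) = 𝒞.pv (algebraMap k Λ) (up y) h :=
  funext fun i => 𝒞.map_pv (algebraMap k L) (algebraMap L Λ) y h i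

theorem up_ev2 (y : Fin n → L) (h : L) (p : MP n k) :
    ((ev2 (algebraMap k L) y h p : L) : Λ) = ev2 (algebraMap k Λ) (up y) h p :=
  map_ev2 (algebraMap k L) (algebraMap L Λ) y h p

theorem lift1_cont {E : Type} [NormedField E] [Algebra k E] (p : MP n k) :
    Continuous fun z : (Fin n → E) × E => ev2 (algebraMap k E) z.1 z.2 p := by
  simp only [ev2, coe_eval₂RingHom, eval₂_eq_sum_range, MvPolynomial.coe_eval₂Hom]
  exact continuous_finsetSum _ fun i _ =>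
    ((uld_cont (p.coeff i)).comp continuous_fst).mul (continuous_snd.pow i)

/-- the inverse of the chart near `x` -/
theorem In.par (hc : IsCone Λ J) (hx : PtL J L (up x)) (hin : 𝒞.In (up x))
    {W : Set (Fin (N + 1) → L)} (hW : W ∈ 𝓝 x) :
    ∀ᶠ z : (Fin n → L) × L in 𝓝 (𝒞.xi x, 𝒞.th x), ev2 (algebraMap k L) z.1 z.2 𝒞.χ = 0 →
      ∃ x' ∈ W, PtL J L (up x') ∧ 𝒞.In (up x') ∧ 𝒞.xi x' = z.1 ∧
        ∃ c : L, c ≠ 0 ∧ x' = c • 𝒞.pv (algebraMap k L) z.1 z.2 := by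
  obtain ⟨c, hc0, hcx⟩ := hin.pv hx.on
  rw [← (𝒞.up_xi x).1, ← (𝒞.up_xi x).2, ← up_pv] at hcx
  obtain ⟨i₁, hi₁⟩ := Function.ne_iff.1 hx.ne
  obtain ⟨c', hc'⟩ : ∃ c' : L, (c' : Λ) = c⁻¹ :=
    ⟨x i₁ / 𝒞.pv (algebraMap k L) (𝒞.xi x) (𝒞.th x) i₁, (map_div₀ (algebraMap L Λ) _ _).trans
      ((congrArg (up x i₁ / ·) (congrFun hcx i₁)).trans (div_mul_cancel_right₀ hi₁ c))⟩
  let g : (Fin n → L) × L → Fin (N + 1) → L := fun z => c' • 𝒞.pv (algebraMap k L) z.1 z.2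
  have hg : Continuous g := continuous_pi fun i => continuous_const.mul (lift1_cont _)
  have eg : ∀ z, up (g z) = c⁻¹ • up (𝒞.pv (algebraMap k L) z.1 z.2) := fun z => hc' ▸ rfl
  have g0 : g (𝒞.xi x, 𝒞.th x) = x := by
    have h := eg (𝒞.xi x, 𝒞.th x)
    rw [hcx, inv_smul_smul₀ hc0] at h
    exact funext fun i => Subtype.ext (congrFun h i)
  have ht := hg.tendsto' _ _ g0
  filter_upwards [ht.eventually hW, ht.eventually (𝒞.eventually_in hin), ht.eventually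
    (eventually_ne_nhds (b := 0) fun h => hx.ne (by rw [h]; rfl))] with z h1 h2 h3 h4
  refine ⟨g z, h1, ⟨fun h => h3 (funext fun i => Subtype.ext (congrFun h i)), ?_,
    fun i => (g z i).2⟩, h2, funext fun i => ?_, c', fun h => inv_ne_zero hc0 (by rw [← hc', h]; rfl),
    rfl⟩
  · rw [eg, up_pv]
    exact hc _ _ (𝒞.onX_pv (by rw [← up_ev2, h4]; rfl))
  · have : IsScalarTower k L Λ := IsScalarTower.of_algebraMap_eq fun _ => rfl
    rw [xi, div_eq_iff fun h0 => h2.1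
      ((MvPolynomial.aeval_algebraMap_apply Λ (g z) _).trans (by rw [h0, map_zero])),
      ZCy.aeval_smul_hom (𝒞.hom i), ZCy.aeval_smul_hom 𝒞.hom₀, MvPolynomial.aeval_def,
      MvPolynomial.aeval_def, 𝒞.f_pv _ h4, mul_left_comm]

/-- the root of `χ` follows the base point -/
theorem In.near_th (hx : OnX J (up x)) (hin : 𝒞.In (up x)) {V : Set ((Fin n → L) × L)}
    (hV : V ∈ 𝓝 (𝒞.xi x, 𝒞.th x)) :
    ∀ᶠ y in 𝓝 (𝒞.xi x), ∃ θ, (y, θ) ∈ V ∧ ev2 (algebraMap k L) y θ 𝒞.χ = 0 := by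
  let := nnf L
  have : ProperSpace L := LocF.proper L inferInstance
  let P : Unit → MvPolynomial (Fin n ⊕ Unit) L := fun _ => ev2 (MvPolynomial.C.comp (algebraMap k L))
    (fun i => MvPolynomial.X (.inl i)) (MvPolynomial.X (.inr ())) 𝒞.χ
  have eP {T : Type} [CommRing T] (ψ : L →+* T) (z : Fin n ⊕ Unit → T) :
      MvPolynomial.eval₂ ψ z (P ()) =
        ev2 (ψ.comp (algebraMap k L)) (fun i => z (.inl i)) (z (.inr ())) 𝒞.χ := by
    refine (map_ev2 _ (MvPolynomial.eval₂Hom ψ z) _ _ _).trans ?_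
    simp only [MvPolynomial.eval₂Hom_X', ← RingHom.comp_assoc, MvPolynomial.eval₂Hom_comp_C]
  have hc : Continuous fun z : Fin n ⊕ Unit → L => ((fun i => z (.inl i)), z (.inr ())) := by
    fun_prop
  refine (ZCy.U.ift (algebraMap L Λ) P (𝒞.xi x) (fun _ => 𝒞.th x) rfl (fun _ => ?_) (fun w hw => ?_)
    (hc.continuousAt.preimage_mem_nhds hV)).mono fun y ⟨v, h1, h2⟩ =>
      ⟨v (), h1, (eP (RingHom.id L) (Sum.elim y v)).symm.trans (h2 ())⟩
  · refine (eP (RingHom.id L) _).trans (Subtype.ext ((up_ev2 _ _ _).trans ?_))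
    exact (congrArg₂ (ev2 (algebraMap k Λ) · · 𝒞.χ) (𝒞.up_xi x).1 (𝒞.up_xi x).2).trans (hin.on hx)
  · refine funext fun _ => Subtype.ext (hin.dh_zero hx (s := w ()) ?_)
    rw [← (𝒞.up_xi x).1, ← (𝒞.up_xi x).2]
    have h1 := hw ()
    rw [eP] at h1
    simp only [du, TrivSqZeroExt.inr_zero, add_zero]
    exact h1

theorem In.near (hc : IsCone Λ J) (hx : PtL J L (up x)) (hin : 𝒞.In (up x))
    {W : Set (Fin (N + 1) → L)} (hW : W ∈ 𝓝 x) :
    ∀ᶠ y in 𝓝 (𝒞.xi x), ∃ θ, ev2 (algebraMap k L) y θ 𝒞.χ = 0 ∧ ∃ x' ∈ W, PtL J L (up x') ∧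
      𝒞.In (up x') ∧ 𝒞.xi x' = y ∧ ∃ c : L, c ≠ 0 ∧ x' = c • 𝒞.pv (algebraMap k L) y θ :=
  (hin.near_th hx.on (hin.par hc hx hW)).mono fun _ ⟨θ, h1, h2⟩ => ⟨θ, h2, h1 h2⟩

/-- the equations -/
noncomputable def lift2_E (𝒞 : LCh k Λ J n) (i₀ : Fin n) {S ι : Type} [CommRing S] {d : ℕ}
    (φ : k →+* S) (a : ι × MvI N d → S) (y : Fin n → S) (h c : S) : Option (Option ι) → S
  | none => ev2 φ y h 𝒞.χ
  | some none => y i₀ - c
  | some (some i) => ∑ m, a (i, m) * ∏ j, 𝒞.pv φ y h j ^ m.1 j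

theorem lift2_map (𝒞 : LCh k Λ J n) (i₀ : Fin n) {S T ι : Type} [CommRing S] [CommRing T] {d : ℕ}
    (φ : k →+* S) (ψ : S →+* T) (a : ι × MvI N d → S) (y : Fin n → S) (h c : S)
    (j : Option (Option ι)) : ψ (𝒞.lift2_E i₀ φ a y h c j) =
      𝒞.lift2_E i₀ (ψ.comp φ) (fun m => ψ (a m)) (fun i => ψ (y i)) (ψ h) (ψ c) j := by
  rcases j with _ | _ | i
  · exact map_ev2 _ _ _ _ _
  · exact map_sub _ _ _
  · simp only [lift2_E, map_sum, map_mul, map_prod, map_pow, 𝒞.map_pv]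

/-- The implicit function theorem for the moving equations. -/
theorem In.ift_sys (hx : OnX J (up x)) (hin : 𝒞.In (up x)) {ι : Type} [Fintype ι]
    (hι : Fintype.card ι + 1 = n) {d : ℕ} {f : ι → MvPolynomial (Fin (N + 1)) K}
    (hf : ∀ i, (f i).IsHomogeneous d) (h0 : ∀ i, MvPolynomial.aeval (up x) (f i) = 0) {i₀ : Fin n}
    (hz : ∀ (dy : Fin n → Λ) (s : Λ), dy i₀ = 0 →
      ev2 (dc k Λ) (fun i => du (𝒞.xi (up x) i) (dy i)) (du (𝒞.th (up x)) s) 𝒞.χ = 0 →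
      (∀ i, MvPolynomial.eval₂ (dc K Λ) (𝒞.pv (dc k Λ) (fun i => du (𝒞.xi (up x) i) (dy i))
        (du (𝒞.th (up x)) s)) (f i) = 0) → dy = 0 ∧ s = 0)
    {V : Set ((Fin n → L) × L)} (hV : V ∈ 𝓝 (𝒞.xi x, 𝒞.th x)) :
    ∀ᶠ a : ι × MvI N d → L in 𝓝 fun p => algebraMap K L ((f p.1).coeff p.2.1), ∃ z ∈ V,
      ev2 (algebraMap k L) z.1 z.2 𝒞.χ = 0 ∧
        ∀ i, ∑ m : MvI N d, a (i, m) * ∏ j, 𝒞.pv (algebraMap k L) z.1 z.2 j ^ m.1 j = 0 := by
  let := nnf L
  have : ProperSpace L := LocF.proper L inferInstance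
  set φ : L →+* Λ := algebraMap L Λ with hφ
  have hi : Function.Injective φ := φ.injective
  have ek : φ.comp (algebraMap k L) = algebraMap k Λ := rfl
  obtain ⟨ey, eθ⟩ := 𝒞.up_xi x
  replace ey : (fun i => φ (𝒞.xi x i)) = 𝒞.xi (up x) := ey
  replace eθ : φ (𝒞.th x) = 𝒞.th (up x) := eθ
  set y := 𝒞.xi x
  set θ := 𝒞.th x
  obtain ⟨c, -, hcx⟩ := hin.pv hx
  let R := MvPolynomial ((ι × MvI N d) ⊕ Option (Fin n)) L
  let φk : k →+* R := MvPolynomial.C.comp (algebraMap k L)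
  let P : Option (Option ι) → R := 𝒞.lift2_E i₀ φk (fun m => MvPolynomial.X (.inl m))
    (fun i => MvPolynomial.X (.inr (some i))) (MvPolynomial.X (.inr none)) (MvPolynomial.C (y i₀))
  have eP {T : Type} [CommRing T] (ψ : L →+* T) (z : (ι × MvI N d) ⊕ Option (Fin n) → T) (j) :
      MvPolynomial.eval₂ ψ z (P j) = 𝒞.lift2_E i₀ (ψ.comp (algebraMap k L)) (fun m => z (.inl m))
        (fun i => z (.inr (some i))) (z (.inr none)) (ψ (y i₀)) j := by
    have := 𝒞.lift2_map i₀ φk (MvPolynomial.eval₂Hom ψ z)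
      (fun m : ι × MvI N d => MvPolynomial.X (.inl m)) (fun i => MvPolynomial.X (.inr (some i)))
      (MvPolynomial.X (.inr none)) (MvPolynomial.C (y i₀)) j
    have e1 : (MvPolynomial.eval₂Hom ψ z).comp φk = ψ.comp (algebraMap k L) :=
      RingHom.ext fun a => MvPolynomial.eval₂_C _ _ _
    have eX (s) : MvPolynomial.eval₂Hom ψ z (MvPolynomial.X s : R) = z s :=
      MvPolynomial.eval₂_X _ _ _
    have eC : MvPolynomial.eval₂Hom ψ z (MvPolynomial.C (y i₀) : R) = ψ (y i₀) :=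
      MvPolynomial.eval₂_C _ _ _
    rw [e1, eX, eC, _root_.funext fun m => eX (.inl m),
      _root_.funext fun i => eX (.inr (some i))] at this
    exact this
  let g : ((ι × MvI N d) ⊕ Option (Fin n) → L) → (Fin n → L) × L := fun z =>
    (fun i => z (.inr (some i)), z (.inr none))
  have hg : Continuous g := (continuous_pi fun i => continuous_apply _).prodMk (continuous_apply _)
  have main := ZCy.U.ift φ P (fun p => algebraMap K L ((f p.1).coeff p.2.1))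
    (fun o => o.elim θ y) (by simp only [Fintype.card_option, Fintype.card_fin, hι])
    (fun j => ?_) (fun w hw => ?_) (W := g ⁻¹' V) (hg.continuousAt.preimage_mem_nhds hV)
  · filter_upwards [main] with a ⟨v, hvW, hv⟩
    have hv' (j) : 𝒞.lift2_E i₀ (algebraMap k L) a (fun i => v (some i)) (v none) (y i₀) j = 0 := by
      apply hi
      refine ((𝒞.lift2_map i₀ _ φ _ _ _ _ j).trans
        (eP φ (fun s => φ (Sum.elim a v s)) j).symm).trans (Eq.trans ?_ (congrArg φ (hv j)))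
      exact (MvPolynomial.hom_eval₂ _ (RingHom.id L) φ _).symm
    exact ⟨_, hvW, hv' none, fun i => hv' (some (some i))⟩
  · apply hi
    refine (MvPolynomial.hom_eval₂ _ (RingHom.id L) φ _).trans ((eP φ _ j).trans ?_)
    show 𝒞.lift2_E i₀ (algebraMap k Λ) (fun p => algebraMap K Λ ((f p.1).coeff p.2.1))
      (fun i => φ (y i)) (φ θ) (φ (y i₀)) j = φ 0
    rw [map_zero]
    rcases j with _ | _ | i
    · rw [ey, eθ]
      exact hin.on hx
    · exact sub_self _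
    · refine (mv_sum (hf i) (algebraMap K Λ) _).symm.trans ?_
      rw [ey, eθ, hcx, ZCy.eval₂_smul_hom (hf i)]
      exact mul_eq_zero_of_right _ (h0 i)
  · simp only [eP] at hw
    have h1 : du (φ (y i₀)) (φ (w (some i₀))) - du (φ (y i₀)) 0 = du 0 0 := by
      rw [du_zero, du, du, TrivSqZeroExt.inr_zero, add_zero]
      exact hw (some none)
    rw [du_sub, du_inj, sub_zero] at h1
    have := hz (fun i => φ (w (some i))) (φ (w none)) h1.2
      (by rw [← ey, ← eθ]; exact hw none) fun i => by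
        rw [← ey, ← eθ, mv_sum (hf i)]
        exact hw (some (some i))
    funext j
    rcases j with _ | j
    · exact hi (this.2.trans (map_zero φ).symm)
    · exact hi ((congrFun this.1 j).trans (map_zero φ).symm)


end LCh

/-- points persist when the equations move -/
theorem Charts.iftp (hJ : Charts k Λ J n) {ι : Type} [Fintype ι] (hι : Fintype.card ι + 1 = n)
    {x : Fin (N + 1) → L} (hx : PtL J L (up x)) {d : ℕ} {f : ι → MvPolynomial (Fin (N + 1)) K}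
    (hf : ∀ i, (f i).IsHomogeneous d) (h0 : ∀ i, MvPolynomial.aeval (up x) (f i) = 0)
    (hi : IndJ J (up x) f) {W : Set (Fin (N + 1) → L)} (hW : W ∈ 𝓝 x) :
    ∃ r > 0, ∀ f' : ι → MvPolynomial (Fin (N + 1)) K, (∀ i, (f' i).IsHomogeneous d) →
      (∀ i m, ‖algebraMap K Λ ((f' i).coeff m - (f i).coeff m)‖ < r) →
        ∃ x' ∈ W, PtL J L (up x') ∧ ∀ i, MvPolynomial.aeval (up x') (f' i) = 0 := by
  obtain ⟨𝒞, h𝒞⟩ := hJ.ex {up x} (by simpa using ⟨hx.ne, hx.on⟩)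
  have hin : 𝒞.In (up x) := h𝒞 _ (Finset.mem_singleton_self _)
  obtain ⟨i₀, hz⟩ := hin.exists_frz hJ (by omega) hx.on hf hi
  obtain ⟨r, hr, H⟩ := Metric.eventually_nhds_iff.1
    (hin.ift_sys hx.on hι hf h0 hz (hin.par hJ.cone hx hW))
  refine ⟨r, hr, fun f' hf' hd => ?_⟩
  obtain ⟨z, hz1, hz2, hz3⟩ := H (y := fun p => algebraMap K L ((f' p.1).coeff p.2.1))
    ((dist_pi_lt_iff hr).2 fun p => by
      rw [dist_eq_norm, ← map_sub]
      exact hd p.1 p.2.1)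
  obtain ⟨x', h1, h2, -, -, c, -, h3⟩ := hz1 hz2
  refine ⟨x', h1, h2, fun i => ?_⟩
  have e : MvPolynomial.aeval x' (f' i) = 0 := by
    rw [h3, ZCy.aeval_smul_hom (hf' i), MvPolynomial.aeval_def, mv_sum (hf' i), hz3 i, mul_zero]
  exact (MvPolynomial.aeval_algebraMap_apply Λ x' _).trans (by rw [e, map_zero])

end Pool.Agent.ZFy.U
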