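import Pool.Agent.Lib.MP_751085_ag.ZF.U.Prim

/-! Primitive elements that are pairwise not conjugate, interpolation, resultants. -/

namespace Pool.Agent.ZFy.U

open Polynomial Module Pool.Agent.ZeroCyc Filter Topology
open scoped Classical IntermediateField

set_option linter.unusedSectionVars false

/-- an injective choice; induction on a finite set of indices -/
theorem exists_inj_choice {T β : Type} [Finite T] {α : T → Type} (P : ∀ j, α j → Prop)
    (c : ∀ j, α j → β) (h : ∀ j (B : Finset β), ∃ z, P j z ∧ c j z ∉ B) :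
    ∃ z : ∀ j, α j, (∀ j, P j (z j)) ∧ Function.Injective fun j => c j (z j) := by
  have := Fintype.ofFinite T
  suffices H : ∀ s : Finset T, ∃ z : ∀ j, α j, (∀ j, P j (z j)) ∧
      ∀ i ∈ s, ∀ j ∈ s, c i (z i) = c j (z j) → i = j by
    obtain ⟨z, h1, h2⟩ := H Finset.univ
    exact ⟨z, h1, fun i j => h2 i (Finset.mem_univ i) j (Finset.mem_univ j)⟩
  intro s
  induction s using Finset.induction_on with
  | empty =>
    choose z hz using fun j => h j ∅
    exact ⟨z, fun j => (hz j).1, fun i hi => absurd hi (Finset.notMem_empty i)⟩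
  | insert a s ha ih =>
    obtain ⟨z, h1, h2⟩ := ih
    obtain ⟨w, h3, h4⟩ := h a (s.image fun j => c j (z j))
    have e : ∀ j ∈ s, Function.update z a w j = z j :=
      fun j hj => Function.update_of_ne (ne_of_mem_of_not_mem hj ha) _ _
    refine ⟨Function.update z a w, fun j => ?_, fun i hi j hj hij => ?_⟩
    · rcases eq_or_ne j a with rfl | hj
      · rwa [Function.update_self]
      · rw [Function.update_of_ne hj]
        exact h1 j
    · rcases Finset.mem_insert.1 hi with rfl | hi' <;> rcases Finset.mem_insert.1 hj with e' | hj'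
      · exact e'.symm
      · rw [Function.update_self, e j hj'] at hij
        exact (h4 (Finset.mem_image.2 ⟨j, hj', hij.symm⟩)).elim
      · subst e'
        rw [Function.update_self, e i hi'] at hij
        exact (h4 (Finset.mem_image.2 ⟨i, hi', hij⟩)).elim
      · rw [e i hi', e j hj'] at hij
        exact h2 i hi' j hj' hij

/-- a resultant -/
theorem exists_res {Λ : Type} [Field Λ] {n : ℕ} {χ G : MP n Λ} (hm : χ.Monic) (hi : Irreducible χ)
    (hG : ¬χ ∣ G) : ∃ R : MvPolynomial (Fin n) Λ, R ≠ 0 ∧ ∀ y h, ev2 (RingHom.id Λ) y h χ = 0 →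
      MvPolynomial.eval y R ≠ 0 → ev2 (RingHom.id Λ) y h G ≠ 0 := by
  have : IsDomain (AdjoinRoot χ) := AdjoinRoot.isDomain_of_prime hi.prime
  have := hm.finite_adjoinRoot
  have h1 := Ideal.comap_ne_bot_of_integral_mem (R := MvPolynomial (Fin n) Λ)
    (I := Ideal.span {AdjoinRoot.mk χ G}) (mt AdjoinRoot.mk_eq_zero.1 hG)
    (Ideal.mem_span_singleton_self _) (Algebra.IsIntegral.isIntegral _)
  obtain ⟨R, h2, h3⟩ := Submodule.exists_mem_ne_zero_of_ne_bot h1
  obtain ⟨b, hb⟩ := Ideal.mem_span_singleton'.1 (Ideal.mem_comap.1 h2)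
  obtain ⟨b, rfl⟩ := AdjoinRoot.mk_surjective b
  rw [← map_mul] at hb
  obtain ⟨a, ha⟩ := AdjoinRoot.mk_eq_mk.1 (hb.trans (AdjoinRoot.mk_C R).symm)
  refine ⟨R, h3, fun y h h4 h5 h6 => h5 ?_⟩
  have := congrArg (ev2 (RingHom.id Λ) y h) ha
  rwa [map_sub, map_mul, map_mul, h4, h6, mul_zero, zero_mul, zero_sub, neg_eq_zero, ev2_C] at this

variable {K Λ : Type} [Field K] [NormedField Λ] [IsAlgClosed Λ] [Algebra K Λ] [Normal K Λ]
  [LocF K Λ]

/-- interpolation at points that are pairwise not conjugate -/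
theorem exists_crt {T : Type} [Finite T] {t : T → Λ}
    (h : Function.Injective fun j => minpoly K (t j)) {y : T → Λ} (hy : ∀ j, y j ∈ K⟮t j⟯) :
    ∃ p : K[X], ∀ j, aeval (t j) p = y j := by
  have hi : ∀ j, IsIntegral K (t j) := fun j => Algebra.IsIntegral.isIntegral (t j)
  have h1 : ∀ j, ∃ p : K[X], aeval (t j) p = y j := fun j => by
    have h2 : y j ∈ K⟮t j⟯.toSubalgebra := hy j
    rwa [IntermediateField.adjoin_simple_toSubalgebra_of_isAlgebraic (hi j).isAlgebraic,
      Algebra.adjoin_singleton_eq_range_aeval] at h2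
  choose q hq using h1
  obtain ⟨p, hp⟩ := Ideal.exists_forall_sub_mem_ideal
    (I := fun j => Ideal.span {minpoly K (t j)}) (fun i j hij =>
      (Ideal.isCoprime_span_singleton_iff _ _).2 ((minpoly.irreducible (hi i)).coprime_iff_not_dvd.2
        fun hd => hij (h (eq_of_monic_of_associated (minpoly.monic (hi i)) (minpoly.monic (hi j))
          ((minpoly.irreducible (hi i)).associated_of_dvd (minpoly.irreducible (hi j)) hd))))) q
  refine ⟨p, fun j => ?_⟩
  rw [← hq, ← sub_eq_zero, ← map_sub]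
  exact aeval_eq_zero_of_dvd_aeval_eq_zero (Ideal.mem_span_singleton.1 (hp j)) (minpoly.aeval _ _)

/-- a polynomial that is not zero does not vanish on a neighbourhood -/
theorem exists_near_ne {L : IntermediateField K Λ} {σ : Type} [Fintype σ] {R : MvPolynomial σ Λ}
    (hR : R ≠ 0) {y : σ → L} {U : Set (σ → L)} (hU : U ∈ 𝓝 y) :
    ∃ y' ∈ U, MvPolynomial.eval (up y') R ≠ 0 := by
  let := nnf L
  obtain ⟨ε, hε, h⟩ := Metric.mem_nhds_iff.1 hU
  by_contra! hc
  refine hR (MvPolynomial.funext_set (fun i => Subtype.val '' Metric.ball (y i) ε) (fun i =>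
    (infinite_of_mem_nhds _ (Metric.ball_mem_nhds (y i) hε)).image Subtype.val_injective.injOn)
    fun x hx => ?_)
  choose z h1 h2 using fun i => hx i (Set.mem_univ i)
  rw [map_zero, ← funext h2]
  exact hc z (h ((dist_pi_lt_iff hε).2 h1))

/-- primitive elements near `t` whose minimal polynomial avoids a finite set -/
theorem prim_avoid [IsUltrametricDist Λ] {L : IntermediateField K Λ} [FiniteDimensional K L] (t : L)
    {W : Set L} (hW : W ∈ 𝓝 t) (B : Finset K[X]) :
    ∃ s ∈ W, K⟮(s : Λ)⟯ = L ∧ minpoly K (s : Λ) ∉ B := by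
  have hf : {s : L | minpoly K (s : Λ) ∈ B}.Finite :=
    ((B.finite_toSet.biUnion fun f _ => rootSet_finite f Λ).preimage
      Subtype.val_injective.injOn).subset fun s hs => Set.mem_biUnion hs
        (mem_rootSet.2 ⟨minpoly.ne_zero (Algebra.IsIntegral.isIntegral _), minpoly.aeval _ _⟩)
  obtain ⟨s, ⟨h1, h2⟩, h3⟩ := ((prim_near t hW).sdiff hf).nonempty
  exact ⟨s, h1, h2, h3⟩

end Pool.Agent.ZFy.U
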