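import Pool.Agent.Lib.MP_751085_ag.ZF.U.LIft
import Pool.Agent.Lib.MP_751085_ag.ZF.U.LPrim

/-! Moving a point into general position. -/

namespace Pool.Agent.ZFy.U

open Polynomial Module Pool.Agent.ZeroCyc Filter Topology
open scoped Classical IntermediateField

set_option linter.unusedSectionVars false

variable {k K Λ : Type} [Field k] [Field K] [NormedField Λ] [IsUltrametricDist Λ]
  [IsAlgClosed Λ] [Algebra k K] [Algebra k Λ] [Algebra K Λ] [IsScalarTower k K Λ] [Normal K Λ]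
  [LocF K Λ] {N n : ℕ} {J : Ideal (MvPolynomial (Fin (N + 1)) K)}
  {L : IntermediateField K Λ} [FiniteDimensional K L]

namespace LCh

variable {𝒞 : LCh k Λ J n}

theorem In.exists_off {v : Fin (N + 1) → Λ} (hin : 𝒞.In v) (hv : OnX J v)
    {g : MvPolynomial (Fin (N + 1)) k} {m : ℕ} (hg : g.IsHomogeneous m)
    (h0 : MvPolynomial.aeval v g ≠ 0) : ∃ R : MvPolynomial (Fin n) Λ, R ≠ 0 ∧ ∀ y h,
      ev2 (algebraMap k Λ) y h 𝒞.χ = 0 → MvPolynomial.eval y R ≠ 0 →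
        MvPolynomial.aeval (𝒞.pv (algebraMap k Λ) y h) g ≠ 0 := by
  have e1 : ∀ y h, ev2 (RingHom.id Λ) y h (mq (algebraMap k Λ) (MvPolynomial.aeval 𝒞.pp g)) =
      MvPolynomial.aeval (𝒞.pv (algebraMap k Λ) y h) g := fun y h => by
    rw [ev2_mq, RingHom.id_comp, MvPolynomial.map_aeval, MvPolynomial.aeval_eq_eval₂Hom]
    congr 2
    ext1 x
    simp [ev2, Polynomial.algebraMap_apply]
  obtain ⟨R, h1, h2⟩ := exists_res (χ := mq (algebraMap k Λ) 𝒞.χ) (𝒞.monic.map _) 𝒞.irr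
    (G := mq (algebraMap k Λ) (MvPolynomial.aeval 𝒞.pp g)) fun hd => by
      obtain ⟨c, hc, e⟩ := hin.pv hv
      have h3 := map_dvd (ev2 (RingHom.id Λ) (𝒞.xi v) (𝒞.th v)) hd
      rw [e1, ev2_mq, RingHom.id_comp, hin.on hv, zero_dvd_iff, e, ZCy.aeval_smul_hom hg] at h3
      exact mul_ne_zero (pow_ne_zero _ hc) h0 h3
  exact ⟨R, h1, fun y h h3 h4 => e1 y h ▸ h2 y h (by rwa [ev2_mq, RingHom.id_comp]) h4⟩

theorem In.move (hc : IsCone Λ J) {x : Fin (N + 1) → L} (hx : PtL J L (up x)) (hin : 𝒞.In (up x))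
    {v : Fin (N + 1) → Λ} (hvi : 𝒞.In v) (hv : OnX J v) {g : MvPolynomial (Fin (N + 1)) k} {m : ℕ}
    (hg : g.IsHomogeneous m) (h0 : MvPolynomial.aeval v g ≠ 0) (i₀ : Fin n) (B : Finset K[X])
    {W : Set (Fin (N + 1) → L)} (hW : W ∈ 𝓝 x) :
    ∃ x' ∈ W, PtL J L (up x') ∧ 𝒞.In (up x') ∧ MvPolynomial.aeval (up x') g ≠ 0 ∧
      K⟮𝒞.xi (up x') i₀⟯ = L ∧ minpoly K (𝒞.xi (up x') i₀) ∉ B := by
  obtain ⟨R, h1, h2⟩ := hvi.exists_off hv hg h0
  have h3 := hin.near hc hx hW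
  obtain ⟨y, h4, h5⟩ := exists_near_ne h1 h3.eventually_nhds
  have hc : Continuous fun z : Fin n → L => MvPolynomial.eval (up z) R :=
    (MvPolynomial.continuous_eval R).comp
      (continuous_pi fun i => continuous_subtype_val.comp (continuous_apply i))
  have ht := (continuous_const.update i₀ continuous_id).tendsto' (y i₀) y
    (Function.update_eq_self i₀ y)
  obtain ⟨t, ⟨⟨θ, a1, x', a2, a3, a4, a5, c, a6, a7⟩, a8⟩, a9, a10⟩ := prim_avoid (y i₀)
    (ht.eventually (Filter.Eventually.and h4 (hc.continuousAt.eventually_ne h5))) B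
  have e : 𝒞.xi (up x') i₀ = t := by
    rw [← (𝒞.up_xi x').1, a5]
    exact congrArg _ (Function.update_self _ _ _)
  refine ⟨x', a2, a3, a4, ?_, e ▸ a9, e ▸ a10⟩
  rw [a7, show up (c • _) = (c : Λ) • up _ from rfl, up_pv, ZCy.aeval_smul_hom hg]
  exact mul_ne_zero (pow_ne_zero _ fun h => a6 (Subtype.ext h))
    (h2 _ _ (by rw [← up_ev2, a1]; rfl) a8)

end LCh

end Pool.Agent.ZFy.U
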