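import Pool.Agent.Lib.MP_751085_ag.ZF.U.Ins
import Pool.Agent.Lib.MP_796ce4_ag.ZY.CvW

/-! Point classes, fields of definition. -/

namespace Pool.Agent.ZFy.U

open Polynomial Module Pool.Agent.ZeroCyc
open scoped Classical IntermediateField

set_option linter.unusedSectionVars false

variable {K Λ : Type} [Field K] [Field Λ] [IsAlgClosed Λ] [Algebra K Λ] [Normal K Λ]
  {N : ℕ} {J : Ideal (MvPolynomial (Fin (N + 1)) K)} {L L' L₀ : IntermediateField K Λ}

theorem clL_apply (D : PY Λ N →₀ ℤ) : clL J L D =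
    (QuotientAddGroup.mk (finrank K L • psh (orb K) D), (finrank K L : ℤ) * D.degree) := rfl

theorem clL_snd (D : PY Λ N →₀ ℤ) : (clL J L D).2 = (finrank K L : ℤ) * D.degree := rfl

theorem clL_eq_nsmul {n : ℕ} (h : n * finrank K L = finrank K L') (D : PY Λ N →₀ ℤ) :
    clL J L' D = n • clL J L D := by
  rw [clL_apply, clL_apply, Prod.smul_mk, ← QuotientAddGroup.mk_nsmul, ← h, Nat.cast_mul, mul_smul,
    nsmul_eq_mul, mul_assoc]

theorem pc_snd (L : IntermediateField K Λ) (v : Fin (N + 1) → Λ) :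
    (pc J L v).2 = finrank K L := by
  rw [pc, clL_snd, Finsupp.degree_single, mul_one]

theorem pc_smul {c : Λ} (hc : c ≠ 0) (v : Fin (N + 1) → Λ) : pc J L (c • v) = pc J L v := by
  rw [pc, pc, pj_smul hc]

theorem pc_gal (σ : Λ ≃ₐ[K] Λ) (v : Fin (N + 1) → Λ) : pc J L (σ ∘ v) = pc J L v := by
  rw [pc, pc, clL_apply, clL_apply, psh_single, psh_single, ← galY_pj, cl_orb_gal,
    Finsupp.degree_single, Finsupp.degree_single]

theorem PtL.mono {v : Fin (N + 1) → Λ} (h : PtL J L v) (hL : L ≤ L') : PtL J L' v := by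
  exact ⟨h.ne, h.on, fun i => hL (h.mem i)⟩

theorem pc_mem_eff [FiniteDimensional K L] {v : Fin (N + 1) → Λ} (h : PtL J L v) :
    pc J L v ∈ EffM Λ J := by
  exact AddSubmonoid.subset_closure ⟨L, v, inferInstance, h, rfl⟩

theorem atot_eq : Atot Λ J = AddSubgroup.closure {w | ∃ (L : IntermediateField K Λ)
    (v : Fin (N + 1) → Λ), FiniteDimensional K L ∧ PtL J L v ∧ w = pc J L v} := rfl

theorem pc_mem_atot [FiniteDimensional K L] {v : Fin (N + 1) → Λ} (h : PtL J L v) :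
    pc J L v ∈ Atot Λ J := AddSubgroup.subset_closure ⟨L, v, inferInstance, h, rfl⟩

theorem eff_le_atot {w : VV Λ J} (h : w ∈ EffM Λ J) : w ∈ Atot Λ J :=
  AddSubgroup.le_closure_toAddSubmonoid _ h

theorem mem_azero {w : VV Λ J} : w ∈ Azero Λ J ↔ w ∈ Atot Λ J ∧ w.2 = 0 := by
  exact Iff.rfl

theorem GD_le [FiniteDimensional K L] : GD J L ≤ Azero Λ J := by
  refine (AddSubgroup.closure_le _).2 ?_
  rintro _ ⟨v, v', h, h', rfl⟩
  refine mem_azero.2 ⟨sub_mem (pc_mem_atot h) (pc_mem_atot h'), ?_⟩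
  rw [Prod.snd_sub, pc_snd, pc_snd, sub_self]

theorem pc_nsmul [FiniteDimensional K L'] (h : L ≤ L') : ∃ r : ℕ, 0 < r ∧
    r * finrank K L = finrank K L' ∧ ∀ v : Fin (N + 1) → Λ, pc J L' v = r • pc J L v := by
  obtain ⟨r, hr⟩ := IntermediateField.finrank_dvd_of_le_right h
  rw [mul_comm] at hr
  refine ⟨r, Nat.pos_of_ne_zero fun h0 => ?_, hr.symm, fun v => clL_eq_nsmul hr.symm _⟩
  rw [h0, zero_mul] at hr
  exact (finrank_pos (R := K) (M := L')).ne' hr

theorem exists_sum {w : VV Λ J} (h : w ∈ Atot Λ J) : ∃ (T : Type) (_ : Fintype T)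
    (L : T → IntermediateField K Λ) (v : T → Fin (N + 1) → Λ) (c : T → ℤ),
      (∀ j, FiniteDimensional K (L j) ∧ PtL J (L j) (v j)) ∧ w = ∑ j, c j • pc J (L j) (v j) := by
  rw [atot_eq] at h
  induction h using AddSubgroup.closure_induction with
  | mem w hw =>
    obtain ⟨L, v, h1, h2, rfl⟩ := hw
    exact ⟨Unit, inferInstance, fun _ => L, fun _ => v, fun _ => 1, fun _ => ⟨h1, h2⟩, by simp⟩
  | zero =>
    exact ⟨Empty, inferInstance, fun j => j.elim, fun j => j.elim, fun j => j.elim,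
      fun j => j.elim, by simp⟩
  | add w w' _ _ h h' =>
    obtain ⟨T, _, L, v, c, hv, rfl⟩ := h
    obtain ⟨T', _, L', v', c', hv', rfl⟩ := h'
    refine ⟨T ⊕ T', inferInstance, Sum.elim L L', Sum.elim v v', Sum.elim c c', ?_, ?_⟩
    · rintro (j | j)
      · exact hv j
      · exact hv' j
    · rw [Fintype.sum_sum_type]
      rfl
  | neg w _ h =>
    obtain ⟨T, _, L, v, c, hv, rfl⟩ := h
    refine ⟨T, inferInstance, L, v, fun j => -c j, hv, ?_⟩
    rw [← Finset.sum_neg_distrib]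
    exact Finset.sum_congr rfl fun j _ => (neg_zsmul _ _).symm

theorem Ovv.map_eq {G : Λ[X][X]} (h : Ovv L G) {σ : Λ ≃ₐ[K] Λ} (hσ : Fix L σ) :
    mp (σ : Λ →+* Λ) G = G := by
  ext1 i
  rw [coe_mapRingHom, coeff_map, coe_mapRingHom, (h i).map_eq hσ]

theorem Ovv.mono {G : Λ[X][X]} (h : Ovv L G) (hL : L ≤ L') : Ovv L' G := by
  exact fun i => (h i).mono hL

theorem Ovv.exists_mp {G : Λ[X][X]} (h : Ovv L G) :
    ∃ G₀ : L[X][X], mp (algebraMap L Λ) G₀ = G := by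
  have : G ∈ Polynomial.lifts (mapRingHom (algebraMap L Λ)) :=
    (lifts_iff_coeff_lifts G).2 fun i => (h i).exists_map
  exact this

theorem ovv_mp {R : Type} [CommRing R] {φ : R →+* Λ} (h : ∀ x, φ x ∈ L) (G : R[X][X]) :
    Ovv L (mp φ G) := by
  intro i j
  rw [coe_mapRingHom, coeff_map, coe_mapRingHom, coeff_map]
  exact h _

theorem Ovv.ee_mem {G : Λ[X][X]} (h : Ovv L G) {Q : Λ × Λ} (h₁ : Q.1 ∈ L) (h₂ : Q.2 ∈ L) :
    ee Q G ∈ L := by
  obtain ⟨G₀, rfl⟩ := h.exists_mp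
  have e := map_e2 (algebraMap L Λ) (RingHom.id L) ⟨Q.1, h₁⟩ ⟨Q.2, h₂⟩ G₀
  rw [RingHom.comp_id] at e
  rw [ee_mp]
  exact e ▸ Subtype.prop _

end Pool.Agent.ZFy.U
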