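import Pool.Agent.Lib.MP_751085_ag.ZF.U.Mr1
import Pool.Agent.Lib.MP_751085_ag.ZF.U.Card
import Pool.Agent.Lib.MP_751085_ag.ZF.U.Xa

/-! The basic relation: two leading functions on a plane curve mapping to the variety. -/

namespace Pool.Agent.ZFy.U

open Polynomial Module Pool.Agent.ZeroCyc
open scoped Classical IntermediateField PowerSeries

set_option linter.unusedSectionVars false

variable {K Λ : Type} [Field K] [Field Λ] [IsAlgClosed Λ] [Algebra K Λ] [Normal K Λ]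
  {N : ℕ} {J : Ideal (MvPolynomial (Fin (N + 1)) K)} {L : IntermediateField K Λ}
  [FiniteDimensional K L] {b δ m : ℕ}

theorem xc_ee (Q : Λ × Λ) (q : Fin (N + 1) → Λ[X][X]) (F : MvPolynomial (Fin (N + 1)) K) :
    ee Q (MvPolynomial.aeval q F) = MvPolynomial.aeval (fun i => ee Q (q i)) F := by
  induction F using MvPolynomial.induction_on with
  | C a =>
    rw [MvPolynomial.aeval_C, MvPolynomial.aeval_C, Polynomial.algebraMap_apply,
      Polynomial.algebraMap_apply, ee_C, eval_C]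
  | add p r hp hr => simp only [map_add, hp, hr]
  | mul_X p i hp => simp only [map_mul, hp, MvPolynomial.aeval_X]

theorem Ovv.ee_gal {G : Λ[X][X]} (h : Ovv L G) {σ : Λ ≃ₐ[K] Λ} (hσ : Fix L σ) (Q : Λ × Λ) :
    ee (pm σ Q) G = σ (ee Q G) := by
  have e := map_ee (σ : Λ →+* Λ) Q G
  rw [h.map_eq hσ] at e
  exact e.symm

/-- the class of a closed point of the plane curve -/
theorem clL_odv {χ : Λ[X][X]} (hχ : Ovv L χ) {Q : Λ × Λ} (hQ : Et χ Q)
    {q : Fin (N + 1) → Λ[X][X]} (hq : ∀ i, Ovv L (q i)) :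
    clL J L (psh (fun Q => pj fun i => ee Q (q i)) (odv L Q)) =
      pc J (fld L Q) fun i => ee Q (q i) := by
  have e : psh (orb K) (psh (fun Q => pj fun i => ee Q (q i)) (odv L Q)) =
      Finsupp.single (orb K (pj fun i => ee Q (q i))) (((orQ L Q).ncard * qq L Q.1 : ℕ) : ℤ) := by
    rw [psh_psh]
    refine psh_odv ?_
    rintro _ ⟨σ, hσ, rfl⟩
    simp only [Function.comp_apply, (hq _).ee_gal hσ]
    exact (congrArg (orb K) (galY_pj σ _).symm).trans (cl_orb_gal σ _)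
  have e' := congrArg Finsupp.degree e
  rw [degree_psh, Finsupp.degree_single] at e'
  rw [pc, clL_apply, clL_apply, e, e', psh_single, Finsupp.degree_single, ← orb_card hχ hQ,
    Finsupp.smul_single, Finsupp.smul_single, nsmul_eq_mul, nsmul_eq_mul]
  push_cast
  simp only [mul_comm, one_mul]

theorem mr_ovv (G : L[X][X]) : Ovv L (mp (algebraMap L Λ) G) := ovv_mp (fun x => x.2) G

theorem dv_rat {χ G : L[X][X]} (hχ : Wt b δ χ) (hi : Irreducible χ) (hG : Lead b m G)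
    (ha : Adm (mp (algebraMap L Λ) χ) (mp (algebraMap L Λ) G)) :
    dv (mp (algebraMap L Λ) χ) (mp (algebraMap L Λ) G) ∈ RatD L := by
  have hχ' := hχ.map (algebraMap L Λ)
  have hL := hG.map (algebraMap L Λ)
  refine ⟨fun σ hσ => ?_, fun Q => ?_⟩
  · have e := (hL.dv_map hχ' ha (σ : Λ →+* Λ)).1
    rw [(mr_ovv χ).map_eq hσ, (mr_ovv G).map_eq hσ] at e
    exact e.symm
  · rw [hL.dv_apply hχ']
    split_ifs with hQ
    · obtain ⟨F, _, _, τ, η, h⟩ := mr_field hi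
      obtain ⟨P, hP, -⟩ := mr_place h hχ.monic hi hQ
      exact Dvd.intro_left _ (mr_ord h hχ.monic hi hQ hP (hL.jq_ne hχ' hQ))
    · exact dvd_zero _

section place

variable {F : Type} [Field F] [Algebra K F] [Algebra L F] [IsScalarTower K L F]

theorem mr_sep {χ : L[X][X]} {τ η : F} (h : mr_FF χ τ η)
    (h1 : mr_ev L τ η (derivative χ) ≠ 0) : Algebra.IsSeparable L⟮τ⟯ F := by
  let ψ : L[X] →+* L⟮τ⟯ :=
    (aeval (IntermediateField.AdjoinSimple.gen L τ) : L[X] →ₐ[L] _).toRingHom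
  have e : ∀ a : L[X][X], aeval η (a.map ψ) = mr_ev L τ η a := fun a => by
    rw [aeval_def, eval₂_map, mr_ev_eq, eval_map]
    congr 1
    refine Polynomial.ringHom_ext' (RingHom.ext fun c => ?_) ?_ <;> simp [ψ]
  have h0 : aeval η (χ.map ψ) = 0 := (e χ).trans ((h.ker χ).2 dvd_rfl)
  have h2 : aeval η (derivative (χ.map ψ)) ≠ 0 := by rwa [derivative_map, e]
  have hint : IsIntegral L⟮τ⟯ η := IsAlgebraic.isIntegral
    ⟨_, fun e0 => h2 (by rw [e0, derivative_zero, map_zero]), h0⟩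
  have hs : IsSeparable L⟮τ⟯ η := by
    refine (separable_iff_derivative_ne_zero (minpoly.irreducible hint)).2 fun e0 => h2 ?_
    obtain ⟨r, hr⟩ := minpoly.dvd _ _ h0
    rw [hr, derivative_mul, e0, zero_mul, zero_add, map_mul, minpoly.aeval, zero_mul]
  have htop : L⟮τ⟯⟮η⟯ = ⊤ := by
    rw [eq_top_iff]
    intro f _
    obtain ⟨a, c, _, rfl⟩ := h.frac f
    have hm : ∀ a, mr_ev L τ η a ∈ L⟮τ⟯⟮η⟯ := fun a =>
      mr_ev_mem (S := (L⟮τ⟯⟮η⟯.restrictScalars L).toSubalgebra)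
        (L⟮τ⟯⟮η⟯.algebraMap_mem (IntermediateField.AdjoinSimple.gen L τ))
        (IntermediateField.mem_adjoin_simple_self _ η) a
    exact div_mem (hm a) (hm c)
  have := (IntermediateField.isSeparable_adjoin_simple_iff_isSeparable L⟮τ⟯ F).2 hs
  rw [htop] at this
  exact AlgEquiv.Algebra.isSeparable IntermediateField.topEquiv

/-- a place over `L` as a place over `K` -/
noncomputable def toK (P : Place L F Λ) : Place K F Λ where
  v := P.v
  surj := P.surj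
  ev := P.ev
  ev_alg := fun c => by
    rw [IsScalarTower.algebraMap_apply K L F]
    exact P.ev_alg _

/-- every place over `K` has the valuation of a place over `L` -/
theorem exists_toK (P : Place K F Λ) : ∃ P' : Place L F Λ, P'.v = P.v := by
  have hm : ∀ x : L, algebraMap L F x ∈ P.v.integer := fun x =>
    Place.mem_of_isIntegral ((Algebra.IsIntegral.isIntegral (R := K) x).map
      (IsScalarTower.toAlgHom K L F))
  let ψ : L →ₐ[K] Λ :=
    { P.ev.comp ((algebraMap L F).codRestrict P.v.integer hm) with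
      commutes' := fun c => by
        obtain ⟨h1, h2⟩ := P.ev_alg c
        rw [← h2]
        exact congrArg P.ev (Subtype.ext (IsScalarTower.algebraMap_apply K L F c).symm) }
  obtain ⟨σ, hσ⟩ := exists_ext ψ
  exact ⟨⟨P.v, P.surj, (σ.symm : Λ →+* Λ).comp P.ev, fun c =>
    ⟨hm c, σ.symm_apply_eq.2 (hσ c).symm⟩⟩, rfl⟩

/-- a conjugate place -/
noncomputable def plG (P : Place L F Λ) {σ : Λ ≃ₐ[K] Λ} (hσ : Fix L σ) : Place L F Λ where
  v := P.v
  surj := P.surj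
  ev := (σ : Λ →+* Λ).comp P.ev
  ev_alg := fun c => by
    obtain ⟨h1, h2⟩ := P.ev_alg c
    exact ⟨h1, (congrArg σ h2).trans (hσ c c.2)⟩

variable {τ η : F} {P P' : Place L F Λ} {Q Q' : Λ × Λ}

theorem cen_plG (h : mr_Cen τ η P Q) {σ : Λ ≃ₐ[K] Λ} (hσ : Fix L σ) :
    mr_Cen τ η (plG P hσ) (pm σ Q) := fun a => by
  obtain ⟨h1, h2⟩ := h a
  exact ⟨h1, (congrArg σ h2).trans ((mr_ovv a).ee_gal hσ Q).symm⟩

/-- places with the same valuation have conjugate centres -/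
theorem cen_conj (h : mr_Cen τ η P Q) (h' : mr_Cen τ η P' Q') (e : P.v = P'.v) :
    Q' ∈ orQ L Q := by
  obtain ⟨σ, hσ, hs⟩ := exists_fix_of_ker (L := L) ((ee Q).comp (mp (algebraMap L Λ)))
    ((ee Q').comp (mp (algebraMap L Λ)))
    (fun x hx => ⟨C (C ⟨x, hx⟩), by simp [ee_C], by simp [ee_C]⟩) fun a ha =>
      (h' a).eq_zero_iff.2 (e ▸ (h a).eq_zero_iff.1 ha)
  refine ⟨σ, hσ, Prod.ext ?_ ?_⟩
  · simpa [ee_C, pm] using hs (C X)
  · simpa [ee_X, pm] using hs X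

theorem plF_toK {χ : L[X][X]} (h : mr_FF χ τ η) (hm : χ.Monic) (hi : Irreducible χ)
    (hQ : Et (mp (algebraMap L Λ) χ) Q) (hP : mr_Cen τ η P Q) : plF (toK P) = fld L Q := by
  have hv : ∀ a : L[X][X], ee Q (mp (algebraMap L Λ) a) ∈ plF (toK P) := fun a => by
    obtain ⟨h1, h2⟩ := hP a
    exact IntermediateField.subset_adjoin _ _ ⟨⟨_, h1⟩, h2⟩
  refine le_antisymm (IntermediateField.adjoin_le_iff.2 ?_) (fld_le (fun x hx => ?_) ?_ ?_)
  · rintro _ ⟨f, rfl⟩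
    obtain ⟨a, u, e⟩ := mr_val h hm hi hQ hP (f := f) (c := P.ev f) ⟨f.2, rfl⟩
    have hm : ∀ a : L[X][X], ee Q (mp (algebraMap L Λ) a) ∈ fld L Q := fun a =>
      ((mr_ovv a).mono (le_fld L Q)).ee_mem (fst_mem_fld L Q) (snd_mem_fld L Q)
    exact e ▸ mul_mem (hm a) (inv_mem (hm u))
  · simpa [ee_C] using hv (C (C ⟨x, hx⟩))
  · simpa [ee_C] using hv (C X)
  · simpa [ee_X] using hv X

end place

/-- the irreducible case -/
theorem MR_irr {χ G G' : L[X][X]} {q : Fin (N + 1) → L[X][X]} (hχ : Wt b δ χ) (hi : Irreducible χ)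
    (hG : Lead b m G) (hG' : Lead b m G')
    (hon : ∀ F ∈ J, mp (algebraMap L Λ) χ ∣
      MvPolynomial.aeval (fun i => mp (algebraMap L Λ) (q i)) F)
    (ha : Adm (mp (algebraMap L Λ) χ) (mp (algebraMap L Λ) G))
    (ha' : Adm (mp (algebraMap L Λ) χ) (mp (algebraMap L Λ) G'))
    (hq : ∀ Q, On (mp (algebraMap L Λ) χ) Q →
      ee Q (mp (algebraMap L Λ) G) = 0 ∨ ee Q (mp (algebraMap L Λ) G') = 0 →
        (fun i => ee Q (mp (algebraMap L Λ) (q i))) ≠ 0) :
    clL J L (psh (fun Q => pj fun i => ee Q (mp (algebraMap L Λ) (q i)))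
        (dv (mp (algebraMap L Λ) χ) (mp (algebraMap L Λ) G))) =
      clL J L (psh (fun Q => pj fun i => ee Q (mp (algebraMap L Λ) (q i)))
        (dv (mp (algebraMap L Λ) χ) (mp (algebraMap L Λ) G'))) := by
  have hχ' := hχ.map (algebraMap L Λ)
  have hL := hG.map (algebraMap L Λ)
  have hL' := hG'.map (algebraMap L Λ)
  have hm := hχ.monic
  obtain ⟨D, hD⟩ : ∃ D, D = dv (mp (algebraMap L Λ) χ) (mp (algebraMap L Λ) G) -
    dv (mp (algebraMap L Λ) χ) (mp (algebraMap L Λ) G') := ⟨_, rfl⟩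
  have hDr : D ∈ RatD L := hD ▸ sub_mem (dv_rat hχ hi hG ha) (dv_rat hχ hi hG' ha')
  have hDz : ∀ Q, D Q ≠ 0 → Et (mp (algebraMap L Λ) χ) Q ∧
      (ee Q (mp (algebraMap L Λ) G) = 0 ∨ ee Q (mp (algebraMap L Λ) G') = 0) := fun Q hQ => by
    rw [and_or_left, ← hL.dv_ne_zero hχ', ← hL'.dv_ne_zero hχ']
    by_contra h1
    rw [not_or, not_not, not_not] at h1
    exact hQ (by rw [hD, Finsupp.sub_apply, h1.1, h1.2, sub_zero])
  rw [← sub_eq_zero, ← map_sub, ← map_sub, ← hD]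
  refine Prod.ext ?_ (by
    rw [clL_snd, degree_psh, hD, map_sub, (hL.degree_dv_eq_iff hχ').2 ha,
      (hL'.degree_dv_eq_iff hχ').2 ha', sub_self, mul_zero, Prod.snd_zero])
  by_cases hQ : ∃ Q, D Q ≠ 0
  swap
  · rw [show D = 0 from Finsupp.ext fun Q => by_contra fun e => hQ ⟨Q, e⟩, map_zero, map_zero]
  obtain ⟨Q₀, hQ₀⟩ := hQ
  obtain ⟨hQ₀, hQ₁⟩ := hDz Q₀ hQ₀
  obtain ⟨F, _, _, τ, η, h⟩ := mr_field hi
  let : Algebra K F := ((algebraMap L F).comp (algebraMap K L)).toAlgebra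
  have : IsScalarTower K L F := IsScalarTower.of_algebraMap_eq fun _ => rfl
  have hne := mr_ne h hm hQ₀ (hL.jq_ne hχ' hQ₀)
  have hne' := mr_ne h hm hQ₀ (hL'.jq_ne hχ' hQ₀)
  have hex : ∀ Q, ∃ P : Place L F Λ, Et (mp (algebraMap L Λ) χ) Q → mr_Cen τ η P Q := fun Q => by
    by_cases hQ : Et (mp (algebraMap L Λ) χ) Q
    · exact (mr_place h hm hi hQ).exists.imp fun _ hP _ => hP
    · exact (mr_place h hm hi hQ₀).exists.imp fun _ _ hQ' => absurd hQ' hQ
  choose pl hpl using hex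
  have hord : ∀ (P : Place L F Λ) Q, Et (mp (algebraMap L Λ) χ) Q → mr_Cen τ η P Q →
      P.ord (mr_ev L τ η G / mr_ev L τ η G') * qq L Q.1 = D Q := fun P Q h1 h2 => by
    rw [div_eq_mul_inv, Place.ord_mul _ hne (inv_ne_zero hne'), Place.ord_inv, add_mul, neg_mul, qq,
      mr_ord h hm hi h1 h2 (hL.jq_ne hχ' h1), mr_ord h hm hi h1 h2 (hL'.jq_ne hχ' h1), hD,
      Finsupp.sub_apply, hL.dv_apply hχ', hL'.dv_apply hχ', if_pos h1, if_pos h1, sub_eq_add_neg]
  obtain ⟨T, n, hT, hT', e⟩ := rat_dec hDr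
  have hE : ∀ Q ∈ T, Et (mp (algebraMap L Λ) χ) Q := fun Q hQ => (hDz Q (hT Q hQ).1).1
  have hinj : ∀ Q ∈ T, ∀ Q' ∈ T, (pl Q).v = (pl Q').v → Q = Q' := fun Q hQ Q' hQ' e =>
    (hT' Q hQ Q' hQ' (cen_conj (hpl Q (hE Q hQ)) (hpl Q' (hE Q' hQ')) e)).symm
  obtain ⟨x, hx⟩ : ∃ x : Place K F Λ → Fin (N + 1) → Λ, ∀ Q ∈ T,
      x (toK (pl Q)) = fun i => ee Q (mp (algebraMap L Λ) (q i)) :=
    ⟨fun P i => if e : mr_ev L τ η (q i) ∈ P.v.integer then P.ev ⟨_, e⟩ else 0, fun Q hQ => by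
      funext i
      obtain ⟨e, e'⟩ := hpl Q (hE Q hQ) (q i)
      exact (dif_pos e).trans e'⟩
  have hF : ∀ Q ∈ T, plF (toK (pl Q)) = fld L Q := fun Q hQ =>
    plF_toK h hm hi (hE Q hQ) (hpl Q (hE Q hQ))
  have hg : (fun i => mr_ev L τ η (q i)) ≠ 0 := fun e => hq Q₀ hQ₀.1 hQ₁ (funext fun i => by
    obtain ⟨c, hc⟩ := (h.ker _).1 (congrFun e i)
    rw [hc, map_mul, map_mul, hQ₀.1, zero_mul, Pi.zero_apply])
  have hX : OnX J fun i => mr_ev L τ η (q i) := fun A hA => by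
    have h1 := hon A hA
    have h2 := MvPolynomial.map_aeval q (mp (algebraMap L Λ)) A
    have h3 : (mp (algebraMap L Λ)).comp (algebraMap K L[X][X]) = algebraMap K Λ[X][X] :=
      RingHom.ext fun c => by
        rw [RingHom.comp_apply, Polynomial.algebraMap_apply, Polynomial.algebraMap_apply,
          Polynomial.algebraMap_apply, Polynomial.algebraMap_apply, mp_C, map_C]
        rfl
    rw [h3] at h2
    rw [MvPolynomial.aeval_eq_eval₂Hom, ← h2] at h1
    have h4 := (h.ker _).2 ((Polynomial.map_dvd_map (mapRingHom (algebraMap L Λ))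
      (Polynomial.map_injective _ (algebraMap L Λ).injective) hχ.monic).1 h1)
    have h5 := MvPolynomial.comp_aeval_apply q ((mr_ev L τ η).restrictScalars K) A
    exact h5.symm.trans h4
  have hPD : PD J (fun i => mr_ev L τ η (q i)) (mr_ev L τ η G / mr_ev L τ η G')
      (T.image fun Q => toK (pl Q)) x := by
    refine ⟨⟨L, inferInstance, inferInstance, τ, inferInstance, mr_tr h hm hi, mr_fin h hm,
      mr_sep h fun e => hQ₀.2 (by
        obtain ⟨c, hc⟩ := (h.ker _).1 e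
        rw [← mp_derivative, hc, map_mul, map_mul, hQ₀.1, zero_mul])⟩, hg, hX,
      div_ne_zero hne hne', ?_, fun P hP => ?_, ?_, ?_, ?_⟩
    · simp only [Finset.forall_mem_image]
      exact fun Q hQ Q' hQ' e => by rw [hinj Q hQ Q' hQ' e]
    · obtain ⟨P', hP'⟩ := exists_toK (L := L) P
      rw [Place.ord, ← hP'] at hP
      replace hP : P'.ord (mr_ev L τ η G / mr_ev L τ η G') ≠ 0 := hP
      by_cases hτ : τ ∈ P'.v.integer
      swap
      · refine absurd ?_ hP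
        rw [div_eq_mul_inv, P'.ord_mul hne (inv_ne_zero hne'), P'.ord_inv, Place.ord, Place.ord,
          mr_inf h hχ hG hτ, mr_inf h hχ hG' hτ, add_neg_cancel]
      obtain ⟨Q, hQ, hc⟩ := mr_cen h hm hτ
      have h1 : ee Q (mp (algebraMap L Λ) G) = 0 ∨ ee Q (mp (algebraMap L Λ) G') = 0 := by
        by_contra h1
        rw [not_or] at h1
        apply hP
        rw [div_eq_mul_inv]
        exact ((hc G).mul ((hc G').inv h1.2)).ord_eq_zero (mul_ne_zero h1.1 (inv_ne_zero h1.2))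
      have h2 : Et (mp (algebraMap L Λ) χ) Q := h1.elim (ha Q hQ) (ha' Q hQ)
      have h3 : D Q ≠ 0 := hord P' Q h2 hc ▸
        mul_ne_zero hP (Nat.cast_ne_zero.2 (qq_pos L Q.1).ne')
      rw [e, Finsupp.finsetSum_apply] at h3
      obtain ⟨Q', hQ', h4⟩ := Finset.exists_ne_zero_of_sum_ne_zero h3
      rw [Finsupp.smul_apply, smul_eq_mul] at h4
      obtain ⟨σ, hσ, rfl⟩ := odv_ne_zero.1 (right_ne_zero_of_mul h4)
      refine ⟨toK (pl Q'), Finset.mem_image_of_mem _ hQ', hP'.symm.trans ?_⟩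
      rw [(mr_place h hm hi h2).unique hc (cen_plG (hpl Q' (hE Q' hQ')) hσ)]
      rfl
    · simp only [Finset.forall_mem_image]
      exact fun Q hQ => hF Q hQ ▸ fld_fin L Q
    · simp only [Finset.forall_mem_image]
      intro Q hQ
      rw [hx Q hQ, hF Q hQ]
      refine ⟨hq Q (hE Q hQ).1 (hDz Q (hT Q hQ).1).2, fun A hA => ?_, fun i =>
        ((mr_ovv _).mono (le_fld L Q)).ee_mem (fst_mem_fld L Q) (snd_mem_fld L Q)⟩
      obtain ⟨c, hc⟩ := hon A hA
      rw [← xc_ee, hc, map_mul, (hE Q hQ).1, zero_mul]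
    · simp only [Finset.forall_mem_image]
      refine fun Q hQ => ⟨1, fun i => ?_⟩
      rw [hx Q hQ, one_mul]
      exact hpl Q (hE Q hQ) (q i)
  have h0 := (QuotientAddGroup.eq_zero_iff _).2 (AddSubgroup.subset_closure
    ⟨F, inferInstance, inferInstance, _, _, _, x, hPD, rfl⟩ : _ ∈ RR Λ J)
  rw [Finset.sum_image (g := fun Q => toK (pl Q))
      fun Q hQ Q' hQ' e => hinj Q hQ Q' hQ' (congrArg (Place.v (K := K)) e),
    QuotientAddGroup.mk_sum] at h0
  rw [e, map_sum, map_sum, Prod.fst_sum]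
  refine Eq.trans (Finset.sum_congr rfl fun Q hQ => ?_) h0
  have h1 := (hord _ Q (hE Q hQ) (hpl Q (hE Q hQ))).trans (hT Q hQ).2
  have h2 : (toK (pl Q)).ord (mr_ev L τ η G / mr_ev L τ η G') = n Q :=
    mul_right_cancel₀ (Nat.cast_ne_zero.2 (qq_pos L Q.1).ne') h1
  rw [map_zsmul, map_zsmul, clL_odv (mr_ovv χ) (hE Q hQ) fun i => mr_ovv (q i), hx Q hQ, hF Q hQ, h2,
    pc, clL_apply, Prod.smul_fst, psh_single, ← QuotientAddGroup.mk_zsmul, Finsupp.smul_single,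
    Finsupp.smul_single, nsmul_eq_mul, mul_one, smul_eq_mul]
  rfl

theorem mr_ind {G G' : L[X][X]} {q : Fin (N + 1) → L[X][X]} (hG : Lead b m G) (hG' : Lead b m G')
    (δ : ℕ) : ∀ {χ : L[X][X]}, Wt b δ χ → (∀ F ∈ J, mp (algebraMap L Λ) χ ∣
      MvPolynomial.aeval (fun i => mp (algebraMap L Λ) (q i)) F) →
    Adm (mp (algebraMap L Λ) χ) (mp (algebraMap L Λ) G) →
    Adm (mp (algebraMap L Λ) χ) (mp (algebraMap L Λ) G') →
    (∀ Q, On (mp (algebraMap L Λ) χ) Q →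
      ee Q (mp (algebraMap L Λ) G) = 0 ∨ ee Q (mp (algebraMap L Λ) G') = 0 →
        (fun i => ee Q (mp (algebraMap L Λ) (q i))) ≠ 0) →
    clL J L (psh (fun Q => pj fun i => ee Q (mp (algebraMap L Λ) (q i)))
        (dv (mp (algebraMap L Λ) χ) (mp (algebraMap L Λ) G))) =
      clL J L (psh (fun Q => pj fun i => ee Q (mp (algebraMap L Λ) (q i)))
        (dv (mp (algebraMap L Λ) χ) (mp (algebraMap L Λ) G'))) := by
  induction δ using Nat.strong_induction_on with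
  | _ δ ih =>
  intro χ hχ hon ha ha' hq
  have hχ' := hχ.map (algebraMap L Λ)
  have hL := hG.map (algebraMap L Λ)
  have hL' := hG'.map (algebraMap L Λ)
  by_cases h1 : χ = 1
  · subst h1
    have h0 : ∀ Q, ¬Et (mp (algebraMap L Λ) 1) Q := fun Q hQ => by
      have := hQ.1
      rw [map_one, map_one] at this
      exact one_ne_zero this
    have h1 : dv (mp (algebraMap L Λ) 1) (mp (algebraMap L Λ) G) = 0 := Finsupp.ext fun Q =>
      by_contra fun e => h0 Q ((hL.dv_ne_zero hχ').1 e).1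
    have h2 : dv (mp (algebraMap L Λ) 1) (mp (algebraMap L Λ) G') = 0 := Finsupp.ext fun Q =>
      by_contra fun e => h0 Q ((hL'.dv_ne_zero hχ').1 e).1
    rw [h1, h2]
  by_cases hi : Irreducible χ
  · exact MR_irr hχ hi hG hG' hon ha ha' hq
  rw [irreducible_of_monic hχ.monic h1] at hi
  push Not at hi
  obtain ⟨χ₁, χ₂, h₁, h₂, rfl, n₁, n₂⟩ := hi
  have hd := hχ.deg
  rw [h₁.natDegree_mul h₂] at hd
  have p₁ : χ₁.natDegree ≠ 0 := fun e => n₁ (h₁.natDegree_eq_zero.1 e)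
  have p₂ : χ₂.natDegree ≠ 0 := fun e => n₂ (h₂.natDegree_eq_zero.1 e)
  have w₁ := hχ.of_mul h₁ h₂
  have w₂ := (mul_comm χ₁ χ₂ ▸ hχ).of_mul h₂ h₁
  have m₁ : (mp (algebraMap L Λ) χ₁).Monic := h₁.map _
  have m₂ : (mp (algebraMap L Λ) χ₂).Monic := h₂.map _
  rw [map_mul] at hχ' hon ha ha' hq ⊢
  obtain ⟨e, a₁, a₂⟩ := hL.dv_split hχ' m₁ m₂ ha
  obtain ⟨e', a₁', a₂'⟩ := hL'.dv_split hχ' m₁ m₂ ha'
  rw [e, e', map_add, map_add, map_add, map_add,
    ih _ (by omega) w₁ (fun A hA => (dvd_mul_right _ _).trans (hon A hA)) a₁ a₁'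
      fun Q hQ => hq Q (by rw [On, map_mul, show ee Q _ = 0 from hQ, zero_mul]),
    ih _ (by omega) w₂ (fun A hA => (dvd_mul_left _ _).trans (hon A hA)) a₂ a₂'
      fun Q hQ => hq Q (by rw [On, map_mul, show ee Q (mp _ χ₂) = 0 from hQ, mul_zero])]

theorem MR {R : Type} [CommRing R] {φ : R →+* Λ} (hφ : ∀ x, φ x ∈ L) {χ G G' : R[X][X]}
    {q : Fin (N + 1) → R[X][X]} (hχ : Wt b δ χ) (hG : Lead b m G) (hG' : Lead b m G')
    (hon : ∀ F ∈ J, mp φ χ ∣ MvPolynomial.aeval (fun i => mp φ (q i)) F)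
    (ha : Adm (mp φ χ) (mp φ G)) (ha' : Adm (mp φ χ) (mp φ G'))
    (hq : ∀ Q, On (mp φ χ) Q → ee Q (mp φ G) = 0 ∨ ee Q (mp φ G') = 0 →
      (fun i => ee Q (mp φ (q i))) ≠ 0) :
    clL J L (psh (fun Q => pj fun i => ee Q (mp φ (q i))) (dv (mp φ χ) (mp φ G))) =
      clL J L (psh (fun Q => pj fun i => ee Q (mp φ (q i))) (dv (mp φ χ) (mp φ G'))) := by
  have e : ∀ a, mp φ a = mp (algebraMap L Λ) (mp (φ.codRestrict L hφ) a) := fun a => by
    rw [mp_mp]
    rfl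
  simp only [e] at hon ha ha' hq ⊢
  exact mr_ind (hG.map _) (hG'.map _) δ (hχ.map _) hon ha ha' hq

end Pool.Agent.ZFy.U
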