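import Pool.Agent.Lib.MP_796ce4_ag.ZY.MR1
import Pool.Agent.Lib.MP_751085_ag.ZF.U.PlB

/-! The places of the function field of an irreducible plane curve. -/

namespace Pool.Agent.ZFy.U

open Polynomial Module Pool.Agent.ZeroCyc
open scoped Classical IntermediateField PowerSeries

set_option linter.unusedSectionVars false

section place

variable {k F Λ : Type} [Field k] [Field F] [Algebra k F] [Field Λ] [Algebra k Λ]
  [Algebra.IsAlgebraic k Λ] {χ a G : k[X][X]} {τ η : F} {Q : Λ × Λ} {P : Place k F Λ}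
  {b δ m : ℕ}

theorem mr_ee (Q : Λ × Λ) (a : k[X][X]) : ee Q (mp (algebraMap k Λ) a) = mr_ev k Q.1 Q.2 a :=
  ee_mp _ _ _

theorem mr_rr (τ η : F) (a : k[X][X]) : (mr_ev k τ η).rangeRestrict a =
    mr_ev k ((mr_ev k τ η).rangeRestrict (C X)) ((mr_ev k τ η).rangeRestrict X) a := by
  apply Subtype.ext
  have := mr_map_ev (mr_ev k τ η).range.val ((mr_ev k τ η).rangeRestrict (C X))
    ((mr_ev k τ η).rangeRestrict X) a
  refine Eq.trans ?_ this.symm
  change mr_ev k τ η a = mr_ev k (mr_ev k τ η (C X)) (mr_ev k τ η X) a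
  rw [mr_ev_C, aeval_X, mr_ev_X]

theorem mr_etale (h : mr_FF χ τ η) (hm : χ.Monic) (hi : Irreducible χ)
    (hQ : Et (mp (algebraMap k Λ) χ) Q) : ∃ s : (mr_ev k τ η).range →ₐ[k] Λ,
      (∀ a, s ((mr_ev k τ η).rangeRestrict a) = ee Q (mp (algebraMap k Λ) a)) ∧
      Etale _ s ((mr_ev k τ η).rangeRestrict (C X)) {(mr_ev k τ η).rangeRestrict X} := by
  have hsur := (mr_ev k τ η).rangeRestrict_surjective
  have hker : RingHom.ker (mr_ev k τ η).rangeRestrict.toRingHom ≤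
      RingHom.ker (mr_ev k Q.1 Q.2).toRingHom := by
    intro a ha
    have h1 : mr_ev k τ η a = 0 := congrArg Subtype.val ha
    obtain ⟨c, rfl⟩ := (h.ker a).1 h1
    change mr_ev k Q.1 Q.2 (χ * c) = 0
    rw [map_mul, ← mr_ee, hQ.1, zero_mul]
  have hs : ∀ a, AlgHom.liftOfSurjective _ hsur _ hker ((mr_ev k τ η).rangeRestrict a) =
      ee Q (mp (algebraMap k Λ) a) := fun a => by
    rw [AlgHom.liftOfSurjective_apply, mr_ee]
  refine ⟨_, hs, ?_, fun f => ?_, ?_, ?_⟩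
  · rw [eq_top_iff]
    intro x _
    obtain ⟨a, rfl⟩ := hsur x
    rw [mr_rr τ η a]
    refine mr_ev_mem ?_ ?_ a
    · exact Algebra.subset_adjoin (Set.mem_insert _ _)
    · exact Algebra.subset_adjoin
        (Set.mem_insert_of_mem _ (Finset.mem_coe.2 (Finset.mem_singleton_self _)))
  · obtain ⟨a, c, hc, rfl⟩ := h.frac f
    exact ⟨_, ⟨a, rfl⟩, _, ⟨c, rfl⟩, hc, rfl⟩
  · rintro ⟨u, hu, h0⟩
    refine mr_tr h hm hi ⟨u, hu, ?_⟩
    rw [← mr_ev_C _ ((mr_ev k τ η).rangeRestrict X), ← mr_rr] at h0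
    rw [← mr_ev_C τ η]
    exact congrArg Subtype.val h0
  · intro y hy
    rw [Finset.mem_singleton.1 hy]
    refine ⟨χ, ?_, ?_⟩
    · rw [← mr_ev_eq, ← mr_rr]
      exact Subtype.ext ((h.ker χ).2 dvd_rfl)
    · rw [derivative_map, ← mr_ev_eq, ← mr_rr, hs, mp_derivative]
      exact hQ.2

theorem mr_place (h : mr_FF χ τ η) (hm : χ.Monic) (hi : Irreducible χ)
    (hQ : Et (mp (algebraMap k Λ) χ) Q) : ∃! P : Place k F Λ, mr_Cen τ η P Q := by
  obtain ⟨s, hs, he⟩ := mr_etale h hm hi hQ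
  obtain ⟨P, hP, hu⟩ := he.existsUnique
  refine ⟨P, fun a => ?_, fun P' hP' => hu P' fun x => ?_⟩
  · rw [← hs]
    exact hP ((mr_ev k τ η).rangeRestrict a)
  · obtain ⟨a, rfl⟩ := (mr_ev k τ η).rangeRestrict_surjective x
    rw [hs]
    exact hP' a

theorem mr_ne (h : mr_FF χ τ η) (hm : χ.Monic) (hQ : Et (mp (algebraMap k Λ) χ) Q)
    (h0 : jq (mp (algebraMap k Λ) χ) Q (mp (algebraMap k Λ) a) ≠ 0) : mr_ev k τ η a ≠ 0 := by
  intro e
  apply h0
  have hd : mp (algebraMap k Λ) χ ∣ mp (algebraMap k Λ) a - 0 := by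
    rw [sub_zero]
    exact _root_.map_dvd _ ((h.ker a).1 e)
  have hm' : (mp (algebraMap k Λ) χ).Monic := hm.map _
  rw [jq_congr hm' hQ hd, map_zero]

theorem mr_ord (h : mr_FF χ τ η) (hm : χ.Monic) (hi : Irreducible χ)
    (hQ : Et (mp (algebraMap k Λ) χ) Q) (hP : mr_Cen τ η P Q)
    (h0 : jq (mp (algebraMap k Λ) χ) Q (mp (algebraMap k Λ) a) ≠ 0) :
    P.ord (mr_ev k τ η a) * ((minpoly k Q.1).map (algebraMap k Λ)).rootMultiplicity Q.1 =
      oq (mp (algebraMap k Λ) χ) Q (mp (algebraMap k Λ) a) := by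
  obtain ⟨s, hs, he⟩ := mr_etale h hm hi hQ
  have hsur := (mr_ev k τ η).rangeRestrict_surjective
  have hP' : ∀ x : (mr_ev k τ η).range, P.Val x (s x) := fun x => by
    obtain ⟨a, rfl⟩ := hsur x
    rw [hs]
    exact hP a
  have ha : (mr_ev k τ η).rangeRestrict a ≠ 0 := fun e =>
    mr_ne h hm hQ h0 (congrArg Subtype.val e)
  obtain ⟨j, u, c, hu, hc, hj, e⟩ := he.exists_factor hP' ha
  obtain ⟨u, rfl⟩ := hsur u
  obtain ⟨c, rfl⟩ := hsur c
  rw [hs] at hu hc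
  have ht : s ((mr_ev k τ η).rangeRestrict (C X)) = Q.1 := by
    rw [hs, mp_C, ee_C, map_X, eval_X]
  have hμ : minpoly k (s ((mr_ev k τ η).rangeRestrict (C X))) ^ j ≠ 0 :=
    pow_ne_zero _ (minpoly.ne_zero (placeb_int _))
  rw [← map_pow, ← mr_ev_C _ ((mr_ev k τ η).rangeRestrict X), ← mr_rr, ← map_mul, ← map_mul,
    ← sub_eq_zero, ← map_sub] at e
  have hd := _root_.map_dvd (mp (algebraMap k Λ)) ((h.ker _).1 (congrArg Subtype.val e))
  rw [map_sub, map_mul, map_mul, mp_C] at hd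
  have hm' : (mp (algebraMap k Λ) χ).Monic := hm.map _
  have h3 := jq_congr hm' hQ hd
  have h4 := oq_eq_zero hm' hQ hu
  have h5 := oq_eq_zero hm' hQ hc
  have h6 := oq_C (mp (algebraMap k Λ) χ) Q
    ((Polynomial.map_ne_zero_iff (algebraMap k Λ).injective).2 hμ)
  have h7 := oq_mul h0 h4.1
  have h8 := oq_mul h6.1 h5.1
  rw [oq, h3, ← oq, h8, h4.2, h5.2, h6.2, add_zero, add_zero] at h7
  rw [← h7, ht, Polynomial.map_pow, ← count_roots, ← count_roots, roots_pow, Multiset.count_nsmul,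
    Nat.cast_mul]
  exact congrArg (· * _) hj

/-- the values at the place lie in the field of the centre -/
theorem mr_val (h : mr_FF χ τ η) (hm : χ.Monic) (hi : Irreducible χ)
    (hQ : Et (mp (algebraMap k Λ) χ) Q) (hP : mr_Cen τ η P Q) {f : F} {c : Λ} (hc : P.Val f c) :
    ∃ a u : k[X][X], c = ee Q (mp (algebraMap k Λ) a) * (ee Q (mp (algebraMap k Λ) u))⁻¹ := by
  obtain ⟨s, hs, he⟩ := mr_etale h hm hi hQ
  have hsur := (mr_ev k τ η).rangeRestrict_surjective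
  obtain ⟨a, u, e⟩ := he.val_eq (fun x => by
    obtain ⟨a, rfl⟩ := hsur x
    rw [hs]
    exact hP a) hc
  obtain ⟨a, rfl⟩ := hsur a
  obtain ⟨u, rfl⟩ := hsur u
  exact ⟨a, u, by rw [e, hs, hs]⟩

theorem mr_cen (h : mr_FF χ τ η) (hm : χ.Monic) (hτ : τ ∈ P.v.integer) :
    ∃ Q, On (mp (algebraMap k Λ) χ) Q ∧ mr_Cen τ η P Q := by
  let φ : k →+* P.v.integer :=
    (algebraMap k F).codRestrict P.v.integer fun c => (P.ev_alg c).1
  have hη : η ∈ P.v.integer := by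
    refine (Valuation.integer.integers P.v).mem_of_integral
      ⟨χ.map (eval₂RingHom φ ⟨τ, hτ⟩), hm.map _, ?_⟩
    rw [eval₂_map, ← (h.ker χ).2 dvd_rfl, mr_ev_eq, eval_map]
    congr 1
    refine Polynomial.ringHom_ext' (RingHom.ext fun c => ?_) ?_
    · simp only [RingHom.comp_apply, coe_eval₂RingHom, eval₂_C, AlgHom.toRingHom_eq_coe,
        RingHom.coe_coe, aeval_C]
      rfl
    · simp only [RingHom.comp_apply, coe_eval₂RingHom, eval₂_X, AlgHom.toRingHom_eq_coe,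
        RingHom.coe_coe, aeval_X]
      rfl
  have hc : mr_Cen τ η P (P.ev ⟨τ, hτ⟩, P.ev ⟨η, hη⟩) := fun a => by
    have h1 := map_e2 P.v.integer.subtype φ ⟨τ, hτ⟩ ⟨η, hη⟩ a
    have h2 := map_e2 P.ev φ ⟨τ, hτ⟩ ⟨η, hη⟩ a
    have h3 : P.ev.comp φ = algebraMap k Λ := RingHom.ext fun c => (P.ev_alg c).2
    rw [h3] at h2
    rw [ee_mp, ← h2, show mr_ev k τ η a = (e2 φ ⟨τ, hτ⟩ ⟨η, hη⟩ a : P.v.integer) from h1.symm]
    exact ⟨Subtype.prop _, rfl⟩
  refine ⟨_, ?_, hc⟩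
  have h1 := hc χ
  rw [(h.ker χ).2 dvd_rfl] at h1
  exact h1.unique (by simpa using P.val_alg 0)

theorem mr_inf (h : mr_FF χ τ η) (hχ : Wt b δ χ) (hG : Lead b m G) (hτ : τ ∉ P.v.integer) :
    P.v (mr_ev k τ η G) = P.v τ ^ m := by
  have h1 : ∀ c, P.v (algebraMap k F c) ≤ 1 := fun c => (P.ev_alg c).1
  have h2 : 1 < P.v τ := not_le.1 hτ
  exact val_lead h1 h2 (val_root h1 h2 hχ ((h.ker χ).2 dvd_rfl)) hG

theorem mr_cen_unique {Q' : Λ × Λ} (h : mr_Cen τ η P Q) (h' : mr_Cen τ η P Q') : Q = Q' := by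
  have h1 := (h (C X)).unique (h' (C X))
  have h2 := (h X).unique (h' X)
  rw [mr_ee, mr_ee, mr_ev_C, mr_ev_C, aeval_X, aeval_X] at h1
  rw [mr_ee, mr_ee, mr_ev_X, mr_ev_X] at h2
  exact Prod.ext h1 h2

end place

end Pool.Agent.ZFy.U
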