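import Pool.Agent.Lib.MP_751085_ag.ZF.U.Uld

/-! Finite extensions of a local field are simple. -/

namespace Pool.Agent.ZFy.U

open Polynomial Module Pool.Agent.ZeroCyc Filter Topology
open scoped Classical IntermediateField

set_option linter.unusedSectionVars false

variable {K Λ : Type} [Field K] [NormedField Λ] [IsAlgClosed Λ] [Algebra K Λ] [Normal K Λ]
  [LocF K Λ] [IsUltrametricDist Λ] (L : IntermediateField K Λ)
  [FiniteDimensional K L]

theorem prim_compact : IsCompact {x : Λ | x ∈ L ∧ ‖x‖ ≤ 1} := by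
  have := LocF.proper L inferInstance
  have : {x : Λ | x ∈ L ∧ ‖x‖ ≤ 1} = Subtype.val '' Metric.closedBall (0 : L) 1 := by
    ext x
    constructor
    · rintro ⟨h1, h2⟩
      exact ⟨⟨x, h1⟩, mem_closedBall_zero_iff.2 h2, rfl⟩
    · rintro ⟨y, hy, rfl⟩
      exact ⟨y.2, mem_closedBall_zero_iff.1 hy⟩
  exact this ▸ (isCompact_closedBall (0 : L) 1).image continuous_subtype_val

/-- a uniformiser and a finite residue system -/
theorem exists_unif : ∃ π ∈ L, π ≠ 0 ∧ ‖π‖ < 1 ∧ (∀ x ∈ L, ‖x‖ < 1 → ‖x‖ ≤ ‖π‖) ∧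
    ∃ s : Finset Λ, ∀ x ∈ L, ‖x‖ ≤ 1 → ∃ y ∈ s, ‖x - y‖ < 1 := by
  obtain ⟨c, hc⟩ := LocF.nontriv (K := K) (Λ := Λ)
  have h1 : ‖(algebraMap K Λ c)⁻¹‖ < 1 := by
    rw [norm_inv]
    exact inv_lt_one_of_one_lt₀ hc
  have hm : (algebraMap K Λ c)⁻¹ ∈ {x : Λ | x ∈ L ∧ ‖x‖ ≤ 1} ∩ Metric.ball 0 1 :=
    ⟨⟨inv_mem (L.algebraMap_mem c), h1.le⟩, mem_ball_zero_iff.2 h1⟩
  obtain ⟨w, hw, hmax⟩ := ((prim_compact L).inter_right
    (IsUltrametricDist.isClosed_ball (0 : Λ) 1)).exists_isMaxOn ⟨_, hm⟩ continuous_norm.continuousOn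
  obtain ⟨t, -, h2, h3⟩ := (prim_compact L).finite_cover_balls one_pos
  refine ⟨w, hw.1.1, norm_pos_iff.1 (lt_of_lt_of_le ?_ (hmax hm)), mem_ball_zero_iff.1 hw.2,
    fun x hx h4 => hmax ⟨⟨hx, h4.le⟩, mem_ball_zero_iff.2 h4⟩, h2.toFinset, fun x hx h4 => ?_⟩
  · exact norm_pos_iff.2 (inv_ne_zero (norm_pos_iff.1 (zero_lt_one.trans hc)))
  · obtain ⟨y, hy, hxy⟩ := Set.mem_iUnion₂.1 (h3 ⟨hx, h4⟩)
    exact ⟨y, h2.mem_toFinset.2 hy, by rwa [Metric.mem_ball, dist_eq_norm] at hxy⟩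

/-- the residue field is finite, `a` lifts a generator of its group of units -/
theorem exists_gen_res : ∃ (a : Λ) (q : ℕ), a ∈ L ∧ ‖a‖ ≤ 1 ∧ ‖(q : Λ)‖ < 1 ∧ 2 ≤ q ∧
    ‖a ^ q - a‖ < 1 ∧ ∀ x ∈ L, ‖x‖ ≤ 1 → ‖x‖ < 1 ∨ ∃ m : ℕ, ‖x - a ^ m‖ < 1 := by
  obtain ⟨-, -, -, -, -, s, hs⟩ := exists_unif L
  let O := ((NormedField.valuation (K := Λ)).comap (algebraMap L Λ)).valuationSubring
  let ι : O →+* Λ := (algebraMap L Λ).comp O.subtype
  have h1 : ∀ x : O, ‖ι x‖ ≤ 1 := fun x => x.2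
  have h2 : ∀ x : O, IsLocalRing.residue O x = 0 ↔ ‖ι x‖ < 1 := fun x => by
    rw [IsLocalRing.residue_eq_zero_iff, Valuation.mem_maximalIdeal_iff]
    rfl
  choose f hf using IsLocalRing.residue_surjective (R := O)
  choose y hy hy' using fun r => hs (ι (f r)) (f r).1.2 (h1 _)
  have : Finite (IsLocalRing.ResidueField O) :=
    Finite.of_injective (fun r => (⟨y r, hy r⟩ : s)) fun r r' e => by
      rw [← hf r, ← hf r', ← sub_eq_zero, ← map_sub, h2, map_sub,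
        ← sub_sub_sub_cancel_right _ _ (y r), sub_eq_add_neg]
      refine (IsUltrametricDist.norm_add_le_max _ _).trans_lt (max_lt (hy' r) ?_)
      rw [norm_neg, show y r = y r' from congrArg Subtype.val e]
      exact hy' r'
  have := Fintype.ofFinite (IsLocalRing.ResidueField O)
  obtain ⟨g, hg⟩ := IsCyclic.exists_monoid_generator (α := (IsLocalRing.ResidueField O)ˣ)
  refine ⟨ι (f g), Fintype.card (IsLocalRing.ResidueField O), (f g).1.2, h1 _, ?_,
    Fintype.one_lt_card, ?_, fun x hx h3 => ?_⟩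
  · rw [← map_natCast ι, ← h2, map_natCast, FiniteField.cast_card_eq_zero]
  · rw [← map_pow, ← map_sub, ← h2, map_sub, map_pow, FiniteField.pow_card, sub_self]
  · refine or_iff_not_imp_left.2 fun h4 => ?_
    obtain ⟨m, hm⟩ := hg (Units.mk0 _ fun h => h4 ((h2 ⟨⟨x, hx⟩, h3⟩).1 h))
    refine ⟨m, ?_⟩
    have h5 := (h2 (⟨⟨x, hx⟩, h3⟩ - f g ^ m)).1 (by
      rw [map_sub, map_pow, hf, sub_eq_zero]
      exact (congrArg Units.val hm).symm)
    rwa [map_sub, map_pow] at h5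

/-- a subfield that contains a uniformiser and a residue system is dense and closed -/
theorem eq_of_unif {E : IntermediateField K Λ} (hE : E ≤ L) {π : Λ} (hπ : π ∈ E) (h0 : π ≠ 0)
    (h1 : ‖π‖ < 1) (hm : ∀ x ∈ L, ‖x‖ < 1 → ‖x‖ ≤ ‖π‖)
    (hr : ∀ x ∈ L, ‖x‖ ≤ 1 → ∃ y ∈ E, ‖x - y‖ < 1) : E = L := by
  have := LocF.proper E (FiniteDimensional.of_injective
    (IntermediateField.inclusion hE).toLinearMap (IntermediateField.inclusion_injective hE))
  have hc : IsClosed (E : Set Λ) :=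
    (completeSpace_coe_iff_isComplete.1 (inferInstanceAs (CompleteSpace E))).isClosed
  have h2 : ∀ x ∈ L, ‖x‖ ≤ 1 → ∀ m : ℕ, ∃ y ∈ E, ‖x - y‖ ≤ ‖π‖ ^ m := fun x hx h3 m => by
    induction m with
    | zero => exact ⟨0, zero_mem E, by simpa using h3⟩
    | succ m ih =>
      obtain ⟨y, hy, e⟩ := ih
      have h4 : (x - y) / π ^ m ∈ L := div_mem (sub_mem hx (hE hy)) (pow_mem (hE hπ) m)
      obtain ⟨z, hz, e'⟩ := hr _ h4 (by
        rwa [norm_div, norm_pow, div_le_one (pow_pos (norm_pos_iff.2 h0) m)])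
      refine ⟨y + π ^ m * z, add_mem hy (mul_mem (pow_mem hπ m) hz), ?_⟩
      rw [show x - (y + π ^ m * z) = π ^ m * ((x - y) / π ^ m - z) by
        rw [mul_sub, mul_div_cancel₀ _ (pow_ne_zero m h0), sub_sub], norm_mul, norm_pow, pow_succ]
      exact mul_le_mul_of_nonneg_left (hm _ (sub_mem h4 (hE hz)) e') (by positivity)
  have h3 : ∀ x ∈ L, ‖x‖ ≤ 1 → x ∈ E := fun x hx h3 =>
    hc.closure_subset (Metric.mem_closure_iff.2 fun ε hε => by
      obtain ⟨m, h4⟩ := exists_pow_lt_of_lt_one hε h1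
      obtain ⟨y, hy, e⟩ := h2 x hx h3 m
      exact ⟨y, hy, by rw [dist_eq_norm]; exact e.trans_lt h4⟩)
  refine le_antisymm hE fun x hx => ?_
  rcases le_total ‖x‖ 1 with h | h
  · exact h3 x hx h
  · exact inv_mem_iff.1 (h3 _ (inv_mem hx) (by rw [norm_inv]; exact inv_le_one_of_one_le₀ h))

theorem prim_p2_lt {x y : Λ} {r : ℝ} (hx : ‖x‖ < r) (hy : ‖y‖ < r) : ‖x + y‖ < r :=
  (IsUltrametricDist.norm_add_le_max x y).trans_lt (max_lt hx hy)

/-- With `f = X ^ q - X`, either `f a` or `f (a + π)` is a uniformiser. -/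
theorem exists_prim : ∃ a : Λ, K⟮a⟯ = L := by
  obtain ⟨π, hπ, h0, h1, hm, -⟩ := exists_unif L
  obtain ⟨a, q, ha, a1, q1, -, a2, hr⟩ := exists_gen_res L
  have hp : 0 < ‖π‖ := norm_pos_iff.2 h0
  obtain ⟨b, hb, b1, b2⟩ : ∃ b ∈ L, ‖a - b‖ < 1 ∧ ‖b ^ q - b‖ = ‖π‖ := by
    rcases (hm _ (sub_mem (pow_mem ha q) ha) a2).eq_or_lt with e | e
    · exact ⟨a, ha, by simp, e⟩
    refine ⟨a + π, add_mem ha hπ, by simpa using h1, ?_⟩
    have t := ((intg_X.pow q).sub intg_X).taylor_le a1 (y := a + π)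
      ((IsUltrametricDist.norm_add_le_max a π).trans (max_le a1 h1.le))
    simp only [eval_sub, eval_pow, eval_X, derivative_sub, derivative_X_pow, derivative_X, eval_mul,
      eval_C, eval_one, add_sub_cancel_left] at t
    have d : ‖(q : Λ) * a ^ (q - 1) - 1‖ = 1 := by
      rw [norm_sub_rev, norm_eq_of_sub_lt (x := 1) ?_, norm_one]
      rw [sub_sub_cancel, norm_one, norm_mul, norm_pow]
      exact mul_lt_one_of_nonneg_of_lt_one_left (norm_nonneg _) q1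
        (pow_le_one₀ (norm_nonneg _) a1)
    have d2 : ‖π * ((q : Λ) * a ^ (q - 1) - 1)‖ = ‖π‖ := by rw [norm_mul, d, mul_one]
    rw [← d2]
    refine norm_eq_of_sub_lt ?_
    have t2 := prim_p2_lt (t.trans_lt (by nlinarith : ‖π‖ ^ 2 < ‖π‖)) e
    rw [show ∀ x y z : Λ, x - y - z + y = x - z from fun x y z => by ring] at t2
    rwa [d2, norm_sub_rev]
  have m := IntermediateField.mem_adjoin_simple_self K b
  refine ⟨b, eq_of_unif L (IntermediateField.adjoin_simple_le_iff.2 hb)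
    (sub_mem (pow_mem m q) m) (norm_pos_iff.1 (b2 ▸ hp)) (b2 ▸ h1) (b2 ▸ hm) fun x hx x1 => ?_⟩
  rcases hr x hx x1 with h | ⟨n, h⟩
  · exact ⟨0, zero_mem _, by rwa [sub_zero]⟩
  · refine ⟨b ^ n, pow_mem m n, ?_⟩
    rw [← sub_add_sub_cancel x (a ^ n)]
    exact prim_p2_lt h (norm_pow_sub_pow_lt a1 b1 n)

variable {L} in
/-- `t + c a`, `c ∈ K` small; there are finitely many fields between `K` and `L` -/
theorem prim_near (t : L) {W : Set L} (hW : W ∈ 𝓝 t) : {s ∈ W | K⟮(s : Λ)⟯ = L}.Infinite := by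
  obtain ⟨a, a0, ha⟩ : ∃ a : Λ, a ≠ 0 ∧ K⟮a⟯ = L := by
    obtain ⟨a, ha⟩ := exists_prim L
    rcases eq_or_ne a 0 with rfl | h
    · exact ⟨1, one_ne_zero, by
        rw [← ha, IntermediateField.adjoin_zero, IntermediateField.adjoin_one]⟩
    · exact ⟨a, h, ha⟩
  have hm : a ∈ L := ha ▸ IntermediateField.mem_adjoin_simple_self K a
  have hf : Finite (IntermediateField K L) :=
    Field.finite_intermediateField_of_exists_primitive_element K L ⟨⟨a, hm⟩,
      IntermediateField.lift_injective L (by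
        rw [IntermediateField.lift_adjoin_simple, IntermediateField.lift_top, ha])⟩
  obtain ⟨c, hc⟩ := LocF.nontriv (K := K) (Λ := Λ)
  obtain ⟨d, d0, d1⟩ : ∃ d : K, 0 < ‖algebraMap K Λ d‖ ∧ ‖algebraMap K Λ d‖ < 1 :=
    ⟨c⁻¹, by rw [map_inv₀, norm_inv]; positivity,
      by rw [map_inv₀, norm_inv]; exact inv_lt_one_of_one_lt₀ hc⟩
  have hd : ∀ m n : ℕ, algebraMap K Λ d ^ m = algebraMap K Λ d ^ n → m = n := fun m n e =>
    pow_right_injective₀ d0 d1.ne (by simpa only [norm_pow] using congrArg norm e)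
  obtain ⟨s, hs⟩ : ∃ s : ℕ → L, ∀ m, (s m : Λ) = t + algebraMap K Λ d ^ m * a :=
    ⟨fun m => ⟨_, add_mem t.2 (mul_mem (pow_mem (L.algebraMap_mem d) m) hm)⟩, fun _ => rfl⟩
  have hle : ∀ m, K⟮(s m : Λ)⟯ ≤ L := fun m => IntermediateField.adjoin_simple_le_iff.2 (s m).2
  have h1 : ∀ᶠ m in atTop, s m ∈ W := by
    refine (tendsto_subtype_rng.2 ?_ : Tendsto s atTop (𝓝 t)) hW
    simpa only [hs, zero_mul, add_zero] using
      ((tendsto_pow_atTop_nhds_zero_of_norm_lt_one d1).mul_const a).const_add (t : Λ)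
  have h2 : {m | K⟮(s m : Λ)⟯ ≠ L}.Finite := by
    refine Set.Finite.of_injOn (f := fun m => K⟮(s m : Λ)⟯) (fun m _ => ?_) (fun m h n _ e => ?_)
      (Set.finite_range (IntermediateField.lift (F := L)))
    · exact ⟨_, IntermediateField.lift_restrict (hle m)⟩
    · by_contra hne
      refine h (le_antisymm (hle m) (ha.ge.trans (IntermediateField.adjoin_simple_le_iff.2 ?_)))
      have e1 : (s n : Λ) ∈ K⟮(s m : Λ)⟯ :=
        (show K⟮(s m : Λ)⟯ = K⟮(s n : Λ)⟯ from e) ▸ IntermediateField.mem_adjoin_simple_self K _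
      have e2 := K⟮(s m : Λ)⟯.algebraMap_mem d
      have e3 := div_mem (sub_mem (IntermediateField.mem_adjoin_simple_self K (s m : Λ)) e1)
        (sub_mem (pow_mem e2 m) (pow_mem e2 n))
      have e4 : ((s m : Λ) - s n) / (algebraMap K Λ d ^ m - algebraMap K Λ d ^ n) = a := by
        rw [div_eq_iff (sub_ne_zero.2 fun e => hne (hd m n e)), hs, hs]
        ring
      rwa [e4] at e3
  have h3 : ∀ᶠ m in atTop, K⟮(s m : Λ)⟯ = L := by
    rw [← Nat.cofinite_eq_atTop]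
    exact h2
  refine Set.infinite_of_injOn_mapsTo (f := s) (fun m _ n _ e => hd m n ?_) (fun m h => h)
    (Nat.frequently_atTop_iff_infinite.1 (h1.and h3).frequently)
  have e1 := congrArg Subtype.val e
  rwa [hs, hs, add_right_inj, mul_left_inj' a0] at e1

end Pool.Agent.ZFy.U
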