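import Pool.Agent.Lib.MP_751085_ag.ZF.U.Wr
import Pool.Agent.Lib.MP_751085_ag.ZF.U.Hom
import Pool.Agent.Lib.MP_751085_ag.ZF.U.LBr2

/-! The pairing factors through the classes of cycles. -/

namespace Pool.Agent.ZCy.F.Uw

open Pool.Agent.ZFN Pool.Agent.ZFy.U Module
open scoped Classical IntermediateField

variable {k : Type} [Field k] {X : Var k} {K : Type} [Field K] [Algebra k K] {C : Gen k X.N}
  {a : BR X.F}

variable (X K) in
/-- the class of a cycle -/
noncomputable def cyc : X.Cyc K →+ VV (Cb K) (X.JK K) :=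
  Finsupp.liftAddHom (M := ℤ) fun x => zmultiplesHom _ (pc (X.JK K) (Var.res x) x.1)

theorem cyc_single (x : X.Pt (Cb K)) (m : ℤ) :
    cyc X K (Finsupp.single x m) = m • pc (X.JK K) (Var.res x) x.1 :=
  Finsupp.liftAddHom_apply_single _ _ _

theorem ptL_res (x : X.Pt (Cb K)) : PtL (X.JK K) (Var.res x) x.1 :=
  (ptL_iff X K _ _).2 ⟨pt_on x, pt_mem_res x⟩

theorem cyc_snd (z : X.Cyc K) : (cyc X K z).2 = Var.deg z := by
  induction z using Finsupp.induction_linear with
  | zero => rw [map_zero]; exact (map_zero (degH X K)).symm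
  | add a b ha hb => rw [map_add, Prod.snd_add, ha, hb, deg_add]
  | single x m => rw [cyc_single, Prod.smul_snd, pc_snd, deg_single, smul_eq_mul]

theorem cyc_mem (z : X.Cyc K) : cyc X K z ∈ Atot (Cb K) (X.JK K) := by
  induction z using Finsupp.induction_linear with
  | zero => rw [map_zero]; exact zero_mem _
  | add a b ha hb => rw [map_add]; exact add_mem ha hb
  | single x m =>
    rw [cyc_single]
    have := pt_fin x
    exact zsmul_mem (pc_mem_atot (ptL_res x)) _

theorem cyc_surj {w : VV (Cb K) (X.JK K)} (h : w ∈ Atot (Cb K) (X.JK K)) :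
    ∃ z, cyc X K z = w := by
  refine (AddSubgroup.closure_le (cyc X K).range).2 ?_ h
  rintro _ ⟨L, v, hL, hv, rfl⟩
  obtain ⟨i, hi⟩ := Function.ne_iff.1 hv.ne
  have hi' : v i ≠ 0 := hi
  let x : X.Pt (Cb K) := ⟨(v i)⁻¹ • v, ⟨i, inv_mul_cancel₀ hi'⟩,
    (onX_JK X K _).1 (onX_smul X K hv.on _)⟩
  have h1 : Var.res x ≤ L := by
    refine IntermediateField.adjoin_le_iff.2 ?_
    rintro _ ⟨j, rfl⟩
    exact L.mul_mem (L.inv_mem (hv.mem i)) (hv.mem j)
  obtain ⟨r, -, -, hr⟩ := pc_nsmul (J := X.JK K) h1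
  refine ⟨Finsupp.single x r, ?_⟩
  rw [cyc_single, natCast_zsmul, ← hr]
  exact pc_smul (inv_ne_zero hi') v

theorem sub_on (hC : X.Sub C) {L : IntermediateField K (Cb K)} {v : Fin (X.N + 1) → Cb K}
    (h : PtL (C.var.JK K) L v) : X.On v := hC _ _ ((ptL_iff C.var K L v).1 h).1

variable (K) in
/-- the values of a class at the points of a subvariety -/
noncomputable def psOf (hW : WR) (A : EvApi X) (hC : X.Sub C) (ha : a ∈ X.Bw) :
    PS (Cb K) (C.var.JK K) (BR K) where
  val L v := X.ptv a L v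
  smul _ _ _ _ h hc h0 := ptv_smul A ha h.mem (sub_on hC h) hc h0
  tower _ _ _ _ hL _ h hr := ptv_tower A ha h.mem (sub_on hC h) hL hr
  gal _ _ σ _ h := ptv_gal A ha h.mem (sub_on hC h) σ
  wr E _ _ g f s x h := by
    obtain ⟨L, _, _, t, _, ht, _, _⟩ := h.crv
    let _ : Algebra k E := ((algebraMap K E).comp (algebraMap k K)).toAlgebra
    have : IsScalarTower k K E := IsScalarTower.of_algebraMap_eq fun _ => rfl
    exact wr_rel hW A ha ht (hC _ _ ((on_iff C.var K g).2 ⟨h.ne, h.on⟩)) h.fne h.inj h.all h.fin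
      fun P hP => ⟨sub_on hC (h.pt P hP), h.sp P hP⟩

variable (K) in
theorem exists_rep (hW : WR) (A : EvApi X) (hC : X.Sub C) (ha : a ∈ X.Bw) :
    ∃ (B : Type) (_ : AddCommGroup B) (χ : BR K →+ B) (φ : VV (Cb K) (C.var.JK K) →+ B),
      Function.Injective χ ∧ (∀ (L : IntermediateField K (Cb K)) (v : Fin (X.N + 1) → Cb K),
        FiniteDimensional K L → PtL (C.var.JK K) L v →
          φ (pc (C.var.JK K) L v) = χ (X.ptv a L v)) ∧
        ∀ z, φ (cyc C.var K z) = χ (X.prG z a) := by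
  obtain ⟨B, _, χ, φ, h1, h2⟩ := (psOf K hW A hC ha).hom fun v c h => onX_smul C.var K h c
  refine ⟨B, _, χ, φ, h1, h2, fun z => ?_⟩
  have : φ.comp (cyc C.var K) = χ.comp (prH K C a) := Finsupp.addHom_ext fun x m => by
    change φ (cyc C.var K _) = χ (X.prG _ a)
    rw [cyc_single, map_zsmul, h2 _ _ (pt_fin x) (ptL_res x), prG_single]
    exact (map_zsmul χ _ _).symm
  exact DFunLike.congr_fun this z

end Pool.Agent.ZCy.F.Uw
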