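import Pool.Agent.Lib.MP_751085_ag.ZF.U.Xc

/-! Classes of rational divisors. -/

namespace Pool.Agent.ZFy.U

open Polynomial Module Pool.Agent.ZeroCyc
open scoped Classical IntermediateField

set_option linter.unusedSectionVars false

variable {K Λ : Type} [Field K] [Field Λ] [IsAlgClosed Λ] [Algebra K Λ] [Normal K Λ]
  {N : ℕ} {J : Ideal (MvPolynomial (Fin (N + 1)) K)} {L L' : IntermediateField K Λ}
  [FiniteDimensional K L]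

namespace XC

variable {𝒳 : XC Λ J} {Q : Λ × Λ} {D : Λ × Λ →₀ ℤ}

theorem Ov.cl_odv (h : 𝒳.Ov L) (hQ : 𝒳.c.Gp Q) :
    𝒳.cl L (odv L Q) = pc J (fld L Q) (𝒳.pv Q) := clL_odv h.χ hQ.et h.q

/-- `odv_ne_zero`, `Ov.inv`, `Cv.Inv.gp` -/
theorem Ov.odv_mem_Dv (h : 𝒳.Ov L) (hQ : 𝒳.c.Gp Q) : odv L Q ∈ 𝒳.c.Dv := by
  intro Q' hQ'
  obtain ⟨σ, hσ, rfl⟩ := odv_ne_zero.1 hQ'
  exact (h.inv hσ).gp σ.injective hQ

/-- `rat_dec`, `cl_odv`, `Ov.ptL` over `fld L Q` -/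
theorem Ov.cl_mem_eff (h : 𝒳.Ov L) (hD : D ∈ 𝒳.c.Dv) (h0 : 0 ≤ D) (hr : D ∈ RatD L) :
    𝒳.cl L D ∈ EffM Λ J := by
  obtain ⟨T, n, hT, -, e⟩ := rat_dec hr
  rw [e, map_sum]
  refine AddSubmonoid.sum_mem _ fun Q hQ => ?_
  have hg := hD Q (hT Q hQ).1
  have hn : 0 ≤ n Q := by
    have h1 : 0 ≤ D Q := h0 Q
    have h2 : (0 : ℤ) < qq L Q.1 := by exact_mod_cast qq_pos L Q.1
    rw [(hT Q hQ).2] at h1
    exact nonneg_of_mul_nonneg_left h1 h2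
  obtain ⟨m, hm⟩ := Int.eq_ofNat_of_zero_le hn
  have := fld_fin L Q
  rw [hm, natCast_zsmul, map_nsmul, h.cl_odv hg]
  exact AddSubmonoid.nsmul_mem _
    (pc_mem_eff ((h.mono (le_fld L Q)).ptL hg (fst_mem_fld L Q) (snd_mem_fld L Q))) _

theorem Ov.cl_mem (h : 𝒳.Ov L) (hD : D ∈ 𝒳.c.Dv) (hr : D ∈ RatD L) : 𝒳.cl L D ∈ Atot Λ J := by
  obtain ⟨T, n, hT, -, e⟩ := rat_dec hr
  rw [e, map_sum]
  refine AddSubgroup.sum_mem _ fun Q hQ => ?_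
  have hg := hD Q (hT Q hQ).1
  rw [map_zsmul]
  exact AddSubgroup.zsmul_mem _
    (eff_le_atot (h.cl_mem_eff (h.odv_mem_Dv hg) (odv_nonneg L Q) (odv_mem L Q))) _

/-- `fld_le`, `pc_nsmul`, `cl_odv` -/
theorem Ov.exists_nat [FiniteDimensional K L'] (h : 𝒳.Ov L) (hL : L ≤ L') (hQ : 𝒳.c.Gp Q)
    (h₁ : Q.1 ∈ L') (h₂ : Q.2 ∈ L') : ∃ r : ℕ, pc J L' (𝒳.pv Q) = 𝒳.cl L (r • odv L Q) := by
  obtain ⟨r, -, -, hr⟩ := pc_nsmul (J := J) (fld_le hL h₁ h₂)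
  exact ⟨r, by rw [map_nsmul, h.cl_odv hQ, hr]⟩

theorem Ov.exists_rat (h : 𝒳.Ov L) {w : VV Λ J} (hw : w ∈ 𝒳.A L) :
    ∃ D ∈ 𝒳.c.Dv, D ∈ RatD L ∧ w = 𝒳.cl L D := by
  induction hw using AddSubgroup.closure_induction with
  | mem w hw =>
    obtain ⟨L', Q, hL, hf, hQ, h₁, h₂, rfl⟩ := hw
    obtain ⟨r, hr⟩ := h.exists_nat hL hQ h₁ h₂
    exact ⟨_, AddSubgroup.nsmul_mem _ (h.odv_mem_Dv hQ) r,
      AddSubgroup.nsmul_mem _ (odv_mem L Q) r, hr⟩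
  | zero => exact ⟨0, zero_mem _, zero_mem _, (map_zero _).symm⟩
  | add w w' _ _ h h' =>
    obtain ⟨D, h1, h2, rfl⟩ := h
    obtain ⟨D', h1', h2', rfl⟩ := h'
    exact ⟨D + D', add_mem h1 h1', add_mem h2 h2', (map_add _ _ _).symm⟩
  | neg w _ h =>
    obtain ⟨D, h1, h2, rfl⟩ := h
    exact ⟨-D, neg_mem h1, neg_mem h2, (map_neg _ _).symm⟩

/-- lift `χ`, `u + ρ a` to `L` as in `Ov.rel`; `Monic.irreducible_of_irreducible_map`; `dv_rat` -/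
theorem Ov.dv_rat (h : 𝒳.Ov L) (hi : Irreducible 𝒳.c.χ) {u : Λ[X]} {a : Λ[X][X]}
    (hw : 𝒳.c.Wit u a) (hu : Over L u) (ha : Ovv L a) :
    dv 𝒳.c.χ (𝒳.c.G u a) ∈ RatD L := by
  obtain ⟨χ₀, hχ⟩ := h.χ.exists_mp
  obtain ⟨a₀, ha₀⟩ := ha.exists_mp
  obtain ⟨u₀, hu₀⟩ := (xc_ovv_C hu).exists_mp
  obtain ⟨ρ₀, hρ₀⟩ := (xc_ovv_C h.ρ).exists_mp
  have hG : mp (algebraMap L Λ) (u₀ + ρ₀ * a₀) = 𝒳.c.G u a := by
    rw [map_add, map_mul, hu₀, hρ₀, ha₀, Cv.G]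
  have hj : Function.Injective (algebraMap L Λ) := (algebraMap L Λ).injective
  have hwt : Wt 𝒳.c.b 𝒳.c.δ χ₀ := xc_wt hj (hχ ▸ 𝒳.c.wt)
  have hi₀ : Irreducible χ₀ :=
    hwt.monic.irreducible_of_irreducible_map (mapRingHom (algebraMap L Λ)) χ₀ (by
      rw [← hχ] at hi
      exact hi)
  have key := U.dv_rat (L := L) (G := u₀ + ρ₀ * a₀) (m := u.natDegree) hwt hi₀
    (xc_lead hj (hG ▸ hw.lead)) (by rw [hχ, hG]; exact hw.adm)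
  rwa [hχ, hG] at key

/-- the class over a larger field -/
theorem cl_bot (𝒳 : XC Λ J) (L : IntermediateField K Λ) (D : Λ × Λ →₀ ℤ) :
    𝒳.cl L D = finrank K L • 𝒳.cl ⊥ D :=
  clL_eq_nsmul (by rw [IntermediateField.finrank_bot, mul_one]) _

end XC

end Pool.Agent.ZFy.U
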