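import Pool.Agent.Lib.MP_751085_ag.ZF.U.Sy
import Pool.Agent.Lib.MP_796ce4_ag.ZY.CvP

/-! A solution of the system gives a principal divisor. -/

namespace Pool.Agent.ZFy.U

open Polynomial Pool.Agent.ZeroCyc Pool.Agent.ZCy.U
open scoped Classical

set_option linter.unusedSectionVars false

variable {I Λ : Type} [Fintype I] [Field Λ] [IsAlgClosed Λ] {M e : ℕ} {u μ η : Λ[X]} {c : Cv Λ}

/-- the divisor of the section `η` over the roots of `u` -/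
noncomputable def sec (u η : Λ[X]) : Λ × Λ →₀ ℤ :=
  (u.roots.map fun t => Finsupp.single (t, η.eval t) (1 : ℤ)).sum

/-- `dv (u₁ + ρ a) - dv u₁ = sec u₂ η₂ - sec u₁ η₁` with `a` over `S` -/
structure Sol (c : Cv Λ) (S : Set Λ) (u₁ u₂ η₁ η₂ : Λ[X]) : Prop where
  cop₁ : IsCoprime u₁ c.ρ
  cop₂ : IsCoprime u₂ c.ρ
  dvd₁ : u₁ ∣ c.χ.eval η₁
  dvd₂ : u₂ ∣ c.χ.eval η₂
  ex : ∃ a, c.Wit u₁ a ∧ (∀ i j, (a.coeff i).coeff j ∈ S) ∧
    dv c.χ (c.G u₁ a) - dv c.χ (C u₁) = sec u₂ η₂ - sec u₁ η₁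

theorem sec_apply (u η : Λ[X]) (Q : Λ × Λ) :
    sec u η Q = if Q.2 = η.eval Q.1 then (u.rootMultiplicity Q.1 : ℤ) else 0 := by
  rw [← count_roots, sec]
  obtain ⟨x, y⟩ := Q
  induction u.roots using Multiset.induction_on with
  | empty => simp
  | cons a s ih =>
    rw [Multiset.map_cons, Multiset.sum_cons, Finsupp.add_apply, ih, Multiset.count_cons,
      Finsupp.single_apply]
    by_cases h : y = η.eval x
    · subst h
      by_cases h1 : x = a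
      · subst h1
        simp [add_comm]
      · simp [h1, Ne.symm h1]
    · have h2 : ¬ (a = x ∧ η.eval a = y) := fun e => h (by rw [← e.2, e.1])
      simp [h, h2]

theorem sec_nonneg (u η : Λ[X]) : 0 ≤ sec u η := fun Q => by
  rw [sec_apply, Finsupp.zero_apply]
  positivity

theorem sec_ne_zero (hu : u ≠ 0) {Q : Λ × Λ} :
    sec u η Q ≠ 0 ↔ u.eval Q.1 = 0 ∧ Q.2 = η.eval Q.1 := by
  rw [sec_apply]
  by_cases h : Q.2 = η.eval Q.1
  · rw [if_pos h, and_iff_left h, Nat.cast_ne_zero, ← Nat.pos_iff_ne_zero, rootMultiplicity_pos hu]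
    rfl
  · simp [h]

theorem sec_mul {v : Λ[X]} (hu : u ≠ 0) (hv : v ≠ 0) (η : Λ[X]) :
    sec (u * v) η = sec u η + sec v η := by
  rw [sec, roots_mul (mul_ne_zero hu hv), Multiset.map_add, Multiset.sum_add, sec, sec]

theorem sec_degree (u η : Λ[X]) : (sec u η).degree = u.natDegree := by
  rw [sec, map_multiset_sum, Multiset.map_map, ← IsAlgClosed.card_roots_eq_natDegree]
  simp [Finsupp.degree_single]

theorem sec_X_sub_C (t : Λ) (η : Λ[X]) : sec (X - C t) η = Finsupp.single (t, η.eval t) 1 := by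
  rw [sec, roots_X_sub_C, Multiset.map_singleton, Multiset.sum_singleton]

theorem syc_prod (M : ℕ) (t : I → Λ) (η : Λ[X]) (s : Finset I) :
    sec (∏ i ∈ s, (X - C (t i)) ^ M) η = M • ∑ i ∈ s, Finsupp.single (t i, η.eval (t i)) 1 := by
  induction s using Finset.induction_on with
  | empty => simp [sec]
  | insert i s hi ih =>
    rw [Finset.prod_insert hi, Finset.sum_insert hi, sec_mul ((monic_X_sub_C _).pow M).ne_zero
      (monic_prod_of_monic _ _ fun j _ => (monic_X_sub_C _).pow M).ne_zero, ih, smul_add, sec,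
      roots_pow, roots_X_sub_C, Multiset.map_nsmul, Multiset.sum_nsmul, Multiset.map_singleton,
      Multiset.sum_singleton]

theorem sec_uu (h : μ ≠ 0) (M : ℕ) (t : I → Λ) (η : Λ[X]) :
    sec (uu M μ t) η = sec μ η + M • ∑ i, Finsupp.single (t i, η.eval (t i)) 1 := by
  rw [uu, sec_mul h (monic_prod_of_monic _ _ fun j _ => (monic_X_sub_C _).pow M).ne_zero,
    syc_prod]

theorem sec_congr {η' : Λ[X]} (h : ∀ t, u.eval t = 0 → η.eval t = η'.eval t) :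
    sec u η = sec u η' := by
  rw [sec, sec, Multiset.map_congr rfl fun t ht => by rw [h t (isRoot_of_mem_roots ht)]]

theorem sc_on {χ : Λ[X][X]} {s : Λ} (h : u ∣ χ.eval η) (h0 : u.eval s = 0) :
    On χ (s, η.eval s) := by
  rw [On, ee_eval]
  exact eval_eq_zero_of_dvd_of_eval_eq_zero h h0

theorem sc_gp (hc : IsCoprime u c.ρ) (h : u ∣ c.χ.eval η) {s : Λ} (h0 : u.eval s = 0) :
    c.Gp (s, η.eval s) := ⟨sc_on h h0, Cv.cop_iff.1 hc s h0⟩

theorem sec_mem_Dv (hu : u ≠ 0) (hc : IsCoprime u c.ρ) (h : u ∣ c.χ.eval η) :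
    sec u η ∈ c.Dv := fun Q hQ => by
  obtain ⟨h1, h2⟩ := (sec_ne_zero hu).1 hQ
  have h3 := sc_gp hc h h1
  rwa [← h2] at h3

/-- `kap_spec` evaluated at `Q` -/
theorem sc_pt {χ : Λ[X][X]} {Q : Λ × Λ} (hQ : On χ Q) (h : u ∣ χ.eval η) (h0 : u.eval Q.1 = 0)
    (hk : ee Q (kap χ η) ≠ 0) : Q.2 = η.eval Q.1 := by
  have h1 : (χ.eval η).eval Q.1 = 0 := eval_eq_zero_of_dvd_of_eval_eq_zero h h0
  have h2 := congrArg (ee Q) (kap_spec χ η)
  rw [show ee Q χ = 0 from hQ, map_add, map_mul, map_sub, ee_C, ee_C, ee_X, h1, add_zero] at h2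
  exact sub_eq_zero.1 ((mul_eq_zero.1 h2.symm).resolve_right hk)

theorem syc_et (hc : IsCoprime u c.ρ) (h : u ∣ c.χ.eval η) {Q : Λ × Λ}
    (h1 : Q.2 = η.eval Q.1) (h2 : u.eval Q.1 = 0) : Et c.χ Q := by
  have h4 := sc_gp hc h h2
  rw [← h1] at h4
  exact Cv.Gp.et h4

/-- vanishing on the other branches -/
theorem vanZ_cmod (hu : u.Monic) (hc : IsCoprime u c.ρ) (h : u ∣ c.χ.eval η) (G : Λ[X][X]) :
    0 ≤ dv c.χ (C u) - sec u η ∧
      (∀ Q, (dv c.χ (C u) - sec u η) Q ≠ 0 → ee Q (kap c.χ η) = 0) ∧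
      VanZ c.χ (dv c.χ (C u) - sec u η) (cmod u (kap c.χ η * G)) := by
  have key : ∀ Q, (dv c.χ (C u) - sec u η) Q =
      if Et c.χ Q ∧ η.eval Q.1 ≠ Q.2 then (u.rootMultiplicity Q.1 : ℤ) else 0 := by
    intro Q
    rw [Finsupp.sub_apply, dv_C c.wt hu, sec_apply]
    by_cases h0 : u.rootMultiplicity Q.1 = 0
    · simp [h0]
    by_cases h1 : Q.2 = η.eval Q.1
    · rw [if_pos (syc_et hc h h1 (by_contra fun h3 => h0 (rootMultiplicity_eq_zero h3))),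
        if_pos h1, if_neg fun e => e.2 h1.symm, sub_self]
    · simp [h1, Ne.symm h1]
  have key2 : ∀ Q, (dv c.χ (C u) - sec u η) Q ≠ 0 → Et c.χ Q ∧
      ((dv c.χ (C u) - sec u η) Q).toNat = u.rootMultiplicity Q.1 ∧
      1 ≤ u.rootMultiplicity Q.1 ∧ Van c.χ Q (u.rootMultiplicity Q.1) (kap c.χ η) := by
    intro Q hQ
    rw [key] at hQ ⊢
    split_ifs at hQ ⊢ with h1
    · refine ⟨h1.1, Int.toNat_natCast _, by omega,
        van_of_cofactor c.wt.monic h1.1 hu.ne_zero h1.2 ?_⟩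
      rw [sub_eq_iff_eq_add'.2 (kap_spec c.χ η)]
      exact _root_.map_dvd C h
    · exact absurd rfl hQ
  refine ⟨fun Q => ?_, fun Q hQ => ?_, fun Q hQ => ?_⟩
  · rw [key, Finsupp.zero_apply]
    positivity
  · obtain ⟨h1, -, h2, h3⟩ := key2 Q hQ
    exact (van_one c.wt.monic h1).1 (h3.mono h2)
  · obtain ⟨h1, h2, -, h3⟩ := key2 Q hQ
    obtain ⟨W, hW⟩ := cmod_dvd hu (kap c.χ η * G)
    have h4 : Van c.χ Q (u.rootMultiplicity Q.1) (C u) := by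
      unfold Van
      rw [jq_C]
      exact cvh_dvd c.χ Q hu.ne_zero
    rw [h2, sub_eq_iff_eq_add.1 hW, mul_comm _ W, mul_comm _ G]
    exact ⟨h1, (h4.mul_left W).add (h3.mul_left G)⟩

/-- vanishing along a section -/
theorem vanZ_sec (hu : u ≠ 0) (hc : IsCoprime u c.ρ) (h : u ∣ c.χ.eval η) {a : Λ[X][X]}
    (ha : u ∣ a.eval η) : VanZ c.χ (sec u η) a := fun Q hQ => by
  obtain ⟨h1, h2⟩ := (sec_ne_zero hu).1 hQ
  have h3 := syc_et hc h h2 h1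
  rw [sec_apply, if_pos h2, Int.toNat_natCast]
  exact ⟨h3, van_of_dvd c.wt.monic h3 hu h2.symm h ha⟩

/-- the open condition -/
theorem Sd.Mon.opn_iff {d : Sd I Λ} (h : d.Mon e) : d.opn c M e ≠ 0 ↔
    IsCoprime (d.u₁ M) c.ρ ∧ IsCoprime (d.u₂ M) c.ρ ∧
      ∀ y, (d.u₂ M).eval y = 0 → ee (y, d.η₂.eval y) (kap c.χ d.η₁) ≠ 0 := by
  have h1 : (d.u₁ M).natDegree = M * Fintype.card I + e := uu_natDegree h.1 M d.t
  have h2 : (d.u₂ M).natDegree = M * Fintype.card I + e := uu_natDegree h.2 M d.t'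
  have r1 := cvr_res_ne (h.u₁ M) c.deg
  have r2 := cvr_res_ne (h.u₂ M) c.deg
  have r3 := cvr_res_ne (h.u₂ M) (natDegree_modByMonic_le ((kap c.χ d.η₁).eval d.η₂) (h.u₂ M))
  rw [h1] at r1
  rw [h2] at r2 r3
  rw [Sd.opn, mul_ne_zero_iff, mul_ne_zero_iff, r1, r2, r3, Cv.cop_iff, Cv.cop_iff, and_assoc]
  refine and_congr_right fun _ => and_congr_right fun _ => forall₂_congr fun y hy => ?_
  rw [ee_eval, modByMonic_eq_sub_mul_div, eval_sub, eval_mul, hy, zero_mul, sub_zero]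

theorem sysc {d : Sd I Λ} (h : d.Mon e) (he : d.Eqs c M e) (ho : d.opn c M e ≠ 0) :
    c.Wit (d.u₁ M) (d.a c M) ∧ dv c.χ (c.G (d.u₁ M) (d.a c M)) - dv c.χ (C (d.u₁ M)) =
      sec (d.u₂ M) d.η₂ - sec (d.u₁ M) d.η₁ := by
  obtain ⟨c1, c2, k⟩ := h.opn_iff.1 ho
  have h1 : (d.u₁ M).natDegree = M * Fintype.card I + e := uu_natDegree h.1 M d.t
  have h2 : (d.u₂ M).natDegree = M * Fintype.card I + e := uu_natDegree h.2 M d.t'
  have hw : c.Wit (d.u₁ M) (d.a c M) := ⟨h.u₁ M, c1, by rw [h1]; exact he.wl⟩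
  obtain ⟨n0, n1, n2⟩ := vanZ_cmod (h.u₁ M) c1 he.e₁ (C d.β)
  have v0 : VanZ c.χ (dv c.χ (C (d.u₁ M)) - sec (d.u₁ M) d.η₁) (C (d.u₁ M)) :=
    (lead_C hw.monic).vanZ_of_le c.wt n0 (sub_le_self _ (sec_nonneg _ _))
  have v1 : VanZ c.χ (dv c.χ (C (d.u₁ M)) - sec (d.u₁ M) d.η₁) (c.G (d.u₁ M) (d.a c M)) :=
    fun Q hQ => ⟨(v0 Q hQ).1, (v0 Q hQ).2.add ((n2 Q hQ).2.mul_left _)⟩
  have v3 := v1.add (vanZ_sec (h.u₂ M).ne_zero c2 he.e₂ he.e₃) fun Q => by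
    by_contra hn
    obtain ⟨h3, h4⟩ := (sec_ne_zero (h.u₂ M).ne_zero).1 (not_or.1 hn).2
    exact k _ h3 (h4 ▸ n1 Q (not_or.1 hn).1)
  have e1 := (hw.lead.dv_eq c.wt v3 (by
    rw [map_add, map_sub, sec_degree, sec_degree, h1, h2, sub_add_cancel, ← h1]
    exact Cv.degree_dv_C hw.monic c1)).1
  refine ⟨hw, ?_⟩
  rw [e1]
  abel

theorem sys_sol {L : Type} [Field L] (φ : L →+* Λ) {c : Cv L} {d : Sd I L} (h : d.Mon e)
    (he : d.Eqs c M e) (ho : (d.map φ).opn (c.map φ) M e ≠ 0) :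
    Sol (c.map φ) (Set.range φ) ((d.u₁ M).map φ) ((d.u₂ M).map φ) (d.η₁.map φ) (d.η₂.map φ) := by
  have he' := (h.eqs_iff_map c M φ).1 fun j => by rw [(h.eqs_iff c M).2 he j, map_zero]
  obtain ⟨hw, e1⟩ := sysc (h.map φ) he' ho
  obtain ⟨c1, c2, -⟩ := (h.map φ).opn_iff.1 ho
  have e2 := he'.e₁
  have e3 := he'.e₂
  rw [Sd.u₁_map] at hw e1 c1 e2
  rw [Sd.u₂_map] at e1 c2 e3
  exact ⟨c1, c2, e2, e3, _, hw, fun i j => ⟨((d.a c M).coeff i).coeff j, by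
    rw [h.a_map, coe_mapRingHom, coeff_map, coe_mapRingHom, coeff_map]⟩, e1⟩

end Pool.Agent.ZFy.U
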