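import Pool.Agent.Lib.MP_751085_ag.ZF.U.Odv
import Pool.Agent.Lib.MP_751085_ag.ZF.U.Xa
import Pool.Agent.Lib.MP_751085_ag.ZF.U.SyC
import Pool.Agent.Lib.MP_751085_ag.ZC.UEta

/-! Rational divisors as divisors of sections. -/

namespace Pool.Agent.ZFy.U

open Polynomial Module Pool.Agent.ZeroCyc Pool.Agent.ZCy.U
open scoped Classical IntermediateField

set_option linter.unusedSectionVars false

variable {K Λ : Type} [Field K] [Field Λ] [IsAlgClosed Λ] [Algebra K Λ] [Normal K Λ]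
  {L : IntermediateField K Λ} {D : Λ × Λ →₀ ℤ}

/-- the polynomial of the first coordinates -/
noncomputable def dpol (D : Λ × Λ →₀ ℤ) : Λ[X] := ∏ Q ∈ D.support, (X - C Q.1) ^ (D Q).toNat

theorem sec_dpol_monic (D : Λ × Λ →₀ ℤ) : (dpol D).Monic :=
  monic_prod_of_monic _ _ fun _ _ => (monic_X_sub_C _).pow _

theorem sec_mult_prod (n : Λ × Λ → ℕ) (t : Λ) (s : Finset (Λ × Λ)) :
    (∏ Q ∈ s, (X - C Q.1) ^ n Q).rootMultiplicity t = ∑ Q ∈ s, if Q.1 = t then n Q else 0 := by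
  induction s using Finset.induction_on with
  | empty => exact rootMultiplicity_eq_zero (by simp)
  | insert Q s hQ ih =>
    rw [Finset.prod_insert hQ, Finset.sum_insert hQ, rootMultiplicity_mul
      (((monic_X_sub_C _).pow _).mul
        (monic_prod_of_monic _ _ fun _ _ => (monic_X_sub_C _).pow _)).ne_zero, ih, add_left_inj]
    split_ifs with h
    · rw [← h, rootMultiplicity_X_sub_C_pow]
    · refine rootMultiplicity_eq_zero fun h1 => h ?_
      rw [IsRoot.def, eval_pow, eval_sub, eval_X, eval_C] at h1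
      exact (sub_eq_zero.1 (pow_eq_zero_iff'.1 h1).1).symm

theorem dpol_deg (h0 : 0 ≤ D) {e : ℕ} (he : D.degree = e) : (dpol D).IsMonicOfDegree e := by
  refine ⟨?_, sec_dpol_monic D⟩
  rw [dpol, natDegree_prod_of_monic _ _ fun _ _ => (monic_X_sub_C _).pow _, ← Nat.cast_inj (R := ℤ),
    ← he, Finsupp.degree_apply, Nat.cast_sum]
  refine Finset.sum_congr rfl fun Q _ => ?_
  rw [(monic_X_sub_C _).natDegree_pow, natDegree_X_sub_C, mul_one]
  exact Int.toNat_of_nonneg (h0 Q)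

theorem dpol_mult (h0 : 0 ≤ D) (t : Λ) :
    ((dpol D).rootMultiplicity t : ℤ) = ∑ Q ∈ D.support with Q.1 = t, D Q := by
  rw [dpol, sec_mult_prod, Finset.sum_filter, Nat.cast_sum]
  refine Finset.sum_congr rfl fun Q _ => ?_
  split_ifs
  · exact Int.toNat_of_nonneg (h0 Q)
  · rfl

theorem dpol_root (h0 : 0 ≤ D) {t : Λ} : (dpol D).eval t = 0 ↔ ∃ Q, D Q ≠ 0 ∧ Q.1 = t := by
  rw [dpol, eval_prod, Finset.prod_eq_zero_iff]
  refine exists_congr fun Q => ?_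
  rw [Finsupp.mem_support_iff, eval_pow, eval_sub, eval_X, eval_C, pow_eq_zero_iff', sub_eq_zero]
  refine and_congr_right fun h => ⟨fun e => e.1.symm, fun e => ⟨e.symm, ?_⟩⟩
  have h1 : 0 ≤ D Q := h0 Q
  omega

theorem dpol_over (h0 : 0 ≤ D) (hr : D ∈ RatD L) : Over L (dpol D) := by
  refine over_of_qq (sec_dpol_monic D) (fun σ hσ => ?_) fun t => ?_
  · have e : ∀ Q, D (pm σ Q) = D Q := fun Q => RatD.apply hr ⟨σ, hσ, rfl⟩
    rw [dpol, Polynomial.map_prod]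
    refine Finset.prod_equiv (σ.toEquiv.prodCongr σ.toEquiv) (fun Q => ?_) fun Q _ => ?_
    · rw [Finsupp.mem_support_iff, Finsupp.mem_support_iff, ← e Q]
      rfl
    · rw [Polynomial.map_pow, Polynomial.map_sub, map_X, map_C, ← e Q]
      rfl
  · rw [← Int.natCast_dvd_natCast, dpol_mult h0]
    exact Finset.dvd_sum fun Q hQ => (Finset.mem_filter.1 hQ).2 ▸ hr.2 Q

theorem eq_sec (h0 : 0 ≤ D) {η : Λ[X]} (h : ∀ Q, D Q ≠ 0 → Q.2 = η.eval Q.1) :
    D = sec (dpol D) η := by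
  ext Q
  rw [sec_apply]
  split_ifs with h1
  · rw [dpol_mult h0]
    refine (Finset.sum_eq_single Q (fun Q' hQ hne => ?_) fun hQ => ?_).symm
    · obtain ⟨h2, h3⟩ := Finset.mem_filter.1 hQ
      exact absurd (Prod.ext h3 (by rw [h Q' (Finsupp.mem_support_iff.1 h2), h3, h1])) hne
    · by_contra h2
      exact hQ (Finset.mem_filter.2 ⟨Finsupp.mem_support_iff.2 h2, rfl⟩)
  · by_contra h2
    exact h1 (h Q h2)

theorem sec_rat {u η : Λ[X]} (hu : Over L u) (hη : Over L η) : sec u η ∈ RatD L := by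
  refine mem_ratD (fun σ hσ Q => ?_) fun Q => ?_
  · have e := eq_rootMultiplicity_map (p := u) (f := (σ : Λ →+* Λ)) σ.injective Q.1
    rw [hu.map_eq hσ] at e
    rw [sec_apply, sec_apply, e]
    refine if_congr ?_ rfl rfl
    change σ Q.2 = η.eval (σ Q.1) ↔ _
    rw [← hη.apply_eval hσ, σ.injective.eq_iff]
  · rw [sec_apply]
    split_ifs
    · exact Int.natCast_dvd_natCast.2 (qq_dvd hu _)
    · exact dvd_zero _

/-- The second coordinate is a polynomial over `L` in the first. -/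
theorem exists_snd {χ : L[X][X]} {F : Set (Λ × Λ)} (hE : ∀ Q ∈ F, Et (mp (algebraMap L Λ) χ) Q)
    (hinv : ∀ Q ∈ F, orQ L Q ⊆ F) (hinj : Set.InjOn Prod.fst F) {Q : Λ × Λ} (hQ : Q ∈ F) :
    ∃ g : L[X], ∀ Q' ∈ F, aeval Q'.1 (minpoly L Q.1) = 0 → aeval Q'.1 g = Q'.2 := by
  have key : ∀ (σ : Λ ≃ₐ[K] Λ), Fix L σ → ∀ Q' ∈ F, Q'.1 = σ Q.1 → Q'.2 = σ Q.2 :=
    fun σ hσ Q' hQ' e => congrArg Prod.snd (hinj hQ' (hinv Q hQ ⟨σ, hσ, rfl⟩) e)
  have hm : ∀ x, x ∈ L⟮Q.1⟯.restrictScalars K ↔ ∃ g : L[X], aeval Q.1 g = x := fun x => by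
    rw [IntermediateField.mem_restrictScalars, ← IntermediateField.mem_toSubalgebra,
      IntermediateField.adjoin_simple_toSubalgebra_of_isAlgebraic (ins_int L _).isAlgebraic,
      Algebra.adjoin_singleton_eq_range_aeval]
    rfl
  obtain ⟨g, hg⟩ := (hm Q.2).1 (mem_of_sep (g := χ.map (eval₂RingHom (algebraMap L Λ) Q.1))
    (fun n => (hm _).2 ⟨_, (coeff_map _ n).symm⟩)
    ((eval_map _ _).trans ((ee_mp _ Q χ).symm.trans (hE Q hQ).1))
    (by
      rw [derivative_map, eval_map]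
      exact fun h => (hE Q hQ).2 (by rw [← mp_derivative, ee_mp]; exact h))
    fun σ hσ => (key σ (fun x hx => hσ x ((hm x).2 ⟨C ⟨x, hx⟩, aeval_C _ _⟩)) Q hQ
      (hσ _ ((hm _).2 ⟨X, aeval_X _⟩)).symm).symm)
  refine ⟨g, fun Q' hQ' h => ?_⟩
  obtain ⟨σ, hσ, e⟩ := exists_fix_root h
  rw [key σ hσ Q' hQ' e, e, ← hg, ← eval_map_algebraMap, ← eval_map_algebraMap,
    (over_map g).apply_eval hσ]

theorem sec_irr {p : L[X]} (hp : Irreducible p) : ∃ z : Λ, aeval z p = 0 ∧ p ∣ minpoly L z := by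
  obtain ⟨z, hz⟩ := IsAlgClosed.exists_aeval_eq_zero Λ p (degree_pos_of_irreducible hp).ne'
  exact ⟨z, hz, (minpoly.irreducible (ins_int L z)).dvd_symm hp (minpoly.dvd L z hz)⟩

theorem sec_pow {b : L[X]} (u : L[X]) :
    u ≠ 0 → (∀ z : Λ, aeval z u = 0 → aeval z b = 0) → ∃ n, u ∣ b ^ n := by
  refine WfDvdMonoid.induction_on_irreducible u (fun h => absurd rfl h)
    (fun u hu _ _ => ⟨0, hu.dvd⟩) fun a p ha hp ih _ h => ?_
  obtain ⟨n, hn⟩ := ih ha fun z hz => h z (by rw [map_mul, hz, mul_zero])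
  obtain ⟨z, hz, hd⟩ := sec_irr (Λ := Λ) hp
  exact ⟨n + 1, pow_succ' b n ▸
    mul_dvd_mul (hd.trans (minpoly.dvd L z (h z (by rw [map_mul, hz, zero_mul])))) hn⟩

theorem sec_crt {χ : L[X][X]} {F : Set (Λ × Λ)} (hE : ∀ Q ∈ F, Et (mp (algebraMap L Λ) χ) Q)
    (hinv : ∀ Q ∈ F, orQ L Q ⊆ F) (hinj : Set.InjOn Prod.fst F) (u : L[X]) :
    u ≠ 0 → (∀ z : Λ, aeval z u = 0 → z ∈ Prod.fst '' F) →
      ∃ η : L[X], ∀ Q ∈ F, aeval Q.1 u = 0 → aeval Q.1 η = Q.2 := by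
  refine WfDvdMonoid.induction_on_irreducible u (fun h => absurd rfl h)
    (fun u hu _ _ => ⟨0, fun Q _ h => absurd h (hu.map _).ne_zero⟩) fun a p ha hp ih _ h => ?_
  obtain ⟨η, hη⟩ := ih ha fun z hz => h z (by rw [map_mul, hz, mul_zero])
  rcases hp.isCoprime_or_dvd a with ⟨b, c, e⟩ | hd
  · obtain ⟨z, hz, hd⟩ := sec_irr (Λ := Λ) hp
    obtain ⟨Q₀, h₀, rfl⟩ := h z (by rw [map_mul, hz, zero_mul])
    obtain ⟨g, hg⟩ := exists_snd hE hinv hinj h₀
    refine ⟨η * (b * p) + g * (c * a), fun Q hQ h1 => ?_⟩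
    have e1 := congrArg (aeval Q.1) e
    simp only [map_add, map_mul, map_one, mul_eq_zero] at e1 h1 ⊢
    rcases h1 with h1 | h1
    · rw [hg Q hQ (aeval_eq_zero_of_dvd_aeval_eq_zero hd h1)]
      linear_combination Q.2 * e1 + (aeval Q.1 η - Q.2) * aeval Q.1 b * h1
    · rw [hη Q hQ h1]
      linear_combination Q.2 * e1 + (aeval Q.1 g - Q.2) * aeval Q.1 c * h1
  · refine ⟨η, fun Q hQ h1 => hη Q hQ ?_⟩
    rw [map_mul, mul_eq_zero] at h1
    exact h1.elim (aeval_eq_zero_of_dvd_aeval_eq_zero hd) id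

/-- interpolation, Newton steps and reduction modulo `u` -/
theorem exists_sec {χ : L[X][X]} {F : Set (Λ × Λ)} (hE : ∀ Q ∈ F, Et (mp (algebraMap L Λ) χ) Q)
    (hinv : ∀ Q ∈ F, orQ L Q ⊆ F) (hinj : Set.InjOn Prod.fst F) {u : L[X]} (hu : u.Monic)
    (hr : ∀ z : Λ, aeval z u = 0 → z ∈ Prod.fst '' F) :
    ∃ η : L[X], η.degree < u.natDegree ∧ u ∣ χ.eval η ∧
      ∀ Q ∈ F, aeval Q.1 u = 0 → aeval Q.1 η = Q.2 := by
  obtain ⟨η₀, h₀⟩ := sec_crt hE hinv hinj u hu.ne_zero hr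
  have hev : ∀ z : Λ, aeval z u = 0 → aeval z (χ.eval η₀) = 0 ∧
      aeval z ((derivative χ).eval η₀) ≠ 0 := fun z hz => by
    obtain ⟨Q, hQ, rfl⟩ := hr z hz
    have e : ∀ G : L[X][X], aeval Q.1 (G.eval η₀) = ee Q (mp (algebraMap L Λ) G) := fun G => by
      rw [ee_mp, ← h₀ Q hQ hz]
      exact (eval₂_at_apply (eval₂RingHom (algebraMap L Λ) Q.1) η₀).symm
    rw [e, e, mp_derivative]
    exact hE Q hQ
  obtain ⟨n, hn⟩ := UniqueFactorizationMonoid.exists_dvd_radical_self_pow hu.ne_zero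
  obtain ⟨η₁, h1, h2⟩ := newton_steps
    ((UniqueFactorizationMonoid.exists_dvd_pow_iff_radical_dvd hu.ne_zero).1
      (sec_pow u hu.ne_zero fun z hz => (hev z hz).1))
    (((isCoprime_iff_aeval_ne_zero_of_isAlgClosed L Λ _ u).2 fun z => or_iff_not_imp_right.2
      fun hz => (hev z (not_not.1 hz)).2).of_isCoprime_of_dvd_right
        UniqueFactorizationMonoid.radical_dvd_self) n
  have hd : u ∣ η₁ %ₘ u - η₁ := by
    rw [modByMonic_eq_sub_mul_div]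
    exact ⟨-(η₁ /ₘ u), by ring⟩
  refine ⟨η₁ %ₘ u, ?_, ?_, fun Q hQ hz => ?_⟩
  · rw [← degree_eq_natDegree hu.ne_zero]
    exact degree_modByMonic_lt η₁ hu
  · have := (hd.trans (sub_dvd_eval_sub _ _ χ)).add
      ((hn.trans (pow_dvd_pow _ n.le_succ)).trans h2)
    rwa [sub_add_cancel] at this
  · have a1 := aeval_eq_zero_of_dvd_aeval_eq_zero hd hz
    have a2 := aeval_eq_zero_of_dvd_aeval_eq_zero (hn.trans (pow_dvd_pow_of_dvd h1 n)) hz
    rw [map_pow] at a2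
    have a3 := eq_zero_of_pow_eq_zero a2
    rw [map_sub, sub_eq_zero] at a1 a3
    rw [a1, a3, h₀ Q hQ hz]

end Pool.Agent.ZFy.U
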