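import Pool.Agent.Lib.MP_751085_ag.ZF.U.SyC
import Pool.Agent.Lib.MP_751085_ag.ZC.UNs
import Pool.Agent.Lib.MP_751085_ag.ZC.UDual

/-! The linearised system. -/

namespace Pool.Agent.ZFy.U

open Polynomial Pool.Agent.ZeroCyc Pool.Agent.ZCy.U TrivSqZeroExt
open scoped Classical DualNumber

set_option linter.unusedSectionVars false

variable {I Λ : Type} [Fintype I] [Field Λ] [IsAlgClosed Λ] {M e : ℕ}

/-- the base point of the system -/
structure Base (c : Cv Λ) (M e : ℕ) (μ : Λ[X]) (t : I → Λ) (η : Λ[X]) : Prop where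
  mon : μ.IsMonicOfDegree e
  pos : 0 < c.δ
  cop : IsCoprime (uu M μ t) c.ρ
  dvd : uu M μ t ∣ c.χ.eval η
  inj : Function.Injective t
  ns : NS c (∑ i, Finsupp.single (t i, η.eval (t i)) 1)

/-- the derivative at the section is coprime to `u` -/
theorem lin_eta {c : Cv Λ} {u η s : Λ[X]} (hu : u.Monic) (hc : IsCoprime u c.ρ)
    (h : u ∣ c.χ.eval η) (he : u ∣ (derivative c.χ).eval η * s) (hd : s.degree < u.natDegree) :
    s = 0 := by
  have h0 := congrArg (fun p => p.eval η) c.rho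
  simp only [eval_C, eval_add, eval_mul] at h0
  have h1 : u ∣ c.ρ * s := by
    have : c.ρ * s = c.α.eval η * s * c.χ.eval η +
        c.β.eval η * ((derivative c.χ).eval η * s) := by
      rw [h0]
      ring
    rw [this]
    exact dvd_add (h.mul_left _) (he.mul_left _)
  refine eq_zero_of_dvd_of_degree_lt (hc.dvd_of_dvd_mul_left h1) ?_
  rwa [degree_eq_natDegree hu.ne_zero]

theorem syl_uu (hM : 0 < M) (μ : Λ[X]) (t : I → Λ) :
    uu M μ t = uu (M - 1) μ t * ∏ i, (X - C (t i)) := by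
  obtain ⟨k, rfl⟩ : ∃ k, M = k + 1 := ⟨M - 1, by omega⟩
  unfold uu
  rw [Nat.add_sub_cancel, mul_assoc, ← Finset.prod_mul_distrib]
  simp only [pow_succ]

theorem syl_sec (hM : 0 < M) {μ : Λ[X]} (hμ : μ ≠ 0) (t : I → Λ) (η : Λ[X]) :
    sec (uu M μ t) η =
      sec (uu (M - 1) μ t) η + ∑ i, Finsupp.single (t i, η.eval (t i)) 1 := by
  obtain ⟨k, rfl⟩ : ∃ k, M = k + 1 := ⟨M - 1, by omega⟩
  rw [sec_uu hμ, sec_uu hμ, Nat.add_sub_cancel, succ_nsmul, add_assoc]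

theorem syl_eval (hM : (M : Λ) ≠ 0) {t s : I → Λ} (hi : Function.Injective t)
    (h : ∏ i, (X - C (t i)) ∣
      C (M : Λ) * ∑ i, C (s i) * ∏ j ∈ Finset.univ.erase i, (X - C (t j))) : s = 0 := by
  funext i
  obtain ⟨q, hq⟩ := h
  have h1 := congrArg (fun p => p.eval (t i)) hq
  simp only [eval_mul, eval_C, eval_finsetSum, eval_prod, eval_sub, eval_X] at h1
  rw [Finset.prod_eq_zero (Finset.mem_univ i) (sub_self _), zero_mul,
    Finset.sum_eq_single i] at h1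
  · have h3 : ∏ j ∈ Finset.univ.erase i, (t i - t j) ≠ 0 :=
      Finset.prod_ne_zero_iff.2 fun j hj e =>
        (Finset.mem_erase.1 hj).1 (hi (sub_eq_zero.1 e)).symm
    exact ((mul_eq_zero.1 ((mul_eq_zero.1 h1).resolve_left hM)).resolve_right h3)
  · intro j _ hj
    rw [Finset.prod_eq_zero (Finset.mem_erase.2 ⟨hj.symm, Finset.mem_univ i⟩) (sub_self _),
      mul_zero]
  · exact fun e => absurd (Finset.mem_univ i) e

/-- the linearised system has only the zero solution -/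
theorem lin_main (hM : (M : Λ) ≠ 0) {c : Cv Λ} {μ : Λ[X]} {t : I → Λ} {η : Λ[X]}
    (hb : Base c M e μ t η) {β : Λ[X]} {s : I → Λ} (hβ : β.degree < (M * Fintype.card I + e : ℕ))
    (hw : WL c.b c.w (M * Fintype.card I + e) (cmod (uu M μ t) (kap c.χ η * C β)))
    (h : uu M μ t ∣ c.ρ * (cmod (uu M μ t) (kap c.χ η * C β)).eval η +
      C (M : Λ) * uu (M - 1) μ t * ∑ i, C (s i) * ∏ j ∈ Finset.univ.erase i, (X - C (t j))) :
    β = 0 ∧ s = 0 := by
  have hM0 : 0 < M := Nat.pos_of_ne_zero fun h0 => hM (by rw [h0, Nat.cast_zero])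
  have hδ := hb.pos
  have huu := syl_uu hM0 μ t
  have hdv : uu (M - 1) μ t ∣ uu M μ t := ⟨_, huu⟩
  have hc' : IsCoprime (uu (M - 1) μ t) c.ρ := hb.cop.of_isCoprime_of_dvd_left hdv
  have hm := uu_monic hb.mon.monic M t
  have hm' := uu_monic hb.mon.monic (M - 1) t
  obtain ⟨hk, -⟩ := kap_monic c.wt.monic (c.wt.deg.symm ▸ hδ) η
  obtain ⟨z0, -, z2⟩ := vanZ_cmod hm hb.cop hb.dvd (C β)
  have hdeg := cmod_kap_degree c (uu M μ t) η β
  set a := cmod (uu M μ t) (kap c.χ η * C β) with ha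
  have h1 : uu (M - 1) μ t ∣ a.eval η := by
    refine hc'.dvd_of_dvd_mul_left ?_
    have h2 := hdv.trans h
    exact (dvd_add_left ((dvd_mul_left _ _).mul_right _)).1 h2
  have y2 := vanZ_sec hm'.ne_zero hc' (hdv.trans hb.dvd) h1
  have hdis : ∀ Q, sec (uu (M - 1) μ t) η Q = 0 ∨
      (dv c.χ (C (uu M μ t)) - sec (uu M μ t) η) Q = 0 := fun Q => by
    by_cases e : sec (uu (M - 1) μ t) η Q = 0
    · exact Or.inl e
    · right
      rw [Finsupp.sub_apply, dv_C c.wt hm, if_pos (y2 Q e).1, sec_apply,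
        if_pos ((sec_ne_zero hm'.ne_zero).1 e).2, sub_self]
  have hsum : sec (uu (M - 1) μ t) η + (dv c.χ (C (uu M μ t)) - sec (uu M μ t) η) =
      dv c.χ (C (uu M μ t)) - ∑ i, Finsupp.single (t i, η.eval (t i)) 1 := by
    rw [syl_sec hM0 hb.mon.monic.ne_zero]
    abel
  have hv := y2.add z2 hdis
  rw [hsum] at hv
  have hle : ∑ i, Finsupp.single (t i, η.eval (t i)) (1 : ℤ) ≤ dv c.χ (C (uu M μ t)) := by
    rw [← sub_nonneg, ← hsum]
    exact add_nonneg (sec_nonneg _ _) z0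
  have ha0 : a = 0 := by
    have hbot := hb.ns _ hm hb.cop hle
    rw [← Submodule.mem_bot Λ, ← hbot]
    exact ⟨⟨hdeg, by rw [uu_natDegree hb.mon]; exact hw⟩, fun Q hQ => (hv Q hQ).2⟩
  have hβ0 : β = 0 := by
    have h2 := congrArg (fun p => p.coeff (kap c.χ η).natDegree) ha0
    simp only [ha, cmod_coeff, coeff_mul_C, coeff_zero] at h2
    rw [hk.coeff_natDegree, one_mul, (modByMonic_eq_self_iff hm).2] at h2
    · exact h2
    · rwa [degree_eq_natDegree hm.ne_zero, uu_natDegree hb.mon]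
  refine ⟨hβ0, syl_eval hM hb.inj ?_⟩
  rw [ha0, eval_zero, mul_zero, zero_add, huu, mul_comm (C (M : Λ)), mul_assoc] at h
  exact (mul_dvd_mul_iff_left hm'.ne_zero).1 h

/-- first order expansion of `uu` -/
theorem dual_uu {R : Type} [CommRing R] (hM : 0 < M) (μ : R[X]) (t s : I → R) :
    uu M (μ.map (il R)) (fun i => inl (t i) + inr (s i)) = (uu M μ t).map (il R) + C ε *
      (-(C (M : R) * uu (M - 1) μ t *
        ∑ i, C (s i) * ∏ j ∈ Finset.univ.erase i, (X - C (t j)))).map (il R) := by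
  have h1 : ∀ i, (X - C (inl (t i) + inr (s i)) : R[ε][X]) =
      (X - C (t i)).map (il R) - C ε * (C (s i)).map (il R) := fun i => by
    rw [← dual_eps, Polynomial.map_sub, map_X, map_C, map_C, C_add, C_mul]
    have : il R (t i) = inl (t i) := rfl
    rw [this]
    ring
  obtain ⟨m, rfl⟩ : ∃ m, M = m + 1 := ⟨M - 1, by omega⟩
  simp only [uu, Finset.prod_pow, h1]
  rw [dual_prod (S := R[ε][X]) dual_sq, dual_pow (S := R[ε][X]) dual_sq]
  simp only [Nat.add_sub_cancel, Polynomial.map_mul, Polynomial.map_neg, Polynomial.map_pow,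
    Polynomial.map_prod, Polynomial.map_sum, map_natCast, Polynomial.map_natCast]
  push_cast
  ring

theorem syl_cmod {S : Type} [CommRing S] (u : S[X]) (r : S) (G : S[X][X]) :
    cmod u (C (C r) * G) = C (C r) * cmod u G := by
  refine Polynomial.ext fun i => ?_
  rw [cmod_coeff, coeff_C_mul, coeff_C_mul, cmod_coeff, C_mul', C_mul', smul_modByMonic]

theorem syl_eta {c : Cv Λ} {μ : Λ[X]} {t : I → Λ} {η s : Λ[X]} (hb : Base c M e μ t η)
    (hd : s.degree < (M * Fintype.card I + e : ℕ))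
    (h : (uu M μ t).map (il Λ) ∣
      (mp (il Λ) c.χ).eval (η.map (il Λ) + C ε * s.map (il Λ))) : s = 0 := by
  have h0 : (uu M μ t).map (il Λ) =
      (uu M μ t).map (il Λ) + C ε * (0 : Λ[X]).map (il Λ) := by simp
  rw [dual_eval, h0] at h
  obtain ⟨q₀, q₁, -, h2⟩ := dual_dvd h
  refine lin_eta (uu_monic hb.mon.monic M t) hb.cop hb.dvd ⟨q₁, ?_⟩
    (by rwa [uu_natDegree hb.mon])
  rw [h2]
  ring

/-- the system over dual numbers -/
theorem sysl (hM : (M : Λ) ≠ 0) {c : Cv Λ} {μ : Λ[X]} {t : I → Λ} {η : Λ[X]}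
    (hb : Base c M e μ t η) {d : Sd I Λ[ε]} (he : d.Eqs (c.map (il Λ)) M e)
    (ht : ∀ i, d.t i = inl (t i)) (ht' : ∀ i, (d.t' i).fst = t i) (h₁ : d.μ₁ = μ.map (il Λ))
    (h₂ : d.μ₂ = μ.map (il Λ)) (hη₁ : d.η₁.map (fs Λ) = η) (hη₂ : d.η₂.map (fs Λ) = η)
    (hβ : d.β.map (fs Λ) = 0)
    (hd : ∀ j, M * Fintype.card I + e ≤ j → d.η₁.coeff j = 0 ∧ d.η₂.coeff j = 0 ∧ d.β.coeff j = 0) :
    (∀ i, (d.t' i).snd = 0) ∧
      ∀ j, (d.η₁.coeff j).snd = 0 ∧ (d.η₂.coeff j).snd = 0 ∧ (d.β.coeff j).snd = 0 := by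
  have hM0 : 0 < M := Nat.pos_of_ne_zero fun h0 => hM (by rw [h0, Nat.cast_zero])
  have hm := uu_monic hb.mon.monic M t
  obtain ⟨e₁, c₁, s₁⟩ := dual_split d.η₁
  obtain ⟨e₂, c₂, s₂⟩ := dual_split d.η₂
  obtain ⟨β₁, c₃, s₃⟩ := dual_split d.β
  rw [hη₁] at s₁
  rw [hη₂] at s₂
  rw [hβ, Polynomial.map_zero, zero_add] at s₃
  have d₁ : e₁.degree < (M * Fintype.card I + e : ℕ) :=
    (degree_lt_iff_coeff_zero _ _).2 fun j hj => by rw [c₁, (hd j hj).1, snd_zero]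
  have d₂ : e₂.degree < (M * Fintype.card I + e : ℕ) :=
    (degree_lt_iff_coeff_zero _ _).2 fun j hj => by rw [c₂, (hd j hj).2.1, snd_zero]
  have d₃ : β₁.degree < (M * Fintype.card I + e : ℕ) :=
    (degree_lt_iff_coeff_zero _ _).2 fun j hj => by rw [c₃, (hd j hj).2.2, snd_zero]
  have hχ : (c.map (il Λ)).χ = mp (il Λ) c.χ := rfl
  have hρ : (c.map (il Λ)).ρ = c.ρ.map (il Λ) := rfl
  have hu₁ : d.u₁ M = (uu M μ t).map (il Λ) := by
    rw [uu_map, Sd.u₁, h₁, show d.t = fun i => il Λ (t i) from funext ht]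
  obtain ⟨s, hs⟩ : ∃ s : I → Λ, ∀ i, s i = (d.t' i).snd := ⟨_, fun _ => rfl⟩
  have hu₂ : d.u₂ M = uu M (μ.map (il Λ)) fun i => inl (t i) + inr (s i) := by
    rw [Sd.u₂, h₂, show d.t' = fun i => inl (t i) + inr (s i) from funext fun i => by
      rw [hs, ← ht', inl_fst_add_inr_snd_eq]]
  rw [dual_uu hM0] at hu₂
  have E₁ := he.e₁
  rw [hu₁, hχ, s₁] at E₁
  have z₁ := syl_eta hb d₁ E₁
  rw [z₁, Polynomial.map_zero, mul_zero, add_zero] at s₁
  obtain ⟨a, ha⟩ : ∃ a, a = cmod (uu M μ t) (kap c.χ η * C β₁) := ⟨_, rfl⟩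
  have hda : d.a (c.map (il Λ)) M = C (C ε) * mp (il Λ) a := by
    rw [Sd.a, hu₁, hχ, s₁, s₃, ha, cmod_map _ hm, ← syl_cmod, map_mul (mp (il Λ)),
      kap_map, mp_C, map_mul, mul_left_comm]
  have hw : WL c.b c.w (M * Fintype.card I + e) a := fun i j h => he.wl i j fun h0 => h (by
    rw [hda, coeff_C_mul, coeff_C_mul, coe_mapRingHom, coeff_map, coe_mapRingHom, coeff_map] at h0
    simpa using congrArg snd h0)
  have E₃ := he.e₃
  have hG : ((c.map (il Λ)).G (d.u₁ M) (d.a (c.map (il Λ)) M)).eval d.η₂ =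
      (uu M μ t).map (il Λ) + C ε * (c.ρ * a.eval η).map (il Λ) := by
    have hε : (C ε * C ε : Λ[ε][X]) = 0 := by rw [← map_mul, DualNumber.eps_mul_eps, map_zero]
    rw [Cv.G, hda, hu₁, hρ, s₂, eval_add, eval_mul, eval_mul, eval_C, eval_C, eval_C, dual_eval,
      Polynomial.map_mul (p := c.ρ)]
    linear_combination (c.ρ.map (il Λ) * ((derivative a).eval η * e₂).map (il Λ)) * hε
  rw [hG, hu₂] at E₃
  obtain ⟨q₀, q₁, h0, h1⟩ := dual_dvd E₃
  have hq : q₀ = 1 := mul_right_cancel₀ hm.ne_zero (by rw [← h0, one_mul])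
  subst ha
  obtain ⟨z₃, zs⟩ := lin_main (s := s) hM hb d₃ hw ⟨q₁, by rw [h1, hq]; ring⟩
  have E₂ := he.e₂
  simp only [zs, Pi.zero_apply, map_zero, zero_mul, Finset.sum_const_zero, mul_zero, neg_zero,
    Polynomial.map_zero, add_zero] at hu₂
  rw [hu₂, hχ, s₂] at E₂
  have z₂ := syl_eta hb d₂ E₂
  refine ⟨fun i => by rw [← hs, zs, Pi.zero_apply], fun j => ?_⟩
  rw [← c₁, ← c₂, ← c₃, z₁, z₂, z₃]
  exact ⟨rfl, rfl, rfl⟩

end Pool.Agent.ZFy.U
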