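import Pool.Agent.Lib.MP_751085_ag.ZF.U.Cyc
import Pool.Agent.Lib.MP_751085_ag.ZF.E.N2

/-! Reciprocity on curves over a finite extension of the base field. -/

namespace Pool.Agent.ZCy.F.Uw

open Pool.Agent.ZFN Module
open scoped Classical IntermediateField

set_option linter.unusedSectionVars false

variable {k : Type} [Field k] {X : Var k} {K L E : Type} [Field K] [Algebra k K] [Field L]
  [Field E] [Algebra K L] [FiniteDimensional K L] [Algebra L E] [Algebra K E]
  [IsScalarTower K L E] {a : BR X.F}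

theorem exists_plc (P : ZeroCyc.Place K E (Cb K)) :
    ∃ (P' : ZeroCyc.Place L E (Cb L)) (j : Cb K ≃ₐ[K] Cb L), P'.v = P.v ∧
      ∀ f c, P'.Val f (j c) ↔ P.Val f c := by
  have hm : ∀ c : L, algebraMap L E c ∈ P.v.integer := fun c =>
    ZeroCyc.Place.mem_of_isIntegral (Algebra.IsIntegral.isIntegral (R := K) c).algebraMap
  let τ : L →+* Cb K := P.ev.comp ((algebraMap L E).codRestrict P.v.integer hm)
  have hτ : ∀ c : K, τ (algebraMap K L c) = algebraMap K _ c := fun c =>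
    ZeroCyc.Place.Val.unique (P := P) ⟨hm _, rfl⟩ (by
      rw [← IsScalarTower.algebraMap_apply]
      exact P.val_alg c)
  let _ := τ.toAlgebra
  have : IsScalarTower K L (Cb K) := IsScalarTower.of_algebraMap_eq fun c => (hτ c).symm
  have : IsAlgClosure L (Cb K) := ⟨inferInstance, Algebra.IsAlgebraic.tower_top (K := K) L⟩
  let e := IsAlgClosure.equiv L (Cb K) (Cb L)
  exact ⟨⟨P.v, P.surj, (e : Cb K →+* Cb L).comp P.ev, fun c => ⟨hm c, e.commutes c⟩⟩,
    e.restrictScalars K, rfl, fun f c => exists_congr fun h => e.injective.eq_iff⟩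

theorem exists_plc' (P' : ZeroCyc.Place L E (Cb L)) :
    ∃ P : ZeroCyc.Place K E (Cb K), P.v = P'.v := by
  have : IsAlgClosure K (Cb L) := ⟨inferInstance, Algebra.IsAlgebraic.trans K L (Cb L)⟩
  let e := IsAlgClosure.equiv K (Cb L) (Cb K)
  refine ⟨⟨P'.v, P'.surj, (e : Cb L →+* Cb K).comp P'.ev, fun c => ?_⟩, rfl⟩
  have h := P'.val_alg (algebraMap K L c)
  rw [← IsScalarTower.algebraMap_apply, ← IsScalarTower.algebraMap_apply] at h
  obtain ⟨h, h'⟩ := h
  exact ⟨h, (congrArg e h').trans (e.commutes c)⟩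

theorem mem_plF (P : ZeroCyc.Place K E (Cb K)) (y : Cb K) : y ∈ plF P ↔ ∃ f, P.Val f y := by
  refine ⟨fun h => ?_, fun ⟨f, h, e⟩ => IntermediateField.subset_adjoin _ _ ⟨_, e⟩⟩
  induction h using IntermediateField.adjoin_induction with
  | mem x hx =>
    obtain ⟨f, rfl⟩ := hx
    exact ⟨f, f.2, rfl⟩
  | algebraMap c => exact ⟨_, P.val_alg c⟩
  | add x y _ _ hx hy => exact ⟨_, hx.choose_spec.add hy.choose_spec⟩
  | inv x _ hx =>
    by_cases h : x = 0
    · rwa [h, inv_zero, ← h]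
    · exact ⟨_, hx.choose_spec.inv h⟩
  | mul x y _ _ hx hy => exact ⟨_, hx.choose_spec.mul hy.choose_spec⟩

theorem plF_equiv {P : ZeroCyc.Place K E (Cb K)} {P' : ZeroCyc.Place L E (Cb L)}
    {j : Cb K ≃ₐ[K] Cb L} (h : ∀ f c, P'.Val f (j c) ↔ P.Val f c) :
    ∃ φ : plF P ≃ₐ[K] plF P', ∀ y, (φ y : Cb L) = j y := by
  have hm : ∀ y, j y ∈ plF P' ↔ y ∈ plF P := fun y => by
    rw [mem_plF, mem_plF]
    exact exists_congr fun f => h f y
  exact ⟨{
    toFun := fun y => ⟨j y, (hm _).2 y.2⟩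
    invFun := fun y => ⟨j.symm y, (hm _).1 (by rw [j.apply_symm_apply]; exact y.2)⟩
    left_inv := fun y => Subtype.ext (j.symm_apply_apply y)
    right_inv := fun y => Subtype.ext (j.apply_symm_apply y)
    map_mul' := fun x y => Subtype.ext (map_mul j x.1 y.1)
    map_add' := fun x y => Subtype.ext (map_add j x.1 y.1)
    commutes' := fun c => Subtype.ext (j.commutes c) }, fun _ => rfl⟩

section

variable [Algebra k L] [IsScalarTower k K L]

theorem ptv_rel (A : EvApi X) (ha : a ∈ X.Bw) {M : IntermediateField K (Cb K)}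
    {M' : IntermediateField L (Cb L)} [FiniteDimensional K M] (φ : M ≃ₐ[K] M')
    {x : Fin (X.N + 1) → Cb K} {x' : Fin (X.N + 1) → Cb L} (hx : ∀ i, x i ∈ M) (h : X.On x)
    (hx' : ∀ i, x' i = φ ⟨x i, hx i⟩) : corN K L (X.ptv a M' x') = X.ptv a M x := by
  have : FiniteDimensional K M' := φ.toLinearEquiv.finiteDimensional
  have : FiniteDimensional L M' := Module.Finite.right K L M'
  have : IsScalarTower k K M' := IsScalarTower.of_algebraMap_eq fun c => Subtype.ext
    (IsScalarTower.algebraMap_apply k K (Cb L) c)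
  obtain ⟨v, rfl⟩ : ∃ v : Fin (X.N + 1) → M, x = fun i => (v i : Cb K) :=
    ⟨fun i => ⟨x i, hx i⟩, rfl⟩
  obtain rfl : x' = fun i => (((φ.restrictScalars k : M →ₐ[k] M') ∘ v) i : Cb L) := funext hx'
  rw [ptv_up, ptv_up, A.val_map a ha M M' _ v (on_up.1 h), corN_trans]
  exact corN_equiv φ _

end

theorem wr_rel (hW : WR) (A : EvApi X) (ha : a ∈ X.Bw) [Algebra k E] [IsScalarTower k K E] {t : E}
    (ht : Transcendental L t) [FiniteDimensional L⟮t⟯ E] [Algebra.IsSeparable L⟮t⟯ E]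
    {g : Fin (X.N + 1) → E} {f : E} {s : Finset (ZeroCyc.Place K E (Cb K))}
    {x : ZeroCyc.Place K E (Cb K) → Fin (X.N + 1) → Cb K} (hg : X.On g) (hf : f ≠ 0)
    (hi : ∀ P ∈ s, ∀ P' ∈ s, P.v = P'.v → P = P')
    (hall : ∀ P' : ZeroCyc.Place K E (Cb K), P'.ord f ≠ 0 → ∃ P ∈ s, P'.v = P.v)
    (hfin : ∀ P ∈ s, FiniteDimensional K (plF P))
    (hx : ∀ P ∈ s, X.On (x P) ∧ ∃ c, ∀ i, P.Val (c * g i) (x P i)) :
    ∑ P ∈ s, P.ord f • X.ptv a (plF P) (x P) = 0 := by
  let _ : Algebra k L := ((algebraMap K L).comp (algebraMap k K)).toAlgebra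
  have : IsScalarTower k K L := IsScalarTower.of_algebraMap_eq fun _ => rfl
  have : IsScalarTower k L E := IsScalarTower.of_algebraMap_eq fun c =>
    (IsScalarTower.algebraMap_apply k K E c).trans (IsScalarTower.algebraMap_apply K L E _)
  choose T j h1 h2 using fun P : ZeroCyc.Place K E (Cb K) => exists_plc (L := L) P
  have hT : Set.InjOn T s := fun P hP P' hP' e =>
    hi P hP P' hP' ((h1 P).symm.trans ((congrArg (·.v) e).trans (h1 P')))
  rcases s.eq_empty_or_nonempty with rfl | ⟨P₁, -⟩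
  · exact Finset.sum_empty
  have : Nonempty (ZeroCyc.Place K E (Cb K)) := ⟨P₁⟩
  have hI : ∀ P ∈ s, Function.invFunOn T s (T P) = P := fun P hP => hT.leftInvOn_invFunOn hP
  have H := hW k X A a ha L E t ht inferInstance inferInstance g f (s.image T)
    (fun Q => j (Function.invFunOn T s Q) ∘ x (Function.invFunOn T s Q)) hg hf
    (by
      intro Q hQ Q' hQ' e
      obtain ⟨P, hP, rfl⟩ := Finset.mem_image.1 hQ
      obtain ⟨P', hP', rfl⟩ := Finset.mem_image.1 hQ'
      rw [hi P hP P' hP' ((h1 P).symm.trans (e.trans (h1 P')))])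
    (fun Q hQ => by
      obtain ⟨P₀, e⟩ := exists_plc' (K := K) Q
      obtain ⟨P, hP, e'⟩ := hall P₀ (by rwa [ZeroCyc.Place.ord, e])
      exact ⟨T P, Finset.mem_image_of_mem T hP, e.symm.trans (e'.trans (h1 P).symm)⟩)
    (fun Q hQ => by
      obtain ⟨P, hP, rfl⟩ := Finset.mem_image.1 hQ
      obtain ⟨h3, c, hc⟩ := hx P hP
      rw [hI P hP]
      refine ⟨fun e => h3.1 (funext fun i => ?_), c, fun i => (h2 P _ _).2 (hc i)⟩
      exact (_root_.map_eq_zero (j P)).1 (congrFun e i))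
  rw [Finset.sum_image hT] at H
  rw [← map_zero (corN K L), ← H, map_sum]
  refine Finset.sum_congr rfl fun P hP => ?_
  obtain ⟨h3, c, hc⟩ := hx P hP
  obtain ⟨φ, hφ⟩ := plF_equiv (h2 P)
  have := hfin P hP
  rw [hI P hP, h1 P]
  exact ((map_zsmul (corN K L) _ _).trans (congrArg _ (ptv_rel A ha φ
    (fun i => (mem_plF P _).2 ⟨_, hc i⟩) h3 fun i => (hφ _).symm))).symm

end Pool.Agent.ZCy.F.Uw
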