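import Pool.Agent.Lib.MP_751085_ag.ZF.U.Mr
import Pool.Agent.Lib.MP_796ce4_ag.ZY.CvP

/-! Classes of divisors on curves in the variety. -/

namespace Pool.Agent.ZFy.U

open Polynomial Module Pool.Agent.ZeroCyc
open scoped Classical IntermediateField

set_option linter.unusedSectionVars false

variable {K Λ : Type} [Field K] [Field Λ] [IsAlgClosed Λ] [Algebra K Λ] [Normal K Λ]
  {N : ℕ} {J : Ideal (MvPolynomial (Fin (N + 1)) K)} {L L' L₀ : IntermediateField K Λ}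

namespace XC

variable {𝒳 : XC Λ J}

theorem xc_wl {R S : Type} [CommRing R] [CommRing S] {φ : R →+* S} (hφ : Function.Injective φ)
    {b w m : ℕ} {a : R[X][X]} (h : WL b w m (mp φ a)) : WL b w m a := fun i j e =>
  h i j (by
    rw [coe_mapRingHom, coeff_map, coe_mapRingHom, coeff_map]
    exact (map_ne_zero_iff φ hφ).2 e)

theorem xc_lead {R S : Type} [CommRing R] [CommRing S] {φ : R →+* S} (hφ : Function.Injective φ)
    {b m : ℕ} {a : R[X][X]} (h : Lead b m (mp φ a)) : Lead b m a := by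
  refine xc_wl hφ ?_
  rw [map_sub, mp_C, Polynomial.map_pow, map_X]
  exact h

theorem xc_wt {R S : Type} [CommRing R] [CommRing S] {φ : R →+* S} (hφ : Function.Injective φ)
    {b δ : ℕ} {a : R[X][X]} (h : Wt b δ (mp φ a)) : Wt b δ a := by
  have hi : Function.Injective (mapRingHom φ) := map_injective _ hφ
  exact ⟨monic_of_injective hi h.monic,
    (natDegree_map_eq_of_injective hi a).symm.trans h.deg, xc_wl hφ h.wt⟩

theorem xc_ovv_C {u : Λ[X]} (hu : Over L u) : Ovv L (C u) := fun i => by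
  rw [coeff_C]
  split_ifs
  · exact hu
  · exact fun n => by rw [coeff_zero]; exact zero_mem L

theorem Ov.mono (h : 𝒳.Ov L) (hL : L ≤ L') : 𝒳.Ov L' :=
  ⟨h.χ.mono hL, h.ρ.mono hL, fun i => (h.q i).mono hL⟩

theorem Ov.inv (h : 𝒳.Ov L) {σ : Λ ≃ₐ[K] Λ} (hσ : Fix L σ) : 𝒳.c.Inv (σ : Λ →+* Λ) :=
  ⟨h.χ.map_eq hσ, h.ρ.map_eq hσ⟩

theorem Ov.ptL (h : 𝒳.Ov L) {Q : Λ × Λ} (hQ : 𝒳.c.Gp Q) (h₁ : Q.1 ∈ L) (h₂ : Q.2 ∈ L) :
    PtL J L (𝒳.pv Q) := by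
  refine ⟨𝒳.ne Q hQ, fun F hF => ?_, fun i => (h.q i).ee_mem h₁ h₂⟩
  obtain ⟨r, hr⟩ := 𝒳.on F hF
  have e := xc_ee Q 𝒳.q F
  have h0 : ee Q 𝒳.c.χ = 0 := hQ.1
  rw [hr, map_mul, h0, zero_mul] at e
  exact e.symm

theorem Ov.pv_gal (h : 𝒳.Ov L) {σ : Λ ≃ₐ[K] Λ} (hσ : Fix L σ) (Q : Λ × Λ) :
    𝒳.pv (pm σ Q) = σ ∘ 𝒳.pv Q := by
  funext i
  have e := map_ee (σ : Λ →+* Λ) Q (𝒳.q i)
  rw [(h.q i).map_eq hσ] at e
  exact e.symm

theorem cl_single (𝒳 : XC Λ J) (L : IntermediateField K Λ) (Q : Λ × Λ) :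
    𝒳.cl L (Finsupp.single Q 1) = pc J L (𝒳.pv Q) := by
  rw [cl, AddMonoidHom.comp_apply, psh_single, pc]

theorem cl_snd (𝒳 : XC Λ J) (L : IntermediateField K Λ) (D : Λ × Λ →₀ ℤ) :
    (𝒳.cl L D).2 = finrank K L * D.degree := by
  rw [cl, AddMonoidHom.comp_apply, clL_snd, degree_psh]

theorem A_le (h : 𝒳.Ov L₀) : 𝒳.A L₀ ≤ Atot Λ J := by
  refine (AddSubgroup.closure_le _).2 ?_
  rintro _ ⟨L, Q, hL, hf, hQ, h₁, h₂, rfl⟩
  exact pc_mem_atot ((h.mono hL).ptL hQ h₁ h₂)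

/-- `MR` with `R = L`; lift `χ`, `q`, `G` by `Ovv.exists_mp` (weights and leading terms descend
along the injective map); `Wit.lead`, `lead_C`, `Wit.adm`, `adm_C`, `Wit.cvp_rho`, `cop_iff` -/
theorem Ov.rel [FiniteDimensional K L] (h : 𝒳.Ov L) {u : Λ[X]} {a : Λ[X][X]}
    (hw : 𝒳.c.Wit u a) (hu : Over L u) (ha : Ovv L a) :
    𝒳.cl L (dv 𝒳.c.χ (𝒳.c.G u a)) = 𝒳.cl L (dv 𝒳.c.χ (C u)) := by
  obtain ⟨χ₀, hχ⟩ := h.χ.exists_mp
  choose q₀ hq using fun i => (h.q i).exists_mp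
  obtain ⟨a₀, ha₀⟩ := ha.exists_mp
  obtain ⟨u₀, hu₀⟩ := (xc_ovv_C hu).exists_mp
  obtain ⟨ρ₀, hρ₀⟩ := (xc_ovv_C h.ρ).exists_mp
  have hG : mp (algebraMap L Λ) (u₀ + ρ₀ * a₀) = 𝒳.c.G u a := by
    rw [map_add, map_mul, hu₀, hρ₀, ha₀, Cv.G]
  have hi : Function.Injective (algebraMap L Λ) := (algebraMap L Λ).injective
  have key := MR (J := J) (L := L) (φ := algebraMap L Λ) (fun x => x.2) (χ := χ₀)
    (G := u₀ + ρ₀ * a₀) (G' := u₀) (q := q₀) (b := 𝒳.c.b) (δ := 𝒳.c.δ) (m := u.natDegree)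
    (xc_wt hi (hχ ▸ 𝒳.c.wt)) (xc_lead hi (hG ▸ hw.lead)) (xc_lead hi (hu₀ ▸ lead_C hw.monic))
    (by simp only [hχ, hq]; exact 𝒳.on) (by rw [hχ, hG]; exact hw.adm)
    (by rw [hχ, hu₀]; exact Cv.adm_C hw.cop) (by
      simp only [hχ, hq, hG, hu₀]
      rintro Q h0 (h1 | h1)
      · exact 𝒳.ne Q ⟨h0, hw.cvp_rho h1⟩
      · exact 𝒳.ne Q ⟨h0, Cv.cop_iff.1 hw.cop _ (by rwa [ee_C] at h1)⟩)
  simp only [hχ, hq, hG, hu₀] at key
  exact key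

/-- `E = ∑ E(Q) (Q - Q₁)` because the degree is zero -/
theorem Ov.dvs [FiniteDimensional K L] (h : 𝒳.Ov L) {M : ℕ} {Q₁ Q₂ : Λ × Λ}
    (hd : Dvs 𝒳.c L M Q₁ Q₂) (h₁ : Q₁.1 ∈ L) (h₂ : Q₁.2 ∈ L) :
    pc J L (𝒳.pv Q₂) - pc J L (𝒳.pv Q₁) ∈ mulS M (GD J L) := by
  obtain ⟨g₁, -, u, a, E, hw, hu, ha, hE, hd0, he⟩ := hd
  have e := congrArg (𝒳.cl L) he
  rw [map_sub, h.rel hw hu ha, sub_self, map_add, map_sub, cl_single, cl_single, map_nsmul] at e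
  have hE' : 𝒳.cl L E = ∑ Q ∈ E.support, E Q • (pc J L (𝒳.pv Q) - pc J L (𝒳.pv Q₁)) := by
    simp only [zsmul_sub]
    have d0 : ∑ Q ∈ E.support, E Q = 0 := hd0
    have d1 : ∑ Q ∈ E.support, E Q • pc J L (𝒳.pv Q₁) = 0 := by
      have d2 := map_sum (zmultiplesHom _ (pc J L (𝒳.pv Q₁))) E E.support
      rw [d0, map_zero] at d2
      exact d2.symm
    rw [Finset.sum_sub_distrib, d1, sub_zero]
    conv_lhs => rw [← Finsupp.sum_single E, Finsupp.sum, map_sum]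
    refine Finset.sum_congr rfl fun Q _ => ?_
    rw [← cl_single, ← map_zsmul, Finsupp.smul_single, smul_eq_mul, mul_one]
  have hm : 𝒳.cl L E ∈ GD J L := by
    rw [hE']
    refine AddSubgroup.sum_mem _ fun Q hQ => AddSubgroup.zsmul_mem _ ?_ _
    obtain ⟨g, k₁, k₂⟩ := hE Q (Finsupp.mem_support_iff.1 hQ)
    exact AddSubgroup.subset_closure ⟨_, _, h.ptL g k₁ k₂, h.ptL g₁ h₁ h₂, rfl⟩
  refine ⟨-𝒳.cl L E, AddSubgroup.neg_mem _ hm, ?_⟩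
  rw [nsmulAddMonoidHom_apply, neg_nsmul]
  exact neg_eq_of_add_eq_zero_left e.symm

end XC

end Pool.Agent.ZFy.U
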